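import Pool.Agent.TQS.Targets

set_option autoImplicit false
set_option linter.unusedSectionVars false

/-!
# Project TQS: LP2, the linear program is decided by its extreme points
-/

namespace Pool.Agent.TQS

open Finset

namespace LP2_

section
variable {V : Type} [Fintype V] [DecidableEq V]

/-- The polyhedron. -/
def Pol (C : Finset (Finset V)) : Set (V → ℝ) :=
  {x : V → ℝ | (∀ e, 0 ≤ x e) ∧ ∀ S ∈ C, (1 : ℝ) ≤ ∑ e ∈ S, x e}

theorem isClosed_Pol (C : Finset (Finset V)) : IsClosed (Pol C) := by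
  have h1 : IsClosed {x : V → ℝ | ∀ e, 0 ≤ x e} := by
    simp only [Set.ofPred_forall]
    exact isClosed_iInter fun e => isClosed_le continuous_const (continuous_apply e)
  have h2 : IsClosed {x : V → ℝ | ∀ S ∈ C, (1 : ℝ) ≤ ∑ e ∈ S, x e} := by
    simp only [Set.ofPred_forall]
    exact isClosed_iInter fun S => isClosed_iInter fun _ =>
      isClosed_le continuous_const (continuous_finsetSum S fun e _ => continuous_apply e)
  exact h1.inter h2

/-- The objective. -/
def L (w : V → ℝ) (y : V → ℝ) : ℝ := ∑ v, w v * y v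

theorem continuous_L (w : V → ℝ) : Continuous (L w) :=
  continuous_finsetSum _ fun v _ => continuous_const.mul (continuous_apply v)

theorem L_comb (w : V → ℝ) (a b : ℝ) (x y : V → ℝ) :
    L w (a • x + b • y) = a * L w x + b * L w y := by
  unfold L
  rw [Finset.mul_sum, Finset.mul_sum, ← Finset.sum_add_distrib]
  refine Finset.sum_congr rfl fun v _ => ?_
  simp only [Pi.add_apply, Pi.smul_apply, smul_eq_mul]
  ring

/-- A point with natural entries gives a cover. -/
theorem cover_le {C : Finset (Finset V)} {e : V → ℝ} (he : e ∈ Pol C)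
    (hi : ∀ v, ∃ z : ℤ, e v = (z : ℝ)) {w : V → ℝ} (hw : ∀ v, 0 ≤ w v) {s : ℝ}
    (hs : ∀ U, Cov C U → s ≤ ∑ v ∈ U, w v) : s ≤ L w e := by
  classical
  have hz : ∀ v, e v < 1 → e v = 0 := by
    intro v hv
    obtain ⟨z, hz⟩ := hi v
    have h0 := he.1 v
    rw [hz] at hv h0 ⊢
    have h1 : z < 1 := by exact_mod_cast hv
    have h2 : 0 ≤ z := by exact_mod_cast h0
    have h3 : z = 0 := by omega
    rw [h3]
    simp
  have hc : Cov C (Finset.univ.filter fun v => 1 ≤ e v) := by
    intro S hS
    by_contra hne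
    rw [Finset.not_nonempty_iff_eq_empty] at hne
    have h0 : ∑ v ∈ S, e v = 0 := by
      apply Finset.sum_eq_zero
      intro v hv
      apply hz
      by_contra hlt
      have : v ∈ S ∩ Finset.univ.filter fun v => 1 ≤ e v := by
        rw [Finset.mem_inter, Finset.mem_filter]
        exact ⟨hv, Finset.mem_univ v, not_lt.mp hlt⟩
      rw [hne] at this
      exact absurd this (Finset.notMem_empty v)
    have h1 := he.2 S hS
    rw [h0] at h1
    exact absurd h1 (by norm_num)
  refine (hs _ hc).trans ?_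
  unfold L
  rw [Finset.sum_filter]
  refine Finset.sum_le_sum fun v _ => ?_
  split_ifs with h
  · have := mul_le_mul_of_nonneg_left h (hw v)
    rwa [mul_one] at this
  · exact mul_nonneg (hw v) (he.1 v)

/-- The case of positive weights. -/
theorem pos_case {C : Finset (Finset V)}
    (hint : ∀ x ∈ Set.extremePoints ℝ (Pol C), ∀ e, ∃ z : ℤ, x e = (z : ℝ))
    {w : V → ℝ} {s : ℝ} (hw : ∀ v, 0 < w v) (hs : ∀ U, Cov C U → s ≤ ∑ v ∈ U, w v)
    {x : V → ℝ} (hx : x ∈ Pol C) : s ≤ L w x := by
  have hKc : IsCompact {y | y ∈ Pol C ∧ L w y ≤ L w x} := by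
    apply IsCompact.of_isClosed_subset (isCompact_Icc (a := (0 : V → ℝ))
      (b := fun v => L w x / w v))
    · exact (isClosed_Pol C).inter (isClosed_le (continuous_L w) continuous_const)
    · rintro y ⟨hy, hyl⟩
      refine ⟨fun v => hy.1 v, fun v => ?_⟩
      rw [le_div_iff₀ (hw v), mul_comm]
      refine le_trans ?_ hyl
      exact Finset.single_le_sum (f := fun v => w v * y v)
        (fun u _ => mul_nonneg (hw u).le (hy.1 u)) (Finset.mem_univ v)
  obtain ⟨y0, hy0, hmin⟩ := hKc.exists_isMinOn ⟨x, hx, le_rfl⟩ (continuous_L w).continuousOn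
  have hle : ∀ y ∈ Pol C, L w y0 ≤ L w y := by
    intro y hy
    by_cases hc : L w y ≤ L w x
    · exact hmin (show y ∈ {y | y ∈ Pol C ∧ L w y ≤ L w x} from ⟨hy, hc⟩)
    · exact hy0.2.trans (not_le.mp hc).le
  have hMc : IsCompact ({y | y ∈ Pol C ∧ L w y ≤ L w x} ∩ {y | L w y = L w y0}) :=
    hKc.inter_right (isClosed_eq (continuous_L w) continuous_const)
  obtain ⟨e, he⟩ := hMc.extremePoints_nonempty ⟨y0, hy0, rfl⟩
  have heM := he.1
  have heP : e ∈ Set.extremePoints ℝ (Pol C) := by
    refine ⟨heM.1.1, ?_⟩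
    intro x1 h1 x2 h2 hseg
    have hseg' := hseg
    obtain ⟨a, b, ha, hb, hab, hE⟩ := hseg'
    have hLe : a * L w x1 + b * L w x2 = L w y0 := by
      rw [← L_comb, hE]
      exact heM.2
    have l1 := hle x1 h1
    have l2 := hle x2 h2
    have e1 : L w x1 = L w y0 := by
      have hb' : b = 1 - a := by linarith
      apply le_antisymm _ l1
      by_contra hlt
      have hlt' := not_le.mp hlt
      have k1 : a * L w y0 < a * L w x1 := mul_lt_mul_of_pos_left hlt' ha
      have k2 : b * L w y0 ≤ b * L w x2 := mul_le_mul_of_nonneg_left l2 hb.le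
      have k3 : a * L w y0 + b * L w y0 = L w y0 := by rw [← add_mul, hab, one_mul]
      linarith
    have e2 : L w x2 = L w y0 := by
      apply le_antisymm _ l2
      by_contra hlt
      have hlt' := not_le.mp hlt
      have k1 : b * L w y0 < b * L w x2 := mul_lt_mul_of_pos_left hlt' hb
      have k2 : a * L w y0 ≤ a * L w x1 := mul_le_mul_of_nonneg_left l1 ha.le
      have k3 : a * L w y0 + b * L w y0 = L w y0 := by rw [← add_mul, hab, one_mul]
      linarith
    exact he.2 ⟨⟨h1, e1.le.trans hy0.2⟩, e1⟩ ⟨⟨h2, e2.le.trans hy0.2⟩, e2⟩ hseg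
  have h3 := cover_le heM.1.1 (hint e heP) (fun v => (hw v).le) hs
  exact h3.trans heM.1.2

end

end LP2_

open LP2_ in
theorem p_LP2 : T_LP2 := by
  intro V _ _ C hint w s hw hs x hx0 hx1
  have hx : x ∈ Pol C := ⟨hx0, hx1⟩
  apply le_of_forall_pos_le_add
  intro δ hδ
  have hS : 0 ≤ ∑ v, x v := Finset.sum_nonneg fun v _ => hx0 v
  have hε : 0 < δ / (∑ v, x v + 1) := div_pos hδ (by linarith)
  have h := pos_case (C := C) hint (w := fun v => w v + δ / (∑ v, x v + 1)) (s := s)
    (fun v => by have := hw v; linarith)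
    (fun U hU => (hs U hU).trans (Finset.sum_le_sum fun v _ => by linarith)) hx
  have h2 : L (fun v => w v + δ / (∑ v, x v + 1)) x =
      ∑ v, w v * x v + δ / (∑ v, x v + 1) * ∑ v, x v := by
    unfold L
    rw [Finset.mul_sum, ← Finset.sum_add_distrib]
    exact Finset.sum_congr rfl fun v _ => by ring
  have h3 : δ / (∑ v, x v + 1) * ∑ v, x v ≤ δ := by
    rw [div_mul_eq_mul_div, div_le_iff₀ (by linarith)]
    nlinarith
  rw [h2] at h
  linarith

end Pool.Agent.TQS
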