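import Pool.Agent.TQS.MNI4

/-!
# Project TQS: the packing property implies `Frac` if all members have at most three elements

Restriction to the used elements, minors in the form of the frozen statement, induction.
-/

set_option autoImplicit false
set_option linter.unusedSectionVars false

namespace Pool.Agent.TQS

open Finset

namespace MNI_

section
variable {V : Type} [Fintype V] [DecidableEq V]

/-- The trace of a set on `W`. -/
def dn (W : Finset V) (S : Finset V) : Finset {x : V // x ∈ W} := S.subtype (fun x => x ∈ W)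

/-- The image in the larger ground set. -/
def lf (W : Finset V) (R : Finset {x : V // x ∈ W}) : Finset V :=
  R.map (Function.Embedding.subtype _)

theorem mem_dn {W : Finset V} {S : Finset V} {x : {x : V // x ∈ W}} :
    x ∈ dn W S ↔ x.1 ∈ S := by
  unfold dn
  rw [Finset.mem_subtype]

theorem mem_lf {W : Finset V} {R : Finset {x : V // x ∈ W}} {x : V} :
    x ∈ lf W R ↔ ∃ h : x ∈ W, (⟨x, h⟩ : {x : V // x ∈ W}) ∈ R := by
  unfold lf
  rw [Finset.mem_map]
  constructor
  · rintro ⟨y, hy, rfl⟩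
    exact ⟨y.2, hy⟩
  · rintro ⟨h, hR⟩
    exact ⟨_, hR, rfl⟩

theorem lf_dn {W : Finset V} {S : Finset V} (h : S ⊆ W) : lf W (dn W S) = S := by
  ext x
  rw [mem_lf]
  constructor
  · rintro ⟨_, hx⟩
    exact mem_dn.mp hx
  · intro hx
    exact ⟨h hx, mem_dn.mpr hx⟩

theorem sum_dn {R : Type} [AddCommMonoid R] {W : Finset V} {D : Finset (Finset V)}
    (hD : ∀ S ∈ D, S ⊆ W) (F : Finset {x : V // x ∈ W} → R) :
    ∑ T ∈ D.image (dn W), F T = ∑ S ∈ D, F (dn W S) := by
  apply Finset.sum_image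
  intro S hS T hT h
  rw [← lf_dn (hD S hS), ← lf_dn (hD T hT), h]

theorem cmb_dn {R : Type} [AddCommMonoid R] {W : Finset V} {D : Finset (Finset V)}
    (hD : ∀ S ∈ D, S ⊆ W) (y : Finset {x : V // x ∈ W} → R) (x : {x : V // x ∈ W}) :
    cmb (D.image (dn W)) y x = cmb D (fun S => y (dn W S)) x.1 := by
  rw [cmb_apply', cmb_apply', sum_dn hD]
  refine Finset.sum_congr rfl fun S _ => ?_
  by_cases h : x.1 ∈ S
  · rw [if_pos h, if_pos (mem_dn.mpr h)]
  · rw [if_neg h, if_neg (fun h' => h (mem_dn.mp h'))]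

theorem cov_dn {W : Finset V} {D : Finset (Finset V)} (hD : ∀ S ∈ D, S ⊆ W) {U : Finset V}
    (hU : Cov D U) : Cov (D.image (dn W)) (dn W U) := by
  intro R hR
  obtain ⟨S, hS, rfl⟩ := Finset.mem_image.mp hR
  obtain ⟨x, hx⟩ := hU S hS
  rw [Finset.mem_inter] at hx
  exact ⟨⟨x, hD S hS hx.1⟩, Finset.mem_inter.mpr ⟨mem_dn.mpr hx.1, mem_dn.mpr hx.2⟩⟩

theorem cov_lf {W : Finset V} {D : Finset (Finset V)} {U : Finset {x : V // x ∈ W}}
    (hU : Cov (D.image (dn W)) U) : Cov D (lf W U) := by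
  intro S hS
  obtain ⟨x, hx⟩ := hU (dn W S) (Finset.mem_image_of_mem _ hS)
  rw [Finset.mem_inter] at hx
  exact ⟨x.1, Finset.mem_inter.mpr ⟨mem_dn.mp hx.1, mem_lf.mpr ⟨x.2, hx.2⟩⟩⟩

theorem sum_lf {R : Type} [AddCommMonoid R] (W : Finset V) (U : Finset {x : V // x ∈ W})
    (w : V → R) : ∑ x ∈ lf W U, w x = ∑ x ∈ U, w x.1 := by
  unfold lf
  rw [Finset.sum_map]
  rfl

theorem frac_dn {W : Finset V} {D : Finset (Finset V)} (hD : ∀ S ∈ D, S ⊆ W) (h : Frac D) :
    Frac (D.image (dn W)) := by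
  intro w s hw hs hc
  let w1 : V → ℚ := fun x => if hx : x ∈ W then w ⟨x, hx⟩ else 0
  have hw1 : ∀ x : {x : V // x ∈ W}, w1 x.1 = w x := by
    intro x
    simp only [w1]
    rw [dif_pos x.2]
  have hn : ∀ x, 0 ≤ w1 x := by
    intro x
    by_cases hx : x ∈ W
    · have := hw1 ⟨x, hx⟩
      rw [this]
      exact hw _
    · simp only [w1]
      rw [dif_neg hx]
  have hU : ∀ U, Cov D U → s ≤ ∑ x ∈ U, w1 x := by
    intro U hU
    have h1 := hc _ (cov_dn hD hU)
    have h2 : ∑ x ∈ dn W U, w x = ∑ x ∈ lf W (dn W U), w1 x := by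
      rw [sum_lf]
      exact Finset.sum_congr rfl fun x _ => (hw1 x).symm
    rw [h2] at h1
    refine h1.trans (Finset.sum_le_sum_of_subset_of_nonneg ?_ fun x _ _ => hn x)
    intro x hx
    obtain ⟨_, h3⟩ := mem_lf.mp hx
    exact mem_dn.mp h3
  obtain ⟨y, hy0, hys, hyw⟩ := h w1 s hn hs hU
  refine ⟨fun R => y (lf W R), fun R => hy0 _, ?_, ?_⟩
  · rw [sum_dn hD, ← hys]
    refine Finset.sum_congr rfl fun S hS => ?_
    rw [lf_dn (hD S hS)]
  · intro x
    rw [cmb_dn hD, ← hw1 x]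
    refine le_trans (le_of_eq ?_) (hyw x.1)
    refine congrFun (cmb_congr D fun S hS => ?_) x.1
    rw [lf_dn (hD S hS)]

theorem frac_lf {W : Finset V} {D : Finset (Finset V)} (hD : ∀ S ∈ D, S ⊆ W)
    (h : Frac (D.image (dn W))) : Frac D := by
  intro w s hw hs hc
  obtain ⟨y, hy0, hys, hyw⟩ := h (fun x => w x.1) s (fun x => hw x.1) hs (fun U hU => by
    have h1 := hc _ (cov_lf hU)
    rwa [sum_lf] at h1)
  refine ⟨fun S => y (dn W S), fun S => hy0 _, ?_, ?_⟩
  · rw [← hys, sum_dn hD]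
  · intro x
    by_cases hx : x ∈ W
    · have h1 := hyw ⟨x, hx⟩
      rw [cmb_dn hD] at h1
      exact h1
    · have h0 : cmb D (fun S => y (dn W S)) x = 0 := by
        rw [cmb_apply]
        apply Finset.sum_eq_zero
        intro S hS
        rw [Finset.mem_filter] at hS
        exact absurd (hD S hS.1 hS.2) hx
      rw [h0]
      exact hw x

theorem av_dn {W : Finset V} (D : Finset (Finset V)) (x : {x : V // x ∈ W}) :
    av (D.image (dn W)) x = (av D x.1).image (dn W) := by
  ext R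
  rw [mem_av, Finset.mem_image, Finset.mem_image]
  constructor
  · rintro ⟨⟨S, hS, rfl⟩, hx⟩
    exact ⟨S, mem_av.mpr ⟨hS, fun h => hx (mem_dn.mpr h)⟩, rfl⟩
  · rintro ⟨S, hS, rfl⟩
    obtain ⟨h1, h2⟩ := mem_av.mp hS
    exact ⟨⟨S, h1, rfl⟩, fun h => h2 (mem_dn.mp h)⟩

theorem erase_dn {W : Finset V} (D : Finset (Finset V)) (x : {x : V // x ∈ W}) :
    (D.image (dn W)).image (fun S => S.erase x) =
      (D.image fun S => S.erase x.1).image (dn W) := by
  rw [Finset.image_image, Finset.image_image]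
  apply Finset.image_congr
  intro S _
  simp only [Function.comp]
  ext u
  rw [Finset.mem_erase, mem_dn, mem_dn, Finset.mem_erase]
  constructor
  · rintro ⟨h1, h2⟩
    exact ⟨fun h => h1 (Subtype.ext h), h2⟩
  · rintro ⟨h1, h2⟩
    exact ⟨fun h => h1 (congrArg Subtype.val h), h2⟩

theorem card_dn_le (W S : Finset V) : (dn W S).card ≤ S.card := by
  unfold dn
  rw [Finset.card_subtype]
  exact Finset.card_filter_le _ _

theorem packs_dn {W : Finset V} {D : Finset (Finset V)} (hD : ∀ S ∈ D, S ⊆ W) (h : Packs D) :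
    Packs (D.image (dn W)) := by
  obtain ⟨T, hT, P, hP, hPd, hPT⟩ := h
  refine ⟨dn W T, cov_dn hD hT, P.image (dn W), Finset.image_subset_image hP, ?_, ?_⟩
  · intro A hA B hB hAB
    obtain ⟨A', hA', rfl⟩ := Finset.mem_image.mp hA
    obtain ⟨B', hB', rfl⟩ := Finset.mem_image.mp hB
    have h1 : A' ≠ B' := fun h => hAB (by rw [h])
    have h2 := hPd A' hA' B' hB' h1
    rw [Finset.disjoint_left] at h2 ⊢
    intro x hx hx'
    exact h2 (mem_dn.mp hx) (mem_dn.mp hx')
  · rw [Finset.card_image_of_injOn]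
    · exact (card_dn_le W T).trans hPT
    · intro S hS T hT h
      rw [← lf_dn (hD S (hP hS)), ← lf_dn (hD T (hP hT)), h]

/-- `core` for the used elements only. -/
theorem coreW (hR : T_RKG) (hL : T_LP1) {C : Finset (Finset V)} (hcard : ∀ S ∈ C, S.card ≤ 3)
    {W : Finset V} (hW : ∀ S ∈ C, S ⊆ W) (hdel : ∀ v ∈ W, Frac (av C v))
    (hcon : ∀ v ∈ W, Frac (C.image fun S => S.erase v)) (hpk : Packs C) : Frac C := by
  apply frac_lf hW
  apply core hR hL
  · intro R hR'
    obtain ⟨S, hS, rfl⟩ := Finset.mem_image.mp hR'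
    exact (card_dn_le W S).trans (hcard S hS)
  · intro x
    rw [av_dn]
    exact frac_dn (fun S hS => hW S (mem_av.mp hS).1) (hdel x.1 x.2)
  · intro x
    rw [erase_dn]
    apply frac_dn _ (hcon x.1 x.2)
    intro R hR'
    obtain ⟨S, hS, rfl⟩ := Finset.mem_image.mp hR'
    exact (Finset.erase_subset _ _).trans (hW S hS)
  · exact packs_dn hW hpk

/-! ### Minors -/

/-- Delete `I`, contract `J` (all sets, not only the minimal ones). -/
def sub (I J : Finset V) (C : Finset (Finset V)) : Finset (Finset V) :=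
  (C.filter fun S => Disjoint S I).image fun S => S \ J

/-- The minimal sets. -/
def mn (D : Finset (Finset V)) : Finset (Finset V) := D.filter fun A => ∀ B ∈ D, B ⊆ A → B = A

theorem mem_mn {D : Finset (Finset V)} {A : Finset V} :
    A ∈ mn D ↔ A ∈ D ∧ ∀ B ∈ D, B ⊆ A → B = A := by
  unfold mn
  rw [Finset.mem_filter]

theorem mem_sub {I J : Finset V} {C : Finset (Finset V)} {A : Finset V} :
    A ∈ sub I J C ↔ ∃ S ∈ C, Disjoint S I ∧ S \ J = A := by
  unfold sub
  rw [Finset.mem_image]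
  constructor
  · rintro ⟨S, hS, h⟩
    rw [Finset.mem_filter] at hS
    exact ⟨S, hS.1, hS.2, h⟩
  · rintro ⟨S, hS, h1, h2⟩
    exact ⟨S, Finset.mem_filter.mpr ⟨hS, h1⟩, h2⟩

theorem exists_mn {D : Finset (Finset V)} {S : Finset V} (hS : S ∈ D) : ∃ A ∈ mn D, A ⊆ S := by
  obtain ⟨A, hAS, hA⟩ := exists_minimal_le_of_wellFoundedLT (fun A : Finset V => A ∈ D) S hS
  refine ⟨A, mem_mn.mpr ⟨hA.1, fun B hB hBA => ?_⟩, hAS⟩
  exact Finset.Subset.antisymm hBA (hA.2 hB hBA)

/-- The packing property, in the form of the frozen statement. -/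
def PP (C : Finset (Finset V)) : Prop :=
  ∀ I J : Finset V, Disjoint I J →
    ∀ M : Finset (Finset V),
      M = ((C.filter (fun S => Disjoint S I)).image (fun S => S \ J)).filter
            (fun A => ∀ B ∈ (C.filter (fun S => Disjoint S I)).image (fun S => S \ J),
              B ⊆ A → B = A) →
      (∅ ∈ M ∨ ∃ T : Finset V, (∀ S ∈ M, (S ∩ T).Nonempty) ∧
        ∃ P ⊆ M, (∀ A ∈ P, ∀ B ∈ P, A ≠ B → Disjoint A B) ∧ P.card = T.card)

theorem sub_av (I J : Finset V) (v : V) (C : Finset (Finset V)) :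
    sub I J (av C v) = sub (insert v I) (J.erase v) C := by
  ext A
  rw [mem_sub, mem_sub]
  constructor
  · rintro ⟨S, hS, hSI, rfl⟩
    obtain ⟨hSC, hvS⟩ := mem_av.mp hS
    refine ⟨S, hSC, ?_, ?_⟩
    · rw [Finset.disjoint_insert_right]
      exact ⟨hvS, hSI⟩
    · ext u
      rw [Finset.mem_sdiff, Finset.mem_sdiff, Finset.mem_erase]
      constructor
      · rintro ⟨h1, h2⟩
        exact ⟨h1, fun h => h2 ⟨fun hu => hvS (hu ▸ h1), h⟩⟩
      · rintro ⟨h1, h2⟩
        exact ⟨h1, fun h => h2 h.2⟩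
  · rintro ⟨S, hSC, hSI, rfl⟩
    rw [Finset.disjoint_insert_right] at hSI
    refine ⟨S, mem_av.mpr ⟨hSC, hSI.1⟩, hSI.2, ?_⟩
    ext u
    rw [Finset.mem_sdiff, Finset.mem_sdiff, Finset.mem_erase]
    constructor
    · rintro ⟨h1, h2⟩
      exact ⟨h1, fun h => h2 h.2⟩
    · rintro ⟨h1, h2⟩
      exact ⟨h1, fun h => h2 ⟨fun hu => hSI.1 (hu ▸ h1), h⟩⟩

theorem sub_erase (I J : Finset V) (v : V) (C : Finset (Finset V)) :
    sub I J (C.image fun S => S.erase v) = sub (I.erase v) (insert v J) C := by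
  ext A
  rw [mem_sub, mem_sub]
  constructor
  · rintro ⟨R, hR, hRI, rfl⟩
    obtain ⟨S, hS, rfl⟩ := Finset.mem_image.mp hR
    refine ⟨S, hS, ?_, ?_⟩
    · rw [Finset.disjoint_left] at hRI ⊢
      intro u hu hu'
      rw [Finset.mem_erase] at hu'
      exact hRI (Finset.mem_erase.mpr ⟨hu'.1, hu⟩) hu'.2
    · ext u
      simp only [Finset.mem_sdiff, Finset.mem_erase, Finset.mem_insert]
      tauto
  · rintro ⟨S, hS, hSI, rfl⟩
    refine ⟨S.erase v, Finset.mem_image_of_mem _ hS, ?_, ?_⟩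
    · rw [Finset.disjoint_left] at hSI ⊢
      intro u hu hu'
      rw [Finset.mem_erase] at hu
      exact hSI hu.2 (Finset.mem_erase.mpr ⟨hu.1, hu'⟩)
    · ext u
      simp only [Finset.mem_sdiff, Finset.mem_erase, Finset.mem_insert]
      tauto

theorem PP.av {C : Finset (Finset V)} (h : PP C) (v : V) : PP (av C v) := by
  intro I J hIJ M hM
  have hdis : Disjoint (insert v I) (J.erase v) := by
    rw [Finset.disjoint_left] at hIJ ⊢
    intro u hu hu'
    rw [Finset.mem_insert] at hu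
    rw [Finset.mem_erase] at hu'
    rcases hu with hu | hu
    · exact hu'.1 hu
    · exact hIJ hu hu'.2
  apply h (insert v I) (J.erase v) hdis M
  have h1 := sub_av I J v C
  unfold sub at h1
  rw [hM, h1]

theorem PP.erase {C : Finset (Finset V)} (h : PP C) (v : V) :
    PP (C.image fun S => S.erase v) := by
  intro I J hIJ M hM
  have hdis : Disjoint (I.erase v) (insert v J) := by
    rw [Finset.disjoint_left] at hIJ ⊢
    intro u hu hu'
    rw [Finset.mem_erase] at hu
    rw [Finset.mem_insert] at hu'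
    rcases hu' with hu' | hu'
    · exact hu.1 hu'
    · exact hIJ hu.2 hu'
  apply h (I.erase v) (insert v J) hdis M
  have h1 := sub_erase I J v C
  unfold sub at h1
  rw [hM, h1]

/-- `Frac` for a family with the empty member. -/
theorem frac_of_empty {C : Finset (Finset V)} (h : ∅ ∈ C) : Frac C := by
  intro w s hw hs _
  refine ⟨fun S => if S = ∅ then s else 0, fun S => ?_, ?_, fun v => ?_⟩
  · show 0 ≤ (if S = ∅ then s else 0)
    split_ifs
    · exact hs
    · exact le_refl 0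
  · rw [Finset.sum_ite_eq', if_pos h]
  · have h0 : cmb C (fun S => if S = ∅ then s else 0) v = 0 := by
      rw [cmb_apply]
      apply Finset.sum_eq_zero
      intro S hS
      rw [Finset.mem_filter] at hS
      rw [if_neg]
      intro h'
      rw [h'] at hS
      exact absurd hS.2 (Finset.notMem_empty v)
    rw [h0]
    exact hw v

theorem PP.packs {C : Finset (Finset V)} (h : PP C) (hC : ∅ ∉ C) : Packs C := by
  have h1 := h ∅ ∅ (Finset.disjoint_empty_left _) _ rfl
  have h2 : (C.filter (fun S => Disjoint S ∅)).image (fun S => S \ ∅) = C := by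
    ext A
    simp
  rw [h2] at h1
  change ∅ ∈ mn C ∨ ∃ T : Finset V, (∀ S ∈ mn C, (S ∩ T).Nonempty) ∧
        ∃ P ⊆ mn C, (∀ A ∈ P, ∀ B ∈ P, A ≠ B → Disjoint A B) ∧ P.card = T.card at h1
  rcases h1 with h1 | ⟨T, hT, P, hP, hPd, hPT⟩
  · exact absurd (mem_mn.mp h1).1 hC
  · refine ⟨T, fun S hS => ?_, P, fun A hA => (mem_mn.mp (hP hA)).1, hPd, hPT.ge⟩
    obtain ⟨A, hA, hAS⟩ := exists_mn hS
    exact (hT A hA).mono (Finset.inter_subset_inter_right hAS)

/-- The packing property implies `Frac` if all members have at most three elements. -/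
theorem pp_frac (hR : T_RKG) (hL : T_LP1) :
    ∀ (k : ℕ) (C : Finset (Finset V)) (W : Finset V), W.card = k → (∀ S ∈ C, S ⊆ W) →
      (∀ S ∈ C, S.card ≤ 3) → PP C → Frac C := by
  intro k
  induction k using Nat.strong_induction_on with
  | _ k ih =>
    intro C W hWk hW hcard hpp
    by_cases hC : ∅ ∈ C
    · exact frac_of_empty hC
    refine coreW hR hL hcard hW ?_ ?_ (hpp.packs hC)
    · intro v hv
      refine ih (W.erase v).card ?_ (av C v) (W.erase v) rfl ?_ ?_ (hpp.av v)
      · rw [← hWk]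
        exact Finset.card_erase_lt_of_mem hv
      · intro S hS
        obtain ⟨h1, h2⟩ := mem_av.mp hS
        exact Finset.subset_erase.mpr ⟨hW S h1, h2⟩
      · intro S hS
        exact hcard S (mem_av.mp hS).1
    · intro v hv
      refine ih (W.erase v).card ?_ _ (W.erase v) rfl ?_ ?_ (hpp.erase v)
      · rw [← hWk]
        exact Finset.card_erase_lt_of_mem hv
      · intro R hR'
        obtain ⟨S, hS, rfl⟩ := Finset.mem_image.mp hR'
        exact Finset.erase_subset_erase v (hW S hS)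
      · intro R hR'
        obtain ⟨S, hS, rfl⟩ := Finset.mem_image.mp hR'
        exact (Finset.card_le_card (Finset.erase_subset _ _)).trans (hcard S hS)

/-- The packing property excludes `Q_6`. -/
theorem PP.noQ6 (hQ : T_QNP) {C : Finset (Finset V)} (h : PP C) : ¬ HasQ6 C := by
  rintro ⟨a, a', b, b', c, c', hnd, hF⟩
  obtain ⟨X, hX⟩ : ∃ X : Finset V, X = {a, a', b, b', c, c'} := ⟨_, rfl⟩
  obtain ⟨M, hM⟩ : ∃ M : Finset (Finset V),
    M = {{a, b, c}, {a, b', c'}, {a', b, c'}, {a', b', c}} := ⟨_, rfl⟩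
  rw [← hX, ← hM] at hF
  apply (hQ V a a' b b' c c' hnd M hM).2.2
  apply h Xᶜ ∅ (Finset.disjoint_empty_right _) M
  have h1 : (C.filter (fun S => Disjoint S Xᶜ)).image (fun S => S \ ∅) = M := by
    rw [← hF]
    ext A
    simp only [Finset.sdiff_empty, Finset.image_id', Finset.mem_filter]
    rw [disjoint_compl_right_iff]
  rw [h1]
  symm
  rw [Finset.filter_eq_self]
  intro A hA B hB hBA
  have hc3 : ∀ R ∈ M, R.card = 3 := by
    intro R hR
    simp only [List.nodup_cons, List.mem_cons, List.not_mem_nil, or_false, not_or,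
      List.nodup_nil, and_true] at hnd
    obtain ⟨⟨h12, h13, h14, h15, h16⟩, ⟨h23, h24, h25, h26⟩, ⟨h34, h35, h36⟩, ⟨h45, h46⟩,
      h56, -⟩ := hnd
    rw [hM] at hR
    simp only [Finset.mem_insert, Finset.mem_singleton] at hR
    rcases hR with rfl | rfl | rfl | rfl
    · exact Finset.card_eq_three.mpr ⟨a, b, c, h13, h15, h35, rfl⟩
    · exact Finset.card_eq_three.mpr ⟨a, b', c', h14, h16, h46, rfl⟩
    · exact Finset.card_eq_three.mpr ⟨a', b, c', h23, h26, h36, rfl⟩
    · exact Finset.card_eq_three.mpr ⟨a', b', c, h24, h25, h45, rfl⟩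
  exact Finset.eq_of_subset_of_card_le hBA (by rw [hc3 A hA, hc3 B hB])

end

/-- The replication conjecture for families with members of at most three elements. -/
theorem pp_meng (hR : T_RKG) (hL : T_LP1) (hQ : T_QNP) (hI : T_IND) {V : Type} [Fintype V]
    [DecidableEq V] {C : Finset (Finset V)} (hcard : ∀ S ∈ C, S.card ≤ 3) (h : PP C) : Meng C :=
  hI _ V rfl C hcard (pp_frac hR hL _ C univ rfl (fun _ _ => Finset.subset_univ _) hcard h)
    (h.noQ6 hQ)

end MNI_

end Pool.Agent.TQS
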