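import Pool.Agent.TQS.Targets

set_option autoImplicit false

namespace Pool.Agent.TQS

open Finset

theorem p_FRC (h1 : T_LP1) (h2 : T_LP2) : T_FRC := by
  intro V _ _ C hext w s hw hs hcov
  apply h1 V C w s hw hs
  intro x hx hS
  have h := h2 V C hext (fun v => (w v : ℝ)) (s : ℝ)
    (fun v => by exact_mod_cast hw v)
    (fun U hU => by
      have h3 := hcov U hU
      have h4 : ((s : ℚ) : ℝ) ≤ ((∑ v ∈ U, w v : ℚ) : ℝ) := by exact_mod_cast h3
      rw [Rat.cast_sum] at h4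
      exact h4)
    (fun v => (x v : ℝ))
    (fun v => by exact_mod_cast hx v)
    (fun S hSC => by
      have h3 := hS S hSC
      have h4 : ((1 : ℚ) : ℝ) ≤ ((∑ v ∈ S, x v : ℚ) : ℝ) := by exact_mod_cast h3
      rw [Rat.cast_sum, Rat.cast_one] at h4
      exact h4)
  have h5 : ((s : ℚ) : ℝ) ≤ ((∑ v, w v * x v : ℚ) : ℝ) := by
    rw [Rat.cast_sum]
    simpa only [Rat.cast_mul] using h
  exact_mod_cast h5

end Pool.Agent.TQS
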