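import Pool.Agent.TQS.Targets
import Pool.Agent.Lib.FarkasLemma

/-!
# Project TQS: target LP1, duality of linear programming
-/

set_option autoImplicit false

namespace Pool.Agent.TQS

open Finset

namespace LP1_

variable {V : Type} [Fintype V] [DecidableEq V]

/-- the coordinate functional -/
def xf (v : V) : ((V → ℚ) × ℚ) →ₗ[ℚ] ℚ := (LinearMap.proj v).comp (LinearMap.fst ℚ (V → ℚ) ℚ)

theorem xf_apply (v : V) (p : (V → ℚ) × ℚ) : xf v p = p.1 v := rfl

/-- the last coordinate -/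
def lf : ((V → ℚ) × ℚ) →ₗ[ℚ] ℚ := LinearMap.snd ℚ (V → ℚ) ℚ

theorem lf_apply (p : (V → ℚ) × ℚ) : lf p = p.2 := rfl

/-- the functionals of the system -/
def af : V ⊕ (Finset V ⊕ Unit) → ((V → ℚ) × ℚ) →ₗ[ℚ] ℚ
  | Sum.inl v => xf v
  | Sum.inr (Sum.inl S) => (∑ v ∈ S, xf v) - lf
  | Sum.inr (Sum.inr _) => lf

/-- the objective -/
def bf (w : V → ℚ) (s : ℚ) : ((V → ℚ) × ℚ) →ₗ[ℚ] ℚ := (∑ v, w v • xf v) - s • lf

theorem bf_apply (w : V → ℚ) (s : ℚ) (p : (V → ℚ) × ℚ) :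
    bf w s p = ∑ v, w v * p.1 v - s * p.2 := by
  simp [bf, xf_apply, lf_apply]

theorem sf_apply (S : Finset V) (p : (V → ℚ) × ℚ) :
    ((∑ v ∈ S, xf v) - lf : ((V → ℚ) × ℚ) →ₗ[ℚ] ℚ) p = ∑ v ∈ S, p.1 v - p.2 := by
  simp [xf_apply, lf_apply]

theorem exists_y (C : Finset (Finset V)) (w : V → ℚ) (s : ℚ) (hw : ∀ v, 0 ≤ w v)
    (h : ∀ x : V → ℚ, (∀ v, 0 ≤ x v) → (∀ S ∈ C, 1 ≤ ∑ v ∈ S, x v) → s ≤ ∑ v, w v * x v) :
    ∃ (y : Finset V → ℚ) (c : ℚ), (∀ S, 0 ≤ y S) ∧ 0 ≤ c ∧ ∑ S ∈ C, y S = s + c ∧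
      ∀ v, cmb C y v ≤ w v := by
  obtain ⟨c, hc, hb⟩ := Lib.FarkasLemma.farkas
    ((univ : Finset V).disjSum (C.disjSum (univ : Finset Unit))) af (bf w s) (by
      rintro ⟨x, l⟩ hp
      have hx : ∀ v, 0 ≤ x v := fun v => hp (Sum.inl v) (by simp)
      have hl : 0 ≤ l := hp (Sum.inr (Sum.inr ())) (by simp)
      have hS : ∀ S ∈ C, l ≤ ∑ v ∈ S, x v := by
        intro S hS
        have h1 := hp (Sum.inr (Sum.inl S)) (by simpa using hS)
        have h2 : af (Sum.inr (Sum.inl S)) (x, l) = ∑ v ∈ S, x v - l := sf_apply S (x, l)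
        rw [h2] at h1
        linarith
      rw [bf_apply]
      rcases hl.eq_or_lt with h0 | h0
      · rw [← h0, mul_zero, sub_zero]
        exact Finset.sum_nonneg fun v _ => mul_nonneg (hw v) (hx v)
      · have h3 := h (fun v => x v / l) (fun v => div_nonneg (hx v) hl) (by
          intro S hS1
          rw [← Finset.sum_div, le_div_iff₀ h0, one_mul]
          exact hS S hS1)
        have h4 : ∑ v, w v * (x v / l) = (∑ v, w v * x v) / l := by
          rw [Finset.sum_div]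
          exact Finset.sum_congr rfl fun v _ => by ring
        rw [h4, le_div_iff₀ h0] at h3
        show 0 ≤ ∑ v, w v * x v - s * l
        linarith)
  rw [Finset.sum_disjSum, Finset.sum_disjSum] at hb
  refine ⟨fun S => c (Sum.inr (Sum.inl S)), c (Sum.inr (Sum.inr ())), fun S => hc _, hc _,
    ?_, ?_⟩
  · have h1 := congrArg (fun f => f ((0 : V → ℚ), (1 : ℚ))) hb
    simp [bf_apply, af, xf_apply, lf_apply] at h1
    linarith
  · intro v
    have h1 := congrArg (fun f => f ((Pi.single v 1 : V → ℚ), (0 : ℚ))) hb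
    simp [bf_apply, af, xf_apply, lf_apply, Pi.single_apply] at h1
    have h2 : cmb C (fun S => c (Sum.inr (Sum.inl S))) v =
        ∑ x ∈ C, if v ∈ x then c (Sum.inr (Sum.inl x)) else 0 := cmb_apply' _ _ _
    rw [h2, h1]
    have h3 := hc (Sum.inl v)
    linarith

end LP1_

theorem p_LP1 : T_LP1 := by
  intro V _ _ C w s hw hs h
  obtain ⟨y, c, hy, hc, hsum, hle⟩ := LP1_.exists_y C w s hw h
  rcases (add_nonneg hs hc).eq_or_lt with h0 | h0
  · have hs0 : s = 0 := by linarith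
    refine ⟨fun _ => 0, fun _ => le_rfl, by simp [hs0], fun v => ?_⟩
    rw [cmb_zero]
    exact hw v
  · have hr : 0 ≤ s / (s + c) := div_nonneg hs h0.le
    have hr1 : s / (s + c) ≤ 1 := by
      rw [div_le_one h0]
      linarith
    refine ⟨fun S => s / (s + c) * y S, fun S => mul_nonneg hr (hy S), ?_, fun v => ?_⟩
    · rw [← Finset.mul_sum, hsum, div_mul_cancel₀ _ h0.ne']
    · rw [cmb_mul]
      have h1 : 0 ≤ cmb C y v := by
        rw [cmb_apply]
        exact Finset.sum_nonneg fun S _ => hy S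
      calc s / (s + c) * cmb C y v ≤ 1 * cmb C y v := mul_le_mul_of_nonneg_right hr1 h1
        _ = cmb C y v := one_mul _
        _ ≤ w v := hle v

end Pool.Agent.TQS
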