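import Pool.Agent.TQS.Targets

set_option autoImplicit false
set_option linter.unusedSectionVars false

/-!
# Project TQS: target ALP (odd pairs from the lattice)
-/

namespace Pool.Agent.TQS

open Finset

section
variable {V : Type} [Fintype V] [DecidableEq V]

/-- The degree of a padded member over `B` is between `0` and `3`. -/
theorem ALP_bd {C : Finset (Finset V)} {g : V → ℤ} (hg : Pad C g) (B : Finset V) :
    ∃ x : ℤ, 0 ≤ x ∧ x ≤ 3 ∧ nd B g = 3 * x - 3 := by
  obtain ⟨h0, h3, _⟩ := hg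
  refine ⟨∑ v ∈ B, g v, Finset.sum_nonneg fun v _ => h0 v, ?_, ?_⟩
  · rw [← h3]
    exact Finset.sum_le_univ_sum_of_nonneg h0
  · unfold nd
    rw [h3]

/-- The subgroup of vectors congruent to a multiple of `g1` modulo the lattice. -/
def ALP_H (X : Finset (Finset V)) (g1 : V → ℤ) : AddSubgroup (V → ℤ) where
  carrier := {z | ∃ k : ℤ, InL X (z - k • g1)}
  add_mem' := by
    rintro a b ⟨k, hk⟩ ⟨l, hl⟩
    refine ⟨k + l, ?_⟩
    have h := hk.add hl
    have e : a + b - (k + l) • g1 = a - k • g1 + (b - l • g1) := by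
      rw [add_smul]
      abel
    rw [e]
    exact h
  zero_mem' := by
    refine ⟨0, ?_⟩
    simpa using InL.zero X
  neg_mem' := by
    rintro a ⟨k, hk⟩
    refine ⟨-k, ?_⟩
    have e : -a - (-k) • g1 = -(a - k • g1) := by
      rw [neg_smul]
      abel
    rw [e]
    exact hk.neg

theorem ALP_mem {X : Finset (Finset V)} {g1 z : V → ℤ} :
    z ∈ ALP_H X g1 ↔ ∃ k : ℤ, InL X (z - k • g1) := Iff.rfl

theorem ALP_nd_smul (B : Finset V) (k : ℤ) (z : V → ℤ) : nd B (k • z) = k * nd B z := by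
  have h : k • z = fun v => k * z v := rfl
  rw [h, nd_mul]

end

theorem p_ALP (h1 : T_PRP) : T_ALP := by
  intro V _ _ C hC w t Ms hH hF g hg hw
  by_contra hno
  push Not at hno
  obtain ⟨hn1, hn2⟩ := hno
  obtain ⟨hgP, hgn, hgm⟩ := hg
  have hgg : NNg C Ms g g := ⟨hgP, hgn, fun B _ h => h⟩
  -- the vector of lowest level
  obtain ⟨g1, hg1, hlev⟩ : ∃ g1, NNg C Ms g g1 ∧ ∀ g', NNg C Ms g g' →
      (∀ B ∈ Ms, nd B g' = nd B g1) ∨ (∀ B ∈ Ms, nd B g' = 2 * nd B g1) := by
    by_cases hex : ∃ g', NNg C Ms g g' ∧ ∀ B ∈ Ms, nd B g = 2 * nd B g'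
    · obtain ⟨g1, hg1, h2⟩ := hex
      refine ⟨g1, hg1, fun g' hg' => ?_⟩
      rcases h1 V C hC w t Ms hH hF g g' g1 ⟨hgP, hgn, hgm⟩ hg' hg1 with h | h | h
      · exact Or.inl h
      · exact Or.inr h
      · exfalso
        obtain ⟨B, hB, hne⟩ := hgn
        obtain ⟨x, hx0, hx3, hx⟩ := ALP_bd hgP B
        obtain ⟨y, hy0, hy3, hy⟩ := ALP_bd hg'.1 B
        have e1 := h2 B hB
        have e2 := h B hB
        omega
    · push Not at hex
      refine ⟨g, hgg, fun g' hg' => ?_⟩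
      rcases h1 V C hC w t Ms hH hF g g' g ⟨hgP, hgn, hgm⟩ hg' hgg with h | h | h
      · exact Or.inl h
      · exact Or.inr h
      · exfalso
        obtain ⟨B, hB, hne⟩ := hex g' hg'
        exact hne (h B hB)
  -- everything is congruent to a multiple of `g1`
  have hsub : {g' | Pad C g' ∧ ∀ B ∈ Ms.filter (fun B => nd B g = 0), nd B g' = 0} ⊆
      (ALP_H (Em C Ms) g1 : Set (V → ℤ)) := by
    rintro g' ⟨hP, hz⟩
    show g' ∈ ALP_H (Em C Ms) g1
    rw [ALP_mem]
    by_cases hall : ∀ B ∈ Ms, nd B g' = 0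
    · obtain ⟨T, hT, rfl⟩ := hF.np g' hP hall
      refine ⟨0, ?_⟩
      simpa using InL.mem hT
    · push Not at hall
      have hN : NNg C Ms g g' :=
        ⟨hP, hall, fun B hB h0 => hz B (Finset.mem_filter.mpr ⟨hB, h0⟩)⟩
      rcases hlev g' hN with h | h
      · refine ⟨1, ?_⟩
        rw [one_smul]
        exact hn1 g' g1 hN hg1 h
      · refine ⟨2, ?_⟩
        have := hn2 g1 g' hg1 hN h
        have e : (2 : ℤ) • g1 = (2 : ℕ) • g1 := by
          rw [two_smul, two_smul]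
        rw [e]
        exact this
  have hwH : w ∈ ALP_H (Em C Ms) g1 := (AddSubgroup.closure_le _).mpr hsub hw
  obtain ⟨k, hk⟩ := hwH
  obtain ⟨_, ⟨B, hB, hne⟩, _⟩ := hg1
  have hw0 : nd B w = 0 := by
    have h := hF.tig B hB
    unfold nd
    rw [h.2, hH.tot]
    ring
  have h0 := nd_InL hk hB
  rw [nd_sub, hw0, ALP_nd_smul] at h0
  have hk0 : k = 0 := by
    have : k * nd B g1 = 0 := by linarith
    rcases mul_eq_zero.mp this with h | h
    · exact h
    · exact absurd h hne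
  subst hk0
  apply hF.notL
  simpa using hk

end Pool.Agent.TQS
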