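import Pool.Agent.TQS.Targets

set_option autoImplicit false
set_option linter.unusedSectionVars false

/-!
# Project TQS, target BET: odd pairs from a small member
-/

namespace Pool.Agent.TQS

open Finset

namespace BET_

section
variable {V : Type} [Fintype V] [DecidableEq V]

theorem ind_nonneg (S : Finset V) (v : V) : 0 ≤ ind S v := by
  unfold ind
  split_ifs <;> norm_num

theorem un_nonneg (a v : V) : 0 ≤ un a v := by
  unfold un
  split_ifs <;> norm_num

theorem ind_mem {S : Finset V} {v : V} (h : v ∈ S) : ind S v = 1 := by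
  unfold ind
  rw [if_pos h]

theorem mem_of_ind {S : Finset V} {v : V} (h : 1 ≤ ind S v) : v ∈ S := by
  by_contra hv
  unfold ind at h
  rw [if_neg hv] at h
  norm_num at h

/-- a minimal element below `u` -/
theorem exists_min (Ms : Finset (Finset V)) (u : V) : ∃ a, (∀ B ∈ Ms, a ∈ B → u ∈ B) ∧
    ∀ x, (∀ B ∈ Ms, x ∈ B → a ∈ B) → ∀ B ∈ Ms, a ∈ B → x ∈ B := by
  have hne : (univ.filter fun a : V => ∀ B ∈ Ms, a ∈ B → u ∈ B).Nonempty :=
    ⟨u, by rw [mem_filter]; exact ⟨mem_univ _, fun B _ h => h⟩⟩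
  obtain ⟨a, ha, hmin⟩ := Finset.exists_min_image _
    (fun a : V => (Ms.filter fun B => a ∈ B).card) hne
  rw [mem_filter] at ha
  refine ⟨a, ha.2, fun x hx B hB haB => ?_⟩
  have hx' := hmin x (by
    rw [mem_filter]
    exact ⟨mem_univ _, fun B hB h => ha.2 B hB (hx B hB h)⟩)
  have hsub : (Ms.filter fun B => x ∈ B) ⊆ Ms.filter fun B => a ∈ B := by
    intro D hD
    rw [mem_filter] at hD ⊢
    exact ⟨hD.1, hx D hD.1 hD.2⟩
  have heq := Finset.eq_of_subset_of_card_le hsub hx'
  have hmem : B ∈ Ms.filter fun B => x ∈ B := by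
    rw [heq, mem_filter]
    exact ⟨hB, haB⟩
  exact (mem_filter.mp hmem).2

/-- the vector `ind S + k un a + l un b` -/
def vec (S : Finset V) (k l : ℤ) (a b : V) : V → ℤ :=
  ind S + (fun v => k * un a v) + fun v => l * un b v

theorem nd_vec (U S : Finset V) (k l : ℤ) (a b : V) : nd U (vec S k l a b) =
    3 * ((S ∩ U).card : ℤ) - S.card + k * (3 * (if a ∈ U then 1 else 0) - 1) +
      l * (3 * (if b ∈ U then 1 else 0) - 1) := by
  unfold vec
  rw [nd_add, nd_add, nd_ind, nd_mul, nd_mul, nd_un, nd_un]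

theorem pad_vec {C : Finset (Finset V)} {S : Finset V} (hS : S ∈ C) {k l : ℤ} (hk : 0 ≤ k)
    (hl : 0 ≤ l) (h : (S.card : ℤ) + k + l = 3) (a b : V) : Pad C (vec S k l a b) := by
  refine ⟨fun v => ?_, ?_, S, hS, fun v hv => ?_⟩
  · have h1 := ind_nonneg S v
    have h2 := mul_nonneg hk (un_nonneg a v)
    have h3 := mul_nonneg hl (un_nonneg b v)
    show 0 ≤ ind S v + k * un a v + l * un b v
    linarith
  · have : ∑ v, vec S k l a b v = ∑ v, (ind S v + k * un a v + l * un b v) := rfl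
    rw [this, Finset.sum_add_distrib, Finset.sum_add_distrib, ← Finset.mul_sum,
      ← Finset.mul_sum, sum_ind_univ, sum_un_univ, sum_un_univ]
    linarith
  · have h1 := ind_mem hv
    have h2 := mul_nonneg hk (un_nonneg a v)
    have h3 := mul_nonneg hl (un_nonneg b v)
    show 1 ≤ ind S v + k * un a v + l * un b v
    linarith

/-- a small member with degree three vector above it is not in the face -/
theorem not_face {C : Finset (Finset V)} (hM : MinC C) {w : V → ℤ} {t : ℤ}
    {Ms : Finset (Finset V)} (hF : Fac C w t Ms) {S : Finset V} (hS : S ∈ C) (hS2 : S.card ≤ 2)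
    {g : V → ℤ} (hg : Pad C g) (h1 : ∀ v ∈ S, 1 ≤ g v) : ∃ B ∈ Ms, nd B g ≠ 0 := by
  by_contra hcon
  push Not at hcon
  obtain ⟨T, hT, rfl⟩ := hF.np g hg hcon
  rw [mem_Em] at hT
  have hsub : S ⊆ T := fun v hv => mem_of_ind (h1 v hv)
  have := hM.anti S hS T hT.1 hsub
  rw [this] at hS2
  omega

end

end BET_

open BET_ in
theorem p_BET : T_BET := by
  intro V _ _ C hM w t Ms hF V2 G G' hD g hg hex
  obtain ⟨g', ⟨h0, h3, S, hS, hS2, hSg⟩, hB0⟩ := hex
  have hle : ∀ v, ind S v ≤ g' v := by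
    intro v
    by_cases hv : v ∈ S
    · rw [ind_mem hv]
      exact hSg v hv
    · unfold ind
      rw [if_neg hv]
      exact h0 v
  -- an element with slack
  obtain ⟨u, hu⟩ : ∃ u, ind S u < g' u := by
    by_contra hcon
    push Not at hcon
    have h1 : ∑ v, g' v ≤ ∑ v, ind S v := Finset.sum_le_sum fun v _ => hcon v
    rw [h3, sum_ind_univ] at h1
    have : S.card ≤ 2 := hS2
    omega
  have hkey : ∀ B ∈ Ms, nd B g = 0 → (S ∩ B).card = 1 ∧ u ∉ B := by
    intro B hB hBg
    have hz := hB0 B (by rw [mem_filter]; exact ⟨hB, hBg⟩)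
    unfold nd at hz
    rw [h3] at hz
    have hone : ∑ v ∈ B, g' v = 1 := by linarith
    have hcov : (S ∩ B).Nonempty := (hF.tig B hB).1 S hS
    have hpos : 1 ≤ (S ∩ B).card := Finset.card_pos.mpr hcov
    have hsum : ((S ∩ B).card : ℤ) = ∑ v ∈ B, ind S v := (sum_ind S B).symm
    have hub : u ∉ B := by
      intro huB
      have : ∑ v ∈ B, ind S v < ∑ v ∈ B, g' v :=
        Finset.sum_lt_sum (fun v _ => hle v) ⟨u, huB, hu⟩
      omega
    have hle' : ∑ v ∈ B, ind S v ≤ ∑ v ∈ B, g' v := Finset.sum_le_sum fun v _ => hle v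
    exact ⟨by omega, hub⟩
  obtain ⟨a, hau, hamin⟩ := exists_min Ms u
  obtain ⟨b, hba, hbB, hodd⟩ := hD.odd a hamin
  have hk2 : (0 : ℤ) ≤ 2 - S.card := by omega
  have hP0 : Pad C (vec S (3 - S.card) 0 a b) :=
    pad_vec hS (by linarith) le_rfl (by ring) a b
  have hP1 : Pad C (vec S (2 - S.card) 1 a b) :=
    pad_vec hS hk2 (by norm_num) (by ring) a b
  have heq : ∀ B ∈ Ms, nd B (vec S (3 - S.card) 0 a b) = nd B (vec S (2 - S.card) 1 a b) := by
    intro B hB
    rw [nd_vec, nd_vec]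
    have := hbB B hB
    by_cases haB : a ∈ B
    · rw [if_pos haB, if_pos (this.mpr haB)]
      ring
    · rw [if_neg haB, if_neg (fun h => haB (this.mp h))]
      ring
  have hz0 : ∀ B ∈ Ms, nd B g = 0 → nd B (vec S (3 - S.card) 0 a b) = 0 := by
    intro B hB hBg
    obtain ⟨hc, hub⟩ := hkey B hB hBg
    have haB : a ∉ B := fun h => hub (hau B hB h)
    rw [nd_vec, hc, if_neg haB]
    push_cast
    ring
  have hge : ∀ (k l : ℤ), 0 ≤ k → 0 ≤ l → ∀ v ∈ S, 1 ≤ vec S k l a b v := by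
    intro k l hk hl v hv
    have h1 := ind_mem hv
    have h2 := mul_nonneg hk (un_nonneg a v)
    have h3 := mul_nonneg hl (un_nonneg b v)
    show 1 ≤ ind S v + k * un a v + l * un b v
    linarith
  refine ⟨vec S (3 - S.card) 0 a b, vec S (2 - S.card) 1 a b,
    ⟨hP0, not_face hM hF hS hS2 hP0 (hge _ _ (by linarith) le_rfl), hz0⟩,
    ⟨hP1, not_face hM hF hS hS2 hP1 (hge _ _ hk2 (by norm_num)), fun B hB hBg => ?_⟩, heq, ?_⟩
  · rw [← heq B hB]
    exact hz0 B hB hBg
  · have : vec S (3 - S.card) 0 a b - vec S (2 - S.card) 1 a b = un a - un b := by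
      funext v
      show (ind S v + (3 - S.card) * un a v + 0 * un b v) -
        (ind S v + (2 - S.card) * un a v + 1 * un b v) = un a v - un b v
      ring
    rw [this]
    exact hodd

end Pool.Agent.TQS
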