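import Pool.Agent.TQS.Targets

set_option autoImplicit false
set_option linter.unusedSectionVars false

namespace Pool.Agent.TQS

open Finset

section
variable {V : Type} [Fintype V] [DecidableEq V]

/-- Below every element there is a minimal one. -/
theorem BIG_min (Ms : Finset (Finset V)) (u : V) :
    ∃ a, (∀ B ∈ Ms, a ∈ B → u ∈ B) ∧
      ∀ x, (∀ B ∈ Ms, x ∈ B → a ∈ B) → ∀ B ∈ Ms, a ∈ B → x ∈ B := by
  have hne : (Finset.univ.filter fun a : V => ∀ B ∈ Ms, a ∈ B → u ∈ B).Nonempty :=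
    ⟨u, by simp⟩
  obtain ⟨a, ha, hmin⟩ := Finset.exists_min_image
    (Finset.univ.filter fun a : V => ∀ B ∈ Ms, a ∈ B → u ∈ B)
    (fun a => (Ms.filter fun B => a ∈ B).card) hne
  have ha' : ∀ B ∈ Ms, a ∈ B → u ∈ B := (Finset.mem_filter.mp ha).2
  refine ⟨a, ha', fun x hx => ?_⟩
  have hsub : (Ms.filter fun B => x ∈ B) ⊆ Ms.filter fun B => a ∈ B := by
    intro B hB
    rw [Finset.mem_filter] at hB ⊢
    exact ⟨hB.1, hx B hB.1 hB.2⟩
  have hx' : x ∈ Finset.univ.filter fun a : V => ∀ B ∈ Ms, a ∈ B → u ∈ B := by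
    rw [Finset.mem_filter]
    exact ⟨Finset.mem_univ _, fun B hB h => ha' B hB (hx B hB h)⟩
  have heq := Finset.eq_of_subset_of_card_le hsub (hmin x hx')
  intro B hB haB
  have h1 : B ∈ Ms.filter fun B => a ∈ B := Finset.mem_filter.mpr ⟨hB, haB⟩
  rw [← heq] at h1
  exact (Finset.mem_filter.mp h1).2

end

theorem p_BIG (h1 : T_RPA) (h2 : T_NN) (h3 : T_SGT) : T_BIG := by
  intro V _ _ C hC w t Ms hH hF V2 G G' hD
  by_contra hcon
  have h8 : 8 ≤ V2.card := by omega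
  have key : ∀ u : V, rr V2 G G' u ≤ 2 := by
    intro u
    obtain ⟨a, hau, hmin⟩ := BIG_min Ms u
    obtain ⟨b, hba, hb, hnL⟩ := hD.odd a hmin
    have hra : rr V2 G G' a ≤ 2 := h1 V C w Ms V2 G G' hD a b hba hb hnL
    have hnn : ∀ B ∈ Ms, (0 : ℚ) ≤ nd B (fun v => (((un u - un a : V → ℤ) v : ℤ) : ℚ)) := by
      intro B hB
      rw [nd_cast, nd_un_sub]
      have := hau B hB
      by_cases haB : a ∈ B
      · rw [if_pos haB, if_pos (this haB)]
        simp
      · rw [if_neg haB]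
        split_ifs <;> norm_num
    have hN := h2 V C hC w t Ms hH hF V2 G G' hD h8 _ hnn
    have e1 : ∑ v, (((un u - un a : V → ℤ) v : ℤ) : ℚ) = 0 := by
      have : ∑ v, (un u - un a : V → ℤ) v = 0 := by
        simp only [Pi.sub_apply, Finset.sum_sub_distrib, sum_un_univ, sub_self]
      exact_mod_cast this
    have e2 : ∑ v, (rr V2 G G' v : ℚ) * (((un u - un a : V → ℤ) v : ℤ) : ℚ) =
        ((rr V2 G G' u - rr V2 G G' a : ℤ) : ℚ) := by
      have : ∑ v, rr V2 G G' v * (un u - un a : V → ℤ) v = rr V2 G G' u - rr V2 G G' a := by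
        simp only [Pi.sub_apply, mul_sub, Finset.sum_sub_distrib, un, mul_ite, mul_one, mul_zero,
          Finset.sum_ite_eq', Finset.mem_univ, if_true]
      exact_mod_cast this
    rw [e1, e2, mul_zero] at hN
    have h4 : (3 * (rr V2 G G' u - rr V2 G G' a) : ℤ) ≤ 0 := by exact_mod_cast hN
    omega
  have hne : V2.Nonempty := Finset.card_pos.mp (by omega)
  obtain ⟨v0, hv0⟩ := hne
  obtain ⟨T, hT, -⟩ := hD.cov v0
  have hc : T.card = 3 := (mem_Em.mp hT).2.1
  have h5 : ∑ u ∈ T, rr V2 G G' u = (V2.card : ℤ) := by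
    unfold rr
    rw [Finset.sum_comm]
    have : ∀ v ∈ V2, ∑ u ∈ T, sg G G' v u = 1 := fun v hv => (h3 V C w Ms V2 G G' hD v hv).1 T hT
    rw [Finset.sum_congr rfl this]
    simp
  have h6 : ∑ u ∈ T, rr V2 G G' u ≤ ∑ u ∈ T, (2 : ℤ) := Finset.sum_le_sum fun u _ => key u
  rw [h5, Finset.sum_const, hc] at h6
  simp at h6
  omega

end Pool.Agent.TQS
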