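import Pool.Agent.TQS.Targets

set_option autoImplicit false
set_option linter.unusedSectionVars false

/-!
# Project TQS: CL, classes with two elements of `V2`
-/

namespace Pool.Agent.TQS

open Finset

namespace CL_

lemma ndz {V : Type} [Fintype V] [DecidableEq V] (B : Finset V) (x y : V)
    (h : x ∈ B ↔ y ∈ B) : nd B (un x - un y) = 0 := by
  rw [nd_un_sub]
  by_cases hx : x ∈ B
  · rw [if_pos hx, if_pos (h.1 hx)]
    ring
  · rw [if_neg hx, if_neg fun hy => hx (h.2 hy)]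
    ring

end CL_

open CL_ in
theorem p_CL (h1 : T_EQO) : T_CL := by
  intro V _ _ C w Ms V2 G G' hD v hv v' hv' hne hcl a ha
  by_contra hcon
  push Not at hcon
  have ha' : ∀ B ∈ Ms, a ∈ B ↔ v' ∈ B := fun B hB => (ha B hB).trans (hcl B hB)
  have hcl' : ∀ B ∈ Ms, v' ∈ B ↔ v ∈ B := fun B hB => (hcl B hB).symm
  have n1 := (h1 V C w Ms V2 G G' hD v hv a hcon.1 ha).2.2
  have n2 := (h1 V C w Ms V2 G G' hD v' hv' a hcon.2 ha').2.2
  have n3 := (h1 V C w Ms V2 G G' hD v hv v' hne.symm hcl').2.2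
  have z1 : ∀ B ∈ Ms, nd B (un a - un v) = 0 := fun B hB => ndz B a v (ha B hB)
  have z2 : ∀ B ∈ Ms, nd B (un a - un v') = 0 := fun B hB => ndz B a v' (ha' B hB)
  have z3 : ∀ B ∈ Ms, nd B (un v' - un v) = 0 := fun B hB => ndz B v' v (hcl' B hB)
  rw [hD.gpar v hv _ z1, Int.not_even_iff_odd] at n1
  rw [hD.gpar v hv _ z2, Int.not_even_iff_odd] at n2
  rw [hD.gpar v hv _ z3, Int.not_even_iff_odd] at n3
  have e : (un v' - un v : V → ℤ) = (un a - un v) - (un a - un v') := by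
    rw [sub_sub_sub_cancel_left]
  rw [e, nd_sub] at n3
  obtain ⟨x, hx⟩ := n1
  obtain ⟨y, hy⟩ := n2
  obtain ⟨z, hz⟩ := n3
  omega

end Pool.Agent.TQS
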