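import Pool.Agent.TQS.Targets

set_option autoImplicit false

/-! # TQS: the counting bound CNT -/

namespace Pool.Agent.TQS

open Finset

/-- CNT: `|V| rk X ≤ ∑ rk (av X v) + 3 rk X`. -/
theorem p_CNT : T_CNT := by
  intro V _ _ X hX
  classical
  obtain ⟨κ, a, ha, hspan, hind⟩ :=
    exists_linearIndependent' ℚ (fun S : {S // S ∈ X} => indq S.1)
  have : Finite κ := Finite.of_injective a ha
  have : Fintype κ := Fintype.ofFinite κ
  have hrange : Set.range (fun S : {S // S ∈ X} => indq S.1) =
      indq '' (X : Set (Finset V)) := by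
    ext z
    constructor
    · rintro ⟨S, rfl⟩
      exact ⟨S.1, S.2, rfl⟩
    · rintro ⟨S, hS, rfl⟩
      exact ⟨⟨S, hS⟩, rfl⟩
  have hcard : rk X = Fintype.card κ := by
    unfold rk
    rw [← hrange, ← hspan]
    exact finrank_span_eq_card hind
  -- for every `v`
  have hv : ∀ v : V, (univ.filter (fun k : κ => v ∉ (a k).1)).card ≤ rk (av X v) := by
    intro v
    have h1 : LinearIndependent ℚ
        (fun k : {k : κ // v ∉ (a k).1} =>
          ((fun S : {S // S ∈ X} => indq S.1) ∘ a) k.1) :=
      hind.comp _ Subtype.val_injective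
    have h2 := finrank_span_eq_card h1
    rw [Fintype.card_subtype] at h2
    rw [← h2]
    unfold rk
    apply Submodule.finrank_mono
    apply Submodule.span_mono
    rintro z ⟨k, rfl⟩
    refine ⟨(a k.1).1, ?_, rfl⟩
    have := mem_av.mpr ⟨(a k.1).2, k.2⟩
    exact_mod_cast this
  have hsum : ∑ v : V, (univ.filter (fun k : κ => v ∈ (a k).1)).card = 3 * Fintype.card κ := by
    have h1 : ∀ v : V, (univ.filter (fun k : κ => v ∈ (a k).1)).card =
        ∑ k : κ, if v ∈ (a k).1 then 1 else 0 := by
      intro v
      rw [Finset.card_filter]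
    rw [Finset.sum_congr rfl fun v _ => h1 v, Finset.sum_comm]
    have h2 : ∀ k : κ, (∑ v : V, if v ∈ (a k).1 then 1 else 0) = 3 := by
      intro k
      rw [← Finset.card_filter]
      rw [← hX (a k).1 (a k).2]
      congr 1
      ext v
      simp
    rw [Finset.sum_congr rfl fun k _ => h2 k]
    rw [Finset.sum_const, Finset.card_univ, smul_eq_mul, Nat.mul_comm]
  have hsplit : ∀ v : V, Fintype.card κ = (univ.filter (fun k : κ => v ∉ (a k).1)).card +
      (univ.filter (fun k : κ => v ∈ (a k).1)).card := by
    intro v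
    rw [← Finset.card_univ, Nat.add_comm]
    exact (Finset.card_filter_add_card_filter_not (s := (univ : Finset κ))
      (fun k : κ => v ∈ (a k).1)).symm
  calc Fintype.card V * rk X = ∑ _v : V, Fintype.card κ := by
        rw [Finset.sum_const, Finset.card_univ, smul_eq_mul, hcard]
    _ = ∑ v : V, ((univ.filter (fun k : κ => v ∉ (a k).1)).card +
          (univ.filter (fun k : κ => v ∈ (a k).1)).card) :=
        Finset.sum_congr rfl fun v _ => hsplit v
    _ = ∑ v : V, (univ.filter (fun k : κ => v ∉ (a k).1)).card + 3 * rk X := by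
        rw [Finset.sum_add_distrib, hsum, hcard]
    _ ≤ ∑ v : V, rk (av X v) + 3 * rk X :=
        Nat.add_le_add_right (Finset.sum_le_sum fun v _ => hv v) _

end Pool.Agent.TQS
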