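import Pool.Agent.TQS.Targets

set_option autoImplicit false
set_option linter.unusedSectionVars false

/-!
# Project TQS: target CON
-/

namespace Pool.Agent.TQS

open Finset

namespace CON_

variable {V : Type} [Fintype V] [DecidableEq V]

/-- a small member together with an element outside of all covers of the face is impossible -/
theorem no_small {C : Finset (Finset V)} (hM : MinC C) {w : V → ℤ} {t : ℤ}
    {Ms : Finset (Finset V)} (hF : Fac C w t Ms) {S : Finset V} (hS : S ∈ C)
    (h1 : ∀ B ∈ Ms, (S ∩ B).card = 1) (h2 : S.card ≤ 2) {u : V} (hu : ∀ B ∈ Ms, u ∉ B) :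
    False := by
  have hg : Pad C (ind S + fun v => (3 - (S.card : ℤ)) * un u v) := by
    refine ⟨fun v => ?_, ?_, S, hS, fun v hv => ?_⟩
    · simp only [Pi.add_apply, ind, un]
      split_ifs <;> simp <;> omega
    · simp only [Pi.add_apply, Finset.sum_add_distrib, ← Finset.mul_sum, sum_ind_univ,
        sum_un_univ]
      ring
    · simp only [Pi.add_apply, ind, un, if_pos hv]
      split_ifs <;> simp
      omega
  obtain ⟨T, hT, hgT⟩ := hF.np _ hg fun B hB => by
    rw [nd_add, nd_mul, nd_ind, nd_un, if_neg (hu B hB), h1 B hB]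
    push_cast
    ring
  obtain ⟨hTC, hT3, _⟩ := mem_Em.mp hT
  have hST : S ⊆ T := by
    intro v hv
    by_contra hvT
    have h3 := congrFun hgT v
    simp only [Pi.add_apply, ind, un, if_pos hv, if_neg hvT] at h3
    split_ifs at h3 <;> omega
  have h4 := hM.anti S hS T hTC hST
  rw [h4, hT3] at h2
  omega

end CON_

open CON_ in
theorem p_CON : T_CON := by
  intro V _ _ C hM w t Ms hF z hz hcov htig
  have hs : ∀ U, Cov C U → (∑ v, z v) / 3 ≤ ∑ v ∈ U, z v := by
    intro U hU
    have h := hcov U hU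
    unfold nd at h
    linarith
  obtain ⟨y, hy0, hys, hyz⟩ := hM.frac z ((∑ v, z v) / 3) hz
    (div_nonneg (Finset.sum_nonneg fun v _ => hz v) (by norm_num)) hs
  -- the covers of the face
  have hB : ∀ B ∈ Ms, (∀ S ∈ C, y S ≠ 0 → (S ∩ B).card = 1) ∧ ∀ v ∈ B, cmb C y v = z v := by
    intro B hBm
    have hBc : Cov C B := (hF.tig B hBm).1
    have hBz : ∑ v ∈ B, z v = (∑ v, z v) / 3 := by
      have h := htig B hBm
      unfold nd at h
      linarith
    have h4 : ∑ v ∈ B, cmb C y v ≤ ∑ v ∈ B, z v := Finset.sum_le_sum fun v _ => hyz v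
    have h5 : ∀ T ∈ C, y T ≤ y T * ((T ∩ B).card : ℚ) := by
      intro T hT
      have h6 : (1 : ℚ) ≤ ((T ∩ B).card : ℚ) := by
        exact_mod_cast Finset.card_pos.mpr (hBc T hT)
      nlinarith [hy0 T]
    have h8 : ∑ T ∈ C, y T ≤ ∑ T ∈ C, y T * ((T ∩ B).card : ℚ) := Finset.sum_le_sum h5
    rw [← sum_cmb] at h8
    constructor
    · intro S hSC hyS
      have h7 : ∑ T ∈ C, y T = ∑ T ∈ C, y T * ((T ∩ B).card : ℚ) := by
        rw [← sum_cmb]
        linarith
      have h9 := (Finset.sum_eq_sum_iff_of_le h5).mp h7 S hSC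
      have h10 : y S * (((S ∩ B).card : ℚ) - 1) = 0 := by linarith
      rcases mul_eq_zero.mp h10 with h | h
      · exact absurd h hyS
      · have h11 : ((S ∩ B).card : ℚ) = 1 := by linarith
        exact_mod_cast h11
    · have h7 : ∑ v ∈ B, cmb C y v = ∑ v ∈ B, z v := by linarith
      exact (Finset.sum_eq_sum_iff_of_le fun v _ => hyz v).mp h7
  -- members used have three elements
  have h3 : ∀ S ∈ C, y S ≠ 0 → S.card = 3 := by
    intro S hSC hyS
    by_contra hne
    have hle : S.card ≤ 2 := by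
      have := hM.card_le S hSC
      omega
    have h4 : ∑ v, cmb C y v < ∑ v, z v := by
      have h5 : ∑ v, z v = ∑ T ∈ C, y T * 3 := by
        rw [← Finset.sum_mul, hys]
        ring
      rw [h5, sum_cmb_univ]
      apply Finset.sum_lt_sum
      · intro T hT
        have h6 : (T.card : ℚ) ≤ 3 := by exact_mod_cast hM.card_le T hT
        nlinarith [hy0 T]
      · refine ⟨S, hSC, ?_⟩
        have h6 : (S.card : ℚ) ≤ 2 := by exact_mod_cast hle
        have h7 : 0 < y S := lt_of_le_of_ne (hy0 S) (Ne.symm hyS)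
        nlinarith
    obtain ⟨u, _, hu⟩ := Finset.exists_lt_of_sum_lt h4
    refine no_small hM hF hSC (fun B hBm => (hB B hBm).1 S hSC hyS) hle (u := u) ?_
    intro B hBm huB
    exact absurd ((hB B hBm).2 u huB) hu.ne
  -- so `z` is the combination
  have h2 : ∀ v, cmb C y v = z v := by
    have h4 : ∑ v, cmb C y v = ∑ v, z v := by
      have h5 : ∑ v, z v = ∑ T ∈ C, y T * 3 := by
        rw [← Finset.sum_mul, hys]
        ring
      rw [h5, sum_cmb_univ]
      refine Finset.sum_congr rfl fun S hSC => ?_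
      by_cases hyS : y S = 0
      · simp [hyS]
      · rw [h3 S hSC hyS]
        norm_num
    intro v
    exact (Finset.sum_eq_sum_iff_of_le fun v _ => hyz v).mp h4 v (Finset.mem_univ v)
  refine ⟨y, hy0, ?_⟩
  have h5 : Em C Ms ⊆ C := fun S hS => (mem_Em.mp hS).1
  rw [← cmb_subset h5 y]
  · funext v
    exact (h2 v).symm
  · intro S hSC hSE
    by_contra hyS
    exact hSE (mem_Em.mpr ⟨hSC, h3 S hSC hyS, fun B hBm => (hB B hBm).1 S hSC hyS⟩)

end Pool.Agent.TQS
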