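import Pool.Agent.TQS.Targets

set_option autoImplicit false

/-!
# Project TQS: target CORE
-/

namespace Pool.Agent.TQS

open Finset

theorem p_CORE (h1 : T_SLH) (h2 : T_FEX) (h3 : T_DTA) (h4 : T_MNE) (h5 : T_PAR) (h6 : T_ONE)
    (h7 : T_TWO) : T_CORE := by
  intro V _ _ C hC
  obtain ⟨w, t, hH⟩ := h1 V C hC
  obtain ⟨Ms, hF⟩ := h2 V C hC w t hH
  obtain ⟨V2, G, G', hD⟩ := h3 V C hC w t Ms hH hF
  obtain ⟨hne, _⟩ := h4 V C hC w t Ms hF
  have hV : Nonempty V := by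
    by_contra hV
    rw [not_nonempty_iff] at hV
    apply hH.notM
    refine ⟨fun _ => 0, fun S hS => absurd rfl hS, fun v => (hV.false v).elim⟩
  by_cases hB : 3 ≤ Ms.card
  · obtain ⟨B1, B2, B3, m1, m2, m3, n12, n13, n23⟩ := Finset.two_lt_card_iff.mp hB
    exact h5 V C hC w t Ms hH hF V2 G G' hD B1 m1 B2 m2 B3 m3 n12 n13 n23
  · exfalso
    have hpos : 0 < Ms.card := Finset.card_pos.mpr hne
    have hc : Ms.card = 1 ∨ Ms.card = 2 := by omega
    rcases hc with hc | hc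
    · obtain ⟨B, rfl⟩ := Finset.card_eq_one.mp hc
      exact h6 V C w B V2 G G' hV hD
    · obtain ⟨B1, B2, hn, rfl⟩ := Finset.card_eq_two.mp hc
      exact h7 V C hC w t B1 B2 hF hn V2 G G' hD

end Pool.Agent.TQS
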