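import Pool.Agent.TQS.Targets

set_option autoImplicit false

/-!
# Project TQS: the target DCV, the members of the face cover the ground set
-/

namespace Pool.Agent.TQS

open Finset

/-- DCV. Every element is in a member of the face. -/
theorem p_DCV (h1 : T_WCN) : T_DCV := by
  intro V _ _ C hC w t Ms hH hF v
  obtain ⟨y, _, hy, hw⟩ := h1 V C hC w t hH
  have hv : (0 : ℚ) < cmb C y v := by
    rw [← hw v]
    have h := hH.one_le v
    exact_mod_cast (by omega : 0 < w v)
  have hne : ∃ S ∈ C, v ∈ S ∧ y S ≠ 0 := by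
    by_contra hcon
    push Not at hcon
    have h0 : cmb C y v = 0 := by
      rw [cmb_apply]
      refine Finset.sum_eq_zero fun S hS => ?_
      rw [Finset.mem_filter] at hS
      exact hcon S hS.1 hS.2
    rw [h0] at hv
    exact lt_irrefl _ hv
  obtain ⟨S, hSC, hvS, hyS⟩ := hne
  have hcor := hy S hyS
  exact ⟨S, mem_Em.mpr ⟨hSC, hH.card3 S hcor, fun B hB => hcor.2 B (hF.tig B hB)⟩, hvS⟩

end Pool.Agent.TQS
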