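import Pool.Agent.TQS.Targets

set_option autoImplicit false

/-!
# Project TQS, target DTA: assembly of the combinatorial data of the face
-/

namespace Pool.Agent.TQS

open Finset

theorem p_DTA (h1 : T_DCV) (h2 : T_V2C) (h3 : T_GGX) (h4 : T_GLN) (h5 : T_OP) : T_DTA := by
  intro V _ _ C hC w t Ms hH hF
  classical
  have key := h3 V C hC w t Ms hH hF
  choose! G G' hG using key
  have hm : ∀ v ∈ (univ.filter fun v : V => rk (av (Em C Ms) v) + 2 = rk (Em C Ms)),
      rk (av (Em C Ms) v) + 2 = rk (Em C Ms) := by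
    intro v hv
    exact (Finset.mem_filter.mp hv).2
  refine ⟨univ.filter fun v : V => rk (av (Em C Ms) v) + 2 = rk (Em C Ms), G, G', ?_⟩
  refine
    { cov := h1 V C hC w t Ms hH hF
      gcov := fun v hv => ⟨(hG v (hm v hv)).1, (hG v (hm v hv)).2.1⟩
      gmem := fun v hv => ⟨(hG v (hm v hv)).2.2.1, (hG v (hm v hv)).2.2.2.1⟩
      g0 := fun v hv => (hG v (hm v hv)).2.2.2.2.1
      g1 := fun v hv => (hG v (hm v hv)).2.2.2.2.2.1
      g2 := fun v hv =>
        ⟨(hG v (hm v hv)).2.2.2.2.2.2.1, (hG v (hm v hv)).2.2.2.2.2.2.2.1⟩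
      glin := fun v hv =>
        h4 V C hC w t Ms hH hF v (G v) (G' v) (hG v (hm v hv)).2.2.2.2.1
          (hG v (hm v hv)).2.2.2.2.2.1
      gpar := fun v hv => (hG v (hm v hv)).2.2.2.2.2.2.2.2
      odd := h5 V C hC w t Ms hH hF
      cnt := h2 V C hC w t Ms hH hF }

end Pool.Agent.TQS
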