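import Pool.Agent.TQS.Targets

set_option autoImplicit false

/-!
# Project TQS: target EQO
-/

namespace Pool.Agent.TQS

open Finset

theorem p_EQO : T_EQO := by
  intro V _ _ C w Ms V2 G G' hD v hv a hav heq
  have hnd : ∀ B ∈ Ms, nd B (un a - un v : V → ℤ) = 0 := by
    intro B hB
    rw [nd_un_sub]
    by_cases h : a ∈ B
    · rw [if_pos h, if_pos ((heq B hB).mp h)]
      norm_num
    · have h' : v ∉ B := fun h2 => h ((heq B hB).mpr h2)
      rw [if_neg h, if_neg h']
      norm_num
  have hlin := hD.glin v hv (un a - un v) hnd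
  have hpar := hD.gpar v hv (un a - un v) hnd
  obtain ⟨hG, hG'⟩ := hD.gmem v hv
  have hzv : (un a - un v : V → ℤ) v = -1 := by
    simp [un, Ne.symm hav]
  rw [hzv] at hlin
  rw [nd_un_sub] at hpar
  rw [nd_un_sub, nd_un_sub] at hlin
  rw [if_pos hG] at hpar
  rw [if_pos hG, if_pos hG'] at hlin
  by_cases ha : a ∈ G v
  · rw [if_pos ha] at hlin
    exfalso
    by_cases ha' : a ∈ G' v
    · rw [if_pos ha'] at hlin
      norm_num at hlin
    · rw [if_neg ha'] at hlin
      norm_num at hlin
  · rw [if_neg ha] at hlin hpar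
    by_cases ha' : a ∈ G' v
    · rw [if_pos ha'] at hlin
      norm_num at hlin
    · refine ⟨ha, ha', ?_⟩
      intro hL
      have he := hpar.mp hL
      revert he
      decide

end Pool.Agent.TQS
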