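import Pool.Agent.TQS.Targets

set_option autoImplicit false
set_option linter.unusedSectionVars false

/-!
# Project TQS: target EVN, fully even covers
-/

namespace Pool.Agent.TQS

open Finset

theorem p_EVN (h1 : T_WF) (h2 : T_ODD) : T_EVN := by
  classical
  intro V _ _ C w t hH A hA
  obtain ⟨U0, hU0, hU0w, hU0A⟩ := hH.up A hA
  obtain ⟨U, hU, hmax⟩ := Finset.exists_max_image
    (Finset.univ.filter fun U : Finset V => Cov C U ∧ ∑ v ∈ U, w v = t + 1 ∧ A ⊆ U)
    (fun U => (C.filter fun S => Cor C w t S ∧ S ⊆ U).card)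
    ⟨U0, by simp [hU0, hU0w, hU0A]⟩
  rw [Finset.mem_filter] at hU
  obtain ⟨-, hUc, hUw, hUA⟩ := hU
  refine ⟨U, hUc, hUw, hUA, ?_⟩
  intro T hT hTU
  have hTn : ¬ T ⊆ U := by
    intro h
    rw [Finset.inter_eq_left.mpr h, hH.card3 T hT] at hTU
    omega
  have hy : ∀ S, (if Cor C w t S ∧ S ⊆ U then 1 else 0 : ℕ) ≠ 0 ↔ Cor C w t S ∧ S ⊆ U := by
    intro S
    by_cases h : Cor C w t S ∧ S ⊆ U
    · simp [h]
    · simp [h]
  refine h2 V C w t hH (C.filter fun S => Cor C w t S ∧ S ⊆ U).card ?_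
  refine h1 V C w t hH (C.filter fun S => Cor C w t S ∧ S ⊆ U).card
    (fun S => if Cor C w t S ∧ S ⊆ U then 1 else 0) U T hUc hUw ?_ ?_ hT hTU ?_
  · intro S hS
    exact (hy S).mp hS
  · rw [Finset.card_filter]
  · rintro ⟨U', hU'c, hU'w, hTU', hS'⟩
    have hAU' : A ⊆ U' := hS' A ((hy A).mpr ⟨hA, hUA⟩)
    have hle := hmax U' (by simp [hU'c, hU'w, hAU'])
    have hlt : (C.filter fun S => Cor C w t S ∧ S ⊆ U).card <
        (C.filter fun S => Cor C w t S ∧ S ⊆ U').card := by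
      apply Finset.card_lt_card
      rw [Finset.ssubset_iff_of_subset]
      · refine ⟨T, ?_, ?_⟩
        · rw [Finset.mem_filter]
          exact ⟨hT.1, hT, hTU'⟩
        · rw [Finset.mem_filter]
          rintro ⟨-, -, h⟩
          exact hTn h
      · intro S hS
        rw [Finset.mem_filter] at hS ⊢
        exact ⟨hS.1, hS.2.1, hS' S ((hy S).mpr hS.2)⟩
    omega

end Pool.Agent.TQS
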