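import Pool.Agent.TQS.Targets

set_option autoImplicit false
set_option linter.unusedSectionVars false

/-!
# TQS: the facets of a minimal odd decomposition
-/

namespace Pool.Agent.TQS

open Finset

namespace FCT_

variable {V : Type} [Fintype V] [DecidableEq V]

/-- weighted number of members inside `U` -/
def ff (C : Finset (Finset V)) (y : Finset V → ℕ) (U : Finset V) : ℕ :=
  ∑ S ∈ C.filter (fun S => S ⊆ U), y S

/-- weighted number of members which meet `U` in two elements -/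
def hh (C : Finset (Finset V)) (y : Finset V → ℕ) (U : Finset V) : ℕ :=
  ∑ S ∈ C.filter (fun S => (S ∩ U).card = 2), y S

theorem sub_iff {S U : Finset V} (h : S.card = 3) : S ⊆ U ↔ (S ∩ U).card = 3 := by
  rw [← Finset.inter_eq_left]
  constructor
  · intro h1
    rw [h1, h]
  · intro h1
    exact Finset.eq_of_subset_of_card_le Finset.inter_subset_left (by rw [h1, h])

theorem count {C : Finset (Finset V)} {w : V → ℤ} {t : ℤ} (hH : Hol C w t) {j : ℕ}
    {y : Finset V → ℕ} (hc : ∀ S, y S ≠ 0 → Cor C w t S)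
    (hw : ∀ v, (2 * (j : ℤ) + 1) * w v = cmb C (fun S => (y S : ℤ)) v)
    {U : Finset V} (hU : Cov C U) (hUw : ∑ v ∈ U, w v = t + 1) :
    2 * j + 1 = 2 * ff C y U + hh C y U := by
  have h1 : (2 * (j : ℤ) + 1) * (t + 1) = ∑ S ∈ C, (y S : ℤ) * ((S ∩ U).card : ℤ) := by
    rw [← hUw, Finset.mul_sum, Finset.sum_congr rfl (fun v _ => hw v), sum_cmb]
  have h2 : (2 * (j : ℤ) + 1) * (3 * t) = ∑ S ∈ C, (y S : ℤ) * (S.card : ℤ) := by
    rw [← hH.tot, Finset.mul_sum, Finset.sum_congr rfl (fun v _ => hw v), sum_cmb_univ]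
  have h3 : ∑ S ∈ C, (y S : ℤ) * (S.card : ℤ) = 3 * ∑ S ∈ C, (y S : ℤ) := by
    rw [Finset.mul_sum]
    refine Finset.sum_congr rfl fun S _ => ?_
    by_cases h0 : y S = 0
    · rw [h0]
      simp
    · rw [hH.card3 S (hc S h0)]
      push_cast
      ring
  have h4 : ∑ S ∈ C, (y S : ℤ) * ((S ∩ U).card : ℤ) =
      ∑ S ∈ C, (y S : ℤ) + 2 * (ff C y U : ℤ) + (hh C y U : ℤ) := by
    unfold ff hh
    push_cast
    rw [Finset.sum_filter, Finset.sum_filter, Finset.mul_sum, ← Finset.sum_add_distrib,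
      ← Finset.sum_add_distrib]
    refine Finset.sum_congr rfl fun S hS => ?_
    by_cases h0 : y S = 0
    · rw [h0]
      simp
    · have h5 := hH.card3 S (hc S h0)
      have h6 : 1 ≤ (S ∩ U).card := Finset.card_pos.2 (hU S hS)
      have h7 : (S ∩ U).card ≤ 3 := h5 ▸ Finset.card_le_card Finset.inter_subset_left
      have h8 := sub_iff (U := U) h5
      rcases (by omega : (S ∩ U).card = 1 ∨ (S ∩ U).card = 2 ∨ (S ∩ U).card = 3) with h | h | h
      · rw [if_neg (by rw [h8]; omega), if_neg (by omega), h]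
        push_cast
        ring
      · rw [if_neg (by rw [h8]; omega), if_pos h, h]
        push_cast
        ring
      · rw [if_pos (h8.2 h), if_neg (by omega), h]
        push_cast
        ring
  have h5 : (2 * (j : ℤ) + 1) = 2 * (ff C y U : ℤ) + (hh C y U : ℤ) := by
    rw [h4] at h1
    rw [h3] at h2
    linarith
  exact_mod_cast h5

theorem step (hWF : T_WF) {C : Finset (Finset V)} {w : V → ℤ} {t : ℤ} (hH : Hol C w t) {j : ℕ}
    (hno : ∀ j' : ℕ, j' < j → ¬ InM C w t (fun v => (2 * j' + 1) * w v))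
    {U T : Finset V} (hU : Cov C U) (hUw : ∑ v ∈ U, w v = t + 1) (y' : Finset V → ℕ)
    (hy' : ∀ S, y' S ≠ 0 → Cor C w t S ∧ S ⊆ U) {j' : ℕ} (hs : ∑ S ∈ C, y' S = j')
    (hj : j' < j) (hT : Cor C w t T) (hTU : (T ∩ U).card = 2) :
    ∃ U', Cov C U' ∧ ∑ v ∈ U', w v = t + 1 ∧ T ⊆ U' ∧ ∀ S, y' S ≠ 0 → S ⊆ U' := by
  by_contra hcon
  exact hno j' hj (hWF V C w t hH j' y' U T hU hUw hy' hs hT hTU hcon)

theorem ff_ge {C : Finset (Finset V)} {y y' : Finset V → ℕ} {U' T : Finset V}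
    (hle : ∀ S, y' S ≤ y S) (hin : ∀ S, y' S ≠ 0 → S ⊆ U') (hTC : T ∈ C) (hTU : T ⊆ U')
    (hT0 : y' T = 0) : ∑ S ∈ C, y' S + y T ≤ ff C y U' := by
  unfold ff
  have h1 : ∑ S ∈ C, y' S = ∑ S ∈ C.filter (fun S => S ⊆ U'), y' S := by
    symm
    apply Finset.sum_subset (Finset.filter_subset _ _)
    intro S hS hn
    by_contra h
    exact hn (Finset.mem_filter.2 ⟨hS, hin S h⟩)
  rw [h1]
  have hTm : T ∈ C.filter (fun S => S ⊆ U') := Finset.mem_filter.2 ⟨hTC, hTU⟩
  rw [← Finset.add_sum_erase _ y' hTm, ← Finset.add_sum_erase _ y hTm, hT0, zero_add, add_comm]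
  exact Nat.add_le_add_left (Finset.sum_le_sum fun S _ => hle S) _

theorem sum_restr (C : Finset (Finset V)) (y : Finset V → ℕ) (U : Finset V) :
    ∑ S ∈ C, (if S ⊆ U then y S else 0) = ff C y U := by
  unfold ff
  rw [Finset.sum_filter]

theorem exists_two {C : Finset (Finset V)} {y : Finset V → ℕ} {U : Finset V}
    (h : hh C y U ≠ 0) : ∃ T ∈ C, (T ∩ U).card = 2 ∧ y T ≠ 0 := by
  obtain ⟨T, hT, hT'⟩ := Finset.exists_ne_zero_of_sum_ne_zero h
  rw [Finset.mem_filter] at hT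
  exact ⟨T, hT.1, hT.2, hT'⟩

theorem exists_max (hWF : T_WF) {C : Finset (Finset V)} {w : V → ℤ} {t : ℤ} (hH : Hol C w t)
    {j : ℕ} {y : Finset V → ℕ} (hc : ∀ S, y S ≠ 0 → Cor C w t S)
    (hw : ∀ v, (2 * (j : ℤ) + 1) * w v = cmb C (fun S => (y S : ℤ)) v)
    (hno : ∀ j' : ℕ, j' < j → ¬ InM C w t (fun v => (2 * j' + 1) * w v))
    {S0 : Finset V} (hS0 : y S0 ≠ 0) :
    ∃ U, Cov C U ∧ ∑ v ∈ U, w v = t + 1 ∧ S0 ⊆ U ∧ ff C y U = j := by
  classical
  obtain ⟨U0, hU0, hU0w, hU0s⟩ := hH.up S0 (hc S0 hS0)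
  let Q : Finset (Finset V) :=
    Finset.univ.filter fun U => Cov C U ∧ ∑ v ∈ U, w v = t + 1 ∧ S0 ⊆ U
  have hQ : Q.Nonempty := ⟨U0, Finset.mem_filter.2 ⟨Finset.mem_univ _, hU0, hU0w, hU0s⟩⟩
  obtain ⟨U, hUQ, hmax⟩ := Finset.exists_max_image Q (ff C y) hQ
  obtain ⟨-, hU, hUw, hUs⟩ := Finset.mem_filter.1 hUQ
  refine ⟨U, hU, hUw, hUs, ?_⟩
  have hcnt := count hH hc hw hU hUw
  by_contra hne
  have hlt : ff C y U < j := by omega
  obtain ⟨T, hTC, hT2, hT0⟩ := exists_two (C := C) (y := y) (U := U) (by omega)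
  have hTc := hc T hT0
  have hTn : ¬ T ⊆ U := by
    rw [sub_iff (hH.card3 T hTc)]
    omega
  obtain ⟨U', hU', hU'w, hTU', hin⟩ := step hWF hH hno hU hUw (fun S => if S ⊆ U then y S else 0)
    (fun S hS => by
      by_cases h : S ⊆ U
      · rw [if_pos h] at hS
        exact ⟨hc S hS, h⟩
      · rw [if_neg h] at hS
        exact absurd rfl hS) (sum_restr C y U) hlt hTc hT2
  have hge := ff_ge (C := C) (y := y) (y' := fun S => if S ⊆ U then y S else 0) (U' := U')
    (T := T) (fun S => by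
      by_cases h : S ⊆ U
      · simp only [if_pos h, le_refl]
      · simp only [if_neg h, Nat.zero_le]) hin hTC hTU' (by simp only [if_neg hTn])
  rw [sum_restr] at hge
  have hm := hmax U' (Finset.mem_filter.2 ⟨Finset.mem_univ _, hU', hU'w,
    hin S0 (by simp only [if_pos hUs]; exact hS0)⟩)
  omega

theorem exch (hWF : T_WF) {C : Finset (Finset V)} {w : V → ℤ} {t : ℤ} (hH : Hol C w t)
    {j : ℕ} (hj : 1 ≤ j) {y : Finset V → ℕ} (hc : ∀ S, y S ≠ 0 → Cor C w t S)
    (hw : ∀ v, (2 * (j : ℤ) + 1) * w v = cmb C (fun S => (y S : ℤ)) v)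
    (hno : ∀ j' : ℕ, j' < j → ¬ InM C w t (fun v => (2 * j' + 1) * w v))
    {U T B : Finset V} (hU : Cov C U) (hUw : ∑ v ∈ U, w v = t + 1) (hf : ff C y U = j)
    (hT : y T ≠ 0) (hT2 : (T ∩ U).card = 2) (hB : y B ≠ 0) (hBU : B ⊆ U) :
    y B = 1 ∧ ∃ U', Cov C U' ∧ ∑ v ∈ U', w v = t + 1 ∧ T ⊆ U' ∧
      (∀ S, y S ≠ 0 → S ⊆ U → S ≠ B → S ⊆ U') ∧ ff C y U' = j := by
  have hTc := hc T hT
  have hTn : ¬ T ⊆ U := by
    rw [sub_iff (hH.card3 T hTc)]
    omega
  have hBC : B ∈ C := (hc B hB).1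
  have hsum : ∑ S ∈ C, (if S ⊆ U then (if S = B then y S - 1 else y S) else 0) = j - 1 := by
    rw [← hf]
    unfold ff
    rw [← Finset.sum_filter]
    have hBm : B ∈ C.filter (fun S => S ⊆ U) := Finset.mem_filter.2 ⟨hBC, hBU⟩
    rw [← Finset.add_sum_erase _ (fun S => if S = B then y S - 1 else y S) hBm,
      ← Finset.add_sum_erase _ y hBm]
    have h1 : ∑ S ∈ (C.filter (fun S => S ⊆ U)).erase B, (if S = B then y S - 1 else y S) =
        ∑ S ∈ (C.filter (fun S => S ⊆ U)).erase B, y S := by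
      refine Finset.sum_congr rfl fun S hS => ?_
      rw [if_neg (Finset.ne_of_mem_erase hS)]
    rw [h1, if_pos rfl]
    omega
  obtain ⟨U', hU', hU'w, hTU', hin⟩ := step hWF hH hno hU hUw
    (fun S => if S ⊆ U then (if S = B then y S - 1 else y S) else 0)
    (fun S hS => by
      by_cases h : S ⊆ U
      · rw [if_pos h] at hS
        refine ⟨hc S ?_, h⟩
        intro h0
        apply hS
        by_cases h2 : S = B
        · rw [if_pos h2, h0]
        · rw [if_neg h2, h0]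
      · rw [if_neg h] at hS
        exact absurd rfl hS) hsum (by omega) hTc hT2
  have hge := ff_ge (C := C) (y := y)
    (y' := fun S => if S ⊆ U then (if S = B then y S - 1 else y S) else 0) (U' := U')
    (T := T) (fun S => by
      by_cases h : S ⊆ U
      · by_cases h2 : S = B
        · simp only [if_pos h, if_pos h2]
          omega
        · simp only [if_pos h, if_neg h2, le_refl]
      · simp only [if_neg h, Nat.zero_le]) hin hTc.1 hTU' (by simp only [if_neg hTn])
  rw [hsum] at hge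
  have hcnt := count hH hc hw hU' hU'w
  have hfj : ff C y U' = j := by omega
  refine ⟨?_, U', hU', hU'w, hTU', ?_, hfj⟩
  · by_contra hne
    have hB2 : 2 ≤ y B := by omega
    have hBU' : B ⊆ U' := hin B (by simp only [if_pos hBU, if_true]; omega)
    have hge2 := ff_ge (C := C) (y := y) (y' := fun S => if S ⊆ U then y S else 0) (U' := U')
      (T := T) (fun S => by
        by_cases h : S ⊆ U
        · simp only [if_pos h, le_refl]
        · simp only [if_neg h, Nat.zero_le])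
      (fun S hS => by
        by_cases h : S ⊆ U
        · simp only [if_pos h] at hS
          by_cases h2 : S = B
          · rw [h2]
            exact hBU'
          · exact hin S (by simp only [if_pos h, if_neg h2]; exact hS)
        · simp only [if_neg h] at hS
          exact absurd rfl hS) hTc.1 hTU' (by simp only [if_neg hTn])
    rw [sum_restr] at hge2
    omega
  · intro S hS hSU hSB
    exact hin S (by simp only [if_pos hSU, if_neg hSB]; exact hS)

theorem ff_card {C : Finset (Finset V)} {y : Finset V → ℕ} (h1 : ∀ S, y S ≤ 1) (U : Finset V) :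
    ff C y U = ((C.filter fun S => y S ≠ 0).filter (fun S => S ⊆ U)).card := by
  unfold ff
  rw [Finset.card_filter, Finset.sum_filter, Finset.sum_filter]
  refine Finset.sum_congr rfl fun S _ => ?_
  have h := h1 S
  by_cases h2 : S ⊆ U
  · by_cases h3 : y S = 0
    · simp [h3]
    · have h4 : y S = 1 := by omega
      simp [h2, h4]
  · simp [h2]

theorem hh_card {C : Finset (Finset V)} {y : Finset V → ℕ} (h1 : ∀ S, y S ≤ 1) (U : Finset V) :
    hh C y U = ((C.filter fun S => y S ≠ 0).filter (fun S => (S ∩ U).card = 2)).card := by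
  unfold hh
  rw [Finset.card_filter, Finset.sum_filter, Finset.sum_filter]
  refine Finset.sum_congr rfl fun S _ => ?_
  have h := h1 S
  by_cases h2 : (S ∩ U).card = 2
  · by_cases h3 : y S = 0
    · simp [h3]
    · have h4 : y S = 1 := by omega
      simp [h2, h4]
  · simp [h2]

theorem mk_Fct {C : Finset (Finset V)} {w : V → ℤ} {t : ℤ} (hH : Hol C w t) {j : ℕ}
    {y : Finset V → ℕ} (hc : ∀ S, y S ≠ 0 → Cor C w t S)
    (hw : ∀ v, (2 * (j : ℤ) + 1) * w v = cmb C (fun S => (y S : ℤ)) v)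
    (h1 : ∀ S, y S ≤ 1) {U : Finset V} (hU : Cov C U) (hUw : ∑ v ∈ U, w v = t + 1)
    (hf : ff C y U = j) : ∃ T, Fct (C.filter fun S => y S ≠ 0) C w t j U T := by
  have hcnt := count hH hc hw hU hUw
  have hh1 : hh C y U = 1 := by omega
  rw [hh_card h1] at hh1
  obtain ⟨T, hT⟩ := Finset.card_eq_one.1 hh1
  exact ⟨T, hU, hUw, by rw [← ff_card h1, hf], hT⟩

end FCT_

open FCT_ in
theorem p_FCT (hWF : T_WF) : T_FCT := by
  intro V _ _ C w t hH j y hj hc hw hno
  have hy1 : ∀ S, y S ≤ 1 := by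
    intro S
    by_cases hS : y S = 0
    · omega
    · obtain ⟨U, hU, hUw, hSU, hf⟩ := exists_max hWF hH hc hw hno hS
      have hcnt := count hH hc hw hU hUw
      obtain ⟨T, hTC, hT2, hT0⟩ := exists_two (C := C) (y := y) (U := U) (by omega)
      exact (exch hWF hH hj hc hw hno hU hUw hf hT0 hT2 hS hSU).1.le
  refine ⟨hy1, ?_, ?_⟩
  · intro S hS
    obtain ⟨U, hU, hUw, hSU, hf⟩ := exists_max hWF hH hc hw hno (Finset.mem_filter.1 hS).2
    obtain ⟨T, hT⟩ := mk_Fct hH hc hw hy1 hU hUw hf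
    exact ⟨U, T, hT, hSU⟩
  · intro U T hF B hB
    obtain ⟨hU, hUw, hcard, htwo⟩ := hF
    have hf : ff C y U = j := by rw [ff_card hy1, hcard]
    have hTm : T ∈ (C.filter fun S => y S ≠ 0).filter (fun S => (S ∩ U).card = 2) := by
      rw [htwo]
      exact Finset.mem_singleton_self T
    obtain ⟨hTA, hT2⟩ := Finset.mem_filter.1 hTm
    obtain ⟨hBA, hBU⟩ := Finset.mem_filter.1 hB
    obtain ⟨-, U', hU', hU'w, hTU', hin, hf'⟩ := exch hWF hH hj hc hw hno hU hUw hf
      (Finset.mem_filter.1 hTA).2 hT2 (Finset.mem_filter.1 hBA).2 hBU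
    obtain ⟨T', hT'⟩ := mk_Fct hH hc hw hy1 hU' hU'w hf'
    refine ⟨U', T', hT', ?_⟩
    symm
    apply Finset.eq_of_subset_of_card_le
    · intro S hS
      rw [Finset.mem_insert, Finset.mem_erase, Finset.mem_filter] at hS
      rw [Finset.mem_filter]
      rcases hS with rfl | ⟨hSB, hSA, hSU⟩
      · exact ⟨hTA, hTU'⟩
      · exact ⟨hSA, hin S (Finset.mem_filter.1 hSA).2 hSU hSB⟩
    · rw [hT'.2.2.1, Finset.card_insert_of_notMem, Finset.card_erase_of_mem hB, hcard]
      · omega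
      · intro h
        have h2 := (Finset.mem_filter.1 (Finset.mem_of_mem_erase h)).2
        rw [sub_iff (hH.card3 T (hc T (Finset.mem_filter.1 hTA).2))] at h2
        omega

end Pool.Agent.TQS
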