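import Pool.Agent.TQS.Targets

set_option autoImplicit false

/-!
# Project TQS, target FCV: a facet of the face is a cover
-/

namespace Pool.Agent.TQS

open Finset

theorem p_FCV (h1 : T_CON) : T_FCV := by
  intro V _ _ C hC w t Ms hF φ hφ hex hu
  by_contra hcon
  push Not at hcon
  obtain ⟨T1, hT1, hφ1⟩ := hex
  have hpos : 0 < φ (indq T1) := lt_of_le_of_ne (hφ T1 hT1) (Ne.symm hφ1)
  set X0 : Finset (Finset V) := (Em C Ms).filter (fun T => φ (indq T) = 0) with hX0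
  have mem0 : ∀ T, T ∈ X0 ↔ T ∈ Em C Ms ∧ φ (indq T) = 0 := by
    intro T
    rw [hX0, Finset.mem_filter]
  set z0 : V → ℚ := cmb X0 (fun _ => (1 : ℚ)) with hz0
  -- every term is nonnegative
  have term : ∀ T ∈ Em C Ms, ∀ U, Cov C U → (0 : ℚ) ≤ 3 * ((T ∩ U).card : ℚ) - T.card := by
    intro T hT U hU
    obtain ⟨hTC, h3, -⟩ := mem_Em.1 hT
    have h4 : 1 ≤ (T ∩ U).card := Finset.card_pos.2 (hU T hTC)
    have h5 : (1 : ℚ) ≤ ((T ∩ U).card : ℚ) := by exact_mod_cast h4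
    rw [h3]
    push_cast
    linarith
  have nd0 : ∀ U, nd U z0 = ∑ S ∈ X0, (3 * ((S ∩ U).card : ℚ) - S.card) := by
    intro U
    rw [hz0, nd_cmb]
    exact Finset.sum_congr rfl fun S _ => one_mul _
  have zφ : φ z0 = 0 := by
    rw [hz0, cmb_eq_sumq, map_sum]
    refine Finset.sum_eq_zero fun S hS => ?_
    rw [map_smul, ((mem0 S).1 hS).2, smul_zero]
  have z0ge : ∀ u, 1 ≤ z0 u := by
    intro u
    obtain ⟨T, hT, huT, hT0⟩ := hu u
    rw [hz0, cmb_apply]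
    have h4 : (1 : ℚ) ≤ ∑ S ∈ X0 with u ∈ S, (1 : ℚ) :=
      Finset.single_le_sum (f := fun _ : Finset V => (1 : ℚ)) (fun _ _ => zero_le_one)
        (Finset.mem_filter.2 ⟨(mem0 T).2 ⟨hT, hT0⟩, huT⟩)
    exact h4
  have ind01 : ∀ u, indq T1 u ≤ 1 := by
    intro u
    unfold indq
    split_ifs
    · exact le_refl _
    · exact zero_le_one
  have ndz : ∀ U, nd U (z0 - (1 / 2 : ℚ) • indq T1) =
      nd U z0 - 1 / 2 * (3 * ((T1 ∩ U).card : ℚ) - T1.card) := by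
    intro U
    have e : ((1 / 2 : ℚ) • indq T1 : V → ℚ) = fun v => (1 / 2 : ℚ) * indq T1 v := rfl
    rw [nd_sub, e, nd_mul, nd_indq]
  have hB0 : ∀ B ∈ Ms, nd B (z0 - (1 / 2 : ℚ) • indq T1) = 0 := by
    intro B hB
    obtain ⟨-, h3, h4⟩ := mem_Em.1 hT1
    rw [ndz, nd0, h3, h4 B hB]
    have h5 : ∑ S ∈ X0, (3 * ((S ∩ B).card : ℚ) - S.card) = 0 := by
      refine Finset.sum_eq_zero fun S hS => ?_
      obtain ⟨-, h6, h7⟩ := mem_Em.1 ((mem0 S).1 hS).1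
      rw [h6, h7 B hB]
      norm_num
    rw [h5]
    norm_num
  obtain ⟨y, hy, hzy⟩ := h1 V C hC w t Ms hF (z0 - (1 / 2 : ℚ) • indq T1) (by
    intro v
    have a1 := z0ge v
    have a2 := ind01 v
    show 0 ≤ z0 v - (1 / 2 : ℚ) * indq T1 v
    linarith) (by
    intro U hU
    by_cases hUM : U ∈ Ms
    · rw [hB0 U hUM]
    obtain ⟨T, hT, hT0, hTU⟩ := hcon U hU hUM
    obtain ⟨hTC, hT3, -⟩ := mem_Em.1 hT
    have a1 : 1 ≤ (T ∩ U).card := Finset.card_pos.2 (hU T hTC)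
    have a2 : (2 : ℚ) ≤ ((T ∩ U).card : ℚ) := by
      have : 2 ≤ (T ∩ U).card := by omega
      exact_mod_cast this
    have a3 : 3 * ((T ∩ U).card : ℚ) - T.card ≤ ∑ S ∈ X0, (3 * ((S ∩ U).card : ℚ) - S.card) :=
      Finset.single_le_sum (f := fun S : Finset V => (3 * ((S ∩ U).card : ℚ) - S.card))
        (fun S hS => term S ((mem0 S).1 hS).1 U hU) ((mem0 T).2 ⟨hT, hT0⟩)
    obtain ⟨-, h3, -⟩ := mem_Em.1 hT1
    have a4 : ((T1 ∩ U).card : ℚ) ≤ 3 := by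
      have : (T1 ∩ U).card ≤ 3 := by
        rw [← h3]
        exact Finset.card_le_card Finset.inter_subset_left
      exact_mod_cast this
    rw [ndz, nd0, h3]
    rw [hT3] at a3
    push_cast at a3 ⊢
    linarith) hB0
  have b1 : φ (z0 - (1 / 2 : ℚ) • indq T1) = -(1 / 2 * φ (indq T1)) := by
    rw [map_sub, map_smul, zφ, smul_eq_mul, zero_sub]
  have b2 : 0 ≤ φ (z0 - (1 / 2 : ℚ) • indq T1) := by
    rw [hzy, cmb_eq_sumq, map_sum]
    refine Finset.sum_nonneg fun S hS => ?_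
    rw [map_smul, smul_eq_mul]
    exact mul_nonneg (hy S) (hφ S hS)
  rw [b1] at b2
  linarith

end Pool.Agent.TQS
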