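import Pool.Agent.TQS.Targets

set_option autoImplicit false
set_option linter.unusedSectionVars false

/-!
# Project TQS, target FEX: the choice of the face
-/

namespace Pool.Agent.TQS

open Finset

namespace FEX_

section
variable {V : Type} [Fintype V] [DecidableEq V]

/-- The padded members in the face of `Ms`. -/
def PS (C Ms : Finset (Finset V)) : Set (V → ℤ) := {g | Pad C g ∧ ∀ B ∈ Ms, nd B g = 0}

/-- The good sets of tight covers. -/
def Good (C : Finset (Finset V)) (w : V → ℤ) (t : ℤ) (Ms : Finset (Finset V)) : Prop :=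
  (∀ B ∈ Ms, Tig C w t B) ∧
  (∀ g, Pad C g → (∀ B ∈ Ms, nd B g = 0) → ∃ T ∈ Em C Ms, g = ind T) ∧
  ¬ InL (Em C Ms) w

theorem fin_PS (C Ms : Finset (Finset V)) : (PS C Ms).Finite := by
  refine Set.Finite.subset (Set.Finite.pi' (fun _ : V => Set.finite_Icc (0 : ℤ) 3)) ?_
  rintro g ⟨⟨h0, h3, -⟩, -⟩
  intro v
  refine ⟨h0 v, ?_⟩
  rw [← h3]
  exact Finset.single_le_sum (fun i _ => h0 i) (Finset.mem_univ v)

/-- A vector of degree three above a triple is its indicator vector. -/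
theorem eq_ind {g : V → ℤ} {S : Finset V} (h0 : ∀ v, 0 ≤ g v) (h3 : ∑ v, g v = 3)
    (hS : S.card = 3) (h1 : ∀ v ∈ S, 1 ≤ g v) : g = ind S := by
  have h4 : ∀ v, ind S v ≤ g v := by
    intro v
    unfold ind
    split_ifs with h
    · exact h1 v h
    · exact h0 v
  have h5 : ∑ v, ind S v = ∑ v, g v := by
    rw [sum_ind_univ, hS, h3]
    rfl
  have h6 := (Finset.sum_eq_sum_iff_of_le (fun v _ => h4 v)).1 h5
  funext v
  exact (h6 v (Finset.mem_univ v)).symm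

theorem pad_ind {C : Finset (Finset V)} {S : Finset V} (hS : S ∈ C) (h3 : S.card = 3) :
    Pad C (ind S) := by
  refine ⟨fun v => ?_, ?_, S, hS, fun v hv => ?_⟩
  · unfold ind
    split_ifs
    · norm_num
    · exact le_refl _
  · rw [sum_ind_univ, h3]
    rfl
  · unfold ind
    rw [if_pos hv]

theorem nd_ind_zero {S B : Finset V} (h3 : S.card = 3) : nd B (ind S) = 0 ↔ (S ∩ B).card = 1 := by
  rw [nd_ind, h3]
  omega

theorem mem_PS_ind {C Ms : Finset (Finset V)} {T : Finset V} (hT : T ∈ Em C Ms) :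
    ind T ∈ PS C Ms := by
  obtain ⟨h1, h2, h3⟩ := mem_Em.1 hT
  exact ⟨pad_ind h1 h2, fun B hB => (nd_ind_zero h2).2 (h3 B hB)⟩

theorem em_sub (C Ms : Finset (Finset V)) : Em C Ms ⊆ C := fun _ hT => (mem_Em.1 hT).1

theorem em_anti (C : Finset (Finset V)) {Ms Ms' : Finset (Finset V)} (h : Ms' ⊆ Ms) :
    Em C Ms ⊆ Em C Ms' := by
  intro T hT
  obtain ⟨h1, h2, h3⟩ := mem_Em.1 hT
  exact mem_Em.2 ⟨h1, h2, fun B hB => h3 B (h hB)⟩

theorem ps_anti (C : Finset (Finset V)) {Ms Ms' : Finset (Finset V)} (h : Ms' ⊆ Ms) :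
    PS C Ms ⊆ PS C Ms' := fun _ hg => ⟨hg.1, fun B hB => hg.2 B (h hB)⟩

/-- The set of all tight covers is good. -/
theorem good_all (h2 : T_LAT) {C : Finset (Finset V)} (hC : MinC C) {w : V → ℤ} {t : ℤ}
    (hH : Hol C w t) (Mt : Finset (Finset V)) (hM : ∀ B, B ∈ Mt ↔ Tig C w t B) :
    Good C w t Mt := by
  refine ⟨fun B hB => (hM B).1 hB, ?_, ?_⟩
  · rintro g ⟨h0, h3, S, hS, h1⟩ hg
    have hcor : Cor C w t S := by
      refine ⟨hS, fun B hB => ?_⟩
      have h4 := hg B ((hM B).2 hB)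
      unfold nd at h4
      rw [h3] at h4
      have h5 : ((S ∩ B).card : ℤ) ≤ ∑ v ∈ B, g v := by
        calc ((S ∩ B).card : ℤ) = ∑ v ∈ S ∩ B, (1 : ℤ) := by simp
          _ ≤ ∑ v ∈ S ∩ B, g v :=
            Finset.sum_le_sum fun v hv => h1 v (Finset.mem_inter.1 hv).1
          _ ≤ ∑ v ∈ B, g v :=
            Finset.sum_le_sum_of_subset_of_nonneg Finset.inter_subset_right
              fun v _ _ => h0 v
      have h6 : 0 < (S ∩ B).card := Finset.card_pos.2 (hB.1 S hS)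
      omega
    have hc3 := hH.card3 S hcor
    refine ⟨S, mem_Em.2 ⟨hS, hc3, fun B hB => hcor.2 B ((hM B).1 hB)⟩, ?_⟩
    exact eq_ind h0 h3 hc3 h1
  · rintro ⟨q, hq⟩
    refine h2 V C hC w t hH ⟨fun S => if S ∈ Em C Mt then q S else 0, ?_, ?_⟩
    · intro S hS
      have hS' : S ∈ Em C Mt := by
        by_contra hcon
        exact hS (if_neg hcon)
      obtain ⟨k1, -, k3⟩ := mem_Em.1 hS'
      exact ⟨k1, fun B hB => k3 B ((hM B).2 hB)⟩
    · rw [cmb_extend (em_sub C Mt)]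
      exact hq

/-- The closure property. -/
theorem clo_aux (h1 : T_WCN) {C : Finset (Finset V)} (hC : MinC C) {w : V → ℤ} {t : ℤ}
    (hH : Hol C w t) {Ms : Finset (Finset V)} (hM : ∀ B ∈ Ms, Tig C w t B) (B : Finset V)
    (hB : Cov C B) (h : ∀ T ∈ Em C Ms, (T ∩ B).card = 1) : Tig C w t B := by
  obtain ⟨y, y0, y1, y2⟩ := h1 V C hC w t hH
  have hcor : ∀ S, y S ≠ 0 → S.card = 3 ∧ (S ∩ B).card = 1 := by
    intro S hS
    have k := y1 S hS
    have k3 := hH.card3 S k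
    exact ⟨k3, h S (mem_Em.2 ⟨k.1, k3, fun B' hB' => k.2 B' (hM B' hB')⟩)⟩
  have e1 : ((∑ v ∈ B, w v : ℤ) : ℚ) = ∑ S ∈ C, y S := by
    push_cast
    rw [Finset.sum_congr rfl fun v _ => y2 v, sum_cmb]
    refine Finset.sum_congr rfl fun S _ => ?_
    by_cases hS : y S = 0
    · rw [hS, zero_mul]
    · rw [(hcor S hS).2, Nat.cast_one, mul_one]
  have e2 : ((∑ v, w v : ℤ) : ℚ) = 3 * ∑ S ∈ C, y S := by
    push_cast
    rw [Finset.sum_congr rfl fun v _ => y2 v, sum_cmb_univ, Finset.mul_sum]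
    refine Finset.sum_congr rfl fun S _ => ?_
    by_cases hS : y S = 0
    · rw [hS, zero_mul, mul_zero]
    · rw [(hcor S hS).1]
      push_cast
      ring
  rw [hH.tot, ← e1] at e2
  refine ⟨hB, ?_⟩
  have e3 : (3 * t : ℤ) = 3 * ∑ v ∈ B, w v := by exact_mod_cast e2
  omega

end

end FEX_

open FEX_ in
/-- The choice of the face. -/
theorem p_FEX (h1 : T_WCN) (h2 : T_LAT) : T_FEX := by
  classical
  intro V _ _ C hC w t hH
  obtain ⟨Ms0, hMs0, hmax⟩ := Finset.exists_max_image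
    ((Finset.univ : Finset (Finset (Finset V))).filter (Good C w t))
    (fun Ms => (PS C Ms).ncard)
    ⟨Finset.univ.filter (Tig C w t), Finset.mem_filter.2 ⟨Finset.mem_univ _,
      good_all h2 hC hH _ (fun B => by simp)⟩⟩
  obtain ⟨g1, g2, g3⟩ := (Finset.mem_filter.1 hMs0).2
  have hmax' : ∀ Ms', Good C w t Ms' → (PS C Ms').ncard ≤ (PS C Ms0).ncard := fun Ms' h =>
    hmax Ms' (Finset.mem_filter.2 ⟨Finset.mem_univ _, h⟩)
  let Ms : Finset (Finset V) := Finset.univ.filter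
    fun B => Tig C w t B ∧ ∀ T ∈ Em C Ms0, (T ∩ B).card = 1
  have hMs : ∀ B, B ∈ Ms ↔ Tig C w t B ∧ ∀ T ∈ Em C Ms0, (T ∩ B).card = 1 := fun B => by
    simp only [Ms, Finset.mem_filter, Finset.mem_univ, true_and]
  have hsub : Ms0 ⊆ Ms := fun B hB => (hMs B).2 ⟨g1 B hB, fun T hT => (mem_Em.1 hT).2.2 B hB⟩
  have hEm : Em C Ms = Em C Ms0 := by
    refine Finset.Subset.antisymm (em_anti C hsub) ?_
    intro T hT
    obtain ⟨k1, k2, -⟩ := mem_Em.1 hT
    exact mem_Em.2 ⟨k1, k2, fun B hB => ((hMs B).1 hB).2 T hT⟩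
  have hPS : PS C Ms = PS C Ms0 := by
    refine Set.Subset.antisymm (ps_anti C hsub) ?_
    rintro g ⟨k1, k2⟩
    obtain ⟨T, hT, rfl⟩ := g2 g k1 k2
    exact mem_PS_ind (hEm ▸ hT)
  refine ⟨Ms, fun B hB => ((hMs B).1 hB).1, ?_, ?_, ?_, ?_⟩
  · intro B hB h
    refine (hMs B).2 ⟨clo_aux h1 hC hH (fun B hB => ((hMs B).1 hB).1) B hB h, ?_⟩
    rw [← hEm]
    exact h
  · intro g hg hB
    have : g ∈ PS C Ms0 := hPS ▸ (⟨hg, hB⟩ : g ∈ PS C Ms)
    rw [hEm]
    exact g2 g this.1 this.2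
  · rw [hEm]
    exact g3
  · rintro Ms' hM' ⟨g, hg1, hg2, B0, hB0, hg3⟩
    have hlt : (PS C Ms0).ncard < (PS C Ms').ncard := by
      rw [← hPS]
      refine Set.ncard_lt_ncard ⟨ps_anti C hM', fun hcon => ?_⟩ (fin_PS C Ms')
      exact hg3 ((hcon (⟨hg1, hg2⟩ : g ∈ PS C Ms')).2 B0 hB0)
    by_cases hnotL : InL (Em C Ms') w
    · left
      obtain ⟨q, hq⟩ := hnotL
      rw [hq, cmb_eq_sum]
      refine AddSubgroup.sum_mem _ fun S hS => AddSubgroup.zsmul_mem _ ?_ _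
      exact AddSubgroup.subset_closure (mem_PS_ind hS)
    · right
      by_contra hcon
      push Not at hcon
      refine absurd (hmax' Ms' ⟨fun B hB => ((hMs B).1 (hM' hB)).1, ?_, hnotL⟩)
        (Nat.not_le.2 hlt)
      rintro g' ⟨k0, k3, S, hS, k1⟩ hg'
      have hS3 : S.card = 3 := by
        by_contra hne
        have hle := hC.card_le S hS
        obtain ⟨B, hB, hB'⟩ := hcon g' ⟨k0, k3, S, hS, by omega, k1⟩
        exact hB' (hg' B hB)
      have he := eq_ind k0 k3 hS3 k1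
      refine ⟨S, mem_Em.2 ⟨hS, hS3, fun B hB => ?_⟩, he⟩
      rw [← nd_ind_zero hS3, ← he]
      exact hg' B hB

end Pool.Agent.TQS
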