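import Pool.Agent.TQS.Targets

set_option autoImplicit false
set_option linter.unusedSectionVars false

/-!
# Project TQS: GG1, the two covers, first part
-/

namespace Pool.Agent.TQS

open Finset

namespace GG1_

section
variable {V : Type} [Fintype V] [DecidableEq V]

/-- A functional vanishing on the members vanishes on the span. -/
theorem fun_zero {Y : Finset (Finset V)} (f : (V → ℚ) →ₗ[ℚ] ℚ)
    (hf : ∀ T ∈ Y, f (indq T) = 0) {z : V → ℚ} (hz : InS Y z) : f z = 0 := by
  obtain ⟨q, rfl⟩ := hz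
  rw [cmb_eq_sumq, map_sum]
  apply Finset.sum_eq_zero
  intro S hS
  rw [map_smul, hf S hS, smul_zero]

/-- Elements of the span of `av X v` have entry `0` at `v`. -/
theorem av_entry {X : Finset (Finset V)} {v : V} {z : V → ℚ} (hz : InS (av X v) z) :
    z v = 0 := by
  have h : (LinearMap.proj v : (V → ℚ) →ₗ[ℚ] ℚ) z = 0 := by
    apply fun_zero _ _ hz
    intro T hT
    have h2 := (mem_av.mp hT).2
    simp [indq, h2]
  simpa using h

/-- Adding a member through `v` increases the rank. -/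
theorem rk_add {X : Finset (Finset V)} {v : V} {T : Finset V} (hv : v ∈ T) :
    rk (av X v) + 1 ≤ rk (insert T (av X v)) := by
  unfold rk
  apply Nat.succ_le_of_lt
  apply Submodule.finrank_lt_finrank_of_lt
  apply lt_of_le_of_ne
  · apply Submodule.span_mono
    apply Set.image_mono
    intro S hS
    simp only [Finset.coe_insert, Set.mem_insert_iff]
    exact Or.inr hS
  · intro h
    have h1 : indq T ∈ Submodule.span ℚ (indq '' ((insert T (av X v) : Finset (Finset V)) :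
        Set (Finset V))) := by
      apply Submodule.subset_span
      exact ⟨T, by simp, rfl⟩
    rw [← h] at h1
    have h2 := av_entry (mem_span_iff.mp h1)
    simp [indq, hv] at h2

/-- Every element is in a member of the face on which `ψ` vanishes. -/
theorem every {X : Finset (Finset V)} {v : V} (hm : ∀ u, rk (av X u) + 2 ≤ rk X)
    (hrk : rk (av X v) + 2 = rk X) (ψ : (V → ℚ) →ₗ[ℚ] ℚ)
    (hav : ∀ T ∈ X, v ∉ T → ψ (indq T) = 0) {T2 : Finset V} (hT2 : T2 ∈ X) (hv : v ∈ T2)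
    (h0 : ψ (indq T2) = 0) (u : V) : ∃ T ∈ X, u ∈ T ∧ ψ (indq T) = 0 := by
  by_contra hcon
  push Not at hcon
  have hsub : insert T2 (av X v) ⊆ av X u := by
    intro S hS
    rw [Finset.mem_insert] at hS
    rw [mem_av]
    rcases hS with rfl | hS
    · exact ⟨hT2, fun hu => hcon S hT2 hu h0⟩
    · obtain ⟨hSX, hvS⟩ := mem_av.mp hS
      exact ⟨hSX, fun hu => hcon S hSX hu (hav S hSX hvS)⟩
  have h1 := rk_mono hsub
  have h2 := rk_add (X := X) hv
  have h3 := hm u
  omega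

/-- The values `nd U (indq T)`. -/
theorem nd_val {C Ms : Finset (Finset V)} {U T : Finset V} (hT : T ∈ Em C Ms) :
    nd U (indq T) = 3 * (((T ∩ U).card : ℚ) - 1) := by
  rw [nd_indq, (mem_Em.mp hT).2.1]
  push_cast
  ring

/-- The number `p`. -/
theorem pval {C Ms : Finset (Finset V)} {w : V → ℤ} {t : ℤ} (hF : Fac C w t Ms)
    {G T1 : Finset V} (hG : Cov C G) (hGn : G ∉ Ms) (hT1 : T1 ∈ Em C Ms)
    (hall : nd G (indq T1) = 0 → ∀ T ∈ Em C Ms, nd G (indq T) = 0) :
    ∃ p : ℤ, (p = 1 ∨ p = 2) ∧ nd G (indq T1) = 3 * (p : ℚ) := by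
  refine ⟨((T1 ∩ G).card : ℤ) - 1, ?_, ?_⟩
  · have h1 : 1 ≤ (T1 ∩ G).card := Finset.card_pos.mpr (hG T1 (mem_Em.mp hT1).1)
    have h2 : (T1 ∩ G).card ≤ 3 := by
      rw [← (mem_Em.mp hT1).2.1]
      exact Finset.card_le_card Finset.inter_subset_left
    have h3 : (T1 ∩ G).card ≠ 1 := by
      intro h
      apply hGn
      apply hF.clo G hG
      intro T hT
      have h4 := hall (by rw [nd_val hT1, h]; norm_num) T hT
      rw [nd_val hT] at h4
      have h5 : ((T ∩ G).card : ℚ) = 1 := by linarith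
      exact_mod_cast h5
    omega
  · rw [nd_val hT1]
    push_cast
    ring

end

end GG1_

open GG1_ in
theorem p_GG1 (h1 : T_LIN) (h2 : T_FCV) (h3 : T_M2) : T_GG1 := by
  intro V _ _ C hC w t Ms hH hF v hrk
  obtain ⟨φ, T1, T2, hT1, hT2, hv1, hv2, hφ1, hφ2, hav, hb, hz⟩ := h1 V (Em C Ms) v hrk
  have hm := h3 V C hC w t Ms hH hF
  -- step 0
  have key : ∀ (f : (V → ℚ) →ₗ[ℚ] ℚ), (∀ T ∈ Em C Ms, v ∉ T → f (indq T) = 0) →
      ∀ z : V → ℚ, InS (Em C Ms) z →
      f z = φ z * f (indq T1) + (z v - φ z) * f (indq T2) := by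
    intro f hf z hzS
    have hi1 : indq T1 v = (1 : ℚ) := by simp [indq, hv1]
    have hi2 : indq T2 v = (1 : ℚ) := by simp [indq, hv2]
    have hS' : InS (Em C Ms) (z - φ z • indq T1 - (z v - φ z) • indq T2) :=
      (hzS.sub ((InS.mem hT1).smul _)).sub ((InS.mem hT2).smul _)
    have hA : InS (av (Em C Ms) v) (z - φ z • indq T1 - (z v - φ z) • indq T2) := by
      apply hz _ hS'
      · rw [map_sub, map_sub, map_smul, map_smul, hφ1, hφ2]
        simp
      · simp [hi1, hi2]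
    have h0 := fun_zero f (fun T hT => hf T (mem_av.mp hT).1 (mem_av.mp hT).2) hA
    rw [map_sub, map_sub, map_smul, map_smul, smul_eq_mul, smul_eq_mul] at h0
    linarith
  -- the second functional
  let ψ : (V → ℚ) →ₗ[ℚ] ℚ := LinearMap.proj v - φ
  have hψ : ∀ z, ψ z = z v - φ z := fun z => by simp [ψ]
  have hψv : ∀ T, v ∈ T → ψ (indq T) = 1 - φ (indq T) := by
    intro T hT
    rw [hψ]
    simp [indq, hT]
  have hψn : ∀ T, v ∉ T → ψ (indq T) = - φ (indq T) := by
    intro T hT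
    rw [hψ]
    simp [indq, hT]
  have hψav : ∀ T ∈ Em C Ms, v ∉ T → ψ (indq T) = 0 := by
    intro T hT hvT
    rw [hψn T hvT, hav T hT hvT, neg_zero]
  have hψ1 : ψ (indq T1) = 0 := by rw [hψv T1 hv1, hφ1]; ring
  have hψ2 : ψ (indq T2) = 1 := by rw [hψv T2 hv2, hφ2]; ring
  -- the covers
  obtain ⟨G, hG, hGn, hG1⟩ := h2 V C hC w t Ms hF φ
    (fun T hT => by
      by_cases hvT : v ∈ T
      · exact (hb T hT hvT).1
      · rw [hav T hT hvT])
    ⟨T1, hT1, by rw [hφ1]; norm_num⟩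
    (fun u => every hm hrk φ hav hT2 hv2 hφ2 u)
  obtain ⟨G', hG', hGn', hG1'⟩ := h2 V C hC w t Ms hF ψ
    (fun T hT => by
      by_cases hvT : v ∈ T
      · rw [hψv T hvT]
        linarith [(hb T hT hvT).2]
      · rw [hψav T hT hvT])
    ⟨T2, hT2, by rw [hψ2]; norm_num⟩
    (fun u => every hm hrk ψ hψav hT1 hv1 hψ1 u)
  -- zero values
  have hz0 : ∀ T ∈ Em C Ms, φ (indq T) = 0 → nd G (indq T) = (0 : ℚ) := by
    intro T hT h
    rw [nd_val hT, hG1 T hT h]
    norm_num
  have hz0' : ∀ T ∈ Em C Ms, ψ (indq T) = 0 → nd G' (indq T) = (0 : ℚ) := by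
    intro T hT h
    rw [nd_val hT, hG1' T hT h]
    norm_num
  have keyG : ∀ z : V → ℚ, InS (Em C Ms) z → nd G z = φ z * nd G (indq T1) := by
    intro z hzS
    have h := key (ndl G) (fun T hT hvT => by rw [ndl_apply]; exact hz0 T hT (hav T hT hvT))
      z hzS
    rw [ndl_apply, ndl_apply, ndl_apply, hz0 T2 hT2 hφ2, mul_zero, add_zero] at h
    exact h
  have keyG' : ∀ z : V → ℚ, InS (Em C Ms) z → nd G' z = (z v - φ z) * nd G' (indq T2) := by
    intro z hzS
    have h := key (ndl G') (fun T hT hvT => by rw [ndl_apply]; exact hz0' T hT (hψav T hT hvT))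
      z hzS
    rw [ndl_apply, ndl_apply, ndl_apply, hz0' T1 hT1 hψ1, mul_zero, zero_add] at h
    exact h
  obtain ⟨p, hp, hpv⟩ := pval hF hG hGn hT1
    (fun h T hT => by rw [keyG _ (InS.mem hT), h, mul_zero])
  obtain ⟨p', hp', hpv'⟩ := pval hF hG' hGn' hT2
    (fun h T hT => by rw [keyG' _ (InS.mem hT), h, mul_zero])
  refine ⟨G, G', φ, T1, T2, p, p', hG, hG', hT1, hT2, hv1, hv2, hφ1, hφ2, hp, hp', ?_,
    hav, hb, hz⟩
  intro z hzS
  constructor
  · rw [keyG z hzS, hpv]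
    ring
  · rw [keyG' z hzS, hpv']
    ring

end Pool.Agent.TQS
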