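import Pool.Agent.TQS.Targets

set_option autoImplicit false
set_option linter.unusedSectionVars false

/-!
# Project TQS: the two covers at an element of `V_2` (GGX)
-/

namespace Pool.Agent.TQS

open Finset

namespace GGX_

section
variable {V : Type} [Fintype V] [DecidableEq V]

theorem cast_ind (S : Finset V) : (fun v => ((ind S v : ℤ) : ℚ)) = indq S := by
  funext v
  unfold ind indq
  split_ifs <;> simp

theorem nd_dvd {Ms : Finset (Finset V)} (hne : Ms.Nonempty) (z : V → ℤ)
    (hz : ∀ B ∈ Ms, nd B z = 0) (U : Finset V) : ∃ m : ℤ, nd U z = 3 * m := by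
  obtain ⟨B, hB⟩ := hne
  have h := hz B hB
  refine ⟨∑ v ∈ U, z v - ∑ v ∈ B, z v, ?_⟩
  unfold nd at h ⊢
  linarith

/-- If `φ z` is an integer then `z` is in the lattice. -/
theorem int_inL (h3 : T_SAT) {C : Finset (Finset V)} (hC : MinC C) {w : V → ℤ} {t : ℤ}
    {Ms : Finset (Finset V)} (hF : Fac C w t Ms) {v : V} {φ : (V → ℚ) →ₗ[ℚ] ℚ}
    {T1 T2 : Finset V} (hT1 : T1 ∈ Em C Ms) (hT2 : T2 ∈ Em C Ms) (hv1 : v ∈ T1) (hv2 : v ∈ T2)
    (hφ1 : φ (indq T1) = 1) (hφ2 : φ (indq T2) = 0)
    (hker : ∀ z : V → ℚ, InS (Em C Ms) z → φ z = 0 → z v = 0 → InS (av (Em C Ms) v) z)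
    (z : V → ℤ) (hz : InS (Em C Ms) (fun u => (z u : ℚ))) (k : ℤ)
    (hk : φ (fun u => (z u : ℚ)) = k) : InL (Em C Ms) z := by
  have hcast : (fun u => (((z - k • ind T1 - (z v - k) • ind T2) u : ℤ) : ℚ)) =
      (fun u => (z u : ℚ)) - (k : ℚ) • indq T1 - ((z v : ℚ) - k) • indq T2 := by
    funext u
    have e1 : ((ind T1 u : ℤ) : ℚ) = indq T1 u := congrFun (cast_ind T1) u
    have e2 : ((ind T2 u : ℤ) : ℚ) = indq T2 u := congrFun (cast_ind T2) u
    simp only [Pi.sub_apply, Pi.smul_apply, smul_eq_mul]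
    push_cast
    rw [e1, e2]
  have hS : InS (Em C Ms) ((fun u => (z u : ℚ)) - (k : ℚ) • indq T1 -
      ((z v : ℚ) - k) • indq T2) :=
    (hz.sub ((InS.mem hT1).smul _)).sub ((InS.mem hT2).smul _)
  have hφz : φ ((fun u => (z u : ℚ)) - (k : ℚ) • indq T1 - ((z v : ℚ) - k) • indq T2) = 0 := by
    rw [map_sub, map_sub, map_smul, map_smul, hφ1, hφ2, hk]
    simp
  have hvz : ((fun u => (z u : ℚ)) - (k : ℚ) • indq T1 - ((z v : ℚ) - k) • indq T2) v = 0 := by
    simp [indq, hv1, hv2]
  have h := hker _ hS hφz hvz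
  rw [← hcast] at h
  have h' := (h3 V C hC w t Ms hF v _ h).mono (filter_subset _ _)
  have e : z = (z - k • ind T1 - (z v - k) • ind T2) + k • ind T1 + (z v - k) • ind T2 := by
    abel
  rw [e]
  exact (h'.add ((InL.mem hT1).smul k)).add ((InL.mem hT2).smul _)

theorem sub_of_card {T G : Finset V} (h : T.card = 3) (h' : (T ∩ G).card = 3) : T ⊆ G := by
  have h1 : T ∩ G = T := Finset.eq_of_subset_of_card_le Finset.inter_subset_left (by omega)
  exact Finset.inter_eq_left.mp h1

end

end GGX_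

open GGX_ in
theorem p_GGX (h1 : T_GG1) (h2 : T_SPN) (h3 : T_SAT) (h4 : T_MNE) : T_GGX := by
  intro V _ _ C hC w t Ms hH hF v hv
  obtain ⟨G, G', φ, T1, T2, p, p', hG, hG', hT1, hT2, hv1, hv2, hφ1, hφ2, hp, hp', hlin, hφ0,
    hφ01, hker⟩ := h1 V C hC w t Ms hH hF v hv
  have hne := (h4 V C hC w t Ms hF).1
  have hspn : ∀ z : V → ℤ, (∀ B ∈ Ms, nd B z = 0) → InS (Em C Ms) (fun u => (z u : ℚ)) := by
    intro z hz
    apply h2 V C hC w t Ms hH hF
    intro B hB
    rw [nd_cast, hz B hB]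
    rfl
  have hint : ∀ (z : V → ℤ), (∀ B ∈ Ms, nd B z = 0) → ∀ k : ℤ,
      φ (fun u => (z u : ℚ)) = k → InL (Em C Ms) z := fun z hz k hk =>
    int_inL h3 hC hF hT1 hT2 hv1 hv2 hφ1 hφ2 hker z (hspn z hz) k hk
  -- the hole
  have hw : ∀ B ∈ Ms, nd B w = 0 := by
    intro B hB
    have e := (hF.tig B hB).2
    have e' := hH.tot
    unfold nd
    rw [e, e']
    ring
  have hwn : ∀ k : ℤ, φ (fun u => (w u : ℚ)) ≠ k := fun k hk => hF.notL (hint w hw k hk)
  obtain ⟨m, hm⟩ := nd_dvd hne w hw G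
  obtain ⟨m', hm'⟩ := nd_dvd hne w hw G'
  obtain ⟨l1, l2⟩ := hlin _ (hspn w hw)
  rw [nd_cast, hm] at l1
  rw [nd_cast, hm'] at l2
  push_cast at l1 l2
  have hp2 : p = 2 := by
    rcases hp with rfl | rfl
    · exfalso
      apply hwn m
      push_cast at l1
      linarith
    · rfl
  have hp2' : p' = 2 := by
    rcases hp' with rfl | rfl
    · exfalso
      apply hwn (w v - m')
      push_cast at l2 ⊢
      linarith
    · rfl
  subst hp2 hp2'
  push_cast at l1 l2 hlin
  have hφw : φ (fun u => (w u : ℚ)) = m / 2 := by linarith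
  have hodd : Odd m := by
    rcases Int.even_or_odd m with h | h
    · exfalso
      obtain ⟨r, hr⟩ := h
      apply hwn r
      rw [hφw, hr]
      push_cast
      ring
    · exact h
  -- members of the face
  have hq : ∀ T ∈ Em C Ms, InS (Em C Ms) (indq T) := fun T hT => InS.mem hT
  have hc3 : ∀ T ∈ Em C Ms, T.card = 3 := fun T hT => (mem_Em.mp hT).2.1
  have hnG : ∀ T ∈ Em C Ms, 3 * ((T ∩ G).card : ℚ) - 3 = 6 * φ (indq T) := by
    intro T hT
    have e := (hlin _ (hq T hT)).1
    rw [nd_indq, hc3 T hT] at e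
    push_cast at e
    linarith
  have hnG' : ∀ T ∈ Em C Ms, 3 * ((T ∩ G').card : ℚ) - 3 = 6 * (indq T v - φ (indq T)) := by
    intro T hT
    have e := (hlin _ (hq T hT)).2
    rw [nd_indq, hc3 T hT] at e
    push_cast at e
    linarith
  have hout : ∀ T ∈ Em C Ms, v ∉ T → (T ∩ G).card = 1 ∧ (T ∩ G').card = 1 := by
    intro T hT hvT
    have e1 := hnG T hT
    have e2 := hnG' T hT
    have e3 : indq T v = 0 := by simp [indq, hvT]
    rw [hφ0 T hT hvT] at e1 e2
    rw [e3] at e2
    constructor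
    · have : ((T ∩ G).card : ℚ) = 1 := by linarith
      exact_mod_cast this
    · have : ((T ∩ G').card : ℚ) = 1 := by linarith
      exact_mod_cast this
  have hle : ∀ T ∈ Em C Ms, ∀ U : Finset V, (T ∩ U).card ≤ 3 := by
    intro T hT U
    have := Finset.card_le_card (Finset.inter_subset_left (s₁ := T) (s₂ := U))
    rw [hc3 T hT] at this
    exact this
  have hvals : ∀ T ∈ Em C Ms, v ∈ T →
      (φ (indq T) = 1 ∧ (T ∩ G).card = 3 ∧ (T ∩ G').card = 1) ∨
      (φ (indq T) = 0 ∧ (T ∩ G).card = 1 ∧ (T ∩ G').card = 3) := by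
    intro T hT hvT
    have e1 := hnG T hT
    have e2 := hnG' T hT
    have e3 : indq T v = 1 := by simp [indq, hvT]
    rw [e3] at e2
    have hpos : 1 ≤ (T ∩ G).card := (hG T (mem_Em.mp hT).1).card_pos
    have hle3 := hle T hT G
    have hcases : (T ∩ G).card = 1 ∨ (T ∩ G).card = 2 ∨ (T ∩ G).card = 3 := by omega
    rcases hcases with h | h | h
    · right
      rw [h] at e1
      push_cast at e1
      have hφT : φ (indq T) = 0 := by linarith
      refine ⟨hφT, h, ?_⟩
      rw [hφT] at e2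
      have : ((T ∩ G').card : ℚ) = 3 := by linarith
      exact_mod_cast this
    · exfalso
      rw [h] at e1
      push_cast at e1
      have hφT : φ (indq T) = 1 / 2 := by linarith
      obtain ⟨r, hr⟩ := hodd
      have hwT : ∀ B ∈ Ms, nd B (w - ind T) = 0 := by
        intro B hB
        rw [nd_sub, hw B hB, nd_InL (InL.mem hT) hB]
        ring
      have hL : InL (Em C Ms) (w - ind T) := by
        apply hint _ hwT r
        have ec : (fun u => (((w - ind T) u : ℤ) : ℚ)) = (fun u => (w u : ℚ)) - indq T := by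
          funext u
          have e1 : ((ind T u : ℤ) : ℚ) = indq T u := congrFun (cast_ind T) u
          simp only [Pi.sub_apply]
          push_cast
          rw [e1]
        rw [ec, map_sub, hφw, hφT, hr]
        push_cast
        ring
      apply hF.notL
      have e : w = (w - ind T) + ind T := by abel
      rw [e]
      exact hL.add (InL.mem hT)
    · left
      rw [h] at e1
      push_cast at e1
      have hφT : φ (indq T) = 1 := by linarith
      refine ⟨hφT, h, ?_⟩
      rw [hφT] at e2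
      have : ((T ∩ G').card : ℚ) = 1 := by linarith
      exact_mod_cast this
  have hT1G : T1 ⊆ G := by
    rcases hvals T1 hT1 hv1 with h | h
    · exact sub_of_card (hc3 T1 hT1) h.2.1
    · exfalso
      rw [hφ1] at h
      exact one_ne_zero h.1
  have hT2G : T2 ⊆ G' := by
    rcases hvals T2 hT2 hv2 with h | h
    · exfalso
      rw [hφ2] at h
      exact zero_ne_one h.1
    · exact sub_of_card (hc3 T2 hT2) h.2.2
  refine ⟨G, G', hG, hG', hT1G hv1, hT2G hv2, hout, ?_, ⟨T1, hT1, hv1, hT1G⟩,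
    ⟨T2, hT2, hv2, hT2G⟩, ?_⟩
  · intro T hT hvT
    rcases hvals T hT hvT with h | h
    · exact Or.inl ⟨sub_of_card (hc3 T hT) h.2.1, h.2.2⟩
    · exact Or.inr ⟨h.2.1, sub_of_card (hc3 T hT) h.2.2⟩
  · intro z hz
    constructor
    · rintro ⟨q, rfl⟩
      rw [nd_cmb]
      refine Finset.sum_induction _ Even (fun a b ha hb => ha.add hb) Even.zero ?_
      intro S hS
      rw [hc3 S hS]
      by_cases hvS : v ∈ S
      · rcases hvals S hS hvS with h | h
        · rw [h.2.1]
          exact ⟨q S * 3, by push_cast; ring⟩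
        · rw [h.2.1]
          exact ⟨0, by push_cast; ring⟩
      · rw [(hout S hS hvS).1]
        exact ⟨0, by push_cast; ring⟩
    · intro hev
      obtain ⟨k, hk⟩ := nd_dvd hne z hz G
      rw [hk] at hev
      obtain ⟨r, hr⟩ := hev
      have hk2 : ∃ r', k = 2 * r' := ⟨r - k, by linarith⟩
      obtain ⟨r', hr'⟩ := hk2
      apply hint z hz r'
      have e := (hlin _ (hspn z hz)).1
      rw [nd_cast, hk, hr'] at e
      push_cast at e
      linarith

end Pool.Agent.TQS
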