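import Pool.Agent.TQS.Targets

/-!
# Project TQS: the identity for the two covers, `T_GLN`
-/

set_option autoImplicit false

namespace Pool.Agent.TQS

open Finset

namespace GLN_

/-- the coefficient of one member -/
theorem coef {V : Type} [Fintype V] [DecidableEq V] {T G G' : Finset V} {v : V}
    (h3 : T.card = 3) (h0 : v ∉ T → (T ∩ G).card = 1 ∧ (T ∩ G').card = 1)
    (h1 : v ∈ T → (T ⊆ G ∧ (T ∩ G').card = 1) ∨ ((T ∩ G).card = 1 ∧ T ⊆ G')) :
    (3 * ((T ∩ G).card : ℚ) - T.card) + (3 * ((T ∩ G').card : ℚ) - T.card) =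
      6 * (if v ∈ T then 1 else 0) := by
  by_cases hv : v ∈ T
  · rw [if_pos hv]
    rcases h1 hv with ⟨a, b⟩ | ⟨a, b⟩
    · rw [Finset.inter_eq_left.mpr a, b, h3]
      norm_num
    · rw [Finset.inter_eq_left.mpr b, a, h3]
      norm_num
  · rw [if_neg hv, (h0 hv).1, (h0 hv).2, h3]
    norm_num

end GLN_

open GLN_ in
theorem p_GLN (h1 : T_SPN) : T_GLN := by
  intro V _ _ C hC w t Ms hH hF v G G' hg0 hg1 z hz
  have hq : InS (Em C Ms) (fun u => (z u : ℚ)) := by
    refine h1 V C hC w t Ms hH hF _ ?_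
    intro B hB
    rw [nd_cast, hz B hB]
    norm_num
  obtain ⟨q, hq⟩ := hq
  have e1 : nd G (fun u => (z u : ℚ)) =
      ∑ S ∈ Em C Ms, q S * (3 * ((S ∩ G).card : ℚ) - S.card) := by
    rw [hq, nd_cmb]
  have e2 : nd G' (fun u => (z u : ℚ)) =
      ∑ S ∈ Em C Ms, q S * (3 * ((S ∩ G').card : ℚ) - S.card) := by
    rw [hq, nd_cmb]
  have e3 : (z v : ℚ) = ∑ S ∈ Em C Ms, q S * (if v ∈ S then 1 else 0) := by
    have h4 : (z v : ℚ) = cmb (Em C Ms) q v := congrFun hq v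
    rw [h4, cmb_apply']
    refine Finset.sum_congr rfl fun S _ => ?_
    split_ifs <;> simp
  have e4 : nd G (fun u => (z u : ℚ)) + nd G' (fun u => (z u : ℚ)) = 6 * (z v : ℚ) := by
    rw [e1, e2, e3, ← Finset.sum_add_distrib, Finset.mul_sum]
    refine Finset.sum_congr rfl fun S hS => ?_
    have h5 := coef (G := G) (G' := G') (v := v) (mem_Em.mp hS).2.1 (hg0 S hS) (hg1 S hS)
    rw [← mul_add, h5]
    ring
  rw [nd_cast, nd_cast] at e4
  exact_mod_cast e4

end Pool.Agent.TQS
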