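import Pool.Agent.TQS.Targets

set_option autoImplicit false

namespace Pool.Agent.TQS

open Finset

theorem IND_min {V : Type} [Fintype V] [DecidableEq V] (C : Finset (Finset V)) {S : Finset V}
    (hS : S ∈ C) : ∃ S' ∈ C.filter (fun S => ∀ B ∈ C, B ⊆ S → B = S), S' ⊆ S := by
  obtain ⟨S', hle, hmin⟩ := Finset.exists_le_minimal C hS
  refine ⟨S', Finset.mem_filter.2 ⟨hmin.prop, fun B hB hBS => ?_⟩, hle⟩
  exact Finset.Subset.antisymm hBS (hmin.le_of_le hB hBS)

theorem IND_meng {V : Type} [Fintype V] [DecidableEq V] (C : Finset (Finset V))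
    (h : Meng (C.filter (fun S => ∀ B ∈ C, B ⊆ S → B = S))) : Meng C := by
  intro w s hs
  obtain ⟨y, hy1, hy2⟩ := h w s (fun U hU => hs U (fun S hS => by
    obtain ⟨S', hS', hSS⟩ := IND_min C hS
    exact (hU S' hS').mono (Finset.inter_subset_inter_right hSS)))
  set C' := C.filter (fun S => ∀ B ∈ C, B ⊆ S → B = S) with hC'
  have hsub : C' ⊆ C := Finset.filter_subset _ _
  refine ⟨fun S => if S ∈ C' then y S else 0, ?_, ?_⟩
  · rw [← hy1, ← Finset.sum_filter, Finset.filter_mem_eq_inter,
      Finset.inter_eq_right.2 hsub]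
  · intro v
    rw [cmb_extend hsub]
    exact hy2 v

theorem IND_empty {V : Type} [Fintype V] [DecidableEq V] (C : Finset (Finset V))
    (h : ∅ ∈ C) : Meng C := by
  intro w s _
  refine ⟨fun S => if S = ∅ then s else 0, ?_, ?_⟩
  · rw [Finset.sum_ite_eq' C ∅ (fun _ => s), if_pos h]
  · intro v
    unfold cmb
    rw [Finset.sum_eq_zero]
    · exact Nat.zero_le _
    · intro S hS
      rw [Finset.mem_filter] at hS
      rw [if_neg]
      rintro rfl
      simp at hS

theorem p_IND (h1 : T_CORE) (h2 : T_FMI) (h3 : T_QMI) (h4 : T_TRN) : T_IND := by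
  intro n
  induction n using Nat.strong_induction_on with
  | _ n ih =>
  intro V _ _ hn C hcard hfrac hQ
  by_contra hM
  have hempty : ∅ ∉ C := fun h => hM (IND_empty C h)
  set C' := C.filter (fun S => ∀ B ∈ C, B ⊆ S → B = S) with hC'
  have hsub : ∀ S ∈ C', S ∈ C := fun S hS => (Finset.mem_filter.1 hS).1
  have hcard' : ∀ S ∈ C', S.card ≤ 3 := fun S hS => hcard S (hsub S hS)
  have hfrac' : Frac C' := (h2 V C hfrac).2.2
  have hQ' : ¬ HasQ6 C' := fun h => hQ ((h3 V C hcard).2.2.1 h)
  have hM' : ¬ Meng C' := fun h => hM (IND_meng C h)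
  -- smaller families without members through `v`
  have key : ∀ (v : V) (D : Finset (Finset V)), (∀ S ∈ D, v ∉ S) → (∀ S ∈ D, S.card ≤ 3) →
      Frac D → ¬ HasQ6 D → Meng D := by
    intro v D hv hD hF hQD
    obtain ⟨t1, t2, t3, t4⟩ := h4 V v D hv
    apply t2
    have hlt : Fintype.card {x : V // x ≠ v} < n := by
      rw [← hn]
      exact Fintype.card_subtype_lt (p := fun x : V => x ≠ v) (x := v) (by simp)
    exact ih _ hlt {x : V // x ≠ v} rfl _ (t3 hD) (t1 hF) (fun h => hQD (t4 h))
  have hdel : ∀ v : V, Meng (av C' v) := by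
    intro v
    apply key v
    · intro S hS
      exact (mem_av.1 hS).2
    · intro S hS
      exact hcard' S (mem_av.1 hS).1
    · exact (h2 V C' hfrac').1 v
    · intro h
      exact hQ' ((h3 V C' hcard').1 v h)
  have hcon : ∀ v : V, Meng (C'.image fun S => S.erase v) := by
    intro v
    apply key v
    · intro S hS
      obtain ⟨S0, _, rfl⟩ := Finset.mem_image.1 hS
      exact Finset.notMem_erase v S0
    · intro S hS
      obtain ⟨S0, hS0, rfl⟩ := Finset.mem_image.1 hS
      exact (Finset.card_erase_le).trans (hcard' S0 hS0)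
    · exact (h2 V C' hfrac').2.1 v
    · intro h
      exact hQ' ((h3 V C' hcard').2.1 v h)
  have hused : ∀ v : V, ∃ S ∈ C', v ∈ S := by
    intro v
    by_contra hc
    push Not at hc
    apply hM'
    have h5 : av C' v = C' := Finset.filter_true_of_mem hc
    rw [← h5]
    exact hdel v
  have hmin : MinC C' :=
    { anti := fun A hA B hB hAB => (Finset.mem_filter.1 hB).2 A (hsub A hA) hAB
      ne := fun S hS => by
        rw [Finset.nonempty_iff_ne_empty]
        rintro rfl
        exact hempty (hsub _ hS)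
      card_le := hcard'
      frac := hfrac'
      used := hused
      del := hdel
      con := hcon
      not_meng := hM' }
  exact hQ' ((h3 V C' hcard').2.2.2 (h1 V C' hmin))

end Pool.Agent.TQS
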