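import Pool.Agent.TQS.Targets

set_option autoImplicit false
set_option linter.unusedSectionVars false

namespace Pool.Agent.TQS

open Finset

section
variable {V : Type} [Fintype V] [DecidableEq V]

/-- A cover of the deletion gives a cover of `C`. -/
theorem INT_cov {C : Finset (Finset V)} {x : V} {U : Finset V} (h : Cov (av C x) U) :
    Cov C (insert x U) := by
  intro S hS
  by_cases hx : x ∈ S
  · exact ⟨x, Finset.mem_inter.mpr ⟨hx, Finset.mem_insert_self x U⟩⟩
  · obtain ⟨u, hu⟩ := h S (mem_av.mpr ⟨hS, hx⟩)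
    rw [Finset.mem_inter] at hu
    exact ⟨u, Finset.mem_inter.mpr ⟨hu.1, Finset.mem_insert_of_mem hu.2⟩⟩

/-- An integral vector `d` which is nonnegative, vanishes on `B`, and the padded member. -/
theorem INT_pad {C : Finset (Finset V)} (hC : MinC C) {w : V → ℤ} {t : ℤ}
    {Ms : Finset (Finset V)} (hF : Fac C w t Ms) {S : Finset V} (hS : S ∈ C) (h2 : S.card ≤ 2)
    (h1 : ∀ B ∈ Ms, (S ∩ B).card = 1) {u : V} (hu : ∀ B ∈ Ms, u ∉ B) : False := by
  have h2' : (S.card : ℤ) ≤ 2 := by exact_mod_cast h2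
  have hun : ∀ v, 0 ≤ (3 - (S.card : ℤ)) * un u v := by
    intro v
    apply mul_nonneg (by linarith)
    unfold un
    split_ifs <;> norm_num
  have hind : ∀ v, 0 ≤ ind S v := by
    intro v
    unfold ind
    split_ifs <;> norm_num
  have hpad : Pad C (ind S + fun v => (3 - (S.card : ℤ)) * un u v) := by
    refine ⟨fun v => add_nonneg (hind v) (hun v), ?_, S, hS, fun v hv => ?_⟩
    · simp only [Pi.add_apply, Finset.sum_add_distrib, ← Finset.mul_sum]
      rw [sum_ind_univ, sum_un_univ]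
      ring
    · have h3 : ind S v = 1 := by
        unfold ind
        rw [if_pos hv]
      have h4 := hun v
      simp only [Pi.add_apply]
      linarith
  obtain ⟨T, hT, hgT⟩ := hF.np _ hpad (by
    intro B hB
    rw [nd_add, nd_ind, nd_mul, nd_un, h1 B hB, if_neg (hu B hB)]
    push_cast
    ring)
  obtain ⟨hTC, hT3, _⟩ := mem_Em.mp hT
  have hsub : S ⊆ T := by
    intro v hv
    have h5 := congrFun hgT v
    have h3 : ind S v = 1 := by
      unfold ind
      rw [if_pos hv]
    have h4 := hun v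
    simp only [Pi.add_apply] at h5
    by_contra hvT
    have h6 : ind T v = 0 := by
      unfold ind
      rw [if_neg hvT]
    rw [h3, h6] at h5
    linarith
  have h7 := hC.anti S hS T hTC hsub
  rw [← h7] at hT3
  omega

end

theorem p_INT (h1 : T_MNE) : T_INT := by
  intro V _ _ C hC w t Ms hF x z hz hcov hMs hzx
  obtain ⟨B0, hB0⟩ := (h1 V C hC w t Ms hF).1
  obtain ⟨s, hs⟩ : ∃ s, s = ∑ v ∈ B0, z v := ⟨_, rfl⟩
  have htot : ∑ v, z v = 3 * s := by
    have := hMs B0 hB0
    unfold nd at this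
    rw [hs]
    linarith
  have hs0 : 0 ≤ s := by
    rw [hs]
    exact Finset.sum_nonneg fun v _ => hz v
  have hU : ∀ U, Cov C U → s ≤ ∑ v ∈ U, z v := by
    intro U hU
    have := hcov U hU
    unfold nd at this
    linarith
  have hB : ∀ B ∈ Ms, ∑ v ∈ B, z v = s := by
    intro B hB
    have := hMs B hB
    unfold nd at this
    linarith
  have hcast : ∀ U : Finset V, ((∑ v ∈ U, (z v).toNat : ℕ) : ℤ) = ∑ v ∈ U, z v := by
    intro U
    push_cast
    exact Finset.sum_congr rfl fun v _ => Int.toNat_of_nonneg (hz v)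
  obtain ⟨y, hy1, hy2⟩ := hC.del x (fun v => (z v).toNat) s.toNat (by
    intro U hUc
    have h2 := hU _ (INT_cov hUc)
    have h3 : ∑ v ∈ insert x U, z v = ∑ v ∈ U, z v := by
      by_cases hx : x ∈ U
      · rw [Finset.insert_eq_of_mem hx]
      · rw [Finset.sum_insert hx, hzx, zero_add]
    zify
    rw [Int.toNat_of_nonneg hs0]
    have h4 := hcast U
    push_cast at h4
    rw [h4, ← h3]
    exact h2)
  obtain ⟨A, hA⟩ : ∃ A, A = av C x := ⟨_, rfl⟩
  rw [← hA] at hy1 hy2
  have hAC : ∀ S ∈ A, S ∈ C := fun S hS => (mem_av.mp (hA ▸ hS)).1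
  have hsum : ∑ S ∈ A, (y S : ℤ) = s := by
    have : ((∑ S ∈ A, y S : ℕ) : ℤ) = s := by
      rw [hy1, Int.toNat_of_nonneg hs0]
    rw [← this]
    push_cast
    rfl
  obtain ⟨d, hd⟩ : ∃ d : V → ℤ, d = fun v => z v - cmb A (fun S => (y S : ℤ)) v := ⟨_, rfl⟩
  have hd0 : ∀ v, 0 ≤ d v := by
    intro v
    rw [hd]
    have h2 := hy2 v
    have h3 : ((cmb A y v : ℕ) : ℤ) ≤ ((z v).toNat : ℤ) := by exact_mod_cast h2
    rw [cmb_cast_nat, Int.toNat_of_nonneg (hz v)] at h3
    simp only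
    linarith
  have hdU : ∀ U : Finset V, ∑ v ∈ U, d v
      = ∑ v ∈ U, z v - ∑ S ∈ A, (y S : ℤ) * ((S ∩ U).card : ℤ) := by
    intro U
    rw [hd, Finset.sum_sub_distrib, sum_cmb]
  -- tightness at the covers of the face
  have hkey : ∀ B ∈ Ms, (∑ v ∈ B, d v = 0) ∧ ∀ S ∈ A, y S ≠ 0 → (S ∩ B).card = 1 := by
    intro B hBM
    have hc : Cov C B := (hF.tig B hBM).1
    have hge : ∀ S ∈ A, 0 ≤ (y S : ℤ) * (((S ∩ B).card : ℤ) - 1) := by
      intro S hS
      apply mul_nonneg (by positivity)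
      have : 1 ≤ (S ∩ B).card := Finset.card_pos.mpr (hc S (hAC S hS))
      have h2 : (1 : ℤ) ≤ ((S ∩ B).card : ℤ) := by exact_mod_cast this
      linarith
    have h3 : ∑ v ∈ B, d v + ∑ S ∈ A, (y S : ℤ) * (((S ∩ B).card : ℤ) - 1) = 0 := by
      rw [hdU B, hB B hBM]
      simp_rw [mul_sub, mul_one]
      rw [Finset.sum_sub_distrib, hsum]
      ring
    have h4 : 0 ≤ ∑ v ∈ B, d v := Finset.sum_nonneg fun v _ => hd0 v
    have h5 : 0 ≤ ∑ S ∈ A, (y S : ℤ) * (((S ∩ B).card : ℤ) - 1) := Finset.sum_nonneg hge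
    refine ⟨by linarith, fun S hS hyS => ?_⟩
    have h6 : ∑ S ∈ A, (y S : ℤ) * (((S ∩ B).card : ℤ) - 1) = 0 := by linarith
    have h7 := (Finset.sum_eq_zero_iff_of_nonneg hge).mp h6 S hS
    rcases mul_eq_zero.mp h7 with h8 | h8
    · exact absurd (by exact_mod_cast h8) hyS
    · have : ((S ∩ B).card : ℤ) = 1 := by linarith
      exact_mod_cast this
  -- all members used have three elements
  have hge3 : ∀ S ∈ A, 0 ≤ (y S : ℤ) * (3 - (S.card : ℤ)) := by
    intro S hS
    apply mul_nonneg (by positivity)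
    have : S.card ≤ 3 := hC.card_le S (hAC S hS)
    have h2 : (S.card : ℤ) ≤ 3 := by exact_mod_cast this
    linarith
  have hdtot : ∑ v, d v = ∑ S ∈ A, (y S : ℤ) * (3 - (S.card : ℤ)) := by
    rw [hdU univ, htot]
    simp_rw [Finset.inter_univ, mul_sub]
    rw [Finset.sum_sub_distrib, ← Finset.sum_mul, hsum]
    ring
  have h33 : ∀ S ∈ A, y S ≠ 0 → S.card = 3 := by
    intro S hS hyS
    by_contra h3
    have hle : S.card ≤ 3 := hC.card_le S (hAC S hS)
    have h2 : S.card ≤ 2 := by omega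
    have hpos : 0 < ∑ v, d v := by
      rw [hdtot]
      apply Finset.sum_pos' hge3
      refine ⟨S, hS, ?_⟩
      apply mul_pos
      · have : 0 < y S := Nat.pos_of_ne_zero hyS
        exact_mod_cast this
      · have : (S.card : ℤ) ≤ 2 := by exact_mod_cast h2
        linarith
    obtain ⟨u, hu⟩ : ∃ u, 0 < d u := by
      by_contra hcon
      push Not at hcon
      have : ∑ v, d v ≤ 0 := Finset.sum_nonpos fun v _ => hcon v
      linarith
    refine INT_pad hC hF (hAC S hS) h2 (fun B hB => (hkey B hB).2 S hS hyS) (u := u) ?_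
    intro B hBM huB
    have h8 := (Finset.sum_eq_zero_iff_of_nonneg (fun v _ => hd0 v)).mp (hkey B hBM).1 u huB
    linarith
  have hdz : ∀ v, d v = 0 := by
    have h9 : ∑ v, d v = 0 := by
      rw [hdtot]
      apply Finset.sum_eq_zero
      intro S hS
      by_cases hyS : y S = 0
      · rw [hyS]
        simp
      · rw [h33 S hS hyS]
        norm_num
    intro v
    exact (Finset.sum_eq_zero_iff_of_nonneg (fun v _ => hd0 v)).mp h9 v (Finset.mem_univ v)
  refine ⟨fun S => (y S : ℤ), ?_⟩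
  have hsubA : av (Em C Ms) x ⊆ A := by
    intro S hS
    rw [mem_av, mem_Em] at hS
    rw [hA]
    exact mem_av.mpr ⟨hS.1.1, hS.2⟩
  rw [← cmb_subset hsubA]
  · funext v
    have := hdz v
    rw [hd] at this
    simp only at this
    linarith
  · intro S hS hnot
    by_contra hy0
    have hyS : y S ≠ 0 := by
      intro h
      apply hy0
      rw [h]
      rfl
    apply hnot
    rw [mem_av, mem_Em]
    have hSx : x ∉ S := (mem_av.mp (hA ▸ hS)).2
    exact ⟨⟨hAC S hS, h33 S hS hyS, fun B hB => (hkey B hB).2 S hS hyS⟩, hSx⟩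

end Pool.Agent.TQS
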