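import Pool.Agent.TQS.Targets

set_option autoImplicit false
set_option linter.unusedSectionVars false

/-!
# Project TQS: target KPD
-/

namespace Pool.Agent.TQS

open Finset

namespace KPD_

variable {V : Type} [Fintype V] [DecidableEq V]

/-- the vector above a small member -/
theorem pad_of {C : Finset (Finset V)} {S : Finset V} (hS : S ∈ C) (h2 : S.card ≤ 3) (u : V) :
    Pad C (ind S + fun v => (3 - (S.card : ℤ)) * un u v) := by
  refine ⟨fun v => ?_, ?_, S, hS, fun v hv => ?_⟩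
  · simp only [Pi.add_apply, ind, un]
    split_ifs <;> simp <;> omega
  · simp only [Pi.add_apply, Finset.sum_add_distrib, ← Finset.mul_sum, sum_ind_univ,
      sum_un_univ]
    ring
  · simp only [Pi.add_apply, ind, un, if_pos hv]
    split_ifs <;> simp
    omega

theorem nd_pad (S B : Finset V) (u : V) (hu : u ∉ B) :
    nd B (ind S + fun v => (3 - (S.card : ℤ)) * un u v) = 3 * ((S ∩ B).card : ℤ) - 3 := by
  rw [nd_add, nd_mul, nd_ind, nd_un, if_neg hu]
  ring

theorem eq_of_ind {S T : Finset V} {u : V} (hS3 : S.card = 3)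
    (h : ind S + (fun v => (3 - (S.card : ℤ)) * un u v) = ind T) : S = T := by
  ext v
  have h4 := congrFun h v
  rw [hS3] at h4
  simp only [Pi.add_apply, ind, Nat.cast_ofNat, sub_self, zero_mul, add_zero] at h4
  constructor
  · intro hv
    by_contra hv'
    rw [if_pos hv, if_neg hv'] at h4
    omega
  · intro hv
    by_contra hv'
    rw [if_neg hv', if_pos hv] at h4
    omega

/-- the sum of the members of the face is interior -/
theorem interior {C Ms : Finset (Finset V)} {w : V → ℤ} {t : ℤ} (hF : Fac C w t Ms)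
    {U : Finset V} (hU : Cov C U) (hUM : U ∉ Ms) :
    3 ≤ nd U (cmb (Em C Ms) (fun _ => (1 : ℚ))) := by
  have hex : ∃ T ∈ Em C Ms, (T ∩ U).card ≠ 1 := by
    by_contra hcon
    apply hUM
    apply hF.clo U hU
    intro T hT
    by_contra hne
    exact hcon ⟨T, hT, hne⟩
  obtain ⟨T, hT, hne⟩ := hex
  rw [nd_cmb]
  have hone : ∀ S ∈ Em C Ms, (1 : ℚ) ≤ ((S ∩ U).card : ℚ) := by
    intro S hS
    have hc : 0 < (S ∩ U).card := Finset.card_pos.mpr (hU S (mem_Em.mp hS).1)
    exact_mod_cast hc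
  have hcard : ∀ S ∈ Em C Ms, (S.card : ℚ) = 3 := by
    intro S hS
    have h3' := (mem_Em.mp hS).2.1
    rw [h3']
    norm_num
  have hterm : ∀ S ∈ Em C Ms, (0 : ℚ) ≤ 1 * (3 * ((S ∩ U).card : ℚ) - S.card) := by
    intro S hS
    have h1' := hone S hS
    rw [hcard S hS]
    linarith
  have hTc : (3 : ℚ) ≤ 1 * (3 * ((T ∩ U).card : ℚ) - T.card) := by
    have hc : 0 < (T ∩ U).card := Finset.card_pos.mpr (hU T (mem_Em.mp hT).1)
    have hc2 : 2 ≤ (T ∩ U).card := by omega
    have hc2' : (2 : ℚ) ≤ ((T ∩ U).card : ℚ) := by exact_mod_cast hc2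
    rw [hcard T hT]
    linarith
  exact hTc.trans (Finset.single_le_sum hterm hT)

end KPD_

open KPD_ in
theorem p_KPD (h1 : T_DCV) : T_KPD := by
  intro V _ _ C hM w t Ms hH hF z hznn hzpos
  classical
  by_contra hno
  have hno' : ∀ g, Pad C g → (∀ B ∈ Ms, nd B z = 0 → nd B g = 0) → ∀ B ∈ Ms, nd B g = 0 := by
    intro g hg h0 B hB
    by_contra hne
    exact hno ⟨g, hg, ⟨B, hB, hne⟩, h0⟩
  set z0 : V → ℚ := cmb (Em C Ms) (fun _ => (1 : ℚ)) with hz0
  have hz0v : ∀ v, 1 ≤ z0 v := by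
    intro v
    obtain ⟨T, hT, hv⟩ := h1 V C hM w t Ms hH hF v
    rw [hz0, cmb_apply, Finset.sum_const, nsmul_eq_mul, mul_one]
    have hpos : 0 < ((Em C Ms).filter (fun S => v ∈ S)).card :=
      Finset.card_pos.mpr ⟨T, Finset.mem_filter.mpr ⟨hT, hv⟩⟩
    exact_mod_cast hpos
  have hz0S : InS (Em C Ms) z0 := ⟨_, rfl⟩
  have hMs0 : ∀ B ∈ Ms, nd B z0 = 0 := fun B hB => nd_InS hz0S hB
  set N : ℚ := ∑ U : Finset V, |nd U z| + ∑ v, |z v| with hN
  have hN0 : 0 ≤ N := by
    rw [hN]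
    exact add_nonneg (Finset.sum_nonneg fun _ _ => abs_nonneg _)
      (Finset.sum_nonneg fun _ _ => abs_nonneg _)
  have hNv : ∀ v, |z v| ≤ N := by
    intro v
    have ha : |z v| ≤ ∑ v, |z v| :=
      Finset.single_le_sum (f := fun v => |z v|) (fun _ _ => abs_nonneg _) (Finset.mem_univ v)
    have hb : 0 ≤ ∑ U : Finset V, |nd U z| := Finset.sum_nonneg fun _ _ => abs_nonneg _
    rw [hN]
    linarith
  have hNU : ∀ U, |nd U z| ≤ N := by
    intro U
    have ha : |nd U z| ≤ ∑ U : Finset V, |nd U z| :=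
      Finset.single_le_sum (f := fun U => |nd U z|) (fun _ _ => abs_nonneg _) (Finset.mem_univ U)
    have hb : 0 ≤ ∑ v, |z v| := Finset.sum_nonneg fun _ _ => abs_nonneg _
    rw [hN]
    linarith
  set z1 : V → ℚ := z + fun v => N * z0 v with hz1
  have hnd : ∀ U, nd U z1 = nd U z + N * nd U z0 := by
    intro U
    rw [hz1, nd_add, nd_mul]
  have hz1v : ∀ v, 0 ≤ z1 v := by
    intro v
    have ha := neg_abs_le (z v)
    have hb := hNv v
    have hc : N * 1 ≤ N * z0 v := mul_le_mul_of_nonneg_left (hz0v v) hN0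
    simp only [hz1, Pi.add_apply]
    linarith
  have hz1B : ∀ B ∈ Ms, nd B z1 = nd B z := by
    intro B hB
    rw [hnd, hMs0 B hB]
    ring
  have hz1U : ∀ U, Cov C U → 0 ≤ nd U z1 := by
    intro U hU
    by_cases hUM : U ∈ Ms
    · rw [hz1B U hUM]
      exact hznn U hUM
    · rw [hnd]
      have ha := neg_abs_le (nd U z)
      have hb := hNU U
      have hc : N * 3 ≤ N * nd U z0 := mul_le_mul_of_nonneg_left (interior hF hU hUM) hN0
      linarith
  have hs : ∀ U, Cov C U → (∑ v, z1 v) / 3 ≤ ∑ v ∈ U, z1 v := by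
    intro U hU
    have h := hz1U U hU
    unfold nd at h
    linarith
  obtain ⟨y, hy0, hys, hyz⟩ := hM.frac z1 ((∑ v, z1 v) / 3) hz1v
    (div_nonneg (Finset.sum_nonneg fun v _ => hz1v v) (by norm_num)) hs
  -- the tight covers of `z`
  have hB : ∀ B ∈ Ms, nd B z = 0 →
      (∀ S ∈ C, y S ≠ 0 → (S ∩ B).card = 1) ∧ ∀ v ∈ B, cmb C y v = z1 v := by
    intro B hBm hBz0
    have hBc : Cov C B := (hF.tig B hBm).1
    have hBz : ∑ v ∈ B, z1 v = (∑ v, z1 v) / 3 := by
      have h : nd B z1 = 0 := by rw [hz1B B hBm, hBz0]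
      unfold nd at h
      linarith
    have h4 : ∑ v ∈ B, cmb C y v ≤ ∑ v ∈ B, z1 v := Finset.sum_le_sum fun v _ => hyz v
    have h5 : ∀ T ∈ C, y T ≤ y T * ((T ∩ B).card : ℚ) := by
      intro T hT
      have h6 : (1 : ℚ) ≤ ((T ∩ B).card : ℚ) := by
        exact_mod_cast Finset.card_pos.mpr (hBc T hT)
      nlinarith [hy0 T]
    have h8 : ∑ T ∈ C, y T ≤ ∑ T ∈ C, y T * ((T ∩ B).card : ℚ) := Finset.sum_le_sum h5
    rw [← sum_cmb] at h8
    constructor
    · intro S hSC hyS
      have h7 : ∑ T ∈ C, y T = ∑ T ∈ C, y T * ((T ∩ B).card : ℚ) := by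
        rw [← sum_cmb]
        linarith
      have h9 := (Finset.sum_eq_sum_iff_of_le h5).mp h7 S hSC
      have h10 : y S * (((S ∩ B).card : ℚ) - 1) = 0 := by linarith
      rcases mul_eq_zero.mp h10 with h | h
      · exact absurd h hyS
      · have h11 : ((S ∩ B).card : ℚ) = 1 := by linarith
        exact_mod_cast h11
    · have h7 : ∑ v ∈ B, cmb C y v = ∑ v ∈ B, z1 v := by linarith
      exact (Finset.sum_eq_sum_iff_of_le fun v _ => hyz v).mp h7
  -- a used member with an element outside of the tight covers is exact for the whole face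
  have hex : ∀ S ∈ C, y S ≠ 0 → ∀ u, (S.card = 3 ∨ ∀ B ∈ Ms, nd B z = 0 → u ∉ B) →
      ∃ T ∈ Em C Ms, ind S + (fun v => (3 - (S.card : ℤ)) * un u v) = ind T := by
    intro S hSC hyS u hu
    have hg := pad_of hSC (hM.card_le S hSC) u
    refine hF.np _ hg (hno' _ hg ?_)
    intro B hBm hBz
    have h1B := (hB B hBm hBz).1 S hSC hyS
    rcases hu with hu | hu
    · rw [nd_add, nd_mul, nd_ind, h1B, hu]
      push_cast
      ring
    · rw [nd_pad S B u (hu B hBm hBz), h1B]
      norm_num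
  have h3 : ∀ S ∈ C, y S ≠ 0 → S.card = 3 := by
    intro S hSC hyS
    by_contra hne
    have hle : S.card ≤ 2 := by
      have := hM.card_le S hSC
      omega
    have h4 : ∑ v, cmb C y v < ∑ v, z1 v := by
      have h5 : ∑ v, z1 v = ∑ T ∈ C, y T * 3 := by
        rw [← Finset.sum_mul, hys]
        ring
      rw [h5, sum_cmb_univ]
      apply Finset.sum_lt_sum
      · intro T hT
        have h6 : (T.card : ℚ) ≤ 3 := by exact_mod_cast hM.card_le T hT
        nlinarith [hy0 T]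
      · refine ⟨S, hSC, ?_⟩
        have h6 : (S.card : ℚ) ≤ 2 := by exact_mod_cast hle
        have h7 : 0 < y S := lt_of_le_of_ne (hy0 S) (Ne.symm hyS)
        nlinarith
    obtain ⟨u, _, hu⟩ := Finset.exists_lt_of_sum_lt h4
    obtain ⟨T, hT, hgT⟩ := hex S hSC hyS u (Or.inr fun B hBm hBz huB =>
      absurd ((hB B hBm hBz).2 u huB) hu.ne)
    obtain ⟨hTC, hT3, _⟩ := mem_Em.mp hT
    have hST : S ⊆ T := by
      intro v hv
      by_contra hvT
      have h3 := congrFun hgT v
      simp only [Pi.add_apply, ind, un, if_pos hv, if_neg hvT] at h3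
      split_ifs at h3 <;> omega
    have h4 := hM.anti S hSC T hTC hST
    rw [h4, hT3] at hle
    omega
  have hE : ∀ S ∈ C, y S ≠ 0 → S ∈ Em C Ms := by
    intro S hSC hyS
    have hS3 := h3 S hSC hyS
    obtain ⟨u, _⟩ : S.Nonempty := Finset.card_pos.mp (by omega)
    obtain ⟨T, hT, hgT⟩ := hex S hSC hyS u (Or.inl hS3)
    have hST : S = T := eq_of_ind hS3 hgT
    rw [hST]
    exact hT
  have h2 : ∀ v, cmb C y v = z1 v := by
    have h4 : ∑ v, cmb C y v = ∑ v, z1 v := by
      have h5 : ∑ v, z1 v = ∑ T ∈ C, y T * 3 := by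
        rw [← Finset.sum_mul, hys]
        ring
      rw [h5, sum_cmb_univ]
      refine Finset.sum_congr rfl fun S hSC => ?_
      by_cases hyS : y S = 0
      · simp [hyS]
      · rw [h3 S hSC hyS]
        norm_num
    intro v
    exact (Finset.sum_eq_sum_iff_of_le fun v _ => hyz v).mp h4 v (Finset.mem_univ v)
  have h5 : Em C Ms ⊆ C := fun S hS => (mem_Em.mp hS).1
  have h6 : cmb C y = cmb (Em C Ms) y := by
    rw [cmb_subset h5 y]
    intro S hSC hSE
    by_contra hyS
    exact hSE (hE S hSC hyS)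
  have h7 : InS (Em C Ms) z1 := ⟨y, by rw [← h6]; funext v; exact (h2 v).symm⟩
  obtain ⟨B, hBm, hBp⟩ := hzpos
  have h8 := nd_InS h7 hBm
  rw [hz1B B hBm] at h8
  exact absurd h8 hBp.ne'

end Pool.Agent.TQS
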