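import Pool.Agent.TQS.Targets

set_option autoImplicit false

/-!
# Project TQS: target LAT
-/

namespace Pool.Agent.TQS

open Finset

namespace LAT_

theorem term {V : Type} [Fintype V] [DecidableEq V] (S U : Finset V) (q : ℤ)
    (h3 : S.card = 3) (h0 : (S ∩ U).Nonempty) (h2 : (S ∩ U).card ≠ 2) :
    (6 : ℤ) ∣ q * (3 * ((S ∩ U).card : ℤ) - (S.card : ℤ)) := by
  have hle : (S ∩ U).card ≤ 3 := by
    rw [← h3]
    exact Finset.card_le_card Finset.inter_subset_left
  have hpos : 0 < (S ∩ U).card := Finset.card_pos.mpr h0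
  have hc : (S ∩ U).card = 1 ∨ (S ∩ U).card = 3 := by omega
  rw [h3]
  rcases hc with hc | hc
  · rw [hc]
    norm_num
  · rw [hc]
    refine ⟨q, ?_⟩
    push_cast
    ring

end LAT_

theorem p_LAT (h1 : T_WCN) (h2 : T_EVN) : T_LAT := by
  intro V _ _ C hC w t hH hq
  obtain ⟨q, hq, hw⟩ := hq
  obtain ⟨y, _, hyc, hyw⟩ := h1 V C hC w t hH
  have hne : Nonempty V := by
    by_contra hV
    rw [not_nonempty_iff] at hV
    exact hH.notM ⟨fun _ => 0, fun S hS => absurd rfl hS, fun v => hV.elim v⟩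
  obtain ⟨v⟩ := hne
  have hA : ∃ A, Cor C w t A := by
    by_contra h
    have hz : ∀ S, y S = 0 := fun S => by
      by_contra hS
      exact h ⟨S, hyc S hS⟩
    have h3 := hyw v
    rw [cmb_apply, Finset.sum_eq_zero fun S _ => hz S] at h3
    have h4 : w v = 0 := by exact_mod_cast h3
    have h5 := hH.one_le v
    omega
  obtain ⟨A, hA⟩ := hA
  obtain ⟨U, hU, hwU, _, hUT⟩ := h2 V C w t hH A hA
  have e1 : nd U w = 3 := by
    unfold nd
    rw [hwU, hH.tot]
    ring
  have e2 : (6 : ℤ) ∣ nd U w := by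
    have e3 : nd U w = nd U (cmb C q) := congrArg (nd U) hw
    rw [e3, nd_cmb]
    refine Finset.dvd_sum fun S hS => ?_
    by_cases h0 : q S = 0
    · rw [h0]
      simp
    · have hc := hq S h0
      exact LAT_.term S U (q S) (hH.card3 S hc) (hU S hS) (hUT S hc)
  rw [e1] at e2
  norm_num at e2

end Pool.Agent.TQS
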