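import Pool.Agent.TQS.Targets

set_option autoImplicit false
set_option linter.unusedSectionVars false

/-!
# Project TQS: LIN, a linear functional at an element of `V_2`
-/

namespace Pool.Agent.TQS

open Finset

namespace LIN_

section
variable {V : Type} [Fintype V] [DecidableEq V]

/-- the span -/
abbrev sp (X : Finset (Finset V)) : Submodule ℚ (V → ℚ) :=
  Submodule.span ℚ (indq '' (X : Set (Finset V)))

lemma sp_mem {X : Finset (Finset V)} {T : Finset V} (h : T ∈ X) : indq T ∈ sp X :=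
  Submodule.subset_span ⟨T, by exact_mod_cast h, rfl⟩

lemma sp_le {X : Finset (Finset V)} {p : Submodule ℚ (V → ℚ)} (h : ∀ T ∈ X, indq T ∈ p) :
    sp X ≤ p := by
  refine Submodule.span_le.2 ?_
  rintro _ ⟨T, hT, rfl⟩
  exact h T (by exact_mod_cast hT)

lemma sp_av_zero {X : Finset (Finset V)} {v : V} {z : V → ℚ} (h : z ∈ sp (av X v)) :
    z v = 0 := by
  have h1 : sp (av X v) ≤ LinearMap.ker (LinearMap.proj v : (V → ℚ) →ₗ[ℚ] ℚ) := by
    refine sp_le fun T hT => ?_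
    rw [LinearMap.mem_ker, LinearMap.proj_apply]
    unfold indq
    rw [if_neg (mem_av.1 hT).2]
  exact h1 h

/-- the two generators -/
lemma two_gen (X : Finset (Finset V)) (v : V) (h : rk (av X v) + 2 = rk X) :
    ∃ T1 T2 : Finset V, T1 ∈ X ∧ T2 ∈ X ∧ v ∈ T1 ∧ v ∈ T2 ∧
      indq T1 ∉ sp (av X v) ⊔ Submodule.span ℚ {indq T2} ∧
      (sp (av X v) ⊔ Submodule.span ℚ {indq T1}) ⊔ Submodule.span ℚ {indq T2} = sp X := by
  have hHW : sp (av X v) ≤ sp X := sp_le fun T hT => sp_mem (mem_av.1 hT).1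
  have hr : Module.finrank ℚ (sp (av X v)) + 2 = Module.finrank ℚ (sp X) := h
  have e1 : ∃ T1 ∈ X, indq T1 ∉ sp (av X v) := by
    by_contra hc
    push Not at hc
    have := Submodule.finrank_mono (sp_le hc)
    omega
  obtain ⟨T1, hT1, hn1⟩ := e1
  have f1 : Module.finrank ℚ (sp (av X v) ⊔ Submodule.span ℚ {indq T1} :
      Submodule ℚ (V → ℚ)) = Module.finrank ℚ (sp (av X v)) + 1 :=
    Submodule.finrank_sup_span_singleton hn1
  have e2 : ∃ T2 ∈ X, indq T2 ∉ sp (av X v) ⊔ Submodule.span ℚ {indq T1} := by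
    by_contra hc
    push Not at hc
    have := Submodule.finrank_mono (sp_le hc)
    omega
  obtain ⟨T2, hT2, hn2⟩ := e2
  have f2 : Module.finrank ℚ ((sp (av X v) ⊔ Submodule.span ℚ {indq T1}) ⊔
      Submodule.span ℚ {indq T2} : Submodule ℚ (V → ℚ)) =
      Module.finrank ℚ (sp (av X v) ⊔ Submodule.span ℚ {indq T1} :
        Submodule ℚ (V → ℚ)) + 1 := Submodule.finrank_sup_span_singleton hn2
  have hle : (sp (av X v) ⊔ Submodule.span ℚ {indq T1}) ⊔ Submodule.span ℚ {indq T2} ≤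
      sp X := by
    refine sup_le (sup_le hHW ?_) ?_
    · rw [Submodule.span_singleton_le_iff_mem]
      exact sp_mem hT1
    · rw [Submodule.span_singleton_le_iff_mem]
      exact sp_mem hT2
  have heq := Submodule.eq_of_le_of_finrank_le hle (by omega)
  refine ⟨T1, T2, hT1, hT2, ?_, ?_, ?_, heq⟩
  · by_contra hv
    exact hn1 (sp_mem (mem_av.2 ⟨hT1, hv⟩))
  · by_contra hv
    exact hn2 (Submodule.mem_sup_left (sp_mem (mem_av.2 ⟨hT2, hv⟩)))
  · intro hm
    rw [Submodule.mem_sup] at hm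
    obtain ⟨y, hy, z, hz, hyz⟩ := hm
    rw [Submodule.mem_span_singleton] at hz
    obtain ⟨c, rfl⟩ := hz
    rcases eq_or_ne c 0 with h0 | h0
    · rw [h0, zero_smul, add_zero] at hyz
      exact hn1 (hyz ▸ hy)
    · apply hn2
      have e3 : indq T2 = c⁻¹ • (indq T1 - y) := by
        rw [← hyz, add_sub_cancel_left, smul_smul, inv_mul_cancel₀ h0, one_smul]
      rw [e3]
      refine Submodule.smul_mem _ _ (Submodule.sub_mem _ ?_ ?_)
      · exact Submodule.mem_sup_right (Submodule.mem_span_singleton_self _)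
      · exact Submodule.mem_sup_left hy

end

end LIN_

open LIN_ in
theorem p_LIN : T_LIN := by
  intro V _ _ X v h
  obtain ⟨T1, T2, hT1, hT2, hv1, hv2, hn, hW⟩ := two_gen X v h
  obtain ⟨f, hf1, hf2⟩ := Submodule.exists_le_ker_of_notMem hn
  have g1 : ∀ z ∈ sp (av X v), f z = 0 := fun z hz => hf2 (Submodule.mem_sup_left hz)
  have g2 : f (indq T2) = 0 :=
    hf2 (Submodule.mem_sup_right (Submodule.mem_span_singleton_self _))
  -- normalised functional
  obtain ⟨φ0, a0, a1, a2⟩ : ∃ φ0 : (V → ℚ) →ₗ[ℚ] ℚ, (∀ z ∈ sp (av X v), φ0 z = 0) ∧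
      φ0 (indq T1) = 1 ∧ φ0 (indq T2) = 0 := by
    refine ⟨(f (indq T1))⁻¹ • f, fun z hz => ?_, ?_, ?_⟩
    · rw [LinearMap.smul_apply, g1 z hz, smul_zero]
    · rw [LinearMap.smul_apply, smul_eq_mul, inv_mul_cancel₀ hf1]
    · rw [LinearMap.smul_apply, g2, smul_zero]
  have hne : (X.filter fun T => v ∈ T).Nonempty := ⟨T1, Finset.mem_filter.2 ⟨hT1, hv1⟩⟩
  obtain ⟨Ta, hTa, hmax⟩ := Finset.exists_max_image _ (fun T => φ0 (indq T)) hne
  obtain ⟨Tb, hTb, hmin⟩ := Finset.exists_min_image _ (fun T => φ0 (indq T)) hne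
  rw [Finset.mem_filter] at hTa hTb
  have k1 : 1 ≤ φ0 (indq Ta) := by
    have := hmax T1 (Finset.mem_filter.2 ⟨hT1, hv1⟩)
    linarith
  have k2 : φ0 (indq Tb) ≤ 0 := by
    have := hmin T2 (Finset.mem_filter.2 ⟨hT2, hv2⟩)
    linarith
  have hd : 0 < φ0 (indq Ta) - φ0 (indq Tb) := by linarith
  have ev : ∀ T : Finset V, v ∈ T → indq T v = 1 := fun T hT => by
    unfold indq
    rw [if_pos hT]
  have hφ : ∀ z : V → ℚ, ((φ0 (indq Ta) - φ0 (indq Tb))⁻¹ •
      (φ0 - φ0 (indq Tb) • (LinearMap.proj v : (V → ℚ) →ₗ[ℚ] ℚ))) z =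
      (φ0 z - φ0 (indq Tb) * z v) / (φ0 (indq Ta) - φ0 (indq Tb)) := by
    intro z
    rw [LinearMap.smul_apply, LinearMap.sub_apply, LinearMap.smul_apply, LinearMap.proj_apply,
      smul_eq_mul, smul_eq_mul]
    field_simp
  refine ⟨(φ0 (indq Ta) - φ0 (indq Tb))⁻¹ •
      (φ0 - φ0 (indq Tb) • (LinearMap.proj v : (V → ℚ) →ₗ[ℚ] ℚ)), Ta, Tb, hTa.1, hTb.1,
      hTa.2, hTb.2, ?_, ?_, ?_, ?_, ?_⟩
  · rw [hφ, ev Ta hTa.2, mul_one, div_self hd.ne']
  · rw [hφ, ev Tb hTb.2, mul_one, sub_self, zero_div]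
  · intro T hT hvT
    have hm : indq T ∈ sp (av X v) := sp_mem (mem_av.2 ⟨hT, hvT⟩)
    rw [hφ, a0 _ hm, sp_av_zero hm]
    simp
  · intro T hT hvT
    have h1 := hmax T (Finset.mem_filter.2 ⟨hT, hvT⟩)
    have h2 := hmin T (Finset.mem_filter.2 ⟨hT, hvT⟩)
    rw [hφ, ev T hvT, mul_one]
    constructor
    · exact div_nonneg (by linarith) hd.le
    · rw [div_le_one hd]
      linarith
  · intro z hz hz0 hzv
    rw [hφ, hzv, mul_zero, sub_zero, div_eq_zero_iff] at hz0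
    have hz1 : φ0 z = 0 := by
      rcases hz0 with h1 | h1
      · exact h1
      · exact absurd h1 hd.ne'
    have hzW : z ∈ sp X := mem_span_iff.2 hz
    rw [← hW, Submodule.mem_sup] at hzW
    obtain ⟨y, hy, s, hs, rfl⟩ := hzW
    rw [Submodule.mem_sup] at hy
    obtain ⟨x, hx, r, hr, rfl⟩ := hy
    rw [Submodule.mem_span_singleton] at hs hr
    obtain ⟨β, rfl⟩ := hs
    obtain ⟨α, rfl⟩ := hr
    rw [map_add, map_add, map_smul, map_smul, a0 x hx, a1, a2, smul_eq_mul, smul_eq_mul,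
      mul_one, mul_zero, zero_add, add_zero] at hz1
    rw [Pi.add_apply, Pi.add_apply, Pi.smul_apply, Pi.smul_apply, sp_av_zero hx, ev T1 hv1,
      ev T2 hv2, hz1, smul_eq_mul, smul_eq_mul, zero_mul, zero_add, zero_add, mul_one] at hzv
    rw [hz1, hzv, zero_smul, zero_smul, add_zero, add_zero]
    exact mem_span_iff.1 hx

end Pool.Agent.TQS
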