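import Pool.Agent.TQS.Targets

/-!
# Project TQS: target M2 (the rank drops by at least two)
-/

set_option autoImplicit false

namespace Pool.Agent.TQS

open Finset

namespace M2_

variable {V : Type} [Fintype V] [DecidableEq V]

theorem key {X : Finset (Finset V)} {v : V} {T : Finset V} (hT : T ∈ X) (hvT : v ∈ T)
    (hr : ¬ rk (av X v) + 2 ≤ rk X) {z : V → ℚ} (hz : InS X z) (hzv : z v = 0) :
    InS (av X v) z := by
  let A : Submodule ℚ (V → ℚ) := Submodule.span ℚ (indq '' (av X v : Set (Finset V)))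
  let B : Submodule ℚ (V → ℚ) := Submodule.span ℚ (indq '' (X : Set (Finset V)))
  let H : Submodule ℚ (V → ℚ) := B ⊓ LinearMap.ker (LinearMap.proj v : (V → ℚ) →ₗ[ℚ] ℚ)
  have hAB : A ≤ B := by
    refine Submodule.span_mono (Set.image_mono ?_)
    intro S hS
    exact Finset.mem_coe.mpr (mem_av.mp (Finset.mem_coe.mp hS)).1
  have hAH : A ≤ H := by
    refine le_inf hAB ?_
    refine Submodule.span_le.mpr ?_
    rintro _ ⟨S, hS, rfl⟩
    have h := (mem_av.mp (Finset.mem_coe.mp hS)).2
    change indq S ∈ LinearMap.ker (LinearMap.proj v : (V → ℚ) →ₗ[ℚ] ℚ)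
    rw [LinearMap.mem_ker, LinearMap.proj_apply]
    unfold indq
    rw [if_neg h]
  have hHB : H < B := by
    refine lt_of_le_of_ne inf_le_left ?_
    intro h
    have hTB : indq T ∈ B := Submodule.subset_span ⟨T, Finset.mem_coe.mpr hT, rfl⟩
    rw [← h] at hTB
    have h' := hTB.2
    change indq T ∈ LinearMap.ker (LinearMap.proj v : (V → ℚ) →ₗ[ℚ] ℚ) at h'
    rw [LinearMap.mem_ker, LinearMap.proj_apply] at h'
    unfold indq at h'
    rw [if_pos hvT] at h'
    exact one_ne_zero h'
  have r1 : Module.finrank ℚ H < Module.finrank ℚ B := Submodule.finrank_lt_finrank_of_lt hHB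
  have r2 : Module.finrank ℚ B < Module.finrank ℚ A + 2 := by
    have h : rk X < rk (av X v) + 2 := not_le.mp hr
    exact h
  have hEq : A = H := Submodule.eq_of_le_of_finrank_le hAH (by omega)
  have hzH : z ∈ H := by
    refine ⟨mem_span_iff.mpr hz, ?_⟩
    change z ∈ LinearMap.ker (LinearMap.proj v : (V → ℚ) →ₗ[ℚ] ℚ)
    rw [LinearMap.mem_ker, LinearMap.proj_apply, hzv]
  rw [← hEq] at hzH
  exact mem_span_iff.mp hzH

end M2_

theorem p_M2 (h1 : T_DCV) (h2 : T_SPN) (h3 : T_SAT) : T_M2 := by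
  intro V _ _ C hC w t Ms hw hF v
  by_contra hcon
  obtain ⟨T, hT, hvT⟩ := h1 V C hC w t Ms hw hF v
  have hwS : InS (Em C Ms) (fun u => (w u : ℚ)) := by
    refine h2 V C hC w t Ms hw hF _ ?_
    intro B hB
    rw [nd_cast]
    have hB' := (hF.tig B hB).2
    have ht := hw.tot
    unfold nd
    rw [hB', ht]
    simp
  have hz : InS (Em C Ms) (fun u => ((w u - w v * ind T u : ℤ) : ℚ)) := by
    have h := hwS.sub ((InS.mem hT).smul (w v : ℚ))
    have e : (fun u => ((w u - w v * ind T u : ℤ) : ℚ)) =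
        (fun u => (w u : ℚ)) - (w v : ℚ) • indq T := by
      funext u
      simp only [Pi.sub_apply, Pi.smul_apply, smul_eq_mul, ind, indq]
      push_cast
      ring
    rw [e]
    exact h
  have hzv : (fun u => ((w u - w v * ind T u : ℤ) : ℚ)) v = 0 := by
    simp [ind, hvT]
  have h4 := h3 V C hC w t Ms hF v (fun u => w u - w v * ind T u)
    (M2_.key hT hvT hcon hz hzv)
  have h5 : InL (Em C Ms) (fun u => w u - w v * ind T u) :=
    h4.mono (fun S hS => (mem_av.mp hS).1)
  have h6 := h5.add ((InL.mem hT).smul (w v))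
  refine hF.notL ?_
  have e : w = (fun u => w u - w v * ind T u) + w v • ind T := by
    funext u
    simp only [Pi.add_apply, Pi.smul_apply, smul_eq_mul]
    ring
  rw [e]
  exact h6

end Pool.Agent.TQS
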