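import Pool.Agent.TQS.Targets

set_option autoImplicit false

/-!
# Project TQS: target MNE
-/

namespace Pool.Agent.TQS

open Finset

theorem MNE_.nonemptyV {V : Type} [Fintype V] [DecidableEq V] {C : Finset (Finset V)}
    (hC : MinC C) : Nonempty V := by
  by_contra hV
  rw [not_nonempty_iff] at hV
  apply hC.not_meng
  intro w s h
  have hno : ∀ S ∈ C, False := by
    intro S hS
    obtain ⟨x, _⟩ := hC.ne S hS
    exact hV.elim x
  have h0 : s ≤ 0 := by
    have := h ∅ (fun S hS => (hno S hS).elim)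
    simpa using this
  refine ⟨fun _ => 0, ?_, ?_⟩
  · simp
    omega
  · intro v
    exact hV.elim v

theorem MNE_.uni (h1 : T_UNI) {V : Type} [Fintype V] [DecidableEq V] {C : Finset (Finset V)}
    (hC : MinC C) {w : V → ℤ} {t : ℤ} {Ms : Finset (Finset V)} (hF : Fac C w t Ms)
    (h3 : ∀ S ∈ C, S.card = 3) (v : V) : ∃ B ∈ Ms, v ∈ B := by
  obtain ⟨B, hB, hB1, hv⟩ := h1 V C hC h3 v
  exact ⟨B, hF.clo B hB (fun T hT => hB1 T (mem_Em.mp hT).1), hv⟩

theorem MNE_.small {V : Type} [Fintype V] [DecidableEq V] {C : Finset (Finset V)}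
    (hC : MinC C) {w : V → ℤ} {t : ℤ} {Ms : Finset (Finset V)} (hF : Fac C w t Ms)
    {S : Finset V} (hS : S ∈ C) (hS3 : S.card ≠ 3) (u : V) : Ms.Nonempty := by
  by_contra hne
  rw [Finset.not_nonempty_iff_eq_empty] at hne
  have hle := hC.card_le S hS
  have hSc : (S.card : ℤ) ≤ 3 := by exact_mod_cast hle
  have hind : ∀ v, 0 ≤ ind S v := by
    intro v
    unfold ind
    split_ifs <;> norm_num
  have hun : ∀ v, 0 ≤ un u v := by
    intro v
    unfold un
    split_ifs <;> norm_num
  have hpad : Pad C (fun v => ind S v + (3 - (S.card : ℤ)) * un u v) := by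
    refine ⟨?_, ?_, S, hS, ?_⟩
    · intro v
      have h1 := hind v
      have h2 : 0 ≤ (3 - (S.card : ℤ)) * un u v := mul_nonneg (by linarith) (hun v)
      linarith
    · rw [Finset.sum_add_distrib, ← Finset.mul_sum, sum_ind_univ, sum_un_univ]
      ring
    · intro v hv
      have h1 : ind S v = 1 := by
        unfold ind
        rw [if_pos hv]
      have h2 : 0 ≤ (3 - (S.card : ℤ)) * un u v := mul_nonneg (by linarith) (hun v)
      simp only [h1]
      linarith
  obtain ⟨T, hT, hgT⟩ := hF.np _ hpad (by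
    intro B hB
    rw [hne] at hB
    exact absurd hB (Finset.notMem_empty B))
  have hsub : S ⊆ T := by
    intro v hv
    by_contra hvT
    have h1 := congrFun hgT v
    have h2 : ind S v = 1 := by
      unfold ind
      rw [if_pos hv]
    have h3 : ind T v = 0 := by
      unfold ind
      rw [if_neg hvT]
    have h4 : 0 ≤ (3 - (S.card : ℤ)) * un u v := mul_nonneg (by linarith) (hun v)
    simp only [h2, h3] at h1
    linarith
  have heq := hC.anti S hS T (mem_Em.mp hT).1 hsub
  rw [heq] at hS3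
  exact hS3 (mem_Em.mp hT).2.1

theorem p_MNE (h1 : T_UNI) : T_MNE := by
  intro V _ _ C hC w t Ms hF
  refine ⟨?_, fun h3 v => MNE_.uni h1 hC hF h3 v⟩
  obtain ⟨u⟩ := MNE_.nonemptyV hC
  by_cases h3 : ∀ S ∈ C, S.card = 3
  · obtain ⟨B, hB, _⟩ := MNE_.uni h1 hC hF h3 u
    exact ⟨B, hB⟩
  · push Not at h3
    obtain ⟨S, hS, hS3⟩ := h3
    exact MNE_.small hC hF hS hS3 u

end Pool.Agent.TQS
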