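import Pool.Agent.TQS.Targets

set_option autoImplicit false

/-!
# Project TQS, target MPK: a Mengerian family without empty member packs
-/

namespace Pool.Agent.TQS

open Finset

namespace MPK_

variable {V : Type} [Fintype V] [DecidableEq V]

/-- A family of nonempty sets has a cover of minimum size. -/
theorem exists_min (C : Finset (Finset V)) (hne : ∀ S ∈ C, S.Nonempty) :
    ∃ T : Finset V, Cov C T ∧ ∀ U, Cov C U → T.card ≤ U.card := by
  have h : ∃ n, ∃ T : Finset V, Cov C T ∧ T.card = n :=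
    ⟨_, Finset.univ, fun S hS => by rw [Finset.inter_univ]; exact hne S hS, rfl⟩
  classical
  obtain ⟨T, hT, hc⟩ := Nat.find_spec h
  refine ⟨T, hT, fun U hU => ?_⟩
  rw [hc]
  exact Nat.find_min' h ⟨U, hU, rfl⟩

/-- One term of the combination. -/
theorem le_cmb {C : Finset (Finset V)} (y : Finset V → ℕ) {S : Finset V} (hS : S ∈ C) {v : V}
    (hv : v ∈ S) : y S ≤ cmb C y v := by
  rw [cmb_apply]
  exact Finset.single_le_sum (f := y) (fun _ _ => Nat.zero_le _)
    (Finset.mem_filter.mpr ⟨hS, hv⟩)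

/-- Two terms of the combination. -/
theorem two_le_cmb {C : Finset (Finset V)} (y : Finset V → ℕ) {A B : Finset V} (hA : A ∈ C)
    (hB : B ∈ C) (hAB : A ≠ B) {v : V} (hvA : v ∈ A) (hvB : v ∈ B) :
    y A + y B ≤ cmb C y v := by
  rw [cmb_apply, ← Finset.sum_pair (f := y) hAB]
  apply Finset.sum_le_sum_of_subset
  intro S hS
  rcases Finset.mem_insert.mp hS with h | h
  · rw [h]
    exact Finset.mem_filter.mpr ⟨hA, hvA⟩
  · rw [Finset.mem_singleton.mp h]
    exact Finset.mem_filter.mpr ⟨hB, hvB⟩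

end MPK_

open MPK_ in
theorem p_MPK : T_MPK := by
  intro V _ _ C hM hne
  obtain ⟨T, hT, hmin⟩ := exists_min C hne
  obtain ⟨y, hy1, hy2⟩ := hM (fun _ => 1) T.card (fun U hU => by
    rw [Finset.sum_const, smul_eq_mul, mul_one]
    exact hmin U hU)
  refine ⟨T, hT, C.filter (fun S => y S ≠ 0), Finset.filter_subset _ _, ?_, ?_⟩
  · intro A hA B hB hAB
    rw [Finset.mem_filter] at hA hB
    rw [Finset.disjoint_left]
    intro v hvA hvB
    have h1 := two_le_cmb y hA.1 hB.1 hAB hvA hvB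
    have h2 := hy2 v
    have h3 : y A ≠ 0 := hA.2
    have h4 : y B ≠ 0 := hB.2
    change cmb C y v ≤ 1 at h2
    omega
  · have h1 : ∑ S ∈ C.filter (fun S => y S ≠ 0), y S = ∑ S ∈ C, y S :=
      Finset.sum_filter_ne_zero C
    have h2 : ∑ S ∈ C.filter (fun S => y S ≠ 0), y S =
        ∑ S ∈ C.filter (fun S => y S ≠ 0), 1 := by
      refine Finset.sum_congr rfl fun S hS => ?_
      rw [Finset.mem_filter] at hS
      obtain ⟨v, hv⟩ := hne S hS.1
      have h3 := le_cmb y hS.1 hv
      have h4 : cmb C y v ≤ 1 := hy2 v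
      have h5 : y S ≠ 0 := hS.2
      omega
    rw [Finset.card_eq_sum_ones, ← h2, h1, hy1]

end Pool.Agent.TQS
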