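import Pool.Agent.TQS.Targets

set_option autoImplicit false

/-!
# Project TQS (MP_98b56a_co): the target `T_NB`
-/

namespace Pool.Agent.TQS

open Finset

namespace NB_

variable {V : Type} [Fintype V] [DecidableEq V]

/-- A padded vector has value at least one on every cover. -/
theorem pad_cov {C : Finset (Finset V)} {g : V → ℤ} (hg : Pad C g) {U : Finset V}
    (hU : Cov C U) : 1 ≤ ∑ v ∈ U, g v := by
  obtain ⟨h0, _, S, hS, h1⟩ := hg
  obtain ⟨x, hx⟩ := hU S hS
  rw [Finset.mem_inter] at hx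
  have h2 : g x ≤ ∑ v ∈ U, g v :=
    Finset.single_le_sum (f := g) (fun i _ => h0 i) hx.2
  have h3 := h1 x hx.1
  omega

/-- The sum of `sg` against a vector. -/
theorem sum_sg (G G' : V → Finset V) (v : V) (g : V → ℤ) :
    ∑ u, sg G G' v u * g u =
      ∑ u, g u - ∑ u ∈ G v, g u - ∑ u ∈ G' v, g u + 2 * g v := by
  have h1 : ∀ u, sg G G' v u * g u = g u - (if u ∈ G v then g u else 0) -
      (if u ∈ G' v then g u else 0) + (if u = v then 2 * g u else 0) := by
    intro u
    unfold sg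
    split_ifs <;> ring
  rw [Finset.sum_congr rfl fun u _ => h1 u, Finset.sum_add_distrib, Finset.sum_sub_distrib,
    Finset.sum_sub_distrib, Finset.sum_ite_mem, Finset.sum_ite_mem, Finset.univ_inter,
    Finset.univ_inter, Finset.sum_ite_eq' Finset.univ v (fun u => 2 * g u),
    if_pos (Finset.mem_univ v)]

end NB_

theorem p_NB : T_NB := by
  intro V _ _ C w Ms V2 G G' hD g0 g1 hg0 hg1 hB hn
  have hz : ∀ B ∈ Ms, nd B (g0 - g1) = 0 := by
    intro B hBm
    rw [nd_sub, hB B hBm, sub_self]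
  -- the bound for each element
  have hF : ∀ v ∈ V2, ∑ u, sg G G' v u * g0 u ≤ g0 v + g1 v + min (g0 v) (g1 v) := by
    intro v hv
    rw [NB_.sum_sg]
    have e1 := hD.glin v hv (g0 - g1) hz
    have e2 := hD.gpar v hv (g0 - g1) hz
    obtain ⟨c1, c2⟩ := hD.gcov v hv
    have a1 := NB_.pad_cov hg0 c1
    have a2 := NB_.pad_cov hg0 c2
    have a3 := NB_.pad_cov hg1 c1
    have a4 := NB_.pad_cov hg1 c2
    have x0 := hg0.1 v
    have x1 := hg1.1 v
    have s0 := hg0.2.1
    have s1 := hg1.2.1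
    have e3 : ¬ Even (nd (G v) (g0 - g1)) := fun h => hn (e2.mpr h)
    have n1 : nd (G v) (g0 - g1) = 3 * (∑ u ∈ G v, g0 u - ∑ u ∈ G v, g1 u) := by
      rw [nd_sub]
      unfold nd
      rw [s0, s1]
      ring
    have n2 : nd (G' v) (g0 - g1) = 3 * (∑ u ∈ G' v, g0 u - ∑ u ∈ G' v, g1 u) := by
      rw [nd_sub]
      unfold nd
      rw [s0, s1]
      ring
    rw [n1, n2, Pi.sub_apply] at e1
    have e4 : ∑ u ∈ G v, g0 u ≠ ∑ u ∈ G v, g1 u := by
      intro h
      apply e3
      rw [n1, h, sub_self, mul_zero]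
      exact Even.zero
    rw [s0]
    generalize ∑ u ∈ G v, g0 u = a at *
    generalize ∑ u ∈ G' v, g0 u = b at *
    generalize ∑ u ∈ G v, g1 u = a' at *
    generalize ∑ u ∈ G' v, g1 u = b' at *
    omega
  -- the sum of the minima
  have hi : ∑ v, min (g0 v) (g1 v) ≤ 2 := by
    by_contra hc
    have hc' : 3 ≤ ∑ v, min (g0 v) (g1 v) := by omega
    apply hn
    have key : ∀ g : V → ℤ, ∑ v, g v = 3 → (∀ v, min (g0 v) (g1 v) ≤ g v) →
        ∀ v, g v = min (g0 v) (g1 v) := by
      intro g hs hm v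
      have h1 : ∑ v, (g v - min (g0 v) (g1 v)) ≤ 0 := by
        rw [Finset.sum_sub_distrib, hs]
        omega
      have h2 : g v - min (g0 v) (g1 v) ≤ ∑ v, (g v - min (g0 v) (g1 v)) :=
        Finset.single_le_sum (f := fun v => g v - min (g0 v) (g1 v))
          (fun i _ => sub_nonneg.mpr (hm i)) (Finset.mem_univ v)
      have h3 := hm v
      omega
    have h0 := key g0 hg0.2.1 (fun v => min_le_left _ _)
    have h1 := key g1 hg1.2.1 (fun v => min_le_right _ _)
    have h2 : g0 - g1 = 0 := by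
      funext v
      rw [Pi.sub_apply, h0 v, h1 v]
      simp
    rw [h2]
    exact InL.zero _
  -- the total
  have e1 : ∑ u, rr V2 G G' u * g0 u = ∑ v ∈ V2, ∑ u, sg G G' v u * g0 u := by
    rw [Finset.sum_comm]
    refine Finset.sum_congr rfl fun u _ => ?_
    unfold rr
    rw [Finset.sum_mul]
  rw [e1]
  calc ∑ v ∈ V2, ∑ u, sg G G' v u * g0 u
      ≤ ∑ v ∈ V2, (g0 v + g1 v + min (g0 v) (g1 v)) := Finset.sum_le_sum hF
    _ ≤ ∑ v, (g0 v + g1 v + min (g0 v) (g1 v)) := by
        apply Finset.sum_le_sum_of_subset_of_nonneg (Finset.subset_univ _)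
        intro v _ _
        have x0 := hg0.1 v
        have x1 := hg1.1 v
        omega
    _ = ∑ v, g0 v + ∑ v, g1 v + ∑ v, min (g0 v) (g1 v) := by
        rw [Finset.sum_add_distrib, Finset.sum_add_distrib]
    _ ≤ 8 := by
        rw [hg0.2.1, hg1.2.1]
        omega

end Pool.Agent.TQS
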