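import Pool.Agent.TQS.Targets

/-!
# TQS-NM: extreme rays
-/

set_option autoImplicit false

namespace Pool.Agent.TQS

open Finset

/-- The linear form of `r` at two vectors of degree three with proportional values on `Ms`. -/
theorem NM_lin (hNW : T_NW) (V : Type) [Fintype V] [DecidableEq V] (C : Finset (Finset V))
    (hC : MinC C) (w : V → ℤ) (t : ℤ) (Ms : Finset (Finset V)) (hH : Hol C w t)
    (hF : Fac C w t Ms) (V2 : Finset V) (G G' : V → Finset V) (hD : Dta C w Ms V2 G G')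
    (c : ℤ) (g1 g2 : V → ℤ) (h1 : ∑ v, g1 v = 3) (h2 : ∑ v, g2 v = 3)
    (h : ∀ B ∈ Ms, nd B g1 = c * nd B g2) :
    ∑ u, rr V2 G G' u * g1 u = c * ∑ u, rr V2 G G' u * g2 u + (1 - c) * V2.card := by
  have hz : ∀ B ∈ Ms, nd B (fun v => ((g1 v - c * g2 v : ℤ) : ℚ)) = 0 := by
    intro B hB
    rw [nd_cast]
    have e : nd B (fun v => g1 v - c * g2 v) = nd B g1 - c * nd B g2 := by
      have := nd_sub B g1 (fun v => c * g2 v)
      rw [nd_mul] at this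
      exact this
    rw [e, h B hB]
    simp
  have key := hNW V C hC w t Ms hH hF V2 G G' hD _ hz
  have e1 : ∑ u, (rr V2 G G' u : ℚ) * ((g1 u - c * g2 u : ℤ) : ℚ) =
      ((∑ u, rr V2 G G' u * g1 u - c * ∑ u, rr V2 G G' u * g2 u : ℤ) : ℚ) := by
    push_cast
    rw [Finset.mul_sum, ← Finset.sum_sub_distrib]
    refine Finset.sum_congr rfl fun u _ => ?_
    ring
  have e2 : ∑ u, ((g1 u - c * g2 u : ℤ) : ℚ) = ((3 - c * 3 : ℤ) : ℚ) := by
    rw [← Int.cast_sum, Finset.sum_sub_distrib, ← Finset.mul_sum, h1, h2]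
  rw [e1, e2] at key
  have key' : 3 * (∑ u, rr V2 G G' u * g1 u - c * ∑ u, rr V2 G G' u * g2 u) =
      (V2.card : ℤ) * (3 - c * 3) := by
    exact_mod_cast key
  linarith

theorem p_NM (h1 : T_ALP) (h2 : T_BET) (h3 : T_NB) (h4 : T_NC) (h5 : T_PRP) (h6 : T_NW) :
    T_NM := by
  intro V _ _ C hC w t Ms hH hF V2 G G' hD h8 g hg
  have hgg : NNg C Ms g g := ⟨hg.1, hg.2.1, fun _ _ h => h⟩
  have hmax := hF.maxi (Ms.filter (fun B => nd B g = 0)) (Finset.filter_subset _ _)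
    ⟨g, hg.1, fun B hB => (Finset.mem_filter.mp hB).2, hg.2.1⟩
  have hex : ∃ g', NNg C Ms g g' ∧ ∑ u, rr V2 G G' u * g' u ≤ 8 := by
    rcases hmax with hm | hm
    · rcases h1 V C hC w t Ms hH hF g hg hm with ⟨g0, g1, a0, a1, e, n⟩ | ⟨g1, g2, a1, a2, e, n⟩
      · exact ⟨g0, a0, h3 V C w Ms V2 G G' hD g0 g1 a0.1 a1.1 e n⟩
      · exact ⟨g1, a1, h4 V C w Ms V2 G G' hD g1 g2 a1.1 a2.1 e n⟩
    · obtain ⟨g0, g1, a0, a1, e, n⟩ := h2 V C hC w t Ms hF V2 G G' hD g hg hm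
      exact ⟨g0, a0, h3 V C w Ms V2 G G' hD g0 g1 a0.1 a1.1 e n⟩
  obtain ⟨g', hg', hle⟩ := hex
  have hs : ∑ v, g v = 3 := hg.1.2.1
  have hs' : ∑ v, g' v = 3 := hg'.1.2.1
  have hc : (8 : ℤ) ≤ V2.card := by exact_mod_cast h8
  rcases h5 V C hC w t Ms hH hF g g g' hg hgg hg' with e | e | e
  · have := NM_lin h6 V C hC w t Ms hH hF V2 G G' hD 1 g g' hs hs'
      (fun B hB => by rw [e B hB, one_mul])
    linarith
  · have := NM_lin h6 V C hC w t Ms hH hF V2 G G' hD 2 g g' hs hs' e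
    linarith
  · have := NM_lin h6 V C hC w t Ms hH hF V2 G G' hD 2 g' g hs' hs e
    linarith

end Pool.Agent.TQS
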