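import Pool.Agent.TQS.Targets

set_option autoImplicit false

/-!
# Project TQS: NN, the claim of Step 5
-/

namespace Pool.Agent.TQS

open Finset

namespace NN_

variable {V : Type} [Fintype V] [DecidableEq V]

/-- padded members are nonnegative on covers -/
theorem nd_pad_nonneg {C : Finset (Finset V)} {g : V → ℤ} (hg : Pad C g) {B : Finset V}
    (hB : Cov C B) : 0 ≤ nd B g := by
  obtain ⟨h0, h3, S, hS, hS1⟩ := hg
  obtain ⟨v, hv⟩ := hB S hS
  rw [mem_inter] at hv
  have h1 : g v ≤ ∑ u ∈ B, g u := single_le_sum (f := g) (fun u _ => h0 u) hv.2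
  have h2 := hS1 v hv.1
  unfold nd
  rw [h3]
  linarith

/-- the support in `Ms` of an integral vector -/
def spp (Ms : Finset (Finset V)) (g : V → ℤ) : Finset (Finset V) := Ms.filter fun B => nd B g ≠ 0

omit [DecidableEq V] in
theorem mem_spp {Ms : Finset (Finset V)} {g : V → ℤ} {B : Finset V} :
    B ∈ spp Ms g ↔ B ∈ Ms ∧ nd B g ≠ 0 := by
  unfold spp
  rw [mem_filter]

/-- a padded member with minimal support below a given one -/
theorem exists_min {C Ms : Finset (Finset V)} (P : Finset V → Prop)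
    (h : ∃ g, Pad C g ∧ (∃ B ∈ Ms, nd B g ≠ 0) ∧ ∀ B ∈ Ms, P B → nd B g = 0) :
    ∃ g, Mng C Ms g ∧ ∀ B ∈ Ms, P B → nd B g = 0 := by
  classical
  have hex : ∃ n : ℕ, ∃ g, (Pad C g ∧ (∃ B ∈ Ms, nd B g ≠ 0) ∧ ∀ B ∈ Ms, P B → nd B g = 0) ∧
      (spp Ms g).card = n := by
    obtain ⟨g, hg⟩ := h
    exact ⟨_, g, hg, rfl⟩
  obtain ⟨g, ⟨h1, h2, h3⟩, h4⟩ := Nat.find_spec hex
  refine ⟨g, ⟨h1, h2, ?_⟩, h3⟩
  intro g' hp' hn' hs' B hB hB0
  have hmin : Nat.find hex ≤ (spp Ms g').card := by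
    refine Nat.find_min' hex ⟨g', ⟨hp', hn', ?_⟩, rfl⟩
    intro B' hB' hPB'
    exact hs' B' hB' (h3 B' hB' hPB')
  have hsub : spp Ms g' ⊆ spp Ms g := by
    intro B' hB'
    rw [mem_spp] at hB' ⊢
    exact ⟨hB'.1, fun h0 => hB'.2 (hs' B' hB'.1 h0)⟩
  have heq : spp Ms g' = spp Ms g := eq_of_subset_of_card_le hsub (by rw [h4]; exact hmin)
  by_contra hne
  have : B ∈ spp Ms g' := by
    rw [heq, mem_spp]
    exact ⟨hB, hne⟩
  rw [mem_spp] at this
  exact this.2 hB0

end NN_

open NN_ in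
/-- Target NN. -/
theorem p_NN (h1 : T_NM) (h2 : T_NW) (h3 : T_KPD) : T_NN := by
  intro V _ _ C hC w t Ms hH hF V2 G G' hD h8
  have main : ∀ n : ℕ, ∀ z : V → ℚ, (∀ B ∈ Ms, 0 ≤ nd B z) →
      (Ms.filter fun B => 0 < nd B z).card = n →
      3 * ∑ u, (rr V2 G G' u : ℚ) * z u ≤ V2.card * ∑ u, z u := by
    intro n
    induction n using Nat.strong_induction_on with
    | _ n ih =>
      intro z hz hn
      by_cases hpos : ∃ B ∈ Ms, 0 < nd B z
      · obtain ⟨g, hg, hg0⟩ := exists_min (C := C) (Ms := Ms) (fun B => nd B z = 0)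
          (h3 V C hC w t Ms hH hF z hz hpos)
        have hNg := h1 V C hC w t Ms hH hF V2 G G' hD h8 g hg
        have hgp : ∀ B ∈ Ms, 0 ≤ nd B g := fun B hB => nd_pad_nonneg hg.1 (hF.tig B hB).1
        have hgne : (spp Ms g).Nonempty := by
          obtain ⟨B, hB, hB'⟩ := hg.2.1
          exact ⟨B, mem_spp.2 ⟨hB, hB'⟩⟩
        obtain ⟨B0, hB0, hmin⟩ := exists_min_image (spp Ms g)
          (fun B => nd B z / ((nd B g : ℤ) : ℚ)) hgne
        have hB0' := mem_spp.1 hB0
        have hgpos : ∀ B ∈ spp Ms g, (0 : ℚ) < ((nd B g : ℤ) : ℚ) := by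
          intro B hB
          have hB' := mem_spp.1 hB
          have h5 : 0 < nd B g := lt_of_le_of_ne (hgp B hB'.1) (Ne.symm hB'.2)
          exact_mod_cast h5
        set l : ℚ := nd B0 z / ((nd B0 g : ℤ) : ℚ) with hl
        have hl0 : 0 ≤ l := div_nonneg (hz B0 hB0'.1) (hgpos B0 hB0).le
        set z' : V → ℚ := z - fun v => l * ((g v : ℤ) : ℚ) with hz'
        have ndz' : ∀ B, nd B z' = nd B z - l * ((nd B g : ℤ) : ℚ) := by
          intro B
          rw [hz', nd_sub, nd_mul, nd_cast]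
        have hz'nn : ∀ B ∈ Ms, 0 ≤ nd B z' := by
          intro B hB
          rw [ndz']
          by_cases hBg : nd B g = 0
          · rw [hBg]
            simpa using hz B hB
          · have hBs : B ∈ spp Ms g := mem_spp.2 ⟨hB, hBg⟩
            have h5 := hmin B hBs
            rw [le_div_iff₀ (hgpos B hBs)] at h5
            linarith
        have hsub : (Ms.filter fun B => 0 < nd B z') ⊆ Ms.filter fun B => 0 < nd B z := by
          intro B hB
          rw [mem_filter] at hB ⊢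
          refine ⟨hB.1, ?_⟩
          have h5 := hB.2
          rw [ndz'] at h5
          have h6 : (0 : ℚ) ≤ ((nd B g : ℤ) : ℚ) := by exact_mod_cast hgp B hB.1
          have h7 := mul_nonneg hl0 h6
          linarith
        have hlt : (Ms.filter fun B => 0 < nd B z').card < n := by
          rw [← hn]
          refine card_lt_card ⟨hsub, fun hcon => ?_⟩
          have hz0 : nd B0 z ≠ 0 := fun h0 => hB0'.2 (hg0 B0 hB0'.1 h0)
          have h5 : B0 ∈ Ms.filter fun B => 0 < nd B z :=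
            mem_filter.2 ⟨hB0'.1, lt_of_le_of_ne (hz B0 hB0'.1) (Ne.symm hz0)⟩
          have h6 := (mem_filter.1 (hcon h5)).2
          rw [ndz', hl, div_mul_cancel₀ _ (hgpos B0 hB0).ne', sub_self] at h6
          exact lt_irrefl _ h6
        have hI := ih _ hlt z' hz'nn rfl
        have e1 : ∑ u, (rr V2 G G' u : ℚ) * z' u =
            ∑ u, (rr V2 G G' u : ℚ) * z u - l * ((∑ u, rr V2 G G' u * g u : ℤ) : ℚ) := by
          rw [Int.cast_sum, mul_sum, ← sum_sub_distrib]
          refine sum_congr rfl fun u _ => ?_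
          rw [hz', Pi.sub_apply, Int.cast_mul]
          ring
        have e2 : ∑ u, z' u = ∑ u, z u - l * 3 := by
          have e3 : ∑ u, ((g u : ℤ) : ℚ) = 3 := by
            have := hg.1.2.1
            exact_mod_cast this
          rw [← e3, mul_sum, ← sum_sub_distrib]
          rfl
        rw [e1, e2] at hI
        have h9 : ((∑ u, rr V2 G G' u * g u : ℤ) : ℚ) ≤ (V2.card : ℚ) := by exact_mod_cast hNg
        have h10 := mul_le_mul_of_nonneg_left h9 hl0
        linarith
      · push Not at hpos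
        have hz0 : ∀ B ∈ Ms, nd B z = 0 := fun B hB => le_antisymm (hpos B hB) (hz B hB)
        exact (h2 V C hC w t Ms hH hF V2 G G' hD z hz0).le
  intro z hz
  exact main _ z hz rfl

end Pool.Agent.TQS
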