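import Pool.Agent.TQS.Targets

set_option autoImplicit false

/-!
# Project TQS: target NW (the function `r` on the span)
-/

namespace Pool.Agent.TQS

open Finset

/-- Pairing a function with a combination. -/
theorem NW_.pair {V : Type} [Fintype V] [DecidableEq V] (X : Finset (Finset V))
    (q : Finset V → ℚ) (r : V → ℚ) :
    ∑ u, r u * cmb X q u = ∑ T ∈ X, q T * ∑ u ∈ T, r u := by
  simp_rw [cmb_apply', Finset.mul_sum]
  rw [Finset.sum_comm]
  refine Finset.sum_congr rfl fun T _ => ?_
  have h : ∀ u, r u * (if u ∈ T then q T else 0) = if u ∈ T then q T * r u else 0 := by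
    intro u
    split_ifs
    · ring
    · ring
  simp_rw [h]
  rw [Finset.sum_ite_mem, Finset.univ_inter]

theorem p_NW (h1 : T_SPN) (h2 : T_SGT) : T_NW := by
  intro V _ _ C hC w t Ms hH hF V2 G G' hD z hz
  obtain ⟨q, rfl⟩ := h1 V C hC w t Ms hH hF z hz
  have hrr : ∀ T ∈ Em C Ms, ∑ u ∈ T, (rr V2 G G' u : ℚ) = V2.card := by
    intro T hT
    have h : ∑ u ∈ T, rr V2 G G' u = (V2.card : ℤ) := by
      unfold rr
      rw [Finset.sum_comm]
      rw [Finset.sum_congr rfl fun v hv => (h2 V C w Ms V2 G G' hD v hv).1 T hT]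
      simp
    have h' := congrArg (fun n : ℤ => (n : ℚ)) h
    push_cast at h'
    exact h'
  rw [NW_.pair (Em C Ms) q (fun u => (rr V2 G G' u : ℚ)), sum_cmb_univ]
  rw [Finset.mul_sum, Finset.mul_sum]
  refine Finset.sum_congr rfl fun T hT => ?_
  rw [hrr T hT, (mem_Em.mp hT).2.1]
  push_cast
  ring

end Pool.Agent.TQS
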