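import Pool.Agent.TQS.Targets

set_option autoImplicit false

/-!
# Project TQS, target ODD: no odd multiple of the hole is a sum of core members
-/

namespace Pool.Agent.TQS

open Finset

section
variable {V : Type} [Fintype V] [DecidableEq V]

/-- The relation between the coefficients in a facet. -/
theorem ODD_rel {C : Finset (Finset V)} {w : V → ℤ} {t : ℤ} {A : Finset (Finset V)}
    (hA : ∀ S ∈ A, S ∈ C ∧ S.card = 3) {j : ℕ} {U T : Finset V} (hF : Fct A C w t j U T)
    {h : Finset V → ℚ} (h0 : ∑ S ∈ A, h S • indq S = 0) :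
    h T = -2 * ∑ S ∈ A.filter (fun S => S ⊆ U), h S := by
  obtain ⟨hU, -, -, hT⟩ := hF
  have h1 : ∑ S ∈ A, h S * (3 * ((S ∩ U).card : ℚ) - S.card) = 0 := by
    have h2 : ndl U (∑ S ∈ A, h S • indq S) = 0 := by
      rw [h0, map_zero]
    rw [map_sum] at h2
    rw [← h2]
    refine Finset.sum_congr rfl fun S _ => ?_
    rw [map_smul, ndl_apply, nd_indq, smul_eq_mul]
  have h3 : ∀ S ∈ A, h S * (3 * ((S ∩ U).card : ℚ) - S.card) =
      6 * (if S ⊆ U then h S else 0) + 3 * (if (S ∩ U).card = 2 then h S else 0) := by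
    intro S hS
    obtain ⟨hSC, hS3⟩ := hA S hS
    have h4 : 1 ≤ (S ∩ U).card := Finset.card_pos.mpr (hU S hSC)
    have h5 : (S ∩ U).card ≤ S.card := Finset.card_le_card Finset.inter_subset_left
    rw [hS3] at h5
    by_cases h6 : S ⊆ U
    · have h7 : (S ∩ U).card = 3 := by
        rw [Finset.inter_eq_left.mpr h6, hS3]
      rw [if_pos h6, if_neg (by omega), h7, hS3]
      push_cast
      ring
    · have h7 : (S ∩ U).card ≠ 3 := by
        intro h8
        apply h6
        have h9 : S ∩ U = S := Finset.eq_of_subset_of_card_le Finset.inter_subset_left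
          (by rw [h8, hS3])
        exact Finset.inter_eq_left.mp h9
      rw [if_neg h6]
      by_cases h8 : (S ∩ U).card = 2
      · rw [if_pos h8, h8, hS3]
        push_cast
        ring
      · have h9 : (S ∩ U).card = 1 := by omega
        rw [if_neg h8, h9, hS3]
        push_cast
        ring
  rw [Finset.sum_congr rfl h3, Finset.sum_add_distrib, ← Finset.mul_sum, ← Finset.mul_sum,
    ← Finset.sum_filter, ← Finset.sum_filter, hT, Finset.sum_singleton] at h1
  linarith

/-- The vectors of a family with these facets are linearly independent. -/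
theorem ODD_ind (h2 : T_REL) {C : Finset (Finset V)} {w : V → ℤ} {t : ℤ} {A : Finset (Finset V)}
    (hA : ∀ S ∈ A, S ∈ C ∧ S.card = 3) {j : ℕ}
    (hex : ∀ S ∈ A, ∃ U T, Fct A C w t j U T ∧ S ⊆ U)
    (hxc : ∀ U T, Fct A C w t j U T → ∀ B ∈ A.filter (fun S => S ⊆ U), ∃ U' T',
      Fct A C w t j U' T' ∧ A.filter (fun S => S ⊆ U') =
        insert T ((A.filter (fun S => S ⊆ U)).erase B))
    {h : Finset V → ℚ} (h0 : ∑ S ∈ A, h S • indq S = 0) : ∀ S ∈ A, h S = 0 := by
  refine h2 (Finset V) A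
    (fun J T => ∃ U, Fct A C w t j U T ∧ J = A.filter (fun S => S ⊆ U)) h ?_ ?_ ?_ ?_
  · intro S hS
    obtain ⟨U, T, hF, hSU⟩ := hex S hS
    exact ⟨_, T, ⟨U, hF, rfl⟩, Finset.mem_filter.mpr ⟨hS, hSU⟩⟩
  · rintro J T ⟨U, hF, rfl⟩
    have hT : T ∈ A.filter (fun S => (S ∩ U).card = 2) := by
      rw [hF.2.2.2]
      exact Finset.mem_singleton_self T
    obtain ⟨hTA, hT2⟩ := Finset.mem_filter.mp hT
    refine ⟨Finset.filter_subset _ _, hTA, ?_⟩
    intro h3
    have h4 := (Finset.mem_filter.mp h3).2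
    rw [Finset.inter_eq_left.mpr h4, (hA T hTA).2] at hT2
    omega
  · rintro J T ⟨U, hF, rfl⟩ b hb
    obtain ⟨U', T', hF', he⟩ := hxc U T hF b hb
    exact ⟨T', U', hF', he.symm⟩
  · rintro J T ⟨U, hF, rfl⟩
    exact ODD_rel hA hF h0

end

theorem p_ODD (h1 : T_FCT) (h2 : T_REL) : T_ODD := by
  classical
  intro V _ _ C w t H j0 hj0
  have hex0 : ∃ j : ℕ, InM C w t (fun v => (2 * (j : ℤ) + 1) * w v) := ⟨j0, hj0⟩
  obtain ⟨j, hj, hmin⟩ : ∃ j : ℕ, InM C w t (fun v => (2 * (j : ℤ) + 1) * w v) ∧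
      ∀ j' : ℕ, j' < j → ¬ InM C w t (fun v => (2 * (j' : ℤ) + 1) * w v) :=
    ⟨Nat.find hex0, Nat.find_spec hex0, fun j' hj' => Nat.find_min hex0 hj'⟩
  have hj1 : 1 ≤ j := by
    rcases Nat.eq_zero_or_pos j with h | h
    · exfalso
      subst h
      apply H.notM
      obtain ⟨y, hy, hy2⟩ := hj
      refine ⟨y, hy, fun v => ?_⟩
      rw [← hy2 v]
      simp
    · exact h
  obtain ⟨y, hy, hyw⟩ := hj
  have hyw' : ∀ v, (2 * (j : ℤ) + 1) * w v = cmb C (fun S => (y S : ℤ)) v := fun v => hyw v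
  obtain ⟨hle, hex, hxc⟩ := h1 V C w t H j y hj1 hy hyw' hmin
  set A := C.filter (fun S => y S ≠ 0) with hAdef
  have hA : ∀ S ∈ A, S ∈ C ∧ S.card = 3 := by
    intro S hS
    obtain ⟨hSC, hS0⟩ := Finset.mem_filter.mp hS
    exact ⟨hSC, H.card3 S (hy S hS0)⟩
  have hcor : ∀ S ∈ A, Cor C w t S := fun S hS => hy S (Finset.mem_filter.mp hS).2
  -- the number of members of `A`
  have hcard : (A.card : ℤ) = (2 * j + 1) * t := by
    have e1 : ∑ v, (2 * (j : ℤ) + 1) * w v = ∑ S ∈ C, (y S : ℤ) * (S.card : ℤ) := by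
      rw [← sum_cmb_univ]
      exact Finset.sum_congr rfl fun v _ => hyw' v
    have e2 : ∑ S ∈ C, (y S : ℤ) * (S.card : ℤ) = 3 * (A.card : ℤ) := by
      rw [← Finset.sum_filter_add_sum_filter_not C (fun S => y S ≠ 0)]
      have e3 : ∑ S ∈ C with ¬ y S ≠ 0, (y S : ℤ) * (S.card : ℤ) = 0 := by
        apply Finset.sum_eq_zero
        intro S hS
        have e4 := (Finset.mem_filter.mp hS).2
        rw [not_not] at e4
        rw [e4]
        simp
      have e5 : ∑ S ∈ C with y S ≠ 0, (y S : ℤ) * (S.card : ℤ) = ∑ _S ∈ A, (3 : ℤ) := by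
        refine Finset.sum_congr rfl fun S hS => ?_
        have e6 : y S = 1 := by
          have e7 := (Finset.mem_filter.mp hS).2
          have e8 := hle S
          omega
        rw [e6, (hA S hS).2]
        norm_num
      rw [e3, e5, Finset.sum_const, nsmul_eq_mul]
      ring
    rw [← Finset.mul_sum, H.tot, e2] at e1
    linarith
  -- linear independence
  have hli : LinearIndependent ℚ (fun S : A => indq (S : Finset V)) := by
    rw [Fintype.linearIndependent_iff]
    intro g hg
    have e1 : ∑ S ∈ A, (fun S => if hS : S ∈ A then g ⟨S, hS⟩ else 0) S • indq S = 0 := by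
      rw [← hg, ← Finset.sum_coe_sort A]
      refine Finset.sum_congr rfl fun S _ => ?_
      simp only [S.2, dif_pos, Subtype.coe_eta]
    have e2 := ODD_ind h2 hA hex hxc e1
    intro S
    have e3 := e2 S S.2
    simpa using e3
  have hV : Nonempty V := by
    by_contra hV
    rw [not_nonempty_iff] at hV
    exact H.notM ⟨fun _ => 0, fun S hS => absurd rfl hS, fun v => hV.elim v⟩
  obtain ⟨v0⟩ := hV
  obtain ⟨B, hB, hvB⟩ := H.mem_tig v0
  have hlt : A.card < Fintype.card V := by
    have e1 : Module.finrank ℚ (Submodule.span ℚ (Set.range fun S : A => indq (S : Finset V))) =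
        Fintype.card A := finrank_span_eq_card hli
    rw [Fintype.card_coe] at e1
    rw [← e1, ← Module.finrank_fintype_fun_eq_card ℚ (η := V)]
    apply Submodule.finrank_lt
    intro htop
    have e2 : Submodule.span ℚ (Set.range fun S : A => indq (S : Finset V)) ≤
        LinearMap.ker (ndl B) := by
      rw [Submodule.span_le]
      rintro _ ⟨S, rfl⟩
      show ndl B (indq (S : Finset V)) = 0
      rw [ndl_apply, nd_indq, (hA S S.2).2, (hcor S S.2).2 B hB]
      norm_num
    rw [htop] at e2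
    have e3 : (indq {v0} : V → ℚ) ∈ LinearMap.ker (ndl B) := e2 Submodule.mem_top
    have e4 : ndl B (indq {v0}) = 0 := e3
    rw [ndl_apply, nd_indq, Finset.singleton_inter_of_mem hvB, Finset.card_singleton] at e4
    norm_num at e4
  have hle3 : (Fintype.card V : ℤ) ≤ 3 * t := by
    rw [← H.tot]
    have e1 : ∑ _v : V, (1 : ℤ) ≤ ∑ v, w v := Finset.sum_le_sum fun v _ => H.one_le v
    simpa using e1
  have hlt' : (A.card : ℤ) < Fintype.card V := by exact_mod_cast hlt
  have hj1' : (1 : ℤ) ≤ j := by exact_mod_cast hj1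
  have ht : 0 < t := by
    have e1 : (0 : ℤ) ≤ A.card := Int.natCast_nonneg _
    linarith
  nlinarith

end Pool.Agent.TQS
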