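import Pool.Agent.TQS.Targets

set_option autoImplicit false

/-!
# Project TQS: target ONE (one minimum cover)
-/

namespace Pool.Agent.TQS

open Finset

theorem ONE_.subB (h2 : T_EQO) {V : Type} [Fintype V] [DecidableEq V]
    {C : Finset (Finset V)} {w : V → ℤ} {B : Finset V} {V2 : Finset V} {G G' : V → Finset V}
    (hD : Dta C w {B} V2 G G') : V2 ⊆ B := by
  intro v hv
  by_contra hvB
  obtain ⟨T, hT, hvT⟩ := hD.cov v
  obtain ⟨_, h3, h1⟩ := mem_Em.mp hT
  have hTB : (T ∩ B).card = 1 := h1 B (Finset.mem_singleton_self B)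
  have hsd : (T \ B).card = 2 := by
    have := Finset.card_sdiff_add_card_inter T B
    omega
  have hvs : v ∈ T \ B := Finset.mem_sdiff.mpr ⟨hvT, hvB⟩
  have hex : ∃ z ∈ T \ B, z ≠ v := by
    by_contra hne
    push Not at hne
    have hsub : T \ B ⊆ {v} := fun z hz => Finset.mem_singleton.mpr (hne z hz)
    have := Finset.card_le_card hsub
    rw [hsd, Finset.card_singleton] at this
    omega
  obtain ⟨z, hz, hzv⟩ := hex
  obtain ⟨hzT, hzB⟩ := Finset.mem_sdiff.mp hz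
  have hcl : ∀ B' ∈ ({B} : Finset (Finset V)), z ∈ B' ↔ v ∈ B' := by
    intro B' hB'
    rw [Finset.mem_singleton] at hB'
    subst hB'
    exact ⟨fun h => absurd h hzB, fun h => absurd h hvB⟩
  obtain ⟨hG, hG', _⟩ := h2 V C w {B} V2 G G' hD v hv z hzv hcl
  rcases hD.g1 v hv T hT hvT with ⟨h, _⟩ | ⟨_, h⟩
  · exact hG (h hzT)
  · exact hG' (h hzT)

theorem p_ONE (h1 : T_RKT) (h2 : T_EQO) (h3 : T_CL) : T_ONE := by
  intro V _ _ C w B V2 G G' hne hD
  have hE3 : ∀ T ∈ Em C {B}, T.card = 3 := fun T hT => (mem_Em.mp hT).2.1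
  have hE1 : ∀ T ∈ Em C {B}, ∀ B' ∈ ({B} : Finset (Finset V)), (T ∩ B').card = 1 :=
    fun T hT => (mem_Em.mp hT).2.2
  have hrk := (h1 V (Em C {B}) {B} hE3 hD.cov hE1 hne).1 B (Finset.mem_singleton_self B)
  have hcnt := hD.cnt
  have hV2 : 2 < V2.card := by omega
  obtain ⟨a, ha, b, hb, c, hc, hab, hac, hbc⟩ := Finset.two_lt_card.mp hV2
  have hsub := ONE_.subB h2 hD
  have hcl : ∀ x ∈ V2, ∀ y ∈ V2, ∀ B' ∈ ({B} : Finset (Finset V)), x ∈ B' ↔ y ∈ B' := by
    intro x hx y hy B' hB'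
    rw [Finset.mem_singleton] at hB'
    subst hB'
    exact ⟨fun _ => hsub hy, fun _ => hsub hx⟩
  rcases h3 V C w {B} V2 G G' hD a ha b hb hab (hcl a ha b hb) c (hcl c hc a ha) with h | h
  · exact hac h.symm
  · exact hbc h.symm

end Pool.Agent.TQS
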