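import Pool.Agent.TQS.Targets

set_option autoImplicit false

/-!
# Project TQS: target OP (odd partners, contraction)
-/

namespace Pool.Agent.TQS

open Finset

namespace OP_

section
variable {V : Type} [Fintype V] [DecidableEq V]

/-- `nd B` of a finite sum. -/
theorem nd_sum {ι : Type} (s : Finset ι) (f : ι → V → ℤ) (U : Finset V) :
    nd U (∑ i ∈ s, f i) = ∑ i ∈ s, nd U (f i) := by
  classical
  induction s using Finset.induction_on with
  | empty => rw [Finset.sum_empty, Finset.sum_empty, nd_zero]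
  | insert i s hi ih => rw [Finset.sum_insert hi, Finset.sum_insert hi, nd_add, ih]

theorem nd_zsmul (k : ℤ) (f : V → ℤ) (U : Finset V) : nd U (k • f) = k * nd U f := by
  have h : k • f = fun v => k * f v := by
    funext v
    rw [Pi.smul_apply, smul_eq_mul]
  rw [h, nd_mul]

/-- the padded vector of `S` at `a` -/
def gp (a : V) (S : Finset V) : V → ℤ := ind S + (3 - (S.card : ℤ)) • un a

theorem gp_apply (a : V) (S : Finset V) (v : V) :
    gp a S v = ind S v + (3 - (S.card : ℤ)) * un a v := by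
  unfold gp
  rw [Pi.add_apply, Pi.smul_apply, smul_eq_mul]

theorem gp_ne {a v : V} (S : Finset V) (h : v ≠ a) :
    gp a S v = if v ∈ S.erase a then 1 else 0 := by
  rw [gp_apply]
  simp [un, ind, h]

theorem sum_gp (a : V) (S : Finset V) : ∑ v, gp a S v = 3 := by
  have h : ∀ v, gp a S v = ind S v + (3 - (S.card : ℤ)) * un a v := gp_apply a S
  rw [Finset.sum_congr rfl fun v _ => h v, Finset.sum_add_distrib, ← Finset.mul_sum,
    sum_ind_univ, sum_un_univ]
  ring

theorem gp_pad {C : Finset (Finset V)} {S : Finset V} (hS : S ∈ C) (h3 : S.card ≤ 3) (a : V) :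
    Pad C (gp a S) := by
  have h3' : (0 : ℤ) ≤ 3 - S.card := by
    have : (S.card : ℤ) ≤ 3 := by exact_mod_cast h3
    linarith
  have hu : ∀ v, 0 ≤ un a v := by
    intro v
    unfold un
    split_ifs <;> norm_num
  refine ⟨?_, sum_gp a S, S, hS, ?_⟩
  · intro v
    rw [gp_apply]
    have h1 : 0 ≤ ind S v := by
      unfold ind
      split_ifs <;> norm_num
    have h2 := mul_nonneg h3' (hu v)
    linarith
  · intro v hv
    rw [gp_apply]
    have h1 : ind S v = 1 := by
      unfold ind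
      rw [if_pos hv]
    have h2 := mul_nonneg h3' (hu v)
    linarith

theorem nd_gp_nonneg {S B : Finset V} (h3 : S.card ≤ 3) (hB : (S ∩ B).Nonempty) (a : V) :
    0 ≤ nd B (gp a S) := by
  have h3' : (0 : ℤ) ≤ 3 - S.card := by
    have : (S.card : ℤ) ≤ 3 := by exact_mod_cast h3
    linarith
  have h1 : (1 : ℤ) ≤ (S ∩ B).card := by
    have : 1 ≤ (S ∩ B).card := Finset.card_pos.2 hB
    exact_mod_cast this
  unfold gp
  rw [nd_add, nd_zsmul, nd_ind, nd_un]
  split_ifs <;> nlinarith

theorem InL_sum {X : Finset (Finset V)} {ι : Type} (s : Finset ι) (f : ι → V → ℤ)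
    (h : ∀ i ∈ s, InL X (f i)) : InL X (∑ i ∈ s, f i) := by
  rw [← mem_Lsub]
  exact AddSubgroup.sum_mem _ fun i hi => mem_Lsub.2 (h i hi)

end

end OP_

open OP_

theorem p_OP : T_OP := by
  intro V _ _ C hC w t Ms hol fac a hmin
  by_contra hcon
  have hcon' : ∀ b, b ≠ a → (∀ B ∈ Ms, b ∈ B ↔ a ∈ B) → InL (Em C Ms) (un a - un b) := by
    intro b hb hbB
    by_contra h
    exact hcon ⟨b, hb, hbB, h⟩
  -- the packing
  have hw0 : ∀ v, 0 ≤ w v := fun v => le_trans zero_le_one (hol.one_le v)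
  have ht0 : 0 ≤ t := by
    obtain ⟨B, hB, _⟩ := hol.mem_tig a
    rw [← hB.2]
    exact Finset.sum_nonneg fun v _ => hw0 v
  obtain ⟨D, hD⟩ : ∃ D, D = C.image fun S => S.erase a := ⟨_, rfl⟩
  have hMeng : Meng D := by
    rw [hD]
    exact hC.con a
  obtain ⟨y, hy, hyw⟩ := hMeng (fun v => (w v).toNat) t.toNat (by
    intro U hU
    have hUC : Cov C U := by
      intro S hS
      obtain ⟨x, hx⟩ := hU (S.erase a) (by
        rw [hD]
        exact Finset.mem_image_of_mem _ hS)
      rw [Finset.mem_inter, Finset.mem_erase] at hx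
      exact ⟨x, Finset.mem_inter.2 ⟨hx.1.2, hx.2⟩⟩
    have h1 := hol.cov_le U hUC
    have h2 : ((∑ v ∈ U, (w v).toNat : ℕ) : ℤ) = ∑ v ∈ U, w v := by
      push_cast
      exact Finset.sum_congr rfl fun v _ => Int.toNat_of_nonneg (hw0 v)
    have h3 : ((t.toNat : ℕ) : ℤ) = t := Int.toNat_of_nonneg ht0
    have h4 : ((t.toNat : ℕ) : ℤ) ≤ ((∑ v ∈ U, (w v).toNat : ℕ) : ℤ) := by
      rw [h2, h3]
      exact h1
    exact_mod_cast h4)
  have hyt : ∑ R ∈ D, (y R : ℤ) = t := by
    have h1 : ((∑ R ∈ D, y R : ℕ) : ℤ) = t := by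
      rw [hy]
      exact Int.toNat_of_nonneg ht0
    rw [← h1]
    push_cast
    rfl
  obtain ⟨p, hp⟩ : ∃ p : V → ℤ, p = cmb D fun R => (y R : ℤ) := ⟨_, rfl⟩
  have hpw : ∀ v, p v ≤ w v := by
    intro v
    rw [hp, ← cmb_cast_nat]
    have h1 : ((cmb D y v : ℕ) : ℤ) ≤ ((w v).toNat : ℤ) := by exact_mod_cast hyw v
    rwa [Int.toNat_of_nonneg (hw0 v)] at h1
  -- representatives
  have hrep : ∀ R, ∃ S, R ∈ D → S ∈ C ∧ S.erase a = R := by
    intro R
    by_cases h : R ∈ D
    · rw [hD, Finset.mem_image] at h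
      obtain ⟨S, hS, hSR⟩ := h
      exact ⟨S, fun _ => ⟨hS, hSR⟩⟩
    · exact ⟨∅, fun h' => absurd h' h⟩
  choose sr hsr using hrep
  -- step (1)
  have key1 : ∀ v, v ≠ a → p v < w v → ∀ B ∈ Ms, v ∈ B → a ∈ B := by
    intro v hva hlt B hB hvB
    by_contra haB
    have hT := fac.tig B hB
    have h1 : ∑ u ∈ B, p u < ∑ u ∈ B, w u :=
      Finset.sum_lt_sum (fun u _ => hpw u) ⟨v, hvB, hlt⟩
    rw [hT.2] at h1
    have h2 : ∑ u ∈ B, p u = ∑ R ∈ D, (y R : ℤ) * ((R ∩ B).card : ℤ) := by
      rw [hp]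
      exact sum_cmb D _ B
    have h3 : t ≤ ∑ R ∈ D, (y R : ℤ) * ((R ∩ B).card : ℤ) := by
      rw [← hyt]
      refine Finset.sum_le_sum fun R hR => ?_
      have h4 := hsr R hR
      obtain ⟨x, hx⟩ := hT.1 _ h4.1
      rw [Finset.mem_inter] at hx
      have h5 : x ∈ R ∩ B := by
        rw [Finset.mem_inter, ← h4.2, Finset.mem_erase]
        exact ⟨⟨fun h => haB (h ▸ hx.2), hx.1⟩, hx.2⟩
      have h6 : (1 : ℤ) ≤ (R ∩ B).card := by
        have : 1 ≤ (R ∩ B).card := Finset.card_pos.2 ⟨x, h5⟩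
        exact_mod_cast this
      have h7 : (0 : ℤ) ≤ (y R : ℤ) := Int.natCast_nonneg _
      nlinarith
    rw [h2] at h1
    exact absurd h1 (not_lt.2 h3)
  have key2 : ∀ v, v ≠ a → p v < w v → ∀ B ∈ Ms, v ∈ B ↔ a ∈ B := by
    intro v hva hlt B hB
    have h1 := key1 v hva hlt
    exact ⟨h1 B hB, hmin v h1 B hB⟩
  -- the vector z
  obtain ⟨z, hz⟩ : ∃ z : V → ℤ, z = ∑ R ∈ D, (y R : ℤ) • gp a (sr R) := ⟨_, rfl⟩
  have hza : ∀ v, z v = ∑ R ∈ D, (y R : ℤ) * gp a (sr R) v := by
    intro v
    rw [hz, Finset.sum_apply]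
    exact Finset.sum_congr rfl fun R _ => by rw [Pi.smul_apply, smul_eq_mul]
  have hzp : ∀ v, v ≠ a → z v = p v := by
    intro v hva
    rw [hza, hp, cmb_apply']
    refine Finset.sum_congr rfl fun R hR => ?_
    rw [gp_ne _ hva, (hsr R hR).2, mul_ite, mul_one, mul_zero]
  have hzs : ∑ v, z v = 3 * t := by
    have h1 : ∀ v, z v = ∑ R ∈ D, (y R : ℤ) * gp a (sr R) v := hza
    rw [Finset.sum_congr rfl fun v _ => h1 v, Finset.sum_comm, ← hyt, Finset.mul_sum]
    refine Finset.sum_congr rfl fun R _ => ?_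
    rw [← Finset.mul_sum, sum_gp]
    ring
  obtain ⟨c, hc⟩ : ∃ c : V → ℤ, c = ∑ v ∈ univ.erase a, (w v - p v) • (un a - un v) :=
    ⟨_, rfl⟩
  have hca : ∀ u, c u = ∑ v ∈ univ.erase a, (w v - p v) * (un a u - un v u) := by
    intro u
    rw [hc, Finset.sum_apply]
    exact Finset.sum_congr rfl fun v _ => by
      rw [Pi.smul_apply, Pi.sub_apply, smul_eq_mul]
  have hzw : z = w + c := by
    have hne : ∀ u, u ≠ a → z u = (w + c) u := by
      intro u hu
      rw [Pi.add_apply, hca, hzp u hu]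
      have h1 : ∑ v ∈ univ.erase a, (w v - p v) * (un a u - un v u) = - (w u - p u) := by
        rw [Finset.sum_eq_single u]
        · simp [un, hu]
        · intro v _ hvu
          simp [un, hu, Ne.symm hvu]
        · intro h
          exact absurd (Finset.mem_erase.2 ⟨hu, Finset.mem_univ u⟩) h
      rw [h1]
      ring
    funext u
    by_cases hu : u = a
    · rw [hu]
      have h1 : ∑ v, z v = ∑ v, (w + c) v := by
        have h2 : ∑ v, c v = 0 := by
          have h3 : ∀ u, c u = ∑ v ∈ univ.erase a, (w v - p v) * (un a u - un v u) := hca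
          rw [Finset.sum_congr rfl fun u _ => h3 u, Finset.sum_comm]
          refine Finset.sum_eq_zero fun v _ => ?_
          rw [← Finset.mul_sum, Finset.sum_sub_distrib, sum_un_univ, sum_un_univ, sub_self,
            mul_zero]
        have h4 : ∑ v, (w + c) v = ∑ v, w v + ∑ v, c v := by
          rw [← Finset.sum_add_distrib]
          rfl
        rw [h4, h2, hzs, hol.tot, add_zero]
      rw [← Finset.add_sum_erase univ z (Finset.mem_univ a),
        ← Finset.add_sum_erase univ (w + c) (Finset.mem_univ a)] at h1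
      have h5 : ∑ v ∈ univ.erase a, z v = ∑ v ∈ univ.erase a, (w + c) v :=
        Finset.sum_congr rfl fun v hv => hne v (Finset.ne_of_mem_erase hv)
      rw [h5] at h1
      exact add_right_cancel h1
    · exact hne u hu
  -- nd B z = 0
  have hndz : ∀ B ∈ Ms, nd B z = 0 := by
    intro B hB
    have hT := fac.tig B hB
    rw [hzw, nd_add]
    have h1 : nd B w = 0 := by
      unfold nd
      rw [hT.2, hol.tot]
      ring
    have h2 : nd B c = 0 := by
      rw [hc, nd_sum]
      refine Finset.sum_eq_zero fun v hv => ?_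
      have hva := Finset.ne_of_mem_erase hv
      rw [nd_zsmul, nd_un_sub]
      rcases (hpw v).lt_or_eq with h | h
      · have h3 := key2 v hva h B hB
        by_cases h4 : a ∈ B
        · rw [if_pos h4, if_pos (h3.2 h4)]
          ring
        · rw [if_neg h4, if_neg fun h5 => h4 (h3.1 h5)]
          ring
      · rw [h]
        ring
    rw [h1, h2, add_zero]
  -- z is in the lattice
  have hzL : InL (Em C Ms) z := by
    rw [hz]
    refine InL_sum _ _ fun R hR => ?_
    by_cases hy0 : y R = 0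
    · rw [hy0, Nat.cast_zero, zero_smul]
      exact InL.zero _
    · refine InL.smul _ ?_
      have hS := hsr R hR
      have hpad := gp_pad hS.1 (hC.card_le _ hS.1) a
      obtain ⟨T, hT, hgT⟩ := fac.np _ hpad (by
        intro B hB
        have h1 : ∑ R ∈ D, (y R : ℤ) * nd B (gp a (sr R)) = 0 := by
          have h2 := hndz B hB
          rw [hz, nd_sum] at h2
          rw [← h2]
          exact Finset.sum_congr rfl fun R _ => (nd_zsmul _ _ _).symm
        have h3 : ∀ R ∈ D, 0 ≤ (y R : ℤ) * nd B (gp a (sr R)) := by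
          intro R hR
          have h4 := hsr R hR
          exact mul_nonneg (Int.natCast_nonneg _)
            (nd_gp_nonneg (hC.card_le _ h4.1) ((fac.tig B hB).1 _ h4.1) a)
        have h5 := (Finset.sum_eq_zero_iff_of_nonneg h3).1 h1 R hR
        rcases mul_eq_zero.1 h5 with h6 | h6
        · exact absurd (by exact_mod_cast h6) hy0
        · exact h6)
      rw [hgT]
      exact InL.mem hT
  have hcL : InL (Em C Ms) c := by
    rw [hc]
    refine InL_sum _ _ fun v hv => ?_
    have hva := Finset.ne_of_mem_erase hv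
    rcases (hpw v).lt_or_eq with h | h
    · exact InL.smul _ (hcon' v hva (key2 v hva h))
    · rw [h, sub_self, zero_smul]
      exact InL.zero _
  apply fac.notL
  have h1 : w = z - c := by
    rw [hzw]
    abel
  rw [h1]
  exact hzL.sub hcL

end Pool.Agent.TQS
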