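import Pool.Agent.TQS.Targets

set_option autoImplicit false
set_option linter.unusedSectionVars false

/-!
# Project TQS: target PAR
-/

namespace Pool.Agent.TQS

open Finset

namespace PAR_

variable {V : Type} [Fintype V] [DecidableEq V]

/-- the vector above a small member -/
theorem pad_of {C : Finset (Finset V)} {S : Finset V} (hS : S ∈ C) (h2 : S.card ≤ 3) (u : V) :
    Pad C (ind S + fun v => (3 - (S.card : ℤ)) * un u v) := by
  refine ⟨fun v => ?_, ?_, S, hS, fun v hv => ?_⟩
  · simp only [Pi.add_apply, ind, un]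
    split_ifs <;> simp <;> omega
  · simp only [Pi.add_apply, Finset.sum_add_distrib, ← Finset.mul_sum, sum_ind_univ,
      sum_un_univ]
    ring
  · simp only [Pi.add_apply, ind, un, if_pos hv]
    split_ifs <;> simp
    omega

/-- a cover has weight at least one with respect to a padded member -/
theorem pad_cov {C : Finset (Finset V)} {g : V → ℤ} (hg : Pad C g) {B : Finset V}
    (hB : Cov C B) : 1 ≤ ∑ v ∈ B, g v := by
  obtain ⟨h0, _, S, hS, hgS⟩ := hg
  obtain ⟨x, hx⟩ := hB S hS
  have hx' := Finset.mem_inter.mp hx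
  have h1 : g x ≤ ∑ v ∈ B, g v := Finset.single_le_sum (fun v _ => h0 v) hx'.2
  exact (hgS x hx'.1).trans h1

/-- in a partition into three covers every padded member is exact -/
theorem exact3 {C : Finset (Finset V)} {g : V → ℤ} (hg : Pad C g) {B1 B2 B3 : Finset V}
    (h1 : Cov C B1) (h2 : Cov C B2) (h3 : Cov C B3) (h12 : Disjoint B1 B2)
    (h13 : Disjoint B1 B3) (h23 : Disjoint B2 B3) (hU : B1 ∪ B2 ∪ B3 = univ) :
    nd B1 g = 0 ∧ nd B2 g = 0 ∧ nd B3 g = 0 := by
  have hs : ∑ v, g v = ∑ v ∈ B1, g v + ∑ v ∈ B2, g v + ∑ v ∈ B3, g v := by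
    rw [← hU, Finset.sum_union (Finset.disjoint_union_left.mpr ⟨h13, h23⟩),
      Finset.sum_union h12]
  have h4 := hg.2.1
  have a1 := pad_cov hg h1
  have a2 := pad_cov hg h2
  have a3 := pad_cov hg h3
  unfold nd
  rw [h4]
  rw [h4] at hs
  refine ⟨by omega, by omega, by omega⟩

theorem third {B1 B2 B3 B : Finset V} (h13 : Disjoint B1 B3) (h23 : Disjoint B2 B3)
    (hU : B1 ∪ B2 ∪ B3 = univ) (k1 : Disjoint B1 B) (k2 : Disjoint B2 B)
    (kU : B1 ∪ B2 ∪ B = univ) : B = B3 := by
  ext x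
  have hx : x ∈ B1 ∪ B2 ∪ B3 := by rw [hU]; exact Finset.mem_univ x
  have kx : x ∈ B1 ∪ B2 ∪ B := by rw [kU]; exact Finset.mem_univ x
  simp only [Finset.mem_union] at hx kx
  constructor
  · intro h
    rcases hx with (hx | hx) | hx
    · exact absurd h (Finset.disjoint_left.mp k1 hx)
    · exact absurd h (Finset.disjoint_left.mp k2 hx)
    · exact hx
  · intro h
    rcases kx with (hx | hx) | hx
    · exact absurd h (Finset.disjoint_left.mp h13 hx)
    · exact absurd h (Finset.disjoint_left.mp h23 hx)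
    · exact hx

end PAR_

open PAR_ in
theorem p_PAR (h1 : T_RKT) (h2 : T_BIG) (h3 : T_CL) (h4 : T_SIX) : T_PAR := by
  intro V _ _ C hM w t Ms hH hF V2 G G' hD B1 hB1 B2 hB2 B3 hB3 h12 h13 h23
  classical
  have hne : Nonempty V := by
    by_contra hcon
    rw [not_nonempty_iff] at hcon
    apply h12
    ext x
    exact (hcon.false x).elim
  have hcard : ∀ T ∈ Em C Ms, T.card = 3 := fun T hT => (mem_Em.mp hT).2.1
  have hexa : ∀ T ∈ Em C Ms, ∀ B ∈ Ms, (T ∩ B).card = 1 := fun T hT => (mem_Em.mp hT).2.2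
  obtain ⟨_, hr2, hr3⟩ := h1 V (Em C Ms) Ms hcard hD.cov hexa hne
  have hbig := h2 V C hM w t Ms hH hF V2 G G' hD
  have hcnt := hD.cnt
  have key : ∀ X1 ∈ Ms, ∀ X2 ∈ Ms, ∀ X3 ∈ Ms, X1 ≠ X2 → X1 ≠ X3 → X2 ≠ X3 →
      Disjoint X1 X2 ∧ Disjoint X1 X3 ∧ Disjoint X2 X3 ∧ X1 ∪ X2 ∪ X3 = univ := by
    intro X1 hX1 X2 hX2 X3 hX3 a b c
    rcases hr3 X1 hX1 X2 hX2 X3 hX3 a b c with h | h
    · exfalso
      omega
    · exact h
  obtain ⟨d12, d13, d23, hU⟩ := key B1 hB1 B2 hB2 B3 hB3 h12 h13 h23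
  have hMs : ∀ B ∈ Ms, B = B1 ∨ B = B2 ∨ B = B3 := by
    intro B hB
    by_cases e1 : B = B1
    · exact Or.inl e1
    by_cases e2 : B = B2
    · exact Or.inr (Or.inl e2)
    obtain ⟨_, k1, k2, kU⟩ := key B1 hB1 B2 hB2 B hB h12 (Ne.symm e1) (Ne.symm e2)
    exact Or.inr (Or.inr (third d13 d23 hU k1 k2 kU))
  have hcov : ∀ B ∈ Ms, Cov C B := fun B hB => (hF.tig B hB).1
  have hexact : ∀ g, Pad C g → ∀ B ∈ Ms, nd B g = 0 := by
    intro g hg B hB
    obtain ⟨a1, a2, a3⟩ := exact3 hg (hcov B1 hB1) (hcov B2 hB2) (hcov B3 hB3) d12 d13 d23 hU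
    rcases hMs B hB with rfl | rfl | rfl
    · exact a1
    · exact a2
    · exact a3
  have hEC : Em C Ms = C := by
    apply Finset.Subset.antisymm
    · intro S hS
      exact (mem_Em.mp hS).1
    · intro S hS
      obtain ⟨u⟩ := hne
      have hg := pad_of hS (hM.card_le S hS) u
      obtain ⟨T, hT, hgT⟩ := hF.np _ hg (hexact _ hg)
      have hST : S ⊆ T := by
        intro v hv
        by_contra hvT
        have h5 := congrFun hgT v
        have h6 := hM.card_le S hS
        simp only [Pi.add_apply, ind, un, if_pos hv, if_neg hvT] at h5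
        split_ifs at h5 <;> omega
      rw [hM.anti S hS T (mem_Em.mp hT).1 hST]
      exact hT
  have hrk := hr2 B1 hB1 B2 hB2 h12
  have hV2 : 6 ≤ V2.card := by omega
  -- elements of one part are in the same covers
  have hcls : ∀ P ∈ ({B1, B2, B3} : Finset (Finset V)), ∀ x ∈ P, ∀ y ∈ P, ∀ B ∈ Ms,
      x ∈ B ↔ y ∈ B := by
    intro P hP x hx y hy B hB
    have hdis : ∀ X ∈ Ms, ∀ Y ∈ Ms, X ≠ Y → Disjoint X Y := by
      intro X hX Y hY hXY
      rcases hMs X hX with rfl | rfl | rfl <;> rcases hMs Y hY with rfl | rfl | rfl <;>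
        first
        | exact absurd rfl hXY
        | exact d12
        | exact d13
        | exact d23
        | exact d12.symm
        | exact d13.symm
        | exact d23.symm
    have hPM : P ∈ Ms := by
      simp only [Finset.mem_insert, Finset.mem_singleton] at hP
      rcases hP with rfl | rfl | rfl
      · exact hB1
      · exact hB2
      · exact hB3
    by_cases hPB : P = B
    · subst hPB
      exact ⟨fun _ => hy, fun _ => hx⟩
    · have hd := hdis P hPM B hB hPB
      exact ⟨fun h => absurd h (Finset.disjoint_left.mp hd hx),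
        fun h => absurd h (Finset.disjoint_left.mp hd hy)⟩
  have hpair : ∀ P ∈ ({B1, B2, B3} : Finset (Finset V)), ∀ v ∈ V2 ∩ P, ∀ v' ∈ V2 ∩ P,
      v ≠ v' → P = {v, v'} := by
    intro P hP v hv v' hv' hne'
    have a1 := Finset.mem_inter.mp hv
    have a2 := Finset.mem_inter.mp hv'
    have hcl := h3 V C w Ms V2 G G' hD v a1.1 v' a2.1 hne'
      (fun B hB => hcls P hP v a1.2 v' a2.2 B hB)
    ext x
    simp only [Finset.mem_insert, Finset.mem_singleton]
    constructor
    · intro hx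
      exact hcl x (fun B hB => hcls P hP x hx v a1.2 B hB)
    · rintro (rfl | rfl)
      · exact a1.2
      · exact a2.2
  have hle : ∀ P ∈ ({B1, B2, B3} : Finset (Finset V)), (V2 ∩ P).card ≤ 2 := by
    intro P hP
    by_contra hcon
    push Not at hcon
    obtain ⟨v, hv, v', hv', hvv⟩ := Finset.one_lt_card.mp (by omega : 1 < (V2 ∩ P).card)
    have hP2 := hpair P hP v hv v' hv' hvv
    have : (V2 ∩ P).card ≤ P.card := Finset.card_le_card Finset.inter_subset_right
    have h5 : P.card ≤ 2 := by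
      rw [hP2]
      exact Finset.card_le_two
    omega
  have hsum : V2.card = (V2 ∩ B1).card + (V2 ∩ B2).card + (V2 ∩ B3).card := by
    have e : V2 = (V2 ∩ B1) ∪ (V2 ∩ B2) ∪ (V2 ∩ B3) := by
      rw [← Finset.inter_union_distrib_left, ← Finset.inter_union_distrib_left, hU,
        Finset.inter_univ]
    have e12 : Disjoint (V2 ∩ B1) (V2 ∩ B2) :=
      d12.mono Finset.inter_subset_right Finset.inter_subset_right
    have e13 : Disjoint (V2 ∩ B1) (V2 ∩ B3) :=
      d13.mono Finset.inter_subset_right Finset.inter_subset_right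
    have e23 : Disjoint (V2 ∩ B2) (V2 ∩ B3) :=
      d23.mono Finset.inter_subset_right Finset.inter_subset_right
    rw [← Finset.card_union_of_disjoint e12,
      ← Finset.card_union_of_disjoint (Finset.disjoint_union_left.mpr ⟨e13, e23⟩), ← e]
  have m1 : B1 ∈ ({B1, B2, B3} : Finset (Finset V)) := by simp
  have m2 : B2 ∈ ({B1, B2, B3} : Finset (Finset V)) := by simp
  have m3 : B3 ∈ ({B1, B2, B3} : Finset (Finset V)) := by simp
  have l1 := hle B1 m1
  have l2 := hle B2 m2
  have l3 := hle B3 m3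
  have hfull : ∀ P ∈ ({B1, B2, B3} : Finset (Finset V)), (V2 ∩ P).card = 2 →
      P ⊆ V2 ∧ P.card = 2 := by
    intro P hP h5
    obtain ⟨v, hv, v', hv', hvv⟩ := Finset.one_lt_card.mp (by omega : 1 < (V2 ∩ P).card)
    have hP2 := hpair P hP v hv v' hv' hvv
    refine ⟨?_, ?_⟩
    · intro x hx
      rw [hP2] at hx
      simp only [Finset.mem_insert, Finset.mem_singleton] at hx
      rcases hx with rfl | rfl
      · exact (Finset.mem_inter.mp hv).1
      · exact (Finset.mem_inter.mp hv').1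
    · rw [hP2]
      exact Finset.card_pair hvv
  obtain ⟨s1, c1⟩ := hfull B1 m1 (by omega)
  obtain ⟨s2, c2⟩ := hfull B2 m2 (by omega)
  obtain ⟨s3, c3⟩ := hfull B3 m3 (by omega)
  have hq := h4 V C w Ms V2 G G' hD B1 B2 B3 s1 s2 s3 c1 c2 c3 d12 d13 d23 hU (by
    intro P hP
    refine ⟨fun T hT => ?_, hcls P hP⟩
    simp only [Finset.mem_insert, Finset.mem_singleton] at hP
    rcases hP with rfl | rfl | rfl
    · exact hexa T hT _ hB1
    · exact hexa T hT _ hB2
    · exact hexa T hT _ hB3)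
  rw [hEC] at hq
  exact hq

end Pool.Agent.TQS
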