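import Pool.Agent.TQS.Targets

set_option autoImplicit false

/-!
# Project TQS (MP_98b56a_co): target T_PKM
-/

namespace Pool.Agent.TQS

open Finset

namespace PKM_

theorem step {V : Type} [Fintype V] [DecidableEq V] (C : Finset (Finset V)) (w : V → ℕ) (s : ℕ)
    (h : Pk C w (s + 1)) : Pk C w s := by
  obtain ⟨y, hs, hw⟩ := h
  obtain ⟨S, hS, hy⟩ : ∃ S ∈ C, y S ≠ 0 := by
    by_contra hcon
    push Not at hcon
    have h0 : ∑ S ∈ C, y S = 0 := Finset.sum_eq_zero hcon
    omega
  refine ⟨fun T => if T = S then y S - 1 else y T, ?_, ?_⟩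
  · have h1 := Finset.sum_erase_add C y hS
    have h2 := Finset.sum_erase_add C (fun T => if T = S then y S - 1 else y T) hS
    have h3 : ∑ T ∈ C.erase S, (fun T => if T = S then y S - 1 else y T) T
        = ∑ T ∈ C.erase S, y T := by
      refine Finset.sum_congr rfl fun T hT => ?_
      have hne : T ≠ S := (Finset.mem_erase.mp hT).1
      simp only [if_neg hne]
    rw [h3] at h2
    simp only [if_true] at h2
    rw [← h2]
    omega
  · intro v
    refine le_trans ?_ (hw v)
    rw [cmb_apply, cmb_apply]
    refine Finset.sum_le_sum fun T _ => ?_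
    by_cases hT : T = S
    · subst hT
      simp
    · simp [hT]

end PKM_

theorem p_PKM : T_PKM := by
  intro V _ _ C w s t hst
  induction t, hst using Nat.le_induction with
  | base => exact id
  | succ n _ ih => exact fun h => ih (PKM_.step C w n h)

end Pool.Agent.TQS
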