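import Pool.Agent.TQS.Targets

set_option autoImplicit false
set_option linter.unusedSectionVars false

/-!
# Project TQS: PRP, proportionality in an extreme ray
-/

namespace Pool.Agent.TQS

open Finset

namespace PRP_

variable {V : Type} [Fintype V] [DecidableEq V]

/-- The possible values of `nd B g`. -/
theorem val {C : Finset (Finset V)} {g : V → ℤ} (hg : Pad C g) {B : Finset V} (hB : Cov C B) :
    nd B g = 0 ∨ nd B g = 3 ∨ nd B g = 6 := by
  obtain ⟨h0, h3, S, hS, hSg⟩ := hg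
  have h1 : 1 ≤ ∑ v ∈ B, g v := by
    obtain ⟨u, hu⟩ := hB S hS
    rw [Finset.mem_inter] at hu
    exact le_trans (hSg u hu.1) (Finset.single_le_sum (fun v _ => h0 v) hu.2)
  have h2 : ∑ v ∈ B, g v ≤ 3 := by
    rw [← h3]
    exact Finset.sum_le_sum_of_subset_of_nonneg (Finset.subset_univ B) (fun v _ _ => h0 v)
  unfold nd
  rw [h3]
  omega

theorem nd_two (B : Finset V) (g' g'' : V → ℤ) :
    nd B (fun v => 2 * g' v - g'' v) = 2 * nd B g' - nd B g'' := by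
  unfold nd
  rw [Finset.sum_sub_distrib, Finset.sum_sub_distrib, ← Finset.mul_sum, ← Finset.mul_sum]
  ring

/-- If the level of `g''` is twice that of `g'` at one place, then everywhere. -/
theorem key (h1 : T_KPD) (C : Finset (Finset V)) (hC : MinC C) (w : V → ℤ) (t : ℤ)
    (Ms : Finset (Finset V)) (hH : Hol C w t) (hF : Fac C w t Ms) (g g' g'' : V → ℤ)
    (hg : Mng C Ms g) (h' : NNg C Ms g g') (h'' : NNg C Ms g g'') (B0 : Finset V)
    (hB0 : B0 ∈ Ms) (hB0' : nd B0 g' = 3) (hB0'' : nd B0 g'' = 6) :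
    ∀ B ∈ Ms, nd B g'' = 2 * nd B g' := by
  by_contra hcon
  push Not at hcon
  obtain ⟨B1, hB1, hne⟩ := hcon
  have hnd : ∀ B : Finset V, nd B (fun v => ((2 * g' v - g'' v : ℤ) : ℚ)) =
      ((2 * nd B g' - nd B g'' : ℤ) : ℚ) := by
    intro B
    rw [nd_cast B (fun v => 2 * g' v - g'' v), nd_two]
  have hsupp' : ∀ B ∈ Ms, nd B g' = 0 → nd B g = 0 := hg.2.2 g' h'.1 h'.2.1 h'.2.2
  have hnn : ∀ B ∈ Ms, 0 ≤ 2 * nd B g' - nd B g'' := by
    intro B hB
    have hc := (hF.tig B hB).1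
    rcases val h'.1 hc with ha | ha | ha
    · have hz := h''.2.2 B hB (hsupp' B hB ha)
      omega
    · rcases val h''.1 hc with hb | hb | hb <;> omega
    · rcases val h''.1 hc with hb | hb | hb <;> omega
  obtain ⟨h, hpad, hex, hz⟩ := h1 V C hC w t Ms hH hF (fun v => ((2 * g' v - g'' v : ℤ) : ℚ))
    (by
      intro B hB
      rw [hnd]
      exact_mod_cast hnn B hB)
    (by
      refine ⟨B1, hB1, ?_⟩
      rw [hnd]
      have := hnn B1 hB1
      have h2 : 0 < 2 * nd B1 g' - nd B1 g'' := by omega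
      exact_mod_cast h2)
  have hsub : ∀ B ∈ Ms, nd B g = 0 → nd B h = 0 := by
    intro B hB hgB
    apply hz B hB
    rw [hnd, h'.2.2 B hB hgB, h''.2.2 B hB hgB]
    norm_num
  have hback := hg.2.2 h hpad hex hsub
  have h0 : nd B0 h = 0 := by
    apply hz B0 hB0
    rw [hnd, hB0', hB0'']
    norm_num
  have h3 := h'.2.2 B0 hB0 (hback B0 hB0 h0)
  omega

end PRP_

/-- PRP. -/
theorem p_PRP (h1 : T_KPD) : T_PRP := by
  intro V _ _ C hC w t Ms hH hF g g' g'' hg h' h''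
  by_cases hA : ∃ B ∈ Ms, nd B g' = 3 ∧ nd B g'' = 6
  · obtain ⟨B0, hB0, ha, hb⟩ := hA
    exact Or.inr (Or.inr (PRP_.key h1 C hC w t Ms hH hF g g' g'' hg h' h'' B0 hB0 ha hb))
  by_cases hA' : ∃ B ∈ Ms, nd B g'' = 3 ∧ nd B g' = 6
  · obtain ⟨B0, hB0, ha, hb⟩ := hA'
    exact Or.inr (Or.inl (PRP_.key h1 C hC w t Ms hH hF g g'' g' hg h'' h' B0 hB0 ha hb))
  refine Or.inl fun B hB => ?_
  have hc := (hF.tig B hB).1
  have hs' : nd B g' = 0 → nd B g'' = 0 := fun h =>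
    h''.2.2 B hB (hg.2.2 g' h'.1 h'.2.1 h'.2.2 B hB h)
  have hs'' : nd B g'' = 0 → nd B g' = 0 := fun h =>
    h'.2.2 B hB (hg.2.2 g'' h''.1 h''.2.1 h''.2.2 B hB h)
  rcases PRP_.val h'.1 hc with ha | ha | ha
  · rw [ha, hs' ha]
  · rcases PRP_.val h''.1 hc with hb | hb | hb
    · rw [hb, hs'' hb]
    · rw [ha, hb]
    · exact absurd ⟨B, hB, ha, hb⟩ hA
  · rcases PRP_.val h''.1 hc with hb | hb | hb
    · rw [hb, hs'' hb]
    · exact absurd ⟨B, hB, hb, ha⟩ hA'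
    · rw [ha, hb]

end Pool.Agent.TQS
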