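import Pool.Agent.TQS.Targets

set_option autoImplicit false
set_option linter.unusedSectionVars false

/-!
# Project TQS: QMI
-/

namespace Pool.Agent.TQS

open Finset

namespace QMI_

variable {V : Type} [Fintype V] [DecidableEq V]

theorem triple {x y z : V} (hxy : x ≠ y) (hxz : x ≠ z) (hyz : y ≠ z) :
    ({x, y, z} : Finset V).card = 3 :=
  Finset.card_eq_three.mpr ⟨x, y, z, hxy, hxz, hyz, rfl⟩

/-- facts on the four triples -/
theorem facts {a a' b b' c c' : V} (h : [a, a', b, b', c, c'].Nodup) :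
    (∀ T ∈ ({{a, b, c}, {a, b', c'}, {a', b, c'}, {a', b', c}} : Finset (Finset V)),
      T.card = 3) ∧
    (∀ x ∈ ({a, a', b, b', c, c'} : Finset V),
      ∃ T ∈ ({{a, b, c}, {a, b', c'}, {a', b, c'}, {a', b', c}} : Finset (Finset V)), x ∈ T) := by
  simp only [List.nodup_cons, List.mem_cons, List.not_mem_nil, or_false, not_or,
    not_false_eq_true, List.nodup_nil, and_true] at h
  obtain ⟨⟨h1, h2, h3, h4, h5⟩, ⟨h6, h7, h8, h9⟩, ⟨h10, h11, h12⟩, ⟨h13, h14⟩, h15⟩ := h
  constructor
  · intro T hT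
    simp only [Finset.mem_insert, Finset.mem_singleton] at hT
    rcases hT with rfl | rfl | rfl | rfl
    · exact triple h2 h4 h11
    · exact triple h3 h5 h14
    · exact triple h6 h9 h12
    · exact triple h7 h8 h13
  · intro x hx
    simp only [Finset.mem_insert, Finset.mem_singleton] at hx
    rcases hx with rfl | rfl | rfl | rfl | rfl | rfl
    · exact ⟨{x, b, c}, by simp, by simp⟩
    · exact ⟨{x, b, c'}, by simp, by simp⟩
    · exact ⟨{a, x, c}, by simp, by simp⟩
    · exact ⟨{a, x, c'}, by simp, by simp⟩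
    · exact ⟨{a, b, x}, by simp, by simp⟩
    · exact ⟨{a, b', x}, by simp, by simp⟩

end QMI_

open QMI_ in
/-- QMI -/
theorem p_QMI : T_QMI := by
  intro V _ _ C hC
  refine ⟨?_, ?_, ?_, ?_⟩
  · rintro v ⟨a, a', b, b', c, c', hnd, hF⟩
    obtain ⟨f1, f2⟩ := facts hnd
    refine ⟨a, a', b, b', c, c', hnd, ?_⟩
    have hv : v ∉ ({a, a', b, b', c, c'} : Finset V) := by
      intro h
      obtain ⟨T, hT, hvT⟩ := f2 v h
      rw [← hF, Finset.mem_filter] at hT
      exact (mem_av.mp hT.1).2 hvT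
    rw [← hF]
    ext S
    rw [Finset.mem_filter, Finset.mem_filter, mem_av]
    constructor
    · rintro ⟨h1, h2⟩
      exact ⟨⟨h1, fun h => hv (h2 h)⟩, h2⟩
    · rintro ⟨⟨h1, _⟩, h2⟩
      exact ⟨h1, h2⟩
  · rintro v ⟨a, a', b, b', c, c', hnd, hF⟩
    obtain ⟨f1, f2⟩ := facts hnd
    refine ⟨a, a', b, b', c, c', hnd, ?_⟩
    have hv : v ∉ ({a, a', b, b', c, c'} : Finset V) := by
      intro h
      obtain ⟨T, hT, hvT⟩ := f2 v h
      rw [← hF, Finset.mem_filter, Finset.mem_image] at hT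
      obtain ⟨⟨S, _, rfl⟩, _⟩ := hT
      exact (Finset.notMem_erase v S) hvT
    ext S
    rw [Finset.mem_filter]
    constructor
    · rintro ⟨h1, h2⟩
      rw [← hF, Finset.mem_filter, Finset.mem_image]
      exact ⟨⟨S, h1, Finset.erase_eq_of_notMem fun h => hv (h2 h)⟩, h2⟩
    · intro hS
      have h3 := f1 S hS
      rw [← hF, Finset.mem_filter, Finset.mem_image] at hS
      obtain ⟨⟨T, hT, hTS⟩, h2⟩ := hS
      by_cases hvT : v ∈ T
      · exfalso
        have h4 := hC T hT
        have h5 := Finset.card_erase_of_mem hvT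
        have h6 : 0 < T.card := Finset.card_pos.mpr ⟨v, hvT⟩
        rw [hTS] at h5
        omega
      · rw [Finset.erase_eq_of_notMem hvT] at hTS
        rw [← hTS]
        exact ⟨hT, by rw [hTS]; exact h2⟩
  · rintro ⟨a, a', b, b', c, c', hnd, hF⟩
    obtain ⟨f1, f2⟩ := facts hnd
    refine ⟨a, a', b, b', c, c', hnd, ?_⟩
    ext S
    constructor
    · intro hS
      rw [Finset.mem_filter] at hS
      obtain ⟨h1, h2⟩ := hS
      obtain ⟨S', hS', hmin⟩ := Finset.exists_min_image (C.filter (· ⊆ S)) Finset.card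
        ⟨S, Finset.mem_filter.mpr ⟨h1, Finset.Subset.refl S⟩⟩
      rw [Finset.mem_filter] at hS'
      have h4 : S' ∈ ({{a, b, c}, {a, b', c'}, {a', b, c'}, {a', b', c}} :
          Finset (Finset V)) := by
        rw [← hF, Finset.mem_filter, Finset.mem_filter]
        refine ⟨⟨hS'.1, ?_⟩, hS'.2.trans h2⟩
        intro B hB hBS
        exact Finset.eq_of_subset_of_card_le hBS
          (hmin B (Finset.mem_filter.mpr ⟨hB, hBS.trans hS'.2⟩))
      have h5 : S' = S := Finset.eq_of_subset_of_card_le hS'.2 (by rw [f1 S' h4]; exact hC S h1)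
      rw [← h5]
      exact h4
    · intro hS
      rw [← hF, Finset.mem_filter, Finset.mem_filter] at hS
      rw [Finset.mem_filter]
      exact ⟨hS.1.1, hS.2⟩
  · rintro ⟨a, a', b, b', c, c', hnd, hall, hF⟩
    refine ⟨a, a', b, b', c, c', hnd, ?_⟩
    rw [hF, Finset.filter_true_of_mem]
    intro S _ v _
    have h := hall v
    simp only [List.mem_cons, List.not_mem_nil, or_false] at h
    simp only [Finset.mem_insert, Finset.mem_singleton]
    exact h

end Pool.Agent.TQS
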