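import Pool.Agent.TQS.Targets

set_option autoImplicit false

/-!
# Project TQS: QNP, the clutter of four triangles does not pack
-/

namespace Pool.Agent.TQS

open Finset

theorem p_QNP : T_QNP := by
  intro V _ _ a a' b b' c c' hnd M hM
  simp only [List.nodup_cons, List.mem_cons, List.not_mem_nil, or_false, not_or,
    not_false_iff, List.nodup_nil, and_true] at hnd
  obtain ⟨⟨h1, h2, h3, h4, h5⟩, ⟨h6, h7, h8, h9⟩, ⟨h10, h11, h12⟩, ⟨h13, h14⟩, h15⟩ := hnd
  have m1 : ({a, b, c} : Finset V) ∈ M := by rw [hM]; simp
  have m2 : ({a, b', c'} : Finset V) ∈ M := by rw [hM]; simp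
  have m3 : ({a', b, c'} : Finset V) ∈ M := by rw [hM]; simp
  have m4 : ({a', b', c} : Finset V) ∈ M := by rw [hM]; simp
  have mm : ∀ S ∈ M, S = {a, b, c} ∨ S = {a, b', c'} ∨ S = {a', b, c'} ∨ S = {a', b', c} := by
    intro S hS
    rw [hM] at hS
    simpa using hS
  have key : ∀ T : Finset V, (∀ S ∈ M, (S ∩ T).Nonempty) → 2 ≤ T.card := by
    intro T hT
    by_contra hlt
    have hne : T.Nonempty := by
      obtain ⟨x, hx⟩ := hT _ m1
      exact ⟨x, (Finset.mem_inter.1 hx).2⟩
    have hc1 : T.card = 1 := by
      have := Finset.card_pos.2 hne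
      omega
    obtain ⟨x, rfl⟩ := Finset.card_eq_one.1 hc1
    have hx : ∀ S ∈ M, x ∈ S := by
      intro S hS
      obtain ⟨y, hy⟩ := hT S hS
      rw [Finset.mem_inter, Finset.mem_singleton] at hy
      rw [← hy.2]
      exact hy.1
    have e1 := hx _ m1
    have e2 := hx _ m2
    have e3 := hx _ m3
    have e4 := hx _ m4
    simp only [Finset.mem_insert, Finset.mem_singleton] at e1 e2 e3 e4
    rcases e1 with rfl | rfl | rfl
    · rcases e3 with e | e | e
      · exact h1 e
      · exact h2 e
      · exact h5 e
    · rcases e2 with e | e | e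
      · exact h2 e.symm
      · exact h10 e
      · exact h12 e
    · rcases e2 with e | e | e
      · exact h4 e.symm
      · exact h13 e.symm
      · exact h15 e
  refine ⟨key, ?_, ?_⟩
  · refine ⟨{a, a'}, Finset.card_pair h1, ?_⟩
    intro S hS
    rcases mm S hS with rfl | rfl | rfl | rfl
    · exact ⟨a, by simp⟩
    · exact ⟨a, by simp⟩
    · exact ⟨a', by simp⟩
    · exact ⟨a', by simp⟩
  · rintro (he | ⟨T, hT, P, hPM, hdis, hcard⟩)
    · rcases mm _ he with e | e | e | e
      · exact absurd (e ▸ Finset.mem_insert_self a _ : a ∈ (∅ : Finset V)) (by simp)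
      · exact absurd (e ▸ Finset.mem_insert_self a _ : a ∈ (∅ : Finset V)) (by simp)
      · exact absurd (e ▸ Finset.mem_insert_self a' _ : a' ∈ (∅ : Finset V)) (by simp)
      · exact absurd (e ▸ Finset.mem_insert_self a' _ : a' ∈ (∅ : Finset V)) (by simp)
    · have h2' : 1 < P.card := by
        have := key T hT
        omega
      obtain ⟨A, hA, B, hB, hAB⟩ := Finset.one_lt_card.1 h2'
      have hd := hdis A hA B hB hAB
      rw [Finset.disjoint_left] at hd
      rcases mm A (hPM hA) with rfl | rfl | rfl | rfl <;>
        rcases mm B (hPM hB) with rfl | rfl | rfl | rfl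
      · exact hAB rfl
      · exact hd (a := a) (by simp) (by simp)
      · exact hd (a := b) (by simp) (by simp)
      · exact hd (a := c) (by simp) (by simp)
      · exact hd (a := a) (by simp) (by simp)
      · exact hAB rfl
      · exact hd (a := c') (by simp) (by simp)
      · exact hd (a := b') (by simp) (by simp)
      · exact hd (a := b) (by simp) (by simp)
      · exact hd (a := c') (by simp) (by simp)
      · exact hAB rfl
      · exact hd (a := a') (by simp) (by simp)
      · exact hd (a := c) (by simp) (by simp)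
      · exact hd (a := b') (by simp) (by simp)
      · exact hd (a := a') (by simp) (by simp)
      · exact hAB rfl

end Pool.Agent.TQS
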