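import Pool.Agent.TQS.Targets

set_option autoImplicit false

/-!
# Project TQS: the abstract maximum argument (T_REL)
-/

namespace Pool.Agent.TQS

open Finset

namespace REL_

/-- The maximum argument with a positive maximum. -/
theorem aux {ι : Type} [DecidableEq ι] (A : Finset ι) (P : Finset ι → ι → Prop) (h : ι → ℚ)
    (h1 : ∀ a ∈ A, ∃ J T, P J T ∧ a ∈ J) (h2 : ∀ J T, P J T → J ⊆ A ∧ T ∈ A ∧ T ∉ J)
    (h3 : ∀ J T, P J T → ∀ b ∈ J, ∃ T', P (insert T (J.erase b)) T')
    (h4 : ∀ J T, P J T → h T = -2 * ∑ a ∈ J, h a)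
    (a : ι) (ha : a ∈ A) (hmax : ∀ b ∈ A, |h b| ≤ h a) (hpos : 0 < h a) : False := by
  obtain ⟨J, T, hP, haJ⟩ := h1 a ha
  obtain ⟨_, hTA, hTJ⟩ := h2 J T hP
  have hT := h4 J T hP
  have key : ∀ b ∈ J, |2 * ((∑ c ∈ J, h c) + h b)| ≤ h a := by
    intro b hb
    obtain ⟨T', hP'⟩ := h3 J T hP b hb
    obtain ⟨_, hT'A, _⟩ := h2 _ T' hP'
    have e := h4 _ T' hP'
    have hTn : T ∉ J.erase b := fun hm => hTJ (Finset.mem_of_mem_erase hm)
    have e2 : ∑ c ∈ J.erase b, h c = (∑ c ∈ J, h c) - h b := by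
      rw [← Finset.add_sum_erase J h hb]
      ring
    rw [Finset.sum_insert hTn, e2, hT] at e
    have e3 : h T' = 2 * ((∑ c ∈ J, h c) + h b) := by
      rw [e]
      ring
    rw [← e3]
    exact hmax T' hT'A
  have hTm := hmax T hTA
  rw [hT] at hTm
  have k1 := (abs_le.mp hTm).2
  have k2 := (abs_le.mp (key a haJ)).2
  have hs : 0 ≤ ∑ c ∈ J, h c := by
    apply Finset.sum_nonneg
    intro b hb
    have k3 := (abs_le.mp (key b hb)).1
    linarith
  linarith

end REL_

/-- REL. -/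
theorem p_REL : T_REL := by
  intro ι _ A P h h1 h2 h3 h4 x hx
  obtain ⟨a, ha, hmax⟩ := Finset.exists_max_image A (fun b => |h b|) ⟨x, hx⟩
  have hle : |h a| ≤ 0 := by
    by_contra hc
    push Not at hc
    rcases le_or_gt 0 (h a) with hp | hn
    · rw [abs_of_nonneg hp] at hc
      refine REL_.aux A P h h1 h2 h3 h4 a ha (fun b hb => ?_) hc
      have := hmax b hb
      rwa [abs_of_nonneg hp] at this
    · rw [abs_of_neg hn] at hc
      refine REL_.aux A P (fun b => - h b) h1 h2 h3 (fun J T hP => ?_) a ha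
        (fun b hb => ?_) hc
      · have := h4 J T hP
        simp only [Finset.sum_neg_distrib]
        linarith
      · have := hmax b hb
        rw [abs_of_neg hn] at this
        simpa using this
  have := hmax x hx
  have h0 : |h x| ≤ 0 := this.trans hle
  exact abs_nonpos_iff.mp h0

end Pool.Agent.TQS
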