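import Pool.Agent.TQS.Targets

set_option autoImplicit false

/-!
# Project TQS: rank bound from independent functionals (RKG)
-/

namespace Pool.Agent.TQS

open Finset

theorem p_RKG : T_RKG := by
  intro V _ _ X k f hf h0
  set W : Subspace ℚ (V → ℚ) := Submodule.span ℚ (indq '' (X : Set (Finset V))) with hW
  have h1 : Module.finrank ℚ W + Module.finrank ℚ W.dualAnnihilator =
      Module.finrank ℚ (V → ℚ) := Subspace.finrank_add_finrank_dualAnnihilator_eq W
  have hmem : ∀ i, f i ∈ W.dualAnnihilator := by
    intro i
    rw [Submodule.mem_dualAnnihilator]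
    intro w hw
    have hle : W ≤ LinearMap.ker (f i) := by
      rw [hW, Submodule.span_le]
      rintro _ ⟨S, hS, rfl⟩
      exact h0 i S (by exact_mod_cast hS)
    exact hle hw
  let g : Fin k → W.dualAnnihilator := fun i => ⟨f i, hmem i⟩
  have hg : LinearIndependent ℚ g := by
    apply LinearIndependent.of_comp W.dualAnnihilator.subtype
    exact hf
  have h2 : Fintype.card (Fin k) ≤ Module.finrank ℚ W.dualAnnihilator :=
    hg.fintype_card_le_finrank
  rw [Fintype.card_fin] at h2
  rw [Module.finrank_fintype_fun_eq_card] at h1
  have h3 : rk X = Module.finrank ℚ W := rfl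
  omega

end Pool.Agent.TQS
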