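import Pool.Agent.TQS.Targets

set_option autoImplicit false
set_option linter.unusedSectionVars false

/-!
# Project TQS: RKT
-/

namespace Pool.Agent.TQS

open Finset

namespace RKT_

variable {V : Type} [Fintype V] [DecidableEq V]

theorem ndl_single (B : Finset V) (a : V) :
    ndl B (Pi.single a (1 : ℚ)) = 3 * (if a ∈ B then 1 else 0) - 1 := by
  rw [ndl_apply]
  unfold nd
  have h1 : ∀ U : Finset V, ∑ v ∈ U, (Pi.single a (1 : ℚ) : V → ℚ) v = if a ∈ U then 1 else 0 := by
    intro U
    simp only [Pi.single_apply]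
    rw [Finset.sum_ite_eq']
  rw [h1, h1]
  simp

/-- the unique element of `T` in `B` -/
theorem uniq {T B : Finset V} (h : (T ∩ B).card = 1) {x y : V} (hx : x ∈ T) (hxB : x ∈ B)
    (hy : y ∈ T) (hyB : y ∈ B) : x = y := by
  obtain ⟨z, hz⟩ := Finset.card_eq_one.mp h
  have h1 : x ∈ T ∩ B := Finset.mem_inter.mpr ⟨hx, hxB⟩
  have h2 : y ∈ T ∩ B := Finset.mem_inter.mpr ⟨hy, hyB⟩
  rw [hz, Finset.mem_singleton] at h1 h2
  rw [h1, h2]

theorem exi {T B : Finset V} (h : (T ∩ B).card = 1) : ∃ x ∈ T, x ∈ B := by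
  obtain ⟨z, hz⟩ := Finset.card_eq_one.mp h
  have h1 : z ∈ T ∩ B := by rw [hz]; exact Finset.mem_singleton_self z
  exact ⟨z, (Finset.mem_inter.mp h1).1, (Finset.mem_inter.mp h1).2⟩

/-- two more elements of a triple -/
theorem two {T : Finset V} (h : T.card = 3) {a : V} (ha : a ∈ T) :
    ∃ y ∈ T, ∃ z ∈ T, y ≠ a ∧ z ≠ a ∧ y ≠ z := by
  have h1 : (T.erase a).card = 2 := by rw [Finset.card_erase_of_mem ha, h]
  obtain ⟨y, z, hyz, he⟩ := Finset.card_eq_two.mp h1
  have hy : y ∈ T.erase a := by rw [he]; simp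
  have hz : z ∈ T.erase a := by rw [he]; simp
  exact ⟨y, Finset.mem_of_mem_erase hy, z, Finset.mem_of_mem_erase hz,
    Finset.ne_of_mem_erase hy, Finset.ne_of_mem_erase hz, hyz⟩

theorem aux {E : Finset (Finset V)} (hcov : ∀ v, ∃ T ∈ E, v ∈ T) {B B' B'' : Finset V}
    (hB : ∀ T ∈ E, (T ∩ B).card = 1) (hB' : ∀ T ∈ E, (T ∩ B').card = 1)
    (hB'' : ∀ T ∈ E, (T ∩ B'').card = 1) (α β γ : ℚ)
    (hrel : ∀ a, α * (if a ∈ B then 1 else 0) + β * (if a ∈ B' then 1 else 0) +
      γ * (if a ∈ B'' then 1 else 0) = 0) {v : V} (hv : v ∈ B) (hv' : v ∉ B') :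
    (α = 0 ∧ β + γ = 0) ∨ (β = 0 ∧ α + γ = 0) := by
  obtain ⟨T, hT, hvT⟩ := hcov v
  obtain ⟨x, hx, hxB⟩ := exi (hB' T hT)
  obtain ⟨y, hy, hyB⟩ := exi (hB'' T hT)
  have hxv : x ≠ v := fun h => hv' (h ▸ hxB)
  have hxB1 : x ∉ B := fun h => hxv (uniq (hB T hT) hx h hvT hv)
  have r1 := hrel v
  have r2 := hrel x
  rw [if_pos hv, if_neg hv'] at r1
  rw [if_neg hxB1, if_pos hxB] at r2
  by_cases h1 : v ∈ B''
  · have h2 : x ∉ B'' := fun h => hxv (uniq (hB'' T hT) hx h hvT h1)
    rw [if_pos h1] at r1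
    rw [if_neg h2] at r2
    right
    constructor
    · linarith
    · linarith
  · rw [if_neg h1] at r1
    by_cases h2 : x ∈ B''
    · rw [if_pos h2] at r2
      left
      constructor
      · linarith
      · linarith
    · rw [if_neg h2] at r2
      have hyv : y ∉ B := fun h => h1 (uniq (hB T hT) hvT hv hy h ▸ hyB)
      have hyx : y ∉ B' := fun h => h2 (uniq (hB' T hT) hx hxB hy h ▸ hyB)
      have r3 := hrel y
      rw [if_neg hyv, if_neg hyx, if_pos hyB] at r3
      left
      constructor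
      · linarith
      · linarith

theorem pair {E : Finset (Finset V)} (hcov : ∀ v, ∃ T ∈ E, v ∈ T) {B B' B'' : Finset V}
    (hB : ∀ T ∈ E, (T ∩ B).card = 1) (hB' : ∀ T ∈ E, (T ∩ B').card = 1)
    (hB'' : ∀ T ∈ E, (T ∩ B'').card = 1) (α β γ : ℚ)
    (hrel : ∀ a, α * (if a ∈ B then 1 else 0) + β * (if a ∈ B' then 1 else 0) +
      γ * (if a ∈ B'' then 1 else 0) = 0) (hne : B ≠ B') :
    (α = 0 ∧ β + γ = 0) ∨ (β = 0 ∧ α + γ = 0) := by
  by_cases h : ∃ v, v ∈ B ∧ v ∉ B'
  · obtain ⟨v, hv, hv'⟩ := h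
    exact aux hcov hB hB' hB'' α β γ hrel hv hv'
  · push Not at h
    have h2 : ∃ v, v ∈ B' ∧ v ∉ B := by
      by_contra h3
      push Not at h3
      exact hne (Finset.Subset.antisymm h h3)
    obtain ⟨v, hv, hv'⟩ := h2
    have h4 := aux hcov hB' hB hB'' β α γ (fun a => by linarith [hrel a]) hv hv'
    exact h4.symm

end RKT_

open RKT_ in
/-- RKT -/
theorem p_RKT (h1 : T_RKG) : T_RKT := by
  intro V _ _ E Ms hE3 hcov hEB hV
  have hzero : ∀ B ∈ Ms, ∀ S ∈ E, ndl B (indq S) = 0 := by
    intro B hB S hS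
    rw [ndl_apply, nd_indq, hE3 S hS, hEB S hS B hB]
    norm_num
  refine ⟨?_, ?_, ?_⟩
  · intro B hB
    have h2 := h1 V E 1 ![ndl B] ?_ ?_
    · exact h2
    · rw [Fintype.linearIndependent_iff]
      intro g hg i
      rw [Fin.sum_univ_one] at hg
      obtain ⟨a⟩ := hV
      have h3 := congrArg (fun F : (V → ℚ) →ₗ[ℚ] ℚ => F (Pi.single a 1)) hg
      simp only [Matrix.cons_val_zero, LinearMap.smul_apply, LinearMap.zero_apply, smul_eq_mul,
        ndl_single] at h3
      have hi : i = 0 := Subsingleton.elim _ _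
      rw [hi]
      by_cases ha : a ∈ B
      · rw [if_pos ha] at h3
        linarith
      · rw [if_neg ha] at h3
        linarith
    · intro i S hS
      have hi : i = 0 := Subsingleton.elim _ _
      rw [hi]
      exact hzero B hB S hS
  · intro B1 hB1 B2 hB2 hne
    have h2 := h1 V E 2 ![ndl B1, ndl B2] ?_ ?_
    · exact h2
    · rw [Fintype.linearIndependent_iff]
      intro g hg
      rw [Fin.sum_univ_two] at hg
      have hrel : ∀ a, g 0 * (3 * (if a ∈ B1 then 1 else 0) - 1) +
          g 1 * (3 * (if a ∈ B2 then 1 else 0) - 1) = 0 := by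
        intro a
        have h3 := congrArg (fun F : (V → ℚ) →ₗ[ℚ] ℚ => F (Pi.single a 1)) hg
        simpa [ndl_single] using h3
      have key : ∀ (B B' : Finset V) (_ : B ∈ Ms) (_ : B' ∈ Ms) (α β : ℚ),
          (∀ a, α * (3 * (if a ∈ B then 1 else 0) - 1) +
            β * (3 * (if a ∈ B' then 1 else 0) - 1) = 0) → (∃ v, v ∈ B ∧ v ∉ B') →
          α = 0 ∧ β = 0 := by
        intro B B' hB hB' α β hr hex
        obtain ⟨v, hv, hv'⟩ := hex
        obtain ⟨T, hT, hvT⟩ := hcov v
        obtain ⟨y, hy, z, hz, hya, hza, hyz⟩ := two (hE3 T hT) hvT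
        have hyB : y ∉ B := fun h => hya (uniq (hEB T hT B hB) hy h hvT hv)
        have hzB : z ∉ B := fun h => hza (uniq (hEB T hT B hB) hz h hvT hv)
        have r1 := hr v
        rw [if_pos hv, if_neg hv'] at r1
        by_cases hyB' : y ∈ B'
        · have hzB' : z ∉ B' := fun h => hyz (uniq (hEB T hT B' hB') hy hyB' hz h)
          have r2 := hr z
          rw [if_neg hzB, if_neg hzB'] at r2
          constructor
          · linarith
          · linarith
        · have r2 := hr y
          rw [if_neg hyB, if_neg hyB'] at r2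
          constructor
          · linarith
          · linarith
      have hfin : g 0 = 0 ∧ g 1 = 0 := by
        by_cases h : ∃ v, v ∈ B1 ∧ v ∉ B2
        · exact key B1 B2 hB1 hB2 _ _ hrel h
        · push Not at h
          have h2 : ∃ v, v ∈ B2 ∧ v ∉ B1 := by
            by_contra h3
            push Not at h3
            exact hne (Finset.Subset.antisymm h h3)
          have h4 := key B2 B1 hB2 hB1 (g 1) (g 0) (fun a => by linarith [hrel a]) h2
          exact ⟨h4.2, h4.1⟩
      intro i
      fin_cases i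
      · exact hfin.1
      · exact hfin.2
    · intro i S hS
      fin_cases i
      · exact hzero B1 hB1 S hS
      · exact hzero B2 hB2 S hS
  · intro B1 hB1 B2 hB2 B3 hB3 h12 h13 h23
    by_cases hpart : (Disjoint B1 B2 ∧ Disjoint B1 B3 ∧ Disjoint B2 B3 ∧ B1 ∪ B2 ∪ B3 = univ)
    · exact Or.inr hpart
    left
    have h2 := h1 V E 3 ![ndl B1, ndl B2, ndl B3] ?_ ?_
    · exact h2
    · rw [Fintype.linearIndependent_iff]
      intro g hg
      rw [Fin.sum_univ_three] at hg
      have hrel : ∀ a, g 0 * (3 * (if a ∈ B1 then 1 else 0) - 1) +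
          g 1 * (3 * (if a ∈ B2 then 1 else 0) - 1) +
          g 2 * (3 * (if a ∈ B3 then 1 else 0) - 1) = 0 := by
        intro a
        have h3 := congrArg (fun F : (V → ℚ) →ₗ[ℚ] ℚ => F (Pi.single a 1)) hg
        simpa [ndl_single] using h3
      have hs : g 0 + g 1 + g 2 = 0 := by
        by_contra hs
        apply hpart
        have hne : ∀ a, a ∈ B1 ∨ a ∈ B2 ∨ a ∈ B3 := by
          intro a
          by_contra h
          push Not at h
          have r := hrel a
          rw [if_neg h.1, if_neg h.2.1, if_neg h.2.2] at r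
          apply hs
          linarith
        have key : ∀ (B B' B'' : Finset V) (_ : B ∈ Ms) (_ : B' ∈ Ms) (_ : B'' ∈ Ms),
            (∀ a, a ∈ B ∨ a ∈ B' ∨ a ∈ B'') → Disjoint B B' := by
          intro B B' B'' hB hB' hB'' hc
          rw [Finset.disjoint_left]
          intro v hv hv'
          obtain ⟨T, hT, hvT⟩ := hcov v
          obtain ⟨y, hy, z, hz, hya, hza, hyz⟩ := two (hE3 T hT) hvT
          have hyB : y ∉ B := fun h => hya (uniq (hEB T hT B hB) hy h hvT hv)
          have hzB : z ∉ B := fun h => hza (uniq (hEB T hT B hB) hz h hvT hv)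
          have hyB' : y ∉ B' := fun h => hya (uniq (hEB T hT B' hB') hy h hvT hv')
          have hzB' : z ∉ B' := fun h => hza (uniq (hEB T hT B' hB') hz h hvT hv')
          have hy3 : y ∈ B'' := by
            rcases hc y with h | h | h
            · exact absurd h hyB
            · exact absurd h hyB'
            · exact h
          have hz3 : z ∈ B'' := by
            rcases hc z with h | h | h
            · exact absurd h hzB
            · exact absurd h hzB'
            · exact h
          exact hyz (uniq (hEB T hT B'' hB'') hy hy3 hz hz3)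
        refine ⟨key B1 B2 B3 hB1 hB2 hB3 hne, key B1 B3 B2 hB1 hB3 hB2 ?_,
          key B2 B3 B1 hB2 hB3 hB1 ?_, ?_⟩
        · intro a
          rcases hne a with h | h | h
          · exact Or.inl h
          · exact Or.inr (Or.inr h)
          · exact Or.inr (Or.inl h)
        · intro a
          rcases hne a with h | h | h
          · exact Or.inr (Or.inr h)
          · exact Or.inl h
          · exact Or.inr (Or.inl h)
        · ext a
          simp only [Finset.mem_union, Finset.mem_univ, iff_true]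
          rcases hne a with h | h | h
          · exact Or.inl (Or.inl h)
          · exact Or.inl (Or.inr h)
          · exact Or.inr h
      have c1 := fun T hT => hEB T hT B1 hB1
      have c2 := fun T hT => hEB T hT B2 hB2
      have c3 := fun T hT => hEB T hT B3 hB3
      have p12 := pair hcov c1 c2 c3 (g 0) (g 1) (g 2) (fun a => by linarith [hrel a]) h12
      have p23 := pair hcov c2 c3 c1 (g 1) (g 2) (g 0) (fun a => by linarith [hrel a]) h23
      have p13 := pair hcov c1 c3 c2 (g 0) (g 2) (g 1) (fun a => by linarith [hrel a]) h13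
      have hfin : g 0 = 0 ∧ g 1 = 0 ∧ g 2 = 0 := by
        rcases p12 with ⟨a1, a2⟩ | ⟨a1, a2⟩
        · rcases p23 with ⟨b1, b2⟩ | ⟨b1, b2⟩
          · exact ⟨a1, b1, by linarith⟩
          · exact ⟨a1, by linarith, b1⟩
        · rcases p13 with ⟨b1, b2⟩ | ⟨b1, b2⟩
          · exact ⟨b1, a1, by linarith⟩
          · exact ⟨by linarith, a1, b1⟩
      intro i
      fin_cases i
      · exact hfin.1
      · exact hfin.2.1
      · exact hfin.2.2
    · intro i S hS
      fin_cases i
      · exact hzero B1 hB1 S hS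
      · exact hzero B2 hB2 S hS
      · exact hzero B3 hB3 S hS

end Pool.Agent.TQS
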