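import Pool.Agent.TQS.Targets

set_option autoImplicit false

/-!
# Project TQS: the target RPA, the bound for `r` at an odd pair
-/

namespace Pool.Agent.TQS

open Finset

/-- RPA. At an odd pair `a, b` the value `r a` is at most two. -/
theorem p_RPA (h1 : T_SG0) : T_RPA := by
  intro V _ _ C w Ms V2 G G' hD a b hba hab hL
  have key : ∀ v ∈ V2, sg G G' v a ≤ (if v = a then 1 else 0) + (if v = b then 1 else 0) := by
    intro v hv
    by_cases hva : v = a
    · subst hva
      have hg := hD.gmem v hv
      have hb : ¬ v = b := fun h => hba h.symm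
      unfold sg
      simp only [hg.1, hg.2, if_true, if_neg hb]
      norm_num
    · by_cases hvb : v = b
      · subst hvb
        have hav : ¬ a = v := fun h => hva h.symm
        unfold sg
        rw [if_neg hav, if_neg hva, if_pos rfl]
        split_ifs <;> norm_num
      · rw [if_neg hva, if_neg hvb, (h1 V C w Ms V2 G G' hD a b hab hL v hv hva hvb).1]
        norm_num
  have h2 : ∀ c : V, ∑ v ∈ V2, (if v = c then (1 : ℤ) else 0) ≤ 1 := by
    intro c
    rw [Finset.sum_ite_eq']
    split_ifs <;> norm_num
  calc rr V2 G G' a = ∑ v ∈ V2, sg G G' v a := rfl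
    _ ≤ ∑ v ∈ V2, ((if v = a then (1 : ℤ) else 0) + (if v = b then 1 else 0)) :=
        Finset.sum_le_sum key
    _ = ∑ v ∈ V2, (if v = a then (1 : ℤ) else 0) + ∑ v ∈ V2, (if v = b then (1 : ℤ) else 0) :=
        Finset.sum_add_distrib
    _ ≤ 2 := by
        have := h2 a
        have := h2 b
        omega

end Pool.Agent.TQS
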