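import Pool.Agent.TQS.Targets

set_option autoImplicit false

/-!
# Project TQS, target SG0
-/

namespace Pool.Agent.TQS

open Finset

theorem p_SG0 : T_SG0 := by
  intro V _ _ C w Ms V2 G G' D a b hab hL v hv hva hvb
  have h0 : ∀ B ∈ Ms, nd B (un a - un b : V → ℤ) = 0 := by
    intro B hB
    rw [nd_un_sub]
    have h := hab B hB
    by_cases ha : a ∈ B
    · rw [if_pos ha, if_pos (h.2 ha)]
      norm_num
    · rw [if_neg ha, if_neg (fun hb => ha (h.1 hb))]
      norm_num
  have h1 : ¬ Even (nd (G v) (un a - un b : V → ℤ)) := fun h => hL ((D.gpar v hv _ h0).2 h)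
  have h2 := D.glin v hv _ h0
  have h3 : (un a - un b : V → ℤ) v = 0 := by
    show (if v = a then (1 : ℤ) else 0) - (if v = b then (1 : ℤ) else 0) = 0
    rw [if_neg hva, if_neg hvb]
    norm_num
  rw [h3, nd_un_sub, nd_un_sub] at h2
  rw [nd_un_sub] at h1
  unfold sg
  rw [if_neg (Ne.symm hva), if_neg (Ne.symm hvb)]
  by_cases g1 : a ∈ G v
  · by_cases g2 : b ∈ G v
    · exfalso
      apply h1
      rw [if_pos g1, if_pos g2]
      exact ⟨0, by norm_num⟩
    · rw [if_pos g1, if_neg g2] at h2 ⊢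
      by_cases g3 : a ∈ G' v
      · rw [if_pos g3] at h2
        split_ifs at h2 <;> omega
      · rw [if_neg g3] at h2 ⊢
        split_ifs at h2 ⊢ <;> omega
  · by_cases g2 : b ∈ G v
    · rw [if_neg g1, if_pos g2] at h2 ⊢
      by_cases g3 : a ∈ G' v
      · rw [if_pos g3] at h2 ⊢
        split_ifs at h2 ⊢ <;> omega
      · rw [if_neg g3] at h2
        split_ifs at h2 <;> omega
    · exfalso
      apply h1
      rw [if_neg g1, if_neg g2]
      exact ⟨0, by norm_num⟩

end Pool.Agent.TQS
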