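import Pool.Agent.TQS.Targets

set_option autoImplicit false

/-!
# Project TQS: SGT, the sums of `σ_v` over the members of the face
-/

namespace Pool.Agent.TQS

open Finset

namespace SGT_

variable {V : Type} [Fintype V] [DecidableEq V]

theorem sum_sg (G G' : V → Finset V) (v : V) (T : Finset V) :
    ∑ u ∈ T, sg G G' v u =
      (T.card : ℤ) - ((T ∩ G v).card : ℤ) - ((T ∩ G' v).card : ℤ) +
        2 * (if v ∈ T then 1 else 0) := by
  unfold sg
  rw [Finset.sum_add_distrib, Finset.sum_sub_distrib, Finset.sum_sub_distrib, ← Finset.mul_sum,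
    Finset.sum_ite_eq']
  have h : ∀ U : Finset V, ∑ u ∈ T, (if u ∈ U then (1 : ℤ) else 0) = ((T ∩ U).card : ℤ) := by
    intro U
    rw [← Finset.sum_filter, Finset.sum_const, nsmul_eq_mul, mul_one, Finset.filter_mem_eq_inter]
  rw [h, h, Finset.sum_const, nsmul_eq_mul, mul_one]

end SGT_

open SGT_ in
theorem p_SGT (h1 : T_EQO) : T_SGT := by
  intro V _ _ C w Ms V2 G G' hD v hv
  have hvv : sg G G' v v = 1 := by
    unfold sg
    rw [if_pos (hD.gmem v hv).1, if_pos (hD.gmem v hv).2, if_pos rfl]
    norm_num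
  have heq : ∀ a, a ≠ v → (∀ B ∈ Ms, a ∈ B ↔ v ∈ B) → sg G G' v a = 1 := by
    intro a ha hB
    obtain ⟨e1, e2, -⟩ := h1 V C w Ms V2 G G' hD v hv a ha hB
    unfold sg
    rw [if_neg e1, if_neg e2, if_neg ha]
    norm_num
  refine ⟨?_, hvv, ?_⟩
  · intro T hT
    rw [sum_sg]
    have hc : T.card = 3 := (mem_Em.mp hT).2.1
    by_cases hvT : v ∈ T
    · rw [if_pos hvT]
      rcases hD.g1 v hv T hT hvT with ⟨e1, e2⟩ | ⟨e1, e2⟩
      · rw [Finset.inter_eq_left.2 e1, e2, hc]
        norm_num
      · rw [Finset.inter_eq_left.2 e2, e1, hc]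
        norm_num
    · rw [if_neg hvT, (hD.g0 v hv T hT hvT).1, (hD.g0 v hv T hT hvT).2, hc]
      norm_num
  · intro a b hab
    by_cases ha : a = v
    · by_cases hb : b = v
      · rw [ha, hb]
      · rw [ha, hvv, heq b hb (fun B hB => by rw [← hab B hB, ha])]
    · by_cases hb : b = v
      · rw [hb, hvv, heq a ha (fun B hB => by rw [hab B hB, hb])]
      · have hl := hD.glin v hv (un a - un b) (by
          intro B hB
          rw [nd_un_sub]
          by_cases h : a ∈ B
          · rw [if_pos h, if_pos ((hab B hB).1 h)]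
            norm_num
          · rw [if_neg h, if_neg (fun h' => h ((hab B hB).2 h'))]
            norm_num)
        rw [nd_un_sub, nd_un_sub] at hl
        have hz : (un a - un b : V → ℤ) v = 0 := by
          rw [Pi.sub_apply]
          unfold un
          rw [if_neg (fun h => ha h.symm), if_neg (fun h => hb h.symm), sub_zero]
        rw [hz] at hl
        unfold sg
        rw [if_neg ha, if_neg hb]
        linarith

end Pool.Agent.TQS
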