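import Pool.Agent.TQS.Targets

set_option autoImplicit false
set_option linter.unusedSectionVars false

/-!
# Project TQS: SIX
-/

namespace Pool.Agent.TQS

open Finset

namespace SIX_

variable {V : Type} [Fintype V] [DecidableEq V]

theorem other {P : Finset V} (h : P.card = 2) {x : V} (hx : x ∈ P) :
    ∃ x', x' ≠ x ∧ x' ∈ P ∧ ∀ y ∈ P, y = x ∨ y = x' := by
  have h1 : (P.erase x).card = 1 := by rw [Finset.card_erase_of_mem hx, h]
  obtain ⟨x', hx'⟩ := Finset.card_eq_one.mp h1
  have h2 : x' ∈ P.erase x := by rw [hx']; exact Finset.mem_singleton_self x'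
  refine ⟨x', Finset.ne_of_mem_erase h2, Finset.mem_of_mem_erase h2, ?_⟩
  intro y hy
  by_cases hyx : y = x
  · exact Or.inl hyx
  · right
    have h3 : y ∈ P.erase x := Finset.mem_erase.mpr ⟨hyx, hy⟩
    rw [hx', Finset.mem_singleton] at h3
    exact h3

theorem exi {T B : Finset V} (h : (T ∩ B).card = 1) : ∃ x ∈ T, x ∈ B := by
  obtain ⟨z, hz⟩ := Finset.card_eq_one.mp h
  have h1 : z ∈ T ∩ B := by rw [hz]; exact Finset.mem_singleton_self z
  exact ⟨z, (Finset.mem_inter.mp h1).1, (Finset.mem_inter.mp h1).2⟩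

theorem ind_three {x y z : V} (hxy : x ≠ y) (hxz : x ≠ z) (hyz : y ≠ z) :
    ind ({x, y, z} : Finset V) = un x + un y + un z := by
  funext u
  simp only [ind, un, Finset.mem_insert, Finset.mem_singleton, Pi.add_apply]
  by_cases h1 : u = x
  · subst h1
    simp [hxy, hxz]
  · by_cases h2 : u = y
    · subst h2
      simp [h1, hyz]
    · by_cases h3 : u = z
      · subst h3
        simp [h1, h2]
      · simp [h1, h2, h3]

/-- a triple which meets three disjoint sets -/
theorem rep {T P1 P2 P3 : Finset V} (h3 : T.card = 3) (h1 : (T ∩ P1).card = 1)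
    (h2 : (T ∩ P2).card = 1) (h3' : (T ∩ P3).card = 1) (d12 : Disjoint P1 P2)
    (d13 : Disjoint P1 P3) (d23 : Disjoint P2 P3) :
    ∃ x ∈ P1, ∃ y ∈ P2, ∃ z ∈ P3, T = {x, y, z} := by
  obtain ⟨x, hxT, hx⟩ := exi h1
  obtain ⟨y, hyT, hy⟩ := exi h2
  obtain ⟨z, hzT, hz⟩ := exi h3'
  have hxy : x ≠ y := fun h => Finset.disjoint_left.mp d12 hx (h ▸ hy)
  have hxz : x ≠ z := fun h => Finset.disjoint_left.mp d13 hx (h ▸ hz)
  have hyz : y ≠ z := fun h => Finset.disjoint_left.mp d23 hy (h ▸ hz)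
  refine ⟨x, hx, y, hy, z, hz, ?_⟩
  symm
  apply Finset.eq_of_subset_of_card_le
  · intro u hu
    simp only [Finset.mem_insert, Finset.mem_singleton] at hu
    rcases hu with rfl | rfl | rfl
    · exact hxT
    · exact hyT
    · exact hzT
  · rw [h3, Finset.card_eq_three.mpr ⟨x, y, z, hxy, hxz, hyz, rfl⟩]

end SIX_

open SIX_ in
/-- SIX -/
theorem p_SIX (h1 : T_EQO) : T_SIX := by
  intro V _ _ C w Ms V2 G G' hD P1 P2 P3 hP1 hP2 hP3 c1 c2 c3 d12 d13 d23 hun hP
  obtain ⟨e1, m1⟩ := hP P1 (by simp)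
  obtain ⟨e2, m2⟩ := hP P2 (by simp)
  obtain ⟨e3, m3⟩ := hP P3 (by simp)
  -- odd differences
  have hodd : ∀ (P : Finset V), P ⊆ V2 → (∀ x ∈ P, ∀ y ∈ P, ∀ B ∈ Ms, x ∈ B ↔ y ∈ B) →
      ∀ x ∈ P, ∀ y ∈ P, x ≠ y → ¬ InL (Em C Ms) (un x - un y) := by
    intro P hPV hm x hx y hy hxy
    exact (h1 V C w Ms V2 G G' hD y (hPV hy) x hxy (fun B hB => hm x hx y hy B hB)).2.2
  have hnd : ∀ (P : Finset V), (∀ x ∈ P, ∀ y ∈ P, ∀ B ∈ Ms, x ∈ B ↔ y ∈ B) →
      ∀ x ∈ P, ∀ y ∈ P, ∀ B ∈ Ms, nd B (un x - un y) = 0 := by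
    intro P hm x hx y hy B hB
    rw [nd_un_sub]
    have h2 := hm x hx y hy B hB
    by_cases h3 : x ∈ B
    · rw [if_pos h3, if_pos (h2.mp h3)]
      ring
    · rw [if_neg h3, if_neg (fun h => h3 (h2.mpr h))]
      ring
  -- two members through each element
  have htwo : ∀ v ∈ V2, ∀ T ∈ Em C Ms, ∃ T' ∈ Em C Ms, v ∈ T' ∧ T' ≠ T := by
    intro v hv T hT
    obtain ⟨⟨T1, hT1, hv1, hs1⟩, T2, hT2, hv2, hs2⟩ := hD.g2 v hv
    by_cases h2 : T1 = T
    · refine ⟨T2, hT2, hv2, ?_⟩
      rintro rfl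
      subst h2
      have h3 := (mem_Em.mp hT1).2.1
      rcases hD.g1 v hv T1 hT1 hv1 with h | h
      · rw [Finset.inter_eq_left.mpr hs2, h3] at h
        omega
      · rw [Finset.inter_eq_left.mpr hs1, h3] at h
        omega
    · exact ⟨T1, hT1, hv1, h2⟩
  -- names
  obtain ⟨a, ha⟩ : P1.Nonempty := Finset.card_pos.mp (by omega)
  obtain ⟨T0, hT0, haT⟩ := hD.cov a
  have hc0 := (mem_Em.mp hT0).2.1
  obtain ⟨a0, ha0, b, hb, c, hc, hT0e⟩ := rep hc0 (e1 T0 hT0) (e2 T0 hT0) (e3 T0 hT0) d12 d13 d23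
  have haa : a = a0 := by
    rw [hT0e, Finset.mem_insert, Finset.mem_insert, Finset.mem_singleton] at haT
    rcases haT with h | h | h
    · exact h
    · exact absurd hb (h ▸ Finset.disjoint_left.mp d12 ha)
    · exact absurd hc (h ▸ Finset.disjoint_left.mp d13 ha)
  subst haa
  obtain ⟨a', haa', ha', hPa⟩ := other c1 ha
  obtain ⟨b', hbb', hb', hPb⟩ := other c2 hb
  obtain ⟨c', hcc', hc', hPc⟩ := other c3 hc
  have n12 : ∀ x ∈ P1, ∀ y ∈ P2, x ≠ y := fun x hx y hy h =>
    Finset.disjoint_left.mp d12 hx (h ▸ hy)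
  have n13 : ∀ x ∈ P1, ∀ y ∈ P3, x ≠ y := fun x hx y hy h =>
    Finset.disjoint_left.mp d13 hx (h ▸ hy)
  have n23 : ∀ x ∈ P2, ∀ y ∈ P3, x ≠ y := fun x hx y hy h =>
    Finset.disjoint_left.mp d23 hx (h ▸ hy)
  have hi : ∀ x ∈ P1, ∀ y ∈ P2, ∀ z ∈ P3, ind ({x, y, z} : Finset V) = un x + un y + un z :=
    fun x hx y hy z hz => ind_three (n12 x hx y hy) (n13 x hx z hz) (n23 y hy z hz)
  have o1 := hodd P1 hP1 m1 a ha a' ha' haa'.symm
  have o2 := hodd P2 hP2 m2 b hb b' hb' hbb'.symm
  have o3 := hodd P3 hP3 m3 c hc c' hc' hcc'.symm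
  have z1 := hnd P1 m1 a ha a' ha'
  have z2 := hnd P2 m2 b hb b' hb'
  have z3 := hnd P3 m3 c hc c' hc'
  have haV : a ∈ V2 := hP1 ha
  have L0 : InL (Em C Ms) (un a + un b + un c) := by
    rw [← hi a ha b hb c hc, ← hT0e]
    exact InL.mem hT0
  have q1 : ¬ Even (nd (G a) (un a - un a')) := fun h => o1 ((hD.gpar a haV _ z1).mpr h)
  have q2 : ¬ Even (nd (G a) (un b - un b')) := fun h => o2 ((hD.gpar a haV _ z2).mpr h)
  have q3 : ¬ Even (nd (G a) (un c - un c')) := fun h => o3 ((hD.gpar a haV _ z3).mpr h)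
  have cls : ∀ T ∈ Em C Ms, T = {a, b, c} ∨ T = {a, b', c'} ∨ T = {a', b, c'} ∨
      T = {a', b', c} := by
    intro T hT
    obtain ⟨x, hx, y, hy, z, hz, hTe⟩ := rep (mem_Em.mp hT).2.1 (e1 T hT) (e2 T hT) (e3 T hT)
      d12 d13 d23
    have LT : InL (Em C Ms) (un x + un y + un z) := by
      rw [← hi x hx y hy z hz, ← hTe]
      exact InL.mem hT
    have LD := L0.sub LT
    rcases hPa x hx with rfl | rfl <;> rcases hPb y hy with rfl | rfl <;>
      rcases hPc z hz with rfl | rfl
    · exact Or.inl hTe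
    · exfalso
      apply o3
      have h2 : un c - un z = un x + un y + un c - (un x + un y + un z) := by abel
      rw [h2]
      exact LD
    · exfalso
      apply o2
      have h2 : un b - un y = un x + un b + un z - (un x + un y + un z) := by abel
      rw [h2]
      exact LD
    · exact Or.inr (Or.inl hTe)
    · exfalso
      apply o1
      have h2 : un a - un x = un a + un y + un z - (un x + un y + un z) := by abel
      rw [h2]
      exact LD
    · exact Or.inr (Or.inr (Or.inl hTe))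
    · exact Or.inr (Or.inr (Or.inr hTe))
    · exfalso
      have h2 : un a + un b + un c - (un x + un y + un z) =
          (un a - un x) + (un b - un y) + (un c - un z) := by abel
      rw [h2] at LD
      have h3 : ∀ B ∈ Ms, nd B ((un a - un x) + (un b - un y) + (un c - un z)) = 0 := by
        intro B hB
        rw [nd_add, nd_add, z1 B hB, z2 B hB, z3 B hB]
        ring
      have h4 := (hD.gpar a haV _ h3).mp LD
      rw [nd_add, nd_add] at h4
      rw [Int.not_even_iff_odd] at q1 q2 q3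
      have h5 := (q1.add_odd q2).add_odd q3
      rw [← Int.not_even_iff_odd] at h5
      exact h5 h4
  have M1 : ({a, b', c'} : Finset V) ∈ Em C Ms := by
    obtain ⟨T, hT, hv, hne⟩ := htwo a (hP1 ha) T0 hT0
    rcases cls T hT with h | h | h | h
    · exact absurd (h.trans hT0e.symm) hne
    · rw [← h]; exact hT
    · rw [h, Finset.mem_insert, Finset.mem_insert, Finset.mem_singleton] at hv
      rcases hv with h | h | h
      · exact absurd h.symm haa'
      · exact absurd h (n12 a ha b hb)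
      · exact absurd h (n13 a ha c' hc')
    · rw [h, Finset.mem_insert, Finset.mem_insert, Finset.mem_singleton] at hv
      rcases hv with h | h | h
      · exact absurd h.symm haa'
      · exact absurd h (n12 a ha b' hb')
      · exact absurd h (n13 a ha c hc)
  have M2 : ({a', b, c'} : Finset V) ∈ Em C Ms := by
    obtain ⟨T, hT, hv, hne⟩ := htwo b (hP2 hb) T0 hT0
    rcases cls T hT with h | h | h | h
    · exact absurd (h.trans hT0e.symm) hne
    · rw [h, Finset.mem_insert, Finset.mem_insert, Finset.mem_singleton] at hv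
      rcases hv with h | h | h
      · exact absurd h.symm (n12 a ha b hb)
      · exact absurd h.symm hbb'
      · exact absurd h (n23 b hb c' hc')
    · rw [← h]; exact hT
    · rw [h, Finset.mem_insert, Finset.mem_insert, Finset.mem_singleton] at hv
      rcases hv with h | h | h
      · exact absurd h.symm (n12 a' ha' b hb)
      · exact absurd h.symm hbb'
      · exact absurd h (n23 b hb c hc)
  have M3 : ({a', b', c} : Finset V) ∈ Em C Ms := by
    obtain ⟨T, hT, hv, hne⟩ := htwo c (hP3 hc) T0 hT0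
    rcases cls T hT with h | h | h | h
    · exact absurd (h.trans hT0e.symm) hne
    · rw [h, Finset.mem_insert, Finset.mem_insert, Finset.mem_singleton] at hv
      rcases hv with h | h | h
      · exact absurd h.symm (n13 a ha c hc)
      · exact absurd h.symm (n23 b' hb' c hc)
      · exact absurd h.symm hcc'
    · rw [h, Finset.mem_insert, Finset.mem_insert, Finset.mem_singleton] at hv
      rcases hv with h | h | h
      · exact absurd h.symm (n13 a' ha' c hc)
      · exact absurd h.symm (n23 b hb c hc)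
      · exact absurd h.symm hcc'
    · rw [← h]; exact hT
  refine ⟨a, a', b, b', c, c', ?_, ?_, ?_⟩
  · simp only [List.nodup_cons, List.mem_cons, List.not_mem_nil, or_false, not_or, not_false_eq_true,
      List.nodup_nil, and_true]
    exact ⟨⟨haa'.symm, n12 a ha b hb, n12 a ha b' hb', n13 a ha c hc, n13 a ha c' hc'⟩,
      ⟨n12 a' ha' b hb, n12 a' ha' b' hb', n13 a' ha' c hc, n13 a' ha' c' hc'⟩,
      ⟨hbb'.symm, n23 b hb c hc, n23 b hb c' hc'⟩,
      ⟨n23 b' hb' c hc, n23 b' hb' c' hc'⟩, hcc'.symm⟩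
  · intro v
    have hv : v ∈ P1 ∪ P2 ∪ P3 := by rw [hun]; exact Finset.mem_univ v
    simp only [List.mem_cons, List.not_mem_nil, or_false]
    rcases Finset.mem_union.mp hv with h | h
    · rcases Finset.mem_union.mp h with h | h
      · rcases hPa v h with h | h
        · exact Or.inl h
        · exact Or.inr (Or.inl h)
      · rcases hPb v h with h | h
        · exact Or.inr (Or.inr (Or.inl h))
        · exact Or.inr (Or.inr (Or.inr (Or.inl h)))
    · rcases hPc v h with h | h
      · exact Or.inr (Or.inr (Or.inr (Or.inr (Or.inl h))))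
      · exact Or.inr (Or.inr (Or.inr (Or.inr (Or.inr h))))
  · apply Finset.Subset.antisymm
    · intro T hT
      simp only [Finset.mem_insert, Finset.mem_singleton]
      exact cls T hT
    · intro T hT
      rw [Finset.mem_insert, Finset.mem_insert, Finset.mem_insert, Finset.mem_singleton] at hT
      rcases hT with h | h | h | h
      · rw [h, ← hT0e]; exact hT0
      · rw [h]; exact M1
      · rw [h]; exact M2
      · rw [h]; exact M3

end Pool.Agent.TQS
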