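import Pool.Agent.TQS.Targets

set_option autoImplicit false

/-!
# Project TQS: target SL1 (choice of the hole)
-/

namespace Pool.Agent.TQS

open Finset

namespace SL1_

section
variable {V : Type} [Fintype V] [DecidableEq V]

/-- A hole: `t` is the minimum weight of a cover and there is no packing of size `t`. -/
def Hole (C : Finset (Finset V)) (w : V → ℕ) (t : ℕ) : Prop :=
  (∀ U, Cov C U → t ≤ ∑ v ∈ U, w v) ∧ (∃ B, Cov C B ∧ ∑ v ∈ B, w v = t) ∧ ¬ Pk C w t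

open Classical in
/-- The set of minimum covers. -/
noncomputable def mc (C : Finset (Finset V)) (w : V → ℕ) (t : ℕ) : Finset (Finset V) :=
  univ.filter (fun B => Cov C B ∧ ∑ v ∈ B, w v = t)

theorem mem_mc {C : Finset (Finset V)} {w : V → ℕ} {t : ℕ} {B : Finset V} :
    B ∈ mc C w t ↔ Cov C B ∧ ∑ v ∈ B, w v = t := by
  classical
  unfold mc
  simp

theorem card_mc (C : Finset (Finset V)) (w : V → ℕ) (t : ℕ) :
    (mc C w t).card ≤ Fintype.card (Finset V) := Finset.card_le_univ _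

theorem exists_hole (h1 : T_PKM) (C : Finset (Finset V)) (hne : ∀ S ∈ C, S.Nonempty)
    (hM : ¬ Meng C) : ∃ (w : V → ℕ) (t : ℕ), Hole C w t := by
  classical
  unfold Meng at hM
  push Not at hM
  obtain ⟨w, s, hs, hn⟩ := hM
  have hex : ∃ t, ∃ U, Cov C U ∧ ∑ v ∈ U, w v = t := by
    refine ⟨_, univ, ?_, rfl⟩
    intro S hS
    rw [Finset.inter_univ]
    exact hne S hS
  refine ⟨w, Nat.find hex, ?_, ?_, ?_⟩
  · intro U hU
    exact Nat.find_min' hex ⟨U, hU, rfl⟩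
  · exact Nat.find_spec hex
  · intro hpk
    obtain ⟨U, hU, hUe⟩ := Nat.find_spec hex
    have h := hs U hU
    rw [hUe] at h
    exact hn (h1 V C w s _ h hpk)

end

end SL1_

open SL1_ in
theorem p_SL1 (h1 : T_PKM) : T_SL1 := by
  intro V _ _ C hne hM
  classical
  obtain ⟨w0, t0, hH0⟩ := exists_hole h1 C hne hM
  have hP : ∃ n, ∃ (w : V → ℕ) (t : ℕ), Hole C w t ∧
      Fintype.card (Finset V) - (mc C w t).card = n := ⟨_, w0, t0, hH0, rfl⟩
  have hQ : ∃ m, ∃ (w : V → ℕ) (t : ℕ), Hole C w t ∧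
      Fintype.card (Finset V) - (mc C w t).card = Nat.find hP ∧ ∑ v, w v = m := by
    obtain ⟨w, t, hH, he⟩ := Nat.find_spec hP
    exact ⟨_, w, t, hH, he, rfl⟩
  obtain ⟨w, t, hH, he, hm⟩ := Nat.find_spec hQ
  refine ⟨w, t, hH.1, hH.2.1, hH.2.2, ?_⟩
  intro w' t' hle hnp hB
  obtain ⟨B0, hB0, hB0t⟩ := hH.2.1
  have hH' : Hole C w' t' := ⟨hle, ⟨B0, hB0, hB B0 hB0 hB0t⟩, hnp⟩
  have hsub : mc C w t ⊆ mc C w' t' := by
    intro B hBm
    rw [mem_mc] at hBm ⊢
    exact ⟨hBm.1, hB B hBm.1 hBm.2⟩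
  have hmin := Nat.find_min' hP ⟨w', t', hH', rfl⟩
  have hc1 := card_mc C w t
  have hc2 := card_mc C w' t'
  have hcard : (mc C w' t').card ≤ (mc C w t).card := by omega
  have heq : mc C w t = mc C w' t' := Finset.eq_of_subset_of_card_le hsub hcard
  refine ⟨?_, ?_⟩
  · intro B hBc hBt
    have : B ∈ mc C w' t' := mem_mc.mpr ⟨hBc, hBt⟩
    rw [← heq] at this
    exact (mem_mc.mp this).2
  · rw [hm]
    refine Nat.find_min' hQ ⟨w', t', hH', ?_, rfl⟩
    rw [← heq]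
    exact he

end Pool.Agent.TQS
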