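import Pool.Agent.TQS.Targets

set_option autoImplicit false

/-!
# Project TQS: target SL2
-/

namespace Pool.Agent.TQS

open Finset

namespace SL2_

variable {V : Type} [Fintype V] [DecidableEq V]

theorem one_le (C : Finset (Finset V)) (hC : MinC C) (w : V → ℕ) (t : ℕ) (hS : Sel C w t)
    (v : V) : 1 ≤ w v := by
  by_contra hcon
  have hv : w v = 0 := by omega
  have hcov : ∀ U, Cov (av C v) U → t ≤ ∑ u ∈ U, w u := by
    intro U hU
    have h1 : Cov C (insert v U) := by
      intro S hS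
      by_cases hvS : v ∈ S
      · exact ⟨v, mem_inter.mpr ⟨hvS, mem_insert_self _ _⟩⟩
      · obtain ⟨x, hx⟩ := hU S (mem_av.mpr ⟨hS, hvS⟩)
        rw [mem_inter] at hx
        exact ⟨x, mem_inter.mpr ⟨hx.1, mem_insert_of_mem hx.2⟩⟩
    have h2 := hS.le _ h1
    rwa [Finset.sum_insert_zero hv] at h2
  obtain ⟨y, hy1, hy2⟩ := hC.del v w t hcov
  have hsub : av C v ⊆ C := Finset.filter_subset _ _
  refine hS.npk ⟨fun S => if S ∈ av C v then y S else 0, ?_, ?_⟩
  · rw [← hy1, ← Finset.sum_subset hsub (f := fun S => if S ∈ av C v then y S else 0)]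
    · exact Finset.sum_congr rfl fun S hS => if_pos hS
    · intro S _ hS
      exact if_neg hS
  · intro u
    rw [cmb_extend hsub]
    exact hy2 u

theorem in_tight (C : Finset (Finset V)) (w : V → ℕ) (t : ℕ) (hS : Sel C w t)
    (v : V) (hv : 1 ≤ w v) : ∃ B, Cov C B ∧ ∑ v ∈ B, w v = t ∧ v ∈ B := by
  by_contra hcon
  push Not at hcon
  set w' : V → ℕ := fun u => if u = v then w u - 1 else w u with hw'
  have hle : ∀ u, w' u ≤ w u := by
    intro u
    rw [hw']
    dsimp only
    split_ifs <;> omega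
  have hne : ∀ u, u ≠ v → w' u = w u := by
    intro u hu
    rw [hw']
    exact if_neg hu
  have hvv : w' v + 1 = w v := by
    rw [hw']
    dsimp only
    rw [if_pos rfl]
    omega
  have hout : ∀ U : Finset V, v ∉ U → ∑ u ∈ U, w' u = ∑ u ∈ U, w u := by
    intro U hU
    refine Finset.sum_congr rfl fun u hu => hne u ?_
    rintro rfl
    exact hU hu
  have hin : ∀ U : Finset V, v ∈ U → ∑ u ∈ U, w' u + 1 = ∑ u ∈ U, w u := by
    intro U hU
    rw [← Finset.add_sum_erase U w hU, ← Finset.add_sum_erase U w' hU,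
      hout (U.erase v) (Finset.notMem_erase v U), ← hvv]
    ring
  have h1 : ∀ U, Cov C U → t ≤ ∑ u ∈ U, w' u := by
    intro U hU
    by_cases hvU : v ∈ U
    · have h2 := hS.le U hU
      have h3 : ∑ u ∈ U, w u ≠ t := fun h => hcon U hU h hvU
      have h4 := hin U hvU
      omega
    · rw [hout U hvU]
      exact hS.le U hU
  have h2 : ¬ Pk C w' t := by
    rintro ⟨y, hy1, hy2⟩
    exact hS.npk ⟨y, hy1, fun u => (hy2 u).trans (hle u)⟩
  have h3 : ∀ B, Cov C B → ∑ u ∈ B, w u = t → ∑ u ∈ B, w' u = t := by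
    intro B hB hBt
    rw [hout B (hcon B hB hBt)]
    exact hBt
  have h4 := (hS.mx w' t h1 h2 h3).2
  have h5 := hin Finset.univ (Finset.mem_univ v)
  omega

end SL2_

theorem p_SL2 : T_SL2 := fun _ _ _ C hC w t hS =>
  ⟨SL2_.one_le C hC w t hS, fun v => SL2_.in_tight C w t hS v (SL2_.one_le C hC w t hS v)⟩

end Pool.Agent.TQS
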