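import Pool.Agent.TQS.Targets

set_option autoImplicit false

/-!
# Project TQS: target SL3
-/

namespace Pool.Agent.TQS

open Finset

namespace SL3_

variable {V : Type} [Fintype V] [DecidableEq V]

theorem card3 (C : Finset (Finset V)) (hC : MinC C) (w : V → ℕ) (t : ℕ) (hS : Sel C w t)
    (hw : ∀ v, 1 ≤ w v) (S : Finset V) (hSC : S ∈ C)
    (hB : ∀ B, Cov C B → ∑ v ∈ B, w v = t → (S ∩ B).card = 1) : S.card = 3 := by
  by_contra hcon
  have hc3 := hC.card_le S hSC
  have hc2 : S.card ≤ 2 := by omega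
  have ht : 1 ≤ t := by
    by_contra h0
    have h0' : t = 0 := by omega
    refine hS.npk ⟨fun _ => 0, ?_, ?_⟩
    · rw [h0']
      simp
    · intro v
      simp [cmb]
  set w' : V → ℕ := fun u => w u - (if u ∈ S then 1 else 0) with hw'
  have hpt : ∀ u, w' u + (if u ∈ S then 1 else 0) = w u := by
    intro u
    have := hw u
    rw [hw']
    dsimp only
    split_ifs <;> omega
  have hsum : ∀ U : Finset V, ∑ u ∈ U, w' u + (S ∩ U).card = ∑ u ∈ U, w u := by
    intro U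
    have h1 : (S ∩ U).card = ∑ u ∈ U, (if u ∈ S then 1 else 0) := by
      rw [← Finset.card_filter, Finset.filter_mem_eq_inter, Finset.inter_comm]
    rw [h1, ← Finset.sum_add_distrib]
    exact Finset.sum_congr rfl fun u _ => hpt u
  have h1 : ∀ U, Cov C U → t - 1 ≤ ∑ u ∈ U, w' u := by
    intro U hU
    have h2 := hS.le U hU
    have h3 := hsum U
    have h4 : (S ∩ U).card ≤ S.card := Finset.card_le_card Finset.inter_subset_left
    by_cases h5 : ∑ u ∈ U, w u = t
    · have h6 := hB U hU h5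
      omega
    · omega
  have h2 : ¬ Pk C w' (t - 1) := by
    rintro ⟨y, hy1, hy2⟩
    refine hS.npk ⟨fun T => y T + (if T = S then 1 else 0), ?_, ?_⟩
    · rw [Finset.sum_add_distrib, hy1, Finset.sum_ite_eq' C S, if_pos hSC]
      omega
    · intro v
      have h3 : cmb C (fun T => y T + (if T = S then 1 else 0)) v =
          cmb C y v + (if v ∈ S then 1 else 0) := by
        rw [cmb_apply, cmb_apply, Finset.sum_add_distrib, Finset.sum_ite_eq']
        congr 1
        simp [hSC]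
      rw [h3]
      have h4 := hy2 v
      have h5 := hpt v
      omega
  have h3 : ∀ B, Cov C B → ∑ u ∈ B, w u = t → ∑ u ∈ B, w' u = t - 1 := by
    intro B hBc hBt
    have h4 := hB B hBc hBt
    have h5 := hsum B
    omega
  have h4 := (hS.mx w' (t - 1) h1 h2 h3).2
  have h5 := hsum Finset.univ
  rw [Finset.inter_univ] at h5
  have h6 : 0 < S.card := Finset.card_pos.2 (hC.ne S hSC)
  omega

theorem tot (C : Finset (Finset V)) (hC : MinC C) (w : V → ℕ) (t : ℕ) (hS : Sel C w t)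
    (hw : ∀ v, 1 ≤ w v) (hv : ∀ v, ∃ B, Cov C B ∧ ∑ v ∈ B, w v = t ∧ v ∈ B) :
    ∑ v, w v = 3 * t := by
  obtain ⟨y, hy0, hy1, hy2⟩ := hC.frac (fun v => (w v : ℚ)) (t : ℚ)
    (fun v => Nat.cast_nonneg _) (Nat.cast_nonneg _)
    (by intro U hU; have := hS.le U hU; exact_mod_cast this)
  have key : ∀ B, Cov C B → ∑ v ∈ B, w v = t →
      (∀ v ∈ B, cmb C y v = (w v : ℚ)) ∧ ∀ S ∈ C, y S = y S * ((S ∩ B).card : ℚ) := by
    intro B hB hBt
    have e1 : ∑ v ∈ B, cmb C y v = ∑ S ∈ C, y S * ((S ∩ B).card : ℚ) := sum_cmb C y B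
    have hBt' : ∑ v ∈ B, (w v : ℚ) = t := by exact_mod_cast hBt
    have l1 : ∑ v ∈ B, cmb C y v ≤ ∑ v ∈ B, (w v : ℚ) :=
      Finset.sum_le_sum fun v _ => hy2 v
    have l2t : ∀ S ∈ C, y S ≤ y S * ((S ∩ B).card : ℚ) := by
      intro S hSC
      have h1 : 1 ≤ (S ∩ B).card := Finset.card_pos.2 (hB S hSC)
      have h2 : (1 : ℚ) ≤ ((S ∩ B).card : ℚ) := by exact_mod_cast h1
      nlinarith [hy0 S]
    have l2 : ∑ S ∈ C, y S ≤ ∑ S ∈ C, y S * ((S ∩ B).card : ℚ) := Finset.sum_le_sum l2t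
    have eq1 : ∑ v ∈ B, cmb C y v = ∑ v ∈ B, (w v : ℚ) :=
      le_antisymm l1 (by rw [hBt', e1, ← hy1]; exact l2)
    have eq2 : ∑ S ∈ C, y S = ∑ S ∈ C, y S * ((S ∩ B).card : ℚ) :=
      le_antisymm l2 (by rw [← e1, hy1, ← hBt']; exact l1)
    exact ⟨(Finset.sum_eq_sum_iff_of_le fun v _ => hy2 v).1 eq1,
      (Finset.sum_eq_sum_iff_of_le l2t).1 eq2⟩
  have hall : ∀ v, cmb C y v = (w v : ℚ) := by
    intro v
    obtain ⟨B, hB, hBt, hvB⟩ := hv v
    exact (key B hB hBt).1 v hvB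
  have h3 : ∀ S ∈ C, y S * (S.card : ℚ) = y S * 3 := by
    intro S hSC
    by_cases h0 : y S = 0
    · rw [h0, zero_mul, zero_mul]
    · have hc : S.card = 3 := by
        refine card3 C hC w t hS hw S hSC ?_
        intro B hB hBt
        have h4 := (key B hB hBt).2 S hSC
        have h5 : ((S ∩ B).card : ℚ) = 1 := by
          have h6 : y S * ((S ∩ B).card : ℚ) = y S * 1 := by rw [mul_one]; exact h4.symm
          exact mul_left_cancel₀ h0 h6
        exact_mod_cast h5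
      rw [hc]
      norm_num
  have h7 : ∑ v, (w v : ℚ) = 3 * t := by
    calc ∑ v, (w v : ℚ) = ∑ v, cmb C y v := Finset.sum_congr rfl fun v _ => (hall v).symm
      _ = ∑ S ∈ C, y S * (S.card : ℚ) := sum_cmb_univ C y
      _ = ∑ S ∈ C, y S * 3 := Finset.sum_congr rfl h3
      _ = 3 * t := by rw [← Finset.sum_mul, hy1, mul_comm]
  exact_mod_cast h7

end SL3_

theorem p_SL3 : T_SL3 := fun _ _ _ C hC w t hS hw hv =>
  ⟨fun S hSC hB => SL3_.card3 C hC w t hS hw S hSC hB, SL3_.tot C hC w t hS hw hv⟩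

end Pool.Agent.TQS
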