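import Pool.Agent.TQS.Targets

set_option autoImplicit false
set_option linter.unusedSectionVars false

/-!
# Project TQS: target SL4
-/

namespace Pool.Agent.TQS

open Finset

namespace SL4_

variable {V : Type} [Fintype V] [DecidableEq V]

theorem av_subset (C : Finset (Finset V)) (x : V) : av C x ⊆ C := Finset.filter_subset _ _

theorem cov_insert (C : Finset (Finset V)) (x : V) (U : Finset V) (h : Cov (av C x) U) :
    Cov C (insert x U) := by
  intro S hS
  by_cases hx : x ∈ S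
  · exact ⟨x, Finset.mem_inter.mpr ⟨hx, Finset.mem_insert_self _ _⟩⟩
  · obtain ⟨v, hv⟩ := h S (Finset.mem_filter.mpr ⟨hS, hx⟩)
    obtain ⟨h1, h2⟩ := Finset.mem_inter.mp hv
    exact ⟨v, Finset.mem_inter.mpr ⟨h1, Finset.mem_insert_of_mem h2⟩⟩

theorem sum_insert_zero (z : V → ℕ) (x : V) (hx : z x = 0) (U : Finset V) :
    ∑ v ∈ insert x U, z v = ∑ v ∈ U, z v := by
  by_cases h : x ∈ U
  · rw [Finset.insert_eq_of_mem h]
  · rw [Finset.sum_insert h, hx, zero_add]

/-- deletion of an element of weight zero -/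
theorem pk_del (C : Finset (Finset V)) (x : V) (hM : Meng (av C x)) (z : V → ℕ) (s : ℕ)
    (hx : z x = 0) (hc : ∀ U, Cov C U → s ≤ ∑ v ∈ U, z v) : Pk C z s := by
  obtain ⟨y, hy, hy'⟩ := hM z s fun U hU => by
    have h := hc _ (cov_insert C x U hU)
    rwa [sum_insert_zero z x hx] at h
  refine ⟨fun S => if S ∈ av C x then y S else 0, ?_, fun v => ?_⟩
  · rw [← hy, ← Finset.sum_filter, Finset.filter_mem_eq_inter,
      Finset.inter_eq_right.mpr (av_subset C x)]
  · rw [cmb_extend (av_subset C x)]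
    exact hy' v

end SL4_

open SL4_ in
theorem p_SL4 : T_SL4 := by
  intro V _ _ C hM w t hS h3 z s hz hcov htig hor
  have hPk : Pk C z s := by
    rcases hor with ⟨x, hx⟩ | ⟨U, hU, hU1, hU2⟩
    · exact pk_del C x (hM.del x) z s hx hcov
    · by_contra hn
      exact hU1 ((hS.mx z s hcov hn htig).1 U hU hU2)
  obtain ⟨y, hy, hyz⟩ := hPk
  have h1 : ∀ B, Cov C B → ∑ v ∈ B, w v = t → ∀ S ∈ C, y S ≠ 0 → (S ∩ B).card = 1 := by
    intro B hB hBt S hSC hyS
    have h4 : ∑ v ∈ B, cmb C y v ≤ s := by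
      rw [← htig B hB hBt]
      exact Finset.sum_le_sum fun v _ => hyz v
    rw [sum_cmb] at h4
    have h5 : ∀ T ∈ C, y T ≤ y T * (((T ∩ B).card : ℕ) : ℕ) := by
      intro T hT
      have h6 : 1 ≤ (T ∩ B).card := Finset.card_pos.mpr (hB T hT)
      exact Nat.le_mul_of_pos_right _ h6
    have h7 : ∑ T ∈ C, y T = ∑ T ∈ C, y T * (((T ∩ B).card : ℕ) : ℕ) :=
      le_antisymm (Finset.sum_le_sum h5) (by rw [hy]; exact_mod_cast h4)
    have h8 := (Finset.sum_eq_sum_iff_of_le h5).mp h7 S hSC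
    have h9 : y S * 1 = y S * (S ∩ B).card := by rw [mul_one]; exact_mod_cast h8
    exact (Nat.eq_of_mul_eq_mul_left (Nat.pos_of_ne_zero hyS) h9).symm
  have h2 : ∀ v, cmb C y v = z v := by
    have h4 : ∑ v, cmb C y v = ∑ v, z v := by
      rw [sum_cmb_univ, hz, ← hy, Finset.mul_sum]
      refine Finset.sum_congr rfl fun S hSC => ?_
      by_cases hyS : y S = 0
      · simp [hyS]
      · rw [h3 S hSC fun B hB hBt => h1 B hB hBt S hSC hyS]
        push_cast
        ring
    intro v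
    exact (Finset.sum_eq_sum_iff_of_le fun v _ => hyz v).mp h4 v (Finset.mem_univ v)
  refine ⟨fun S => if S ∈ C then y S else 0, fun S hyS => ?_, fun v => ?_⟩
  · by_cases hSC : S ∈ C
    · simp only [if_pos hSC] at hyS
      exact ⟨hSC, fun B hB hBt => h1 B hB hBt S hSC hyS⟩
    · simp [hSC] at hyS
  · rw [cmb_extend (Finset.Subset.refl C)]
    exact (h2 v).symm

end Pool.Agent.TQS
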