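import Pool.Agent.TQS.Targets

set_option autoImplicit false

/-!
# Project TQS: the target SL5
-/

namespace Pool.Agent.TQS

open Finset

set_option linter.unusedSectionVars false

namespace SL5_

variable {V : Type} [Fintype V] [DecidableEq V]

theorem sum_sub (w : V → ℕ) (hw : ∀ v, 1 ≤ w v) (A U : Finset V) :
    ∑ v ∈ U, (w v - if v ∈ A then 1 else 0) + (A ∩ U).card = ∑ v ∈ U, w v := by
  have h1 : (A ∩ U).card = ∑ v ∈ U, if v ∈ A then 1 else 0 := by
    rw [← Finset.card_filter, Finset.inter_comm, Finset.filter_mem_eq_inter]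
  rw [h1, ← Finset.sum_add_distrib]
  refine Finset.sum_congr rfl fun v _ => ?_
  have := hw v
  split_ifs <;> omega

theorem cmb_one (C : Finset (Finset V)) (A : Finset V) (hA : A ∈ C) (v : V) :
    cmb C (fun S => if S = A then (1 : ℕ) else 0) v = if v ∈ A then 1 else 0 := by
  rw [cmb_apply', Finset.sum_eq_single A]
  · simp
  · intro T _ hT
    simp [hT]
  · intro h
    exact absurd hA h

end SL5_

theorem p_SL5 : T_SL5 := by
  intro V _ _ C _ w t hS hw A hA hA3 hA1
  by_contra hno
  push Not at hno
  have ht : 1 ≤ t := by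
    rcases Nat.eq_zero_or_pos t with h | h
    · exfalso
      apply hS.npk
      rw [h]
      exact ⟨fun _ => 0, by simp, fun v => by simp [cmb]⟩
    · exact h
  have hsub := SL5_.sum_sub w hw A
  have hc3 : ∀ U, (A ∩ U).card ≤ 3 := fun U => hA3 ▸ Finset.card_le_card Finset.inter_subset_left
  have h1 : ∀ U, Cov C U → t - 1 ≤ ∑ v ∈ U, (w v - if v ∈ A then 1 else 0) := by
    intro U hU
    have h2 := hsub U
    have h3 := hS.le U hU
    have h4 := hc3 U
    rcases Nat.lt_or_ge (∑ v ∈ U, w v) (t + 1) with h5 | h5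
    · have h6 : ∑ v ∈ U, w v = t := by omega
      have h7 := hA1 U hU h6
      omega
    · rcases Nat.lt_or_ge (∑ v ∈ U, w v) (t + 2) with h6 | h6
      · have h7 : ∑ v ∈ U, w v = t + 1 := by omega
        have h8 : (A ∩ U).card < A.card := by
          apply Finset.card_lt_card
          refine ⟨Finset.inter_subset_left, fun h => hno U hU h7 ?_⟩
          exact fun v hv => (Finset.mem_inter.mp (h hv)).2
        omega
      · omega
  have h2 : ∀ B, Cov C B → ∑ v ∈ B, w v = t →
      ∑ v ∈ B, (w v - if v ∈ A then 1 else 0) = t - 1 := by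
    intro B hB hBt
    have h3 := hsub B
    have h4 := hA1 B hB hBt
    omega
  have h3 : Pk C (fun v => w v - if v ∈ A then 1 else 0) (t - 1) := by
    by_contra hn
    have h4 := (hS.mx _ (t - 1) h1 hn h2).2
    have h5 := hsub Finset.univ
    rw [Finset.inter_univ, hA3] at h5
    omega
  obtain ⟨y, hy1, hy2⟩ := h3
  apply hS.npk
  refine ⟨fun S => y S + if S = A then 1 else 0, ?_, ?_⟩
  · rw [Finset.sum_add_distrib, hy1, Finset.sum_ite_eq', if_pos hA]
    omega
  · intro v
    have h4 := congrFun (cmb_add C y (fun S => if S = A then 1 else 0)) v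
    rw [Pi.add_apply, SL5_.cmb_one C A hA v] at h4
    rw [h4]
    have h5 := hy2 v
    have h6 := hw v
    simp only at h5
    split_ifs at h5 ⊢ <;> omega

end Pool.Agent.TQS
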