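import Pool.Agent.TQS.Targets

set_option autoImplicit false
set_option linter.unusedSectionVars false

/-!
# Project TQS: target SLH, the properties of the chosen hole
-/

namespace Pool.Agent.TQS

open Finset

namespace SLH_

variable {V : Type} [Fintype V] [DecidableEq V]

theorem sum_cast (w : V → ℕ) (B : Finset V) :
    ∑ v ∈ B, ((w v : ℕ) : ℤ) = ((∑ v ∈ B, w v : ℕ) : ℤ) := by
  push_cast
  rfl

theorem tig_iff (C : Finset (Finset V)) (w : V → ℕ) (t : ℕ) (B : Finset V) :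
    Tig C (fun v => (w v : ℤ)) (t : ℤ) B ↔ Cov C B ∧ ∑ v ∈ B, w v = t := by
  unfold Tig
  rw [sum_cast, Nat.cast_inj]

theorem cor_iff (C : Finset (Finset V)) (w : V → ℕ) (t : ℕ) (S : Finset V) :
    Cor C (fun v => (w v : ℤ)) (t : ℤ) S ↔
      S ∈ C ∧ ∀ B, Cov C B → ∑ v ∈ B, w v = t → (S ∩ B).card = 1 := by
  unfold Cor
  refine and_congr_right fun _ => ⟨fun h B hB hw => h B ((tig_iff C w t B).2 ⟨hB, hw⟩),
    fun h B hB => ?_⟩
  obtain ⟨hB1, hB2⟩ := (tig_iff C w t B).1 hB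
  exact h B hB1 hB2

/-- The condition `bdry` of `Hol`. -/
theorem bdry (h4 : T_SL4) (C : Finset (Finset V)) (hC : MinC C) (w : V → ℕ) (t : ℕ)
    (hS : Sel C w t)
    (hc3 : ∀ S ∈ C, (∀ B, Cov C B → ∑ v ∈ B, w v = t → (S ∩ B).card = 1) → S.card = 3)
    (z : V → ℤ) (hz : ∀ v, 0 ≤ z v) (hU : ∀ U, Cov C U → 0 ≤ nd U z)
    (hB : ∀ B, Tig C (fun v => (w v : ℤ)) (t : ℤ) B → nd B z = 0)
    (hx : (∃ x, z x = 0) ∨ ∃ U, Cov C U ∧ ¬ Tig C (fun v => (w v : ℤ)) (t : ℤ) U ∧ nd U z = 0) :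
    InM C (fun v => (w v : ℤ)) (t : ℤ) z := by
  obtain ⟨z', rfl⟩ : ∃ z' : V → ℕ, z = fun v => (z' v : ℤ) := by
    refine ⟨fun v => (z v).toNat, ?_⟩
    funext v
    exact (Int.toNat_of_nonneg (hz v)).symm
  obtain ⟨B0, hB0c, hB0⟩ := hS.att
  have hnd : ∀ U : Finset V, nd U (fun v => (z' v : ℤ)) =
      3 * ((∑ v ∈ U, z' v : ℕ) : ℤ) - ((∑ v, z' v : ℕ) : ℤ) := by
    intro U
    unfold nd
    rw [sum_cast, sum_cast]
  have hs0 := hB B0 ((tig_iff C w t B0).2 ⟨hB0c, hB0⟩)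
  rw [hnd] at hs0
  set s : ℕ := ∑ v ∈ B0, z' v with hs
  have htot : ∑ v, z' v = 3 * s := by omega
  have key := h4 V C hC w t hS hc3 z' s htot ?_ ?_ ?_
  · obtain ⟨y, hy1, hy2⟩ := key
    refine ⟨y, fun S hS' => (cor_iff C w t S).2 (hy1 S hS'), fun v => ?_⟩
    change ((z' v : ℕ) : ℤ) = _
    rw [hy2 v, cmb_cast_nat]
  · intro U hUc
    have h := hU U hUc
    rw [hnd] at h
    omega
  · intro B hBc hBt
    have h := hB B ((tig_iff C w t B).2 ⟨hBc, hBt⟩)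
    rw [hnd] at h
    omega
  · rcases hx with ⟨x, hx⟩ | ⟨U, hUc, hUt, hU0⟩
    · left
      refine ⟨x, ?_⟩
      change ((z' x : ℕ) : ℤ) = 0 at hx
      exact_mod_cast hx
    · right
      refine ⟨U, hUc, fun h => hUt ((tig_iff C w t U).2 ⟨hUc, h⟩), ?_⟩
      rw [hnd] at hU0
      omega

/-- A sum of core members equal to `w` is a packing of size `t`. -/
theorem notM (C : Finset (Finset V)) (w : V → ℕ) (t : ℕ) (hS : Sel C w t)
    (hc3 : ∀ S ∈ C, (∀ B, Cov C B → ∑ v ∈ B, w v = t → (S ∩ B).card = 1) → S.card = 3)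
    (htot : ∑ v, w v = 3 * t) :
    ¬ InM C (fun v => (w v : ℤ)) (t : ℤ) (fun v => (w v : ℤ)) := by
  rintro ⟨y, hy1, hy2⟩
  apply hS.npk
  have hw : ∀ v, cmb C y v = w v := by
    intro v
    have h := hy2 v
    rw [← cmb_cast_nat] at h
    change ((w v : ℕ) : ℤ) = _ at h
    exact_mod_cast h.symm
  refine ⟨y, ?_, fun v => (hw v).le⟩
  have h1 : ∑ v, cmb C y v = ∑ S ∈ C, y S * S.card := sum_cmb_univ C y
  have h2 : ∑ S ∈ C, y S * S.card = ∑ S ∈ C, y S * 3 := by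
    refine Finset.sum_congr rfl fun S hSC => ?_
    by_cases h0 : y S = 0
    · rw [h0, zero_mul, zero_mul]
    · rw [hc3 S hSC ((cor_iff C w t S).1 (hy1 S h0)).2]
  have h3 : ∑ v, cmb C y v = 3 * t := by
    rw [← htot]
    exact Finset.sum_congr rfl fun v _ => hw v
  rw [h3, h2, ← Finset.sum_mul] at h1
  omega

end SLH_

theorem p_SLH (h1 : T_SL1) (h2 : T_SL2) (h3 : T_SL3) (h4 : T_SL4) (h5 : T_SL5) : T_SLH := by
  intro V _ _ C hC
  obtain ⟨w, t, hS⟩ := h1 V C hC.ne hC.not_meng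
  obtain ⟨hone, hmem⟩ := h2 V C hC w t hS
  obtain ⟨hc3, htot⟩ := h3 V C hC w t hS hone hmem
  refine ⟨fun v => (w v : ℤ), (t : ℤ), ?_⟩
  exact
    { one_le := fun v => by exact_mod_cast hone v
      cov_le := fun U hU => by
        rw [SLH_.sum_cast]
        exact_mod_cast hS.le U hU
      mem_tig := fun v => by
        obtain ⟨B, hB1, hB2, hv⟩ := hmem v
        exact ⟨B, (SLH_.tig_iff C w t B).2 ⟨hB1, hB2⟩, hv⟩
      tot := by
        rw [SLH_.sum_cast]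
        exact_mod_cast htot
      card3 := fun S hSc => by
        obtain ⟨hS1, hS2⟩ := (SLH_.cor_iff C w t S).1 hSc
        exact hc3 S hS1 hS2
      bdry := fun z hz hU hB hx => SLH_.bdry h4 C hC w t hS hc3 z hz hU hB hx
      notM := SLH_.notM C w t hS hc3 htot
      up := fun A hA => by
        obtain ⟨hA1, hA2⟩ := (SLH_.cor_iff C w t A).1 hA
        obtain ⟨U, hU1, hU2, hU3⟩ := h5 V C hC w t hS hone A hA1 (hc3 A hA1 hA2) hA2
        refine ⟨U, hU1, ?_, hU3⟩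
        rw [SLH_.sum_cast]
        exact_mod_cast hU2 }

end Pool.Agent.TQS
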