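import Pool.Agent.TQS.Targets

set_option autoImplicit false

/-!
# Project TQS: the span of the face (target SPN)
-/

namespace Pool.Agent.TQS

open Finset

theorem p_SPN (h1 : T_CON) (h2 : T_DCV) : T_SPN := by
  intro V _ _ C hM w t Ms hH hF z hz
  classical
  set z0 : V → ℚ := cmb (Em C Ms) (fun _ => (1 : ℚ)) with hz0
  have hz0v : ∀ v, 1 ≤ z0 v := by
    intro v
    obtain ⟨T, hT, hv⟩ := h2 V C hM w t Ms hH hF v
    rw [hz0, cmb_apply, Finset.sum_const, nsmul_eq_mul, mul_one]
    have hpos : 0 < ((Em C Ms).filter (fun S => v ∈ S)).card :=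
      Finset.card_pos.mpr ⟨T, Finset.mem_filter.mpr ⟨hT, hv⟩⟩
    exact_mod_cast hpos
  have hz0S : InS (Em C Ms) z0 := ⟨_, rfl⟩
  have hU : ∀ U, Cov C U → U ∉ Ms → 3 ≤ nd U z0 := by
    intro U hU hUM
    have hex : ∃ T ∈ Em C Ms, (T ∩ U).card ≠ 1 := by
      by_contra hcon
      apply hUM
      apply hF.clo U hU
      intro T hT
      by_contra hne
      exact hcon ⟨T, hT, hne⟩
    obtain ⟨T, hT, hne⟩ := hex
    rw [hz0, nd_cmb]
    have hone : ∀ S ∈ Em C Ms, (1 : ℚ) ≤ ((S ∩ U).card : ℚ) := by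
      intro S hS
      have hc : 0 < (S ∩ U).card := Finset.card_pos.mpr (hU S (mem_Em.mp hS).1)
      exact_mod_cast hc
    have hterm : ∀ S ∈ Em C Ms, (0 : ℚ) ≤ 1 * (3 * ((S ∩ U).card : ℚ) - S.card) := by
      intro S hS
      have h3 : (S.card : ℚ) = 3 := by
        have h3' := (mem_Em.mp hS).2.1
        rw [h3']
        norm_num
      have h1' := hone S hS
      rw [h3]
      linarith
    have hTc : (3 : ℚ) ≤ 1 * (3 * ((T ∩ U).card : ℚ) - T.card) := by
      have h3 : (T.card : ℚ) = 3 := by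
        have h3' := (mem_Em.mp hT).2.1
        rw [h3']
        norm_num
      have hc : 0 < (T ∩ U).card := Finset.card_pos.mpr (hU T (mem_Em.mp hT).1)
      have hc2 : 2 ≤ (T ∩ U).card := by omega
      have hc2' : (2 : ℚ) ≤ ((T ∩ U).card : ℚ) := by exact_mod_cast hc2
      rw [h3]
      linarith
    exact hTc.trans (Finset.single_le_sum hterm hT)
  have hMs0 : ∀ B ∈ Ms, nd B z0 = 0 := fun B hB => nd_InS hz0S hB
  set N : ℚ := ∑ U : Finset V, |nd U z| + ∑ v, |z v| with hN
  have hN0 : 0 ≤ N := by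
    rw [hN]
    exact add_nonneg (Finset.sum_nonneg fun _ _ => abs_nonneg _)
      (Finset.sum_nonneg fun _ _ => abs_nonneg _)
  have hNv : ∀ v, |z v| ≤ N := by
    intro v
    have ha : |z v| ≤ ∑ v, |z v| :=
      Finset.single_le_sum (f := fun v => |z v|) (fun _ _ => abs_nonneg _) (Finset.mem_univ v)
    have hb : 0 ≤ ∑ U : Finset V, |nd U z| := Finset.sum_nonneg fun _ _ => abs_nonneg _
    rw [hN]
    linarith
  have hNU : ∀ U, |nd U z| ≤ N := by
    intro U
    have ha : |nd U z| ≤ ∑ U : Finset V, |nd U z| :=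
      Finset.single_le_sum (f := fun U => |nd U z|) (fun _ _ => abs_nonneg _) (Finset.mem_univ U)
    have hb : 0 ≤ ∑ v, |z v| := Finset.sum_nonneg fun _ _ => abs_nonneg _
    rw [hN]
    linarith
  have hnd : ∀ U, nd U (z + fun v => N * z0 v) = nd U z + N * nd U z0 := by
    intro U
    rw [nd_add, nd_mul]
  obtain ⟨y, _, hy⟩ := h1 V C hM w t Ms hF (z + fun v => N * z0 v)
    (by
      intro v
      have ha := (abs_le.mp (hNv v)).1
      have hb := mul_le_mul_of_nonneg_left (hz0v v) hN0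
      simp only [Pi.add_apply]
      linarith)
    (by
      intro U hUc
      rw [hnd]
      by_cases hUM : U ∈ Ms
      · rw [hz U hUM, hMs0 U hUM]
        simp
      · have ha := (abs_le.mp (hNU U)).1
        have hb := mul_le_mul_of_nonneg_left (hU U hUc hUM) hN0
        linarith)
    (by
      intro B hB
      rw [hnd, hz B hB, hMs0 B hB]
      simp)
  have hs : InS (Em C Ms) (z + fun v => N * z0 v) := ⟨y, hy⟩
  have hs0 : InS (Em C Ms) (N • z0) := InS.smul N hz0S
  have heq : z = (z + fun v => N * z0 v) - N • z0 := by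
    funext v
    simp
  rw [heq]
  exact hs.sub hs0

end Pool.Agent.TQS
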