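import Pool.Agent.TQS.Targets

set_option autoImplicit false
set_option linter.unusedSectionVars false

/-!
# Project TQS: transfer to a smaller ground set (T_TRN)
-/

namespace Pool.Agent.TQS

open Finset

namespace TRN_

section
variable {V : Type} [Fintype V] [DecidableEq V]

/-- The trace of a set on the smaller ground set. -/
def dn (v : V) (S : Finset V) : Finset {x : V // x ≠ v} := S.subtype (fun x => x ≠ v)

/-- The image in the larger ground set. -/
def lf (v : V) (R : Finset {x : V // x ≠ v}) : Finset V := R.map (Function.Embedding.subtype _)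

theorem mem_dn {v : V} {S : Finset V} {x : {x : V // x ≠ v}} : x ∈ dn v S ↔ x.1 ∈ S := by
  unfold dn
  rw [Finset.mem_subtype]

theorem mem_lf {v : V} {R : Finset {x : V // x ≠ v}} {x : V} :
    x ∈ lf v R ↔ ∃ h : x ≠ v, (⟨x, h⟩ : {x : V // x ≠ v}) ∈ R := by
  unfold lf
  rw [Finset.mem_map]
  constructor
  · rintro ⟨y, hy, rfl⟩
    exact ⟨y.2, hy⟩
  · rintro ⟨h, hR⟩
    exact ⟨_, hR, rfl⟩

theorem lf_dn {v : V} {S : Finset V} (h : v ∉ S) : lf v (dn v S) = S := by
  ext x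
  rw [mem_lf]
  constructor
  · rintro ⟨_, hx⟩
    exact mem_dn.mp hx
  · intro hx
    have hne : x ≠ v := fun e => h (e ▸ hx)
    exact ⟨hne, mem_dn.mpr hx⟩

theorem dn_lf (v : V) (R : Finset {x : V // x ≠ v}) : dn v (lf v R) = R := by
  ext x
  rw [mem_dn, mem_lf]
  constructor
  · rintro ⟨_, hx⟩
    exact hx
  · intro hx
    exact ⟨x.2, hx⟩

theorem dn_inj {v : V} {D : Finset (Finset V)} (hD : ∀ S ∈ D, v ∉ S) :
    ∀ S ∈ D, ∀ T ∈ D, dn v S = dn v T → S = T := by
  intro S hS T hT h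
  rw [← lf_dn (hD S hS), ← lf_dn (hD T hT), h]

theorem sum_dn {R : Type} [AddCommMonoid R] {v : V} {D : Finset (Finset V)}
    (hD : ∀ S ∈ D, v ∉ S) (F : Finset {x : V // x ≠ v} → R) :
    ∑ T ∈ D.image (dn v), F T = ∑ S ∈ D, F (dn v S) := by
  apply Finset.sum_image
  intro S hS T hT h
  exact dn_inj hD S hS T hT h

theorem cmb_dn {R : Type} [AddCommMonoid R] {v : V} {D : Finset (Finset V)}
    (hD : ∀ S ∈ D, v ∉ S) (y : Finset {x : V // x ≠ v} → R) (x : {x : V // x ≠ v}) :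
    cmb (D.image (dn v)) y x = cmb D (fun S => y (dn v S)) x.1 := by
  rw [cmb_apply', cmb_apply', sum_dn hD]
  refine Finset.sum_congr rfl fun S _ => ?_
  by_cases h : x.1 ∈ S
  · rw [if_pos h, if_pos (mem_dn.mpr h)]
  · rw [if_neg h, if_neg (fun h' => h (mem_dn.mp h'))]

theorem cov_dn {v : V} {D : Finset (Finset V)} (hD : ∀ S ∈ D, v ∉ S) {U : Finset V}
    (hU : Cov D U) : Cov (D.image (dn v)) (dn v U) := by
  intro R hR
  obtain ⟨S, hS, rfl⟩ := Finset.mem_image.mp hR
  obtain ⟨x, hx⟩ := hU S hS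
  rw [Finset.mem_inter] at hx
  have hne : x ≠ v := fun e => hD S hS (e ▸ hx.1)
  exact ⟨⟨x, hne⟩, Finset.mem_inter.mpr ⟨mem_dn.mpr hx.1, mem_dn.mpr hx.2⟩⟩

theorem cov_lf {v : V} {D : Finset (Finset V)} {U : Finset {x : V // x ≠ v}}
    (hU : Cov (D.image (dn v)) U) : Cov D (lf v U) := by
  intro S hS
  obtain ⟨x, hx⟩ := hU (dn v S) (Finset.mem_image_of_mem _ hS)
  rw [Finset.mem_inter] at hx
  exact ⟨x.1, Finset.mem_inter.mpr ⟨mem_dn.mp hx.1, mem_lf.mpr ⟨x.2, hx.2⟩⟩⟩

theorem sum_lf {R : Type} [AddCommMonoid R] (v : V) (U : Finset {x : V // x ≠ v}) (w : V → R) :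
    ∑ x ∈ lf v U, w x = ∑ x ∈ U, w x.1 := by
  unfold lf
  rw [Finset.sum_map]
  rfl

theorem part1 {v : V} {D : Finset (Finset V)} (hD : ∀ S ∈ D, v ∉ S) (h : Frac D) :
    Frac (D.image (dn v)) := by
  intro w s hw hs hc
  let w1 : V → ℚ := fun x => if hx : x ≠ v then w ⟨x, hx⟩ else 0
  have hw1 : ∀ x : {x : V // x ≠ v}, w1 x.1 = w x := by
    intro x
    simp only [w1]
    rw [dif_pos x.2]
  have hw0 : w1 v = 0 := by
    simp [w1]
  have hn : ∀ x, 0 ≤ w1 x := by
    intro x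
    by_cases hx : x = v
    · rw [hx, hw0]
    · have := hw1 ⟨x, hx⟩
      rw [this]
      exact hw _
  have hU : ∀ U, Cov D U → s ≤ ∑ x ∈ U, w1 x := by
    intro U hU
    have h1 := hc _ (cov_dn hD hU)
    have h2 : ∑ x ∈ dn v U, w x = ∑ x ∈ lf v (dn v U), w1 x := by
      rw [sum_lf]
      exact Finset.sum_congr rfl fun x _ => (hw1 x).symm
    rw [h2] at h1
    refine h1.trans (Finset.sum_le_sum_of_subset_of_nonneg ?_ fun x _ _ => hn x)
    intro x hx
    obtain ⟨_, h3⟩ := mem_lf.mp hx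
    exact mem_dn.mp h3
  obtain ⟨y, hy0, hys, hyw⟩ := h w1 s hn hs hU
  refine ⟨fun R => y (lf v R), fun R => hy0 _, ?_, ?_⟩
  · rw [sum_dn hD, ← hys]
    refine Finset.sum_congr rfl fun S hS => ?_
    rw [lf_dn (hD S hS)]
  · intro x
    rw [cmb_dn hD, ← hw1 x]
    refine le_trans (le_of_eq ?_) (hyw x.1)
    refine congrFun (cmb_congr D fun S hS => ?_) x.1
    rw [lf_dn (hD S hS)]

theorem part2 {v : V} {D : Finset (Finset V)} (hD : ∀ S ∈ D, v ∉ S)
    (h : Meng (D.image (dn v))) : Meng D := by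
  intro w s hc
  obtain ⟨y, hys, hyw⟩ := h (fun x => w x.1) s (fun U hU => by
    have h1 := hc _ (cov_lf hU)
    rwa [sum_lf] at h1)
  refine ⟨fun S => y (dn v S), ?_, ?_⟩
  · rw [← hys, sum_dn hD]
  · intro x
    by_cases hx : x = v
    · have h0 : cmb D (fun S => y (dn v S)) x = 0 := by
        rw [cmb_apply]
        apply Finset.sum_eq_zero
        intro S hS
        rw [Finset.mem_filter, hx] at hS
        exact absurd hS.2 (hD S hS.1)
      rw [h0]
      exact Nat.zero_le _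
    · have h1 := hyw ⟨x, hx⟩
      rw [cmb_dn hD] at h1
      exact h1

theorem part4 {v : V} {D : Finset (Finset V)} (hD : ∀ S ∈ D, v ∉ S)
    (h : HasQ6 (D.image (dn v))) : HasQ6 D := by
  obtain ⟨a, a', b, b', c, c', hnd, hQ⟩ := h
  refine ⟨a.1, a'.1, b.1, b'.1, c.1, c'.1, ?_, ?_⟩
  · have := hnd.map Subtype.val_injective
    simpa using this
  · have h3 : ∀ x y z : {x : V // x ≠ v}, lf v {x, y, z} = {x.1, y.1, z.1} := by
      intro x y z
      unfold lf
      rw [Finset.map_insert, Finset.map_insert, Finset.map_singleton]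
      rfl
    have h6 : lf v {a, a', b, b', c, c'} = {a.1, a'.1, b.1, b'.1, c.1, c'.1} := by
      unfold lf
      rw [Finset.map_insert, Finset.map_insert, Finset.map_insert, Finset.map_insert,
        Finset.map_insert, Finset.map_singleton]
      rfl
    have hF : D.filter (fun S => S ⊆ {a.1, a'.1, b.1, b'.1, c.1, c'.1}) =
        ((D.image (dn v)).filter (fun R => R ⊆ {a, a', b, b', c, c'})).image (lf v) := by
      rw [← h6]
      ext S
      rw [Finset.mem_filter, Finset.mem_image]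
      constructor
      · rintro ⟨hS, hs⟩
        refine ⟨dn v S, Finset.mem_filter.mpr ⟨Finset.mem_image_of_mem _ hS, ?_⟩,
          lf_dn (hD S hS)⟩
        intro x hx
        obtain ⟨_, h4⟩ := mem_lf.mp (hs (mem_dn.mp hx))
        exact h4
      · rintro ⟨R, hR, rfl⟩
        obtain ⟨hR1, hR2⟩ := Finset.mem_filter.mp hR
        obtain ⟨S, hS, rfl⟩ := Finset.mem_image.mp hR1
        rw [lf_dn (hD S hS)]
        refine ⟨hS, ?_⟩
        intro x hx
        have hne : x ≠ v := fun e => hD S hS (e ▸ hx)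
        exact mem_lf.mpr ⟨hne, hR2 (mem_dn.mpr hx)⟩
    rw [hF, hQ, Finset.image_insert, Finset.image_insert, Finset.image_insert,
      Finset.image_singleton, h3, h3, h3, h3]

end

end TRN_

/-- TRN. -/
theorem p_TRN : T_TRN := by
  intro V _ _ v D hD
  refine ⟨fun h => TRN_.part1 hD h, fun h => TRN_.part2 hD h, ?_, fun h => TRN_.part4 hD h⟩
  intro hc R hR
  obtain ⟨S, hS, rfl⟩ := Finset.mem_image.mp hR
  have h1 : (S.subtype (fun x => x ≠ v)).card ≤ S.card := by
    rw [Finset.card_subtype]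
    exact Finset.card_filter_le _ _
  exact h1.trans (hc S hS)

end Pool.Agent.TQS
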