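import Pool.Agent.TQS.Targets

set_option autoImplicit false
set_option linter.unusedSectionVars false

/-!
# Project TQS, target TWA: two minimum covers with a common element
-/

namespace Pool.Agent.TQS

open Finset

namespace TWA_

section
variable {V : Type} [Fintype V] [DecidableEq V]

/-- The two types of members of the face. -/
theorem typ {C : Finset (Finset V)} {B1 B2 T : Finset V} (hT : T ∈ Em C {B1, B2}) :
    (∃ p z z' : V, T = {p, z, z'} ∧ p ≠ z ∧ p ≠ z' ∧ z ≠ z' ∧ p ∈ B1 ∧ p ∈ B2 ∧ z ∉ B1 ∧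
      z ∉ B2 ∧ z' ∉ B1 ∧ z' ∉ B2) ∨
    (∃ p q z : V, T = {p, q, z} ∧ p ≠ q ∧ p ≠ z ∧ q ≠ z ∧ p ∈ B1 ∧ p ∉ B2 ∧ q ∉ B1 ∧ q ∈ B2 ∧
      z ∉ B1 ∧ z ∉ B2) := by
  obtain ⟨_, h3, h1⟩ := mem_Em.mp hT
  have hB1 := h1 B1 (by simp)
  have hB2 := h1 B2 (by simp)
  obtain ⟨p, hp⟩ := card_eq_one.mp hB1
  obtain ⟨q, hq⟩ := card_eq_one.mp hB2
  have hpT : p ∈ T ∧ p ∈ B1 := by
    have h : p ∈ T ∩ B1 := by rw [hp]; exact mem_singleton_self p
    exact mem_inter.mp h
  have hqT : q ∈ T ∧ q ∈ B2 := by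
    have h : q ∈ T ∩ B2 := by rw [hq]; exact mem_singleton_self q
    exact mem_inter.mp h
  have k1 : ∀ u ∈ T, u ∈ B1 → u = p := fun u hu hb => by
    have h : u ∈ T ∩ B1 := mem_inter.mpr ⟨hu, hb⟩
    rw [hp] at h
    exact mem_singleton.mp h
  have k2 : ∀ u ∈ T, u ∈ B2 → u = q := fun u hu hb => by
    have h : u ∈ T ∩ B2 := mem_inter.mpr ⟨hu, hb⟩
    rw [hq] at h
    exact mem_singleton.mp h
  by_cases hpq : p = q
  · left
    subst hpq
    have hc : (T.erase p).card = 2 := by rw [card_erase_of_mem hpT.1, h3]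
    obtain ⟨z, z', hzz, he⟩ := card_eq_two.mp hc
    have hT' : T = {p, z, z'} := by rw [← insert_erase hpT.1, he]
    have hz : z ∈ T.erase p := by rw [he]; simp
    have hz' : z' ∈ T.erase p := by rw [he]; simp
    rw [mem_erase] at hz hz'
    exact ⟨p, z, z', hT', hz.1.symm, hz'.1.symm, hzz, hpT.2, hqT.2,
      fun h => hz.1 (k1 z hz.2 h), fun h => hz.1 (k2 z hz.2 h),
      fun h => hz'.1 (k1 z' hz'.2 h), fun h => hz'.1 (k2 z' hz'.2 h)⟩
  · right
    have hqe : q ∈ T.erase p := mem_erase.mpr ⟨fun h => hpq h.symm, hqT.1⟩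
    have hc : ((T.erase p).erase q).card = 1 := by
      rw [card_erase_of_mem hqe, card_erase_of_mem hpT.1, h3]
    obtain ⟨z, he⟩ := card_eq_one.mp hc
    have hT' : T = {p, q, z} := by
      rw [← insert_erase hpT.1, ← insert_erase hqe, he]
    have hz : z ∈ (T.erase p).erase q := by rw [he]; exact mem_singleton_self z
    rw [mem_erase, mem_erase] at hz
    exact ⟨p, q, z, hT', hpq, hz.2.1.symm, hz.1.symm, hpT.2,
      fun h => hpq (k2 p hpT.1 h), fun h => hpq (k1 q hqT.1 h).symm, hqT.2,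
      fun h => hz.2.1 (k1 z hz.2.2 h), fun h => hz.1 (k2 z hz.2.2 h)⟩

theorem sum3 (f : V → ℤ) {a b c : V} (h1 : a ≠ b) (h2 : a ≠ c) (h3 : b ≠ c) :
    ∑ u ∈ ({a, b, c} : Finset V), f u = f a + (f b + f c) := by
  rw [sum_insert (by simp [h1, h2]), sum_pair h3]

/-- Same class. -/
theorem cls {B1 B2 : Finset V} {a b : V} (h1 : a ∈ B1 ↔ b ∈ B1) (h2 : a ∈ B2 ↔ b ∈ B2) :
    ∀ B ∈ ({B1, B2} : Finset (Finset V)), a ∈ B ↔ b ∈ B := by
  intro B hB
  rw [mem_insert, mem_singleton] at hB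
  rcases hB with rfl | rfl
  · exact h1
  · exact h2

/-- A class contains at most two elements of `V2`. -/
theorem two_le (h3 : T_CL) {C : Finset (Finset V)} {w : V → ℤ} {B1 B2 V2 : Finset V}
    {G G' : V → Finset V} (hD : Dta C w {B1, B2} V2 G G') (K : Finset V) (hK : K ⊆ V2)
    (hc : ∀ a ∈ K, ∀ b ∈ K, (a ∈ B1 ↔ b ∈ B1) ∧ (a ∈ B2 ↔ b ∈ B2)) : K.card ≤ 2 := by
  by_contra hlt
  push Not at hlt
  obtain ⟨a, ha, b, hb, c, hc', hab, hac, hbc⟩ := two_lt_card.mp hlt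
  have h := h3 V C w {B1, B2} V2 G G' hD a (hK ha) b (hK hb) hab
    (cls (hc a ha b hb).1 (hc a ha b hb).2) c (cls (hc c hc' a ha).1 (hc c hc' a ha).2)
  rcases h with h | h
  · exact hac h.symm
  · exact hbc h.symm

end

end TWA_

open TWA_ in
theorem p_TWA (h1 : T_RKT) (h2 : T_EQO) (h3 : T_CL) (h4 : T_SG0) (h5 : T_SGT) : T_TWA := by
  intro V _ _ C _ w t B1 B2 _ hne V2 G G' hD hne12
  obtain ⟨e0, he0⟩ := hne12
  rw [mem_inter] at he0
  -- six elements of `V2`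
  have hcard : 6 ≤ V2.card := by
    have hr := (h1 V (Em C {B1, B2}) {B1, B2} (fun T hT => (mem_Em.mp hT).2.1) hD.cov
      (fun T hT => (mem_Em.mp hT).2.2) ⟨e0⟩).2.1 B1 (by simp) B2 (by simp) hne
    have hc := hD.cnt
    omega
  -- a member of type (II)
  obtain ⟨T0, hT0, p, q, z1, hTe, hpq, hpz, hqz, hp1, hp2, hq1, hq2, hz1, hz2⟩ :
      ∃ T0 ∈ Em C {B1, B2}, ∃ p q z : V, T0 = {p, q, z} ∧ p ≠ q ∧ p ≠ z ∧ q ≠ z ∧ p ∈ B1 ∧
        p ∉ B2 ∧ q ∉ B1 ∧ q ∈ B2 ∧ z ∉ B1 ∧ z ∉ B2 := by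
    have hx : ∃ x : V, ¬ (x ∈ B1 ↔ x ∈ B2) := by
      by_contra hcon
      push Not at hcon
      exact hne (Finset.ext hcon)
    obtain ⟨x, hx⟩ := hx
    obtain ⟨T, hT, hxT⟩ := hD.cov x
    refine ⟨T, hT, ?_⟩
    rcases typ hT with ⟨a, z, z', he, _, _, _, ha1, ha2, hz1, hz2, hz1', hz2'⟩ | h
    · exfalso
      rw [he] at hxT
      simp only [mem_insert, mem_singleton] at hxT
      rcases hxT with rfl | rfl | rfl
      · exact hx ⟨fun _ => ha2, fun _ => ha1⟩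
      · exact hx ⟨fun h => absurd h hz1, fun h => absurd h hz2⟩
      · exact hx ⟨fun h => absurd h hz1', fun h => absurd h hz2'⟩
    · exact h
  -- the odd pair in `Z0`
  obtain ⟨z0, hz01, hz0B, hz0L⟩ := hD.odd z1 (by
    intro u _ B hB hzB
    rw [mem_insert, mem_singleton] at hB
    rcases hB with rfl | rfl
    · exact absurd hzB hz1
    · exact absurd hzB hz2)
  have hz0a : z0 ∉ B1 := fun h => hz1 ((hz0B B1 (by simp)).mp h)
  have hz0b : z0 ∉ B2 := fun h => hz2 ((hz0B B2 (by simp)).mp h)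
  -- (1)
  have k1 : ∀ v ∈ V2, v ∉ B1 → v ∉ B2 → ∀ T ∈ Em C {B1, B2}, v ∈ T → ∀ y ∈ T, y ∉ B1 →
      y ∉ B2 → y = v := by
    intro v hv hv1 hv2 T hT hvT y hy hy1 hy2
    by_contra hyv
    obtain ⟨e1, e2, _⟩ := h2 V C w {B1, B2} V2 G G' hD v hv y hyv
      (cls ⟨fun h => absurd h hy1, fun h => absurd h hv1⟩
        ⟨fun h => absurd h hy2, fun h => absurd h hv2⟩)
    rcases hD.g1 v hv T hT hvT with h | h
    · exact e1 (h.1 hy)
    · exact e2 (h.2 hy)
  -- (2)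
  have k2 : ∀ v ∈ V2, (v ∈ B1 ∨ v ∈ B2) → ∀ z, z ∉ B1 → z ∉ B2 → sg G G' v z = 0 := by
    intro v hv hvB z hza hzb
    have hv1 : v ≠ z1 := by
      rintro rfl
      rcases hvB with h | h
      · exact hz1 h
      · exact hz2 h
    have hv0 : v ≠ z0 := by
      rintro rfl
      rcases hvB with h | h
      · exact hz0a h
      · exact hz0b h
    have h := (h4 V C w {B1, B2} V2 G G' hD z1 z0 hz0B hz0L v hv hv1 hv0).1
    rw [← h]
    exact (h5 V C w {B1, B2} V2 G G' hD v hv).2.2 z z1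
      (cls ⟨fun h => absurd h hza, fun h => absurd h hz1⟩
        ⟨fun h => absurd h hzb, fun h => absurd h hz2⟩)
  have k3 : ∀ v ∈ V2, (v ∈ B1 ∨ v ∈ B2) → ∀ x, x ∈ B1 → x ∈ B2 → sg G G' v x = 1 := by
    intro v hv hvB x hx1 hx2
    obtain ⟨T, hT, hxT⟩ := hD.cov x
    have hs := (h5 V C w {B1, B2} V2 G G' hD v hv).1 T hT
    rcases typ hT with ⟨a, z, z', he, haz, haz', hzz, ha1, ha2, hza, hzb, hza', hzb'⟩ |
      ⟨a, b, z, he, _, _, _, ha1, ha2, hb1, hb2, hza, hzb⟩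
    · rw [he, sum3 _ haz haz' hzz, k2 v hv hvB z hza hzb, k2 v hv hvB z' hza' hzb'] at hs
      rw [he] at hxT
      simp only [mem_insert, mem_singleton] at hxT
      rcases hxT with rfl | rfl | rfl
      · omega
      · exact absurd hx1 hza
      · exact absurd hx1 hza'
    · exfalso
      rw [he] at hxT
      simp only [mem_insert, mem_singleton] at hxT
      rcases hxT with rfl | rfl | rfl
      · exact ha2 hx2
      · exact hb1 hx1
      · exact hza hx1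
  have k4 : ∀ v ∈ V2, (v ∈ B1 ∨ v ∈ B2) → sg G G' v p + sg G G' v q = 1 := by
    intro v hv hvB
    have hs := (h5 V C w {B1, B2} V2 G G' hD v hv).1 T0 hT0
    rw [hTe, sum3 _ hpq hpz hqz, k2 v hv hvB z1 hz1 hz2] at hs
    omega
  -- the four parts of `V2`
  obtain ⟨K0, hK0⟩ : ∃ K, K = V2.filter fun v => v ∉ B1 ∧ v ∉ B2 := ⟨_, rfl⟩
  obtain ⟨K1, hK1⟩ : ∃ K, K = V2.filter fun v => v ∈ B1 ∧ v ∉ B2 := ⟨_, rfl⟩
  obtain ⟨K2, hK2⟩ : ∃ K, K = V2.filter fun v => v ∉ B1 ∧ v ∈ B2 := ⟨_, rfl⟩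
  obtain ⟨K3, hK3⟩ : ∃ K, K = V2.filter fun v => v ∈ B1 ∧ v ∈ B2 := ⟨_, rfl⟩
  have hsum : V2.card ≤ K0.card + K1.card + K2.card + K3.card := by
    have hsub : V2 ⊆ K0 ∪ K1 ∪ K2 ∪ K3 := by
      intro v hv
      simp only [hK0, hK1, hK2, hK3, mem_union, mem_filter]
      tauto
    have := card_le_card hsub
    have h5 := card_union_le (K0 ∪ K1 ∪ K2) K3
    have h6 := card_union_le (K0 ∪ K1) K2
    have h7 := card_union_le K0 K1
    omega
  have c0 : K0.card ≤ 1 := by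
    by_contra hlt
    push Not at hlt
    obtain ⟨a, ha, b, hb, hab⟩ := one_lt_card.mp hlt
    rw [hK0, mem_filter] at ha hb
    obtain ⟨T, hT, heT⟩ := hD.cov e0
    have hcl := h3 V C w {B1, B2} V2 G G' hD a ha.1 b hb.1 hab
      (cls ⟨fun h => absurd h ha.2.1, fun h => absurd h hb.2.1⟩
        ⟨fun h => absurd h ha.2.2, fun h => absurd h hb.2.2⟩)
    rcases typ hT with ⟨x, z, z', he, hxz, hxz', hzz, hx1, hx2, hza, hzb, hza', hzb'⟩ |
      ⟨x, y, z, he, _, _, _, hx1, hx2, hy1, hy2, hza, hzb⟩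
    · have hzT : z ∈ T := by rw [he]; simp
      have hzT' : z' ∈ T := by rw [he]; simp
      have hz := hcl z (cls ⟨fun h => absurd h hza, fun h => absurd h ha.2.1⟩
        ⟨fun h => absurd h hzb, fun h => absurd h ha.2.2⟩)
      have hzV : z ∈ V2 := by
        rcases hz with rfl | rfl
        · exact ha.1
        · exact hb.1
      exact hzz (k1 z hzV hza hzb T hT hzT z' hzT' hza' hzb').symm
    · rw [he] at heT
      simp only [mem_insert, mem_singleton] at heT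
      rcases heT with rfl | rfl | rfl
      · exact hx2 he0.2
      · exact hy1 he0.1
      · exact hza he0.1
  have c1 : K1.card ≤ 2 := by
    refine two_le h3 hD K1 (by rw [hK1]; exact filter_subset _ _) ?_
    intro a ha b hb
    rw [hK1, mem_filter] at ha hb
    exact ⟨⟨fun _ => hb.2.1, fun _ => ha.2.1⟩,
      ⟨fun h => absurd h ha.2.2, fun h => absurd h hb.2.2⟩⟩
  have c2 : K2.card ≤ 2 := by
    refine two_le h3 hD K2 (by rw [hK2]; exact filter_subset _ _) ?_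
    intro a ha b hb
    rw [hK2, mem_filter] at ha hb
    exact ⟨⟨fun h => absurd h ha.2.1, fun h => absurd h hb.2.1⟩,
      ⟨fun _ => hb.2.2, fun _ => ha.2.2⟩⟩
  have c3 : K3.card ≤ 1 := by
    by_contra hlt
    push Not at hlt
    obtain ⟨x, hx, y, hy, hxy⟩ := one_lt_card.mp hlt
    rw [hK3, mem_filter] at hx hy
    -- some `v ∈ V2` outside of `Z0` different from `x`, `y`
    have hK12 : 1 ≤ (K1 ∪ K2).card ∨ 3 ≤ K3.card := by
      by_contra hcon
      push Not at hcon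
      have h5 : K1.card ≤ (K1 ∪ K2).card := card_le_card subset_union_left
      have h6 : K2.card ≤ (K1 ∪ K2).card := card_le_card subset_union_right
      omega
    have hv : ∃ v ∈ V2, (v ∈ B1 ∨ v ∈ B2) ∧ v ≠ x ∧ v ≠ y := by
      rcases hK12 with h | h
      · obtain ⟨v, hv⟩ := card_pos.mp h
        rw [mem_union, hK1, hK2, mem_filter, mem_filter] at hv
        rcases hv with hv | hv
        · refine ⟨v, hv.1, Or.inl hv.2.1, ?_, ?_⟩
          · rintro rfl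
            exact hv.2.2 hx.2.2
          · rintro rfl
            exact hv.2.2 hy.2.2
        · refine ⟨v, hv.1, Or.inr hv.2.2, ?_, ?_⟩
          · rintro rfl
            exact hv.2.1 hx.2.1
          · rintro rfl
            exact hv.2.1 hy.2.1
      · have h9 : 1 ≤ ((K3.erase x).erase y).card := by
          have h7 := pred_card_le_card_erase (s := K3) (a := x)
          have h8 := pred_card_le_card_erase (s := K3.erase x) (a := y)
          omega
        obtain ⟨v, hv⟩ := card_pos.mp h9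
        rw [mem_erase, mem_erase, hK3, mem_filter] at hv
        exact ⟨v, hv.2.2.1, Or.inl hv.2.2.2.1, hv.2.1, hv.1⟩
    obtain ⟨v, hv, hvB, hvx, hvy⟩ := hv
    have hL := (h2 V C w {B1, B2} V2 G G' hD y hy.1 x hxy
      (cls ⟨fun _ => hy.2.1, fun _ => hx.2.1⟩ ⟨fun _ => hy.2.2, fun _ => hx.2.2⟩)).2.2
    have h0 := (h4 V C w {B1, B2} V2 G G' hD x y
      (cls ⟨fun _ => hx.2.1, fun _ => hy.2.1⟩ ⟨fun _ => hx.2.2, fun _ => hy.2.2⟩) hL v hv hvx
      hvy).1
    have h11 := k3 v hv hvB x hx.2.1 hx.2.2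
    omega
  -- the equality case
  have e1 : 1 < K1.card := by omega
  have e2 : 1 < K2.card := by omega
  have e3 : 0 < K3.card := by omega
  obtain ⟨a, ha, a', ha', haa⟩ := one_lt_card.mp e1
  obtain ⟨b, hb, b', hb', hbb⟩ := one_lt_card.mp e2
  obtain ⟨u, hu⟩ := card_pos.mp e3
  rw [hK1, mem_filter] at ha ha'
  rw [hK2, mem_filter] at hb hb'
  rw [hK3, mem_filter] at hu
  have hs := (h5 V C w {B1, B2} V2 G G' hD u hu.1).2.2
  have g1 : sg G G' u p = 0 := by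
    have hL := (h2 V C w {B1, B2} V2 G G' hD a' ha'.1 a haa
      (cls ⟨fun _ => ha'.2.1, fun _ => ha.2.1⟩
        ⟨fun h => absurd h ha.2.2, fun h => absurd h ha'.2.2⟩)).2.2
    have h0 := (h4 V C w {B1, B2} V2 G G' hD a a'
      (cls ⟨fun _ => ha.2.1, fun _ => ha'.2.1⟩
        ⟨fun h => absurd h ha'.2.2, fun h => absurd h ha.2.2⟩) hL u hu.1
      (by rintro rfl; exact ha.2.2 hu.2.2) (by rintro rfl; exact ha'.2.2 hu.2.2)).1
    rw [← h0]
    exact hs p a (cls ⟨fun _ => ha.2.1, fun _ => hp1⟩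
      ⟨fun h => absurd h hp2, fun h => absurd h ha.2.2⟩)
  have g2 : sg G G' u q = 0 := by
    have hL := (h2 V C w {B1, B2} V2 G G' hD b' hb'.1 b hbb
      (cls ⟨fun h => absurd h hb.2.1, fun h => absurd h hb'.2.1⟩
        ⟨fun _ => hb'.2.2, fun _ => hb.2.2⟩)).2.2
    have h0 := (h4 V C w {B1, B2} V2 G G' hD b b'
      (cls ⟨fun h => absurd h hb'.2.1, fun h => absurd h hb.2.1⟩
        ⟨fun _ => hb.2.2, fun _ => hb'.2.2⟩) hL u hu.1
      (by rintro rfl; exact hb.2.1 hu.2.1) (by rintro rfl; exact hb'.2.1 hu.2.1)).1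
    rw [← h0]
    exact hs q b (cls ⟨fun h => absurd h hq1, fun h => absurd h hb.2.1⟩
      ⟨fun _ => hb.2.2, fun _ => hq2⟩)
  have hfin := k4 u hu.1 (Or.inl hu.2.1)
  rw [g1, g2] at hfin
  omega

end Pool.Agent.TQS
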