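import Pool.Agent.TQS.Targets

set_option autoImplicit false
set_option linter.unusedSectionVars false

/-!
# Project TQS: target TWB (two disjoint minimum covers)
-/

namespace Pool.Agent.TQS

open Finset

namespace TWB_

/-- In `Q_6` every element is in a common member with all other elements except one. -/
lemma com {V : Type} [Fintype V] [DecidableEq V] {E : Finset (Finset V)} (h : IsQ6 E) :
    ∀ x : V, ∃ x', ∀ y, y ≠ x → y ≠ x' → ∃ T ∈ E, x ∈ T ∧ y ∈ T := by
  obtain ⟨a, a', b, b', c, c', _, hall, rfl⟩ := h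
  have hal : ∀ v, v = a ∨ v = a' ∨ v = b ∨ v = b' ∨ v = c ∨ v = c' := by
    intro v
    simpa using hall v
  intro x
  rcases hal x with hx | hx | hx | hx | hx | hx
  · refine ⟨a', fun y h1 h2 => ?_⟩
    rcases hal y with hy | hy | hy | hy | hy | hy
    · exact absurd (hy.trans hx.symm) h1
    · exact absurd hy h2
    · exact ⟨{a, b, c}, by simp, by simp [hx], by simp [hy]⟩
    · exact ⟨{a, b', c'}, by simp, by simp [hx], by simp [hy]⟩
    · exact ⟨{a, b, c}, by simp, by simp [hx], by simp [hy]⟩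
    · exact ⟨{a, b', c'}, by simp, by simp [hx], by simp [hy]⟩
  · refine ⟨a, fun y h1 h2 => ?_⟩
    rcases hal y with hy | hy | hy | hy | hy | hy
    · exact absurd hy h2
    · exact absurd (hy.trans hx.symm) h1
    · exact ⟨{a', b, c'}, by simp, by simp [hx], by simp [hy]⟩
    · exact ⟨{a', b', c}, by simp, by simp [hx], by simp [hy]⟩
    · exact ⟨{a', b', c}, by simp, by simp [hx], by simp [hy]⟩
    · exact ⟨{a', b, c'}, by simp, by simp [hx], by simp [hy]⟩
  · refine ⟨b', fun y h1 h2 => ?_⟩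
    rcases hal y with hy | hy | hy | hy | hy | hy
    · exact ⟨{a, b, c}, by simp, by simp [hx], by simp [hy]⟩
    · exact ⟨{a', b, c'}, by simp, by simp [hx], by simp [hy]⟩
    · exact absurd (hy.trans hx.symm) h1
    · exact absurd hy h2
    · exact ⟨{a, b, c}, by simp, by simp [hx], by simp [hy]⟩
    · exact ⟨{a', b, c'}, by simp, by simp [hx], by simp [hy]⟩
  · refine ⟨b, fun y h1 h2 => ?_⟩
    rcases hal y with hy | hy | hy | hy | hy | hy
    · exact ⟨{a, b', c'}, by simp, by simp [hx], by simp [hy]⟩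
    · exact ⟨{a', b', c}, by simp, by simp [hx], by simp [hy]⟩
    · exact absurd hy h2
    · exact absurd (hy.trans hx.symm) h1
    · exact ⟨{a', b', c}, by simp, by simp [hx], by simp [hy]⟩
    · exact ⟨{a, b', c'}, by simp, by simp [hx], by simp [hy]⟩
  · refine ⟨c', fun y h1 h2 => ?_⟩
    rcases hal y with hy | hy | hy | hy | hy | hy
    · exact ⟨{a, b, c}, by simp, by simp [hx], by simp [hy]⟩
    · exact ⟨{a', b', c}, by simp, by simp [hx], by simp [hy]⟩
    · exact ⟨{a, b, c}, by simp, by simp [hx], by simp [hy]⟩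
    · exact ⟨{a', b', c}, by simp, by simp [hx], by simp [hy]⟩
    · exact absurd (hy.trans hx.symm) h1
    · exact absurd hy h2
  · refine ⟨c, fun y h1 h2 => ?_⟩
    rcases hal y with hy | hy | hy | hy | hy | hy
    · exact ⟨{a, b', c'}, by simp, by simp [hx], by simp [hy]⟩
    · exact ⟨{a', b, c'}, by simp, by simp [hx], by simp [hy]⟩
    · exact ⟨{a', b, c'}, by simp, by simp [hx], by simp [hy]⟩
    · exact ⟨{a, b', c'}, by simp, by simp [hx], by simp [hy]⟩
    · exact absurd hy h2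
    · exact absurd (hy.trans hx.symm) h1

/-- A class contains at most two elements of `V2`; if two then it is this pair. -/
lemma cls (h2 : T_CL) {V : Type} [Fintype V] [DecidableEq V] {C : Finset (Finset V)}
    {w : V → ℤ} {Ms : Finset (Finset V)} {V2 : Finset V} {G G' : V → Finset V}
    (hD : Dta C w Ms V2 G G') {P : Finset V}
    (hP : ∀ x ∈ P, ∀ y ∈ P, ∀ B ∈ Ms, x ∈ B ↔ y ∈ B) :
    (V2 ∩ P).card ≤ 2 ∧ ((V2 ∩ P).card = 2 → P ⊆ V2 ∧ P.card = 2) := by
  have key : ∀ v ∈ V2 ∩ P, ∀ v' ∈ V2 ∩ P, v ≠ v' → ∀ a ∈ P, a = v ∨ a = v' := by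
    intro v hv v' hv' hne a ha
    rw [Finset.mem_inter] at hv hv'
    exact h2 V C w Ms V2 G G' hD v hv.1 v' hv'.1 hne (hP v hv.2 v' hv'.2) a
      (hP a ha v hv.2)
  constructor
  · by_contra hcon
    push Not at hcon
    obtain ⟨a, ha, b, hb, c, hc, hab, hac, hbc⟩ := Finset.two_lt_card.mp hcon
    rcases key a ha b hb hab c (Finset.mem_inter.mp hc).2 with h | h
    · exact hac h.symm
    · exact hbc h.symm
  · intro hcard
    obtain ⟨v, v', hne, heq⟩ := Finset.card_eq_two.mp hcard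
    have hv : v ∈ V2 ∩ P := by rw [heq]; simp
    have hv' : v' ∈ V2 ∩ P := by rw [heq]; simp
    have hsub : P ⊆ V2 ∩ P := by
      intro a ha
      rw [heq]
      rcases key v hv v' hv' hne a ha with h | h
      · simp [h]
      · simp [h]
    have hPeq : P = V2 ∩ P := Finset.Subset.antisymm hsub Finset.inter_subset_right
    refine ⟨fun a ha => (Finset.mem_inter.mp (hsub ha)).1, ?_⟩
    rw [hPeq, hcard]

end TWB_

open TWB_ in
theorem p_TWB (h1 : T_RKT) (h2 : T_CL) (h3 : T_SIX) (h4 : T_MNE) : T_TWB := by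
  intro V _ _ C hC w t B1 B2 hF hne V2 G G' hD hdis
  have hneV : Nonempty V := by
    by_contra hcon
    rw [not_nonempty_iff] at hcon
    exact hne (Finset.ext fun x => (hcon.false x).elim)
  have hB1 : B1 ∈ ({B1, B2} : Finset (Finset V)) := by simp
  have hB2 : B2 ∈ ({B1, B2} : Finset (Finset V)) := by simp
  have hE3 : ∀ T ∈ Em C {B1, B2}, T.card = 3 := fun T hT => (mem_Em.mp hT).2.1
  have hE1 : ∀ T ∈ Em C {B1, B2}, ∀ B ∈ ({B1, B2} : Finset (Finset V)), (T ∩ B).card = 1 :=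
    fun T hT => (mem_Em.mp hT).2.2
  have hrk := (h1 V (Em C {B1, B2}) {B1, B2} hE3 hD.cov hE1 hneV).2.1 B1 hB1 B2 hB2 hne
  have hcnt := hD.cnt
  have hV2 : 6 ≤ V2.card := by omega
  -- the classes
  have c1 : ∀ x ∈ B1, ∀ y ∈ B1, ∀ B ∈ ({B1, B2} : Finset (Finset V)), x ∈ B ↔ y ∈ B := by
    intro x hx y hy B hB
    rw [Finset.mem_insert, Finset.mem_singleton] at hB
    rcases hB with rfl | rfl
    · exact ⟨fun _ => hy, fun _ => hx⟩
    · exact ⟨fun h => absurd h (Finset.disjoint_left.mp hdis hx),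
        fun h => absurd h (Finset.disjoint_left.mp hdis hy)⟩
  have c2 : ∀ x ∈ B2, ∀ y ∈ B2, ∀ B ∈ ({B1, B2} : Finset (Finset V)), x ∈ B ↔ y ∈ B := by
    intro x hx y hy B hB
    rw [Finset.mem_insert, Finset.mem_singleton] at hB
    rcases hB with rfl | rfl
    · exact ⟨fun h => absurd hx (Finset.disjoint_left.mp hdis h),
        fun h => absurd hy (Finset.disjoint_left.mp hdis h)⟩
    · exact ⟨fun _ => hy, fun _ => hx⟩
  have mZ : ∀ x, x ∈ (B1 ∪ B2)ᶜ ↔ x ∉ B1 ∧ x ∉ B2 := by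
    intro x
    rw [Finset.mem_compl, Finset.mem_union, not_or]
  have c0 : ∀ x ∈ (B1 ∪ B2)ᶜ, ∀ y ∈ (B1 ∪ B2)ᶜ, ∀ B ∈ ({B1, B2} : Finset (Finset V)),
      x ∈ B ↔ y ∈ B := by
    intro x hx y hy B hB
    rw [mZ] at hx hy
    rw [Finset.mem_insert, Finset.mem_singleton] at hB
    rcases hB with rfl | rfl
    · exact ⟨fun h => absurd h hx.1, fun h => absurd h hy.1⟩
    · exact ⟨fun h => absurd h hx.2, fun h => absurd h hy.2⟩
  obtain ⟨l1, e1⟩ := cls h2 hD c1
  obtain ⟨l2, e2⟩ := cls h2 hD c2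
  obtain ⟨l0, e0⟩ := cls h2 hD c0
  have hsum : V2.card = (V2 ∩ B1).card + (V2 ∩ B2).card + (V2 ∩ (B1 ∪ B2)ᶜ).card := by
    have s1 : (V2 ∩ (B1 ∪ B2)).card = (V2 ∩ B1).card + (V2 ∩ B2).card := by
      rw [Finset.inter_union_distrib_left, Finset.card_union_of_disjoint]
      exact Finset.disjoint_of_subset_left Finset.inter_subset_right
        (Finset.disjoint_of_subset_right Finset.inter_subset_right hdis)
    have s2 : (V2 ∩ (B1 ∪ B2)ᶜ).card = (V2 \ (B1 ∪ B2)).card := by
      congr 1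
      ext x
      simp
    have s3 := Finset.card_sdiff_add_card_inter V2 (B1 ∪ B2)
    omega
  obtain ⟨u1, k1⟩ := e1 (by omega)
  obtain ⟨u2, k2⟩ := e2 (by omega)
  obtain ⟨u0, k0⟩ := e0 (by omega)
  have d1 : Disjoint (B1 ∪ B2)ᶜ B1 := by
    rw [Finset.disjoint_left]
    intro x hx hx1
    exact ((mZ x).mp hx).1 hx1
  have d2 : Disjoint (B1 ∪ B2)ᶜ B2 := by
    rw [Finset.disjoint_left]
    intro x hx hx1
    exact ((mZ x).mp hx).2 hx1
  have huniv : (B1 ∪ B2)ᶜ ∪ B1 ∪ B2 = univ := by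
    ext x
    simp only [Finset.mem_union, mZ, Finset.mem_univ, iff_true]
    tauto
  have t0 : ∀ T ∈ Em C {B1, B2}, (T ∩ (B1 ∪ B2)ᶜ).card = 1 := by
    intro T hT
    have a1 := hE1 T hT B1 hB1
    have a2 := hE1 T hT B2 hB2
    have a3 := hE3 T hT
    have s1 : (T ∩ (B1 ∪ B2)).card = (T ∩ B1).card + (T ∩ B2).card := by
      rw [Finset.inter_union_distrib_left, Finset.card_union_of_disjoint]
      exact Finset.disjoint_of_subset_left Finset.inter_subset_right
        (Finset.disjoint_of_subset_right Finset.inter_subset_right hdis)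
    have s2 : (T ∩ (B1 ∪ B2)ᶜ).card = (T \ (B1 ∪ B2)).card := by
      congr 1
      ext x
      simp
    have s3 := Finset.card_sdiff_add_card_inter T (B1 ∪ B2)
    omega
  have hQ : IsQ6 (Em C {B1, B2}) := by
    refine h3 V C w {B1, B2} V2 G G' hD (B1 ∪ B2)ᶜ B1 B2 u0 u1 u2 k0 k1 k2 d1 d2 hdis huniv ?_
    intro P hP
    rw [Finset.mem_insert, Finset.mem_insert, Finset.mem_singleton] at hP
    rcases hP with rfl | rfl | rfl
    · exact ⟨t0, c0⟩
    · exact ⟨fun T hT => hE1 T hT P hB1, c1⟩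
    · exact ⟨fun T hT => hE1 T hT P hB2, c2⟩
  have hcov1 : Cov C B1 := (hF.tig B1 hB1).1
  have hcov2 : Cov C B2 := (hF.tig B2 hB2).1
  have hcard : ∀ S ∈ C, S.card = 3 := by
    intro S hS
    by_contra hS3
    have hS2 : S.card ≤ 2 := by
      have := hC.card_le S hS
      omega
    obtain ⟨p, hp⟩ := hcov1 S hS
    obtain ⟨q, hq⟩ := hcov2 S hS
    rw [Finset.mem_inter] at hp hq
    have hpq : q ≠ p := by
      rintro rfl
      exact Finset.disjoint_left.mp hdis hp.2 hq.2
    obtain ⟨x', hx'⟩ := com hQ p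
    obtain ⟨p', hp', hpp'⟩ : ∃ p' ∈ B1, p' ≠ p := by
      have h1lt : 1 < B1.card := by omega
      obtain ⟨p', hp', h⟩ := Finset.exists_mem_ne h1lt p
      exact ⟨p', hp', h⟩
    have hx : p' = x' := by
      by_contra hcon
      obtain ⟨T, hT, hpT, hp'T⟩ := hx' p' hpp' hcon
      have hc1 := hE1 T hT B1 hB1
      obtain ⟨z, hz⟩ := Finset.card_eq_one.mp hc1
      have m1 : p ∈ T ∩ B1 := Finset.mem_inter.mpr ⟨hpT, hp.2⟩
      have m2 : p' ∈ T ∩ B1 := Finset.mem_inter.mpr ⟨hp'T, hp'⟩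
      rw [hz, Finset.mem_singleton] at m1 m2
      exact hpp' (m2.trans m1.symm)
    have hqx : q ≠ x' := by
      rintro rfl
      rw [← hx] at hq
      exact Finset.disjoint_left.mp hdis hp' hq.2
    obtain ⟨T, hT, hpT, hqT⟩ := hx' q hpq hqx
    have hSeq : ({p, q} : Finset V) = S := by
      apply Finset.eq_of_subset_of_card_le
      · intro z hz
        rw [Finset.mem_insert, Finset.mem_singleton] at hz
        rcases hz with rfl | rfl
        · exact hp.1
        · exact hq.1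
      · rw [Finset.card_pair hpq.symm]
        exact hS2
    have hsub : S ⊆ T := by
      rw [← hSeq]
      intro z hz
      rw [Finset.mem_insert, Finset.mem_singleton] at hz
      rcases hz with rfl | rfl
      · exact hpT
      · exact hqT
    have hST := hC.anti S hS T (mem_Em.mp hT).1 hsub
    have := hE3 T hT
    rw [← hST] at this
    exact hS3 this
  obtain ⟨z, hz⟩ : ((B1 ∪ B2)ᶜ).Nonempty := by
    rw [← Finset.card_pos]
    omega
  obtain ⟨B, hB, hzB⟩ := (h4 V C hC w t {B1, B2} hF).2 hcard z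
  rw [mZ] at hz
  rw [Finset.mem_insert, Finset.mem_singleton] at hB
  rcases hB with rfl | rfl
  · exact hz.1 hzB
  · exact hz.2 hzB

end Pool.Agent.TQS
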