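import Pool.Agent.TQS.Targets

set_option autoImplicit false

namespace Pool.Agent.TQS

open Finset

theorem p_TWO (h1 : T_TWA) (h2 : T_TWB) : T_TWO := by
  intro V _ _ C hC w t B1 B2 hF hne V2 G G' hD
  by_cases hd : Disjoint B1 B2
  · exact h2 V C hC w t B1 B2 hF hne V2 G G' hD hd
  · exact h1 V C hC w t B1 B2 hF hne V2 G G' hD
      (Finset.nonempty_iff_ne_empty.mpr fun h => hd (Finset.disjoint_iff_inter_eq_empty.mpr h))

end Pool.Agent.TQS
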