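import Pool.Agent.TQS.Targets

set_option autoImplicit false

/-!
# Project TQS: target UNI

Exact covers in the uniform case.
-/

namespace Pool.Agent.TQS

open Finset

/-- The weight `u ↦ #{S ∈ C : u ∈ S} - [u = v]` summed over a set. -/
theorem UNI_.sum_z {V : Type} [Fintype V] [DecidableEq V] (C : Finset (Finset V)) (v : V)
    (U : Finset V) :
    ∑ u ∈ U, (cmb C (fun _ => (1 : ℚ)) u - if u = v then 1 else 0) =
      ((∑ S ∈ C, (S ∩ U).card : ℕ) : ℚ) - if v ∈ U then 1 else 0 := by
  rw [Finset.sum_sub_distrib, sum_cmb, Finset.sum_ite_eq']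
  push_cast
  simp

/-- If every member meets `U` and some member meets `U` twice then the sum is large. -/
theorem UNI_.sum_gt {V : Type} [Fintype V] [DecidableEq V] (C : Finset (Finset V))
    (U : Finset V) (hU : Cov C U) (S0 : Finset V) (hS0 : S0 ∈ C) (h2 : (S0 ∩ U).card ≠ 1) :
    C.card + 1 ≤ ∑ S ∈ C, (S ∩ U).card := by
  have h : ∑ _S ∈ C, 1 < ∑ S ∈ C, (S ∩ U).card := by
    apply Finset.sum_lt_sum
    · intro S hS
      exact Finset.card_pos.mpr (hU S hS)
    · refine ⟨S0, hS0, ?_⟩
      have h1 := Finset.card_pos.mpr (hU S0 hS0)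
      omega
  simp only [Finset.sum_const, smul_eq_mul, mul_one] at h
  omega

theorem UNI_.sum_ge {V : Type} [Fintype V] [DecidableEq V] (C : Finset (Finset V))
    (U : Finset V) (hU : Cov C U) : C.card ≤ ∑ S ∈ C, (S ∩ U).card := by
  have h : ∑ _S ∈ C, 1 ≤ ∑ S ∈ C, (S ∩ U).card := by
    apply Finset.sum_le_sum
    intro S hS
    exact Finset.card_pos.mpr (hU S hS)
  simp only [Finset.sum_const, smul_eq_mul, mul_one] at h
  exact h

/-- Target UNI. -/
theorem p_UNI : T_UNI := by
  intro V _ _ C hC h3 v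
  by_contra hno
  push Not at hno
  obtain ⟨y, _, hys, hyz⟩ := hC.frac
    (fun u => cmb C (fun _ => (1 : ℚ)) u - if u = v then 1 else 0) (C.card : ℚ) (by
      intro u
      by_cases huv : u = v
      · obtain ⟨S, hS, hvS⟩ := hC.used v
        have h1 : (1 : ℚ) ≤ cmb C (fun _ => (1 : ℚ)) v := by
          rw [cmb_apply, Finset.sum_const, nsmul_eq_mul, mul_one]
          have h2 : 0 < (C.filter fun S => v ∈ S).card :=
            Finset.card_pos.mpr ⟨S, Finset.mem_filter.mpr ⟨hS, hvS⟩⟩
          exact_mod_cast h2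
        rw [huv]
        simp only [if_true]
        linarith
      · simp only [if_neg huv, sub_zero]
        rw [cmb_apply]
        exact Finset.sum_nonneg fun _ _ => zero_le_one) (by positivity) (by
      intro U hU
      rw [UNI_.sum_z]
      by_cases hvU : v ∈ U
      · rw [if_pos hvU]
        have hex : ∃ S ∈ C, (S ∩ U).card ≠ 1 := by
          by_contra hall
          push Not at hall
          exact hno U hU hall hvU
        obtain ⟨S0, hS0, h2⟩ := hex
        have h4 := UNI_.sum_gt C U hU S0 hS0 h2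
        have h5 : ((C.card + 1 : ℕ) : ℚ) ≤ ((∑ S ∈ C, (S ∩ U).card : ℕ) : ℚ) := by
          exact_mod_cast h4
        rw [Nat.cast_add, Nat.cast_one] at h5
        linarith
      · rw [if_neg hvU, sub_zero]
        exact_mod_cast UNI_.sum_ge C U hU)
  have hsum : ∑ u, cmb C y u ≤ ∑ u, (cmb C (fun _ => (1 : ℚ)) u - if u = v then 1 else 0) :=
    Finset.sum_le_sum fun u _ => hyz u
  rw [UNI_.sum_z, sum_cmb_univ] at hsum
  have e1 : ∑ S ∈ C, y S * (S.card : ℚ) = 3 * C.card := by
    rw [← hys, Finset.mul_sum]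
    refine Finset.sum_congr rfl fun S hS => ?_
    rw [h3 S hS]
    push_cast
    ring
  have e2 : ∑ S ∈ C, (S ∩ (univ : Finset V)).card = 3 * C.card := by
    rw [Finset.sum_congr rfl (g := fun _ => 3) (fun S hS => by rw [Finset.inter_univ, h3 S hS])]
    rw [Finset.sum_const, smul_eq_mul, mul_comm]
  rw [e1, e2, if_pos (Finset.mem_univ v)] at hsum
  push_cast at hsum
  linarith

end Pool.Agent.TQS
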