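import Pool.Agent.TQS.Targets

set_option autoImplicit false

/-!
# Project TQS: target WCN
-/

namespace Pool.Agent.TQS

open Finset

theorem p_WCN : T_WCN := by
  intro V _ _ C hM w t hH
  have ht : 0 ≤ t := by
    have h := hH.tot
    have h1 : 0 ≤ ∑ v, w v := Finset.sum_nonneg fun v _ => by
      have := hH.one_le v
      omega
    omega
  obtain ⟨y, y0, ysum, yle⟩ := hM.frac (fun v => (w v : ℚ)) (t : ℚ)
    (fun v => by
      have h : 0 ≤ w v := by
        have := hH.one_le v
        omega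
      exact_mod_cast h)
    (by exact_mod_cast ht)
    (fun U hU => by
      have h := hH.cov_le U hU
      exact_mod_cast h)
  have key : ∀ B, Tig C w t B → (∀ v ∈ B, cmb C y v = (w v : ℚ)) ∧
      ∀ S ∈ C, y S = y S * ((S ∩ B).card : ℚ) := by
    intro B hB
    have h1 : ∑ v ∈ B, (w v : ℚ) = t := by exact_mod_cast hB.2
    have h2 : ∑ v ∈ B, cmb C y v ≤ ∑ v ∈ B, (w v : ℚ) := Finset.sum_le_sum fun v _ => yle v
    have h3 : ∑ v ∈ B, cmb C y v = ∑ S ∈ C, y S * ((S ∩ B).card : ℚ) := sum_cmb C y B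
    have h4 : ∀ S ∈ C, y S ≤ y S * ((S ∩ B).card : ℚ) := by
      intro S hS
      have h5 : 1 ≤ (S ∩ B).card := Finset.card_pos.2 (hB.1 S hS)
      have h6 : (1 : ℚ) ≤ ((S ∩ B).card : ℚ) := by exact_mod_cast h5
      nlinarith [y0 S]
    have h5 : ∑ S ∈ C, y S ≤ ∑ S ∈ C, y S * ((S ∩ B).card : ℚ) := Finset.sum_le_sum h4
    constructor
    · have h6 : ∑ v ∈ B, cmb C y v = ∑ v ∈ B, (w v : ℚ) := by linarith
      exact (Finset.sum_eq_sum_iff_of_le (fun v _ => yle v)).1 h6
    · have h7 : ∑ S ∈ C, y S = ∑ S ∈ C, y S * ((S ∩ B).card : ℚ) := by linarith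
      exact (Finset.sum_eq_sum_iff_of_le h4).1 h7
  refine ⟨fun S => if S ∈ C then y S else 0, ?_, ?_, ?_⟩
  · intro S
    show 0 ≤ if S ∈ C then y S else 0
    split_ifs
    · exact y0 S
    · exact le_refl 0
  · intro S hS
    have hS' : (if S ∈ C then y S else 0) ≠ 0 := hS
    split_ifs at hS' with hC
    · refine ⟨hC, fun B hB => ?_⟩
      have h1 := (key B hB).2 S hC
      have h2 : ((S ∩ B).card : ℚ) = 1 := by
        have h3 : y S * (((S ∩ B).card : ℚ) - 1) = 0 := by linarith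
        rcases mul_eq_zero.1 h3 with h4 | h4
        · exact absurd h4 hS'
        · linarith
      exact_mod_cast h2
    · exact absurd rfl hS'
  · intro v
    obtain ⟨B, hB, hv⟩ := hH.mem_tig v
    rw [cmb_congr C (y' := y) (fun S hS => by
      show (if S ∈ C then y S else 0) = y S
      rw [if_pos hS])]
    exact ((key B hB).1 v hv).symm

end Pool.Agent.TQS
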