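import Pool.Agent.TQS.Targets

set_option autoImplicit false

/-!
# Project TQS: weak flagness (WF)
-/

namespace Pool.Agent.TQS

open Finset

namespace WF_

variable {V : Type} [Fintype V] [DecidableEq V]

/-- `nd` of the difference vector -/
theorem nd_z {C : Finset (Finset V)} {w : V → ℤ} (j : ℤ) (y : Finset V → ℕ) (T U : Finset V) :
    nd U (fun v => (2 * j + 1) * w v - ind T v - cmb C (fun S => (y S : ℤ)) v) =
      (2 * j + 1) * nd U w - (3 * ((T ∩ U).card : ℤ) - T.card) -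
        ∑ S ∈ C, (y S : ℤ) * (3 * ((S ∩ U).card : ℤ) - S.card) := by
  have h1 : (fun v => (2 * j + 1) * w v - ind T v - cmb C (fun S => (y S : ℤ)) v) =
      (fun v => (2 * j + 1) * w v) - ind T - cmb C (fun S => (y S : ℤ)) := rfl
  rw [h1, nd_sub, nd_sub, nd_mul, nd_ind, nd_cmb]

/-- `nd U w` from the weight of `U` -/
theorem nd_w {C : Finset (Finset V)} {w : V → ℤ} {t : ℤ} (h : Hol C w t) (U : Finset V) :
    nd U w = 3 * (∑ v ∈ U, w v) - 3 * t := by
  unfold nd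
  rw [h.tot]

/-- every term is at most `6 y S` -/
theorem term_le {C : Finset (Finset V)} {w : V → ℤ} {t : ℤ} (h : Hol C w t)
    {y : Finset V → ℕ} (hy : ∀ S, y S ≠ 0 → Cor C w t S) (U S : Finset V) :
    (y S : ℤ) * (3 * ((S ∩ U).card : ℤ) - S.card) ≤ 6 * y S := by
  by_cases h0 : y S = 0
  · rw [h0]
    simp
  · have h3 := h.card3 S (hy S h0)
    have h1 : (S ∩ U).card ≤ 3 := by
      rw [← h3]
      exact Finset.card_le_card Finset.inter_subset_left
    rw [h3]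
    have h4 : (0 : ℤ) ≤ y S := Int.natCast_nonneg _
    have h5 : ((S ∩ U).card : ℤ) ≤ 3 := by exact_mod_cast h1
    have h6 : (3 * ((S ∩ U).card : ℤ) - ((3 : ℕ) : ℤ)) ≤ 6 := by
      push_cast
      linarith
    calc (y S : ℤ) * (3 * ((S ∩ U).card : ℤ) - ((3 : ℕ) : ℤ)) ≤ y S * 6 :=
          mul_le_mul_of_nonneg_left h6 h4
      _ = 6 * y S := mul_comm _ _

theorem sum_le {C : Finset (Finset V)} {w : V → ℤ} {t : ℤ} (h : Hol C w t)
    {y : Finset V → ℕ} (hy : ∀ S, y S ≠ 0 → Cor C w t S) {j : ℕ} (hj : ∑ S ∈ C, y S = j)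
    (U : Finset V) :
    ∑ S ∈ C, (y S : ℤ) * (3 * ((S ∩ U).card : ℤ) - S.card) ≤ 6 * j := by
  calc ∑ S ∈ C, (y S : ℤ) * (3 * ((S ∩ U).card : ℤ) - S.card) ≤ ∑ S ∈ C, 6 * (y S : ℤ) :=
        Finset.sum_le_sum fun S _ => term_le h hy U S
    _ = 6 * j := by
        rw [← Finset.mul_sum, ← hj]
        push_cast
        rfl

/-- one set not inside `U` saves three -/
theorem sum_le' {C : Finset (Finset V)} {w : V → ℤ} {t : ℤ} (h : Hol C w t)
    {y : Finset V → ℕ} (hy : ∀ S, y S ≠ 0 → Cor C w t S) {j : ℕ} (hj : ∑ S ∈ C, y S = j)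
    {U S0 : Finset V} (h0 : y S0 ≠ 0) (hS0 : ¬ S0 ⊆ U) :
    ∑ S ∈ C, (y S : ℤ) * (3 * ((S ∩ U).card : ℤ) - S.card) + 3 ≤ 6 * j := by
  have hc := hy S0 h0
  have hterm : (y S0 : ℤ) * (3 * ((S0 ∩ U).card : ℤ) - S0.card) + 3 ≤ 6 * y S0 := by
    have h3 := h.card3 S0 hc
    have h1 : (S0 ∩ U).card < 3 := by
      rw [← h3]
      apply Finset.card_lt_card
      refine ⟨Finset.inter_subset_left, fun hsub => hS0 ?_⟩
      exact fun v hv => (Finset.mem_inter.1 (hsub hv)).2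
    rw [h3]
    have h4 : (1 : ℤ) ≤ y S0 := by exact_mod_cast Nat.one_le_iff_ne_zero.2 h0
    have h5 : ((S0 ∩ U).card : ℤ) ≤ 2 := by exact_mod_cast Nat.lt_succ_iff.1 h1
    have h6 : (3 * ((S0 ∩ U).card : ℤ) - ((3 : ℕ) : ℤ)) ≤ 3 := by
      push_cast
      linarith
    have h7 : (y S0 : ℤ) * (3 * ((S0 ∩ U).card : ℤ) - ((3 : ℕ) : ℤ)) ≤ y S0 * 3 :=
      mul_le_mul_of_nonneg_left h6 (by linarith)
    linarith
  have e1 : ∑ S ∈ C, (y S : ℤ) * (3 * ((S ∩ U).card : ℤ) - S.card) =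
      (y S0 : ℤ) * (3 * ((S0 ∩ U).card : ℤ) - S0.card) +
        ∑ S ∈ C.erase S0, (y S : ℤ) * (3 * ((S ∩ U).card : ℤ) - S.card) :=
    (Finset.add_sum_erase C (fun S => (y S : ℤ) * (3 * ((S ∩ U).card : ℤ) - S.card)) hc.1).symm
  have e2 : (6 * j : ℤ) = 6 * (y S0 : ℤ) + ∑ S ∈ C.erase S0, 6 * (y S : ℤ) := by
    rw [Finset.add_sum_erase C (fun S => 6 * (y S : ℤ)) hc.1, ← Finset.mul_sum, ← hj]
    push_cast
    rfl
  have e3 : ∑ S ∈ C.erase S0, (y S : ℤ) * (3 * ((S ∩ U).card : ℤ) - S.card) ≤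
      ∑ S ∈ C.erase S0, 6 * (y S : ℤ) := Finset.sum_le_sum fun S _ => term_le h hy U S
  rw [e1, e2]
  linarith

/-- at a tight cover -/
theorem tig_zero {C : Finset (Finset V)} {w : V → ℤ} {t : ℤ} (h : Hol C w t)
    {y : Finset V → ℕ} (hy : ∀ S, y S ≠ 0 → Cor C w t S) {T : Finset V} (hT : Cor C w t T)
    (j : ℤ) {B : Finset V} (hB : Tig C w t B) :
    nd B (fun v => (2 * j + 1) * w v - ind T v - cmb C (fun S => (y S : ℤ)) v) = 0 := by
  rw [nd_z, nd_w h, hB.2, hT.2 B hB, h.card3 T hT]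
  have h1 : ∑ S ∈ C, (y S : ℤ) * (3 * ((S ∩ B).card : ℤ) - S.card) = 0 := by
    apply Finset.sum_eq_zero
    intro S _
    by_cases h0 : y S = 0
    · rw [h0]
      simp
    · rw [(hy S h0).2 B hB, h.card3 S (hy S h0)]
      simp
  rw [h1]
  push_cast
  ring

theorem nonneg {C : Finset (Finset V)} {w : V → ℤ} {t : ℤ} (h : Hol C w t)
    {y : Finset V → ℕ} {j : ℕ} (hj : ∑ S ∈ C, y S = j) (T : Finset V) (v : V) :
    0 ≤ (2 * (j : ℤ) + 1) * w v - ind T v - cmb C (fun S => (y S : ℤ)) v := by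
  have h1 : cmb C y v ≤ j := by
    rw [← hj]
    exact Finset.sum_le_sum_of_subset (Finset.filter_subset _ _)
  have h2 : cmb C (fun S => (y S : ℤ)) v ≤ j := by
    rw [← cmb_cast_nat]
    exact_mod_cast h1
  have h3 : ind T v ≤ 1 := by
    unfold ind
    split_ifs <;> norm_num
  have h4 := h.one_le v
  have h5 : (0 : ℤ) ≤ j := Int.natCast_nonneg _
  have h6 : (2 * (j : ℤ) + 1) * 1 ≤ (2 * (j : ℤ) + 1) * w v :=
    mul_le_mul_of_nonneg_left h4 (by linarith)
  linarith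

theorem cov_nonneg {C : Finset (Finset V)} {w : V → ℤ} {t : ℤ} (h : Hol C w t)
    {y : Finset V → ℕ} (hy : ∀ S, y S ≠ 0 → Cor C w t S) {j : ℕ} (hj : ∑ S ∈ C, y S = j)
    {T : Finset V} (hT : Cor C w t T)
    (hno : ¬ ∃ U', Cov C U' ∧ ∑ v ∈ U', w v = t + 1 ∧ T ⊆ U' ∧ ∀ S, y S ≠ 0 → S ⊆ U')
    (U : Finset V) (hU : Cov C U) :
    0 ≤ nd U (fun v => (2 * (j : ℤ) + 1) * w v - ind T v - cmb C (fun S => (y S : ℤ)) v) := by
  have h0 := h.cov_le U hU
  have hj0 : (0 : ℤ) ≤ j := Int.natCast_nonneg _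
  have hT3 := h.card3 T hT
  have hTc : (T ∩ U).card ≤ 3 := by
    rw [← hT3]
    exact Finset.card_le_card Finset.inter_subset_left
  have hTz : ((T ∩ U).card : ℤ) ≤ 3 := by exact_mod_cast hTc
  have hs := sum_le h hy hj U
  rcases h0.eq_or_lt with h1 | h1
  · exact (tig_zero h hy hT j ⟨hU, h1.symm⟩).ge
  · rcases (Int.add_one_le_iff.2 h1).eq_or_lt with h2 | h2
    · rw [nd_z, nd_w h, ← h2, hT3]
      by_cases hsub : T ⊆ U
      · have h3 : ∃ S, y S ≠ 0 ∧ ¬ S ⊆ U := by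
          by_contra hcon
          push Not at hcon
          exact hno ⟨U, hU, h2.symm, hsub, hcon⟩
        obtain ⟨S0, hS0, hS0'⟩ := h3
        have h4 := sum_le' h hy hj hS0 hS0'
        push_cast
        linarith
      · have h3 : (T ∩ U).card < 3 := by
          rw [← hT3]
          apply Finset.card_lt_card
          refine ⟨Finset.inter_subset_left, fun hs' => hsub ?_⟩
          exact fun v hv => (Finset.mem_inter.1 (hs' hv)).2
        have h4 : ((T ∩ U).card : ℤ) ≤ 2 := by exact_mod_cast Nat.lt_succ_iff.1 h3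
        push_cast
        linarith
    · rw [nd_z, nd_w h, hT3]
      have h3 : 6 ≤ 3 * (∑ v ∈ U, w v) - 3 * t := by
        have := Int.add_one_le_iff.2 h2
        linarith
      have h4 : (2 * (j : ℤ) + 1) * 6 ≤ (2 * (j : ℤ) + 1) * (3 * (∑ v ∈ U, w v) - 3 * t) :=
        mul_le_mul_of_nonneg_left h3 (by linarith)
      push_cast
      linarith

end WF_

open WF_ in
theorem p_WF : T_WF := by
  intro V _ _ C w t h j y U T hU hUw hy hj hT hT2 hno
  have hy' : ∀ S, y S ≠ 0 → Cor C w t S := fun S hS => (hy S hS).1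
  have hz : InM C w t (fun v => (2 * (j : ℤ) + 1) * w v - ind T v -
      cmb C (fun S => (y S : ℤ)) v) := by
    refine h.bdry _ (nonneg h hj T) (cov_nonneg h hy' hj hT hno)
      (fun B hB => tig_zero h hy' hT j hB) (Or.inr ⟨U, hU, ?_, ?_⟩)
    · intro hB
      have := hB.2
      omega
    · rw [nd_z, nd_w h, hUw, hT2, h.card3 T hT]
      have h1 : ∑ S ∈ C, (y S : ℤ) * (3 * ((S ∩ U).card : ℤ) - S.card) = 6 * j := by
        rw [← hj]
        push_cast
        rw [Finset.mul_sum]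
        refine Finset.sum_congr rfl fun S _ => ?_
        by_cases h0 : y S = 0
        · rw [h0]
          simp
        · rw [Finset.inter_eq_left.2 (hy S h0).2, h.card3 S (hy' S h0)]
          push_cast
          ring
      rw [h1]
      push_cast
      ring
  obtain ⟨y', hy1, hy2⟩ := hz
  refine ⟨fun S => y' S + y S + if S = T then 1 else 0, ?_, ?_⟩
  · intro S hS
    by_cases h1 : y' S = 0
    · by_cases h2 : y S = 0
      · by_cases h3 : S = T
        · rw [h3]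
          exact hT
        · exfalso
          apply hS
          simp [h1, h2, h3]
      · exact hy' S h2
    · exact hy1 S h1
  · intro v
    have e1 : cmb C (fun S => ((y' S + y S + (if S = T then 1 else 0) : ℕ) : ℤ)) v =
        cmb C (fun S => (y' S : ℤ)) v + cmb C (fun S => (y S : ℤ)) v + ind T v := by
      have e2 : (fun S => ((y' S + y S + (if S = T then 1 else 0) : ℕ) : ℤ)) =
          fun S => ((y' S : ℤ) + (y S : ℤ)) + (if S = T then (1 : ℤ) else 0) := by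
        funext S
        push_cast
        rfl
      rw [e2, cmb_add C (fun S => (y' S : ℤ) + (y S : ℤ)) (fun S => if S = T then (1 : ℤ) else 0),
        cmb_add C (fun S => (y' S : ℤ)) (fun S => (y S : ℤ)), cmb_single hT.1]
      rfl
    rw [e1, ← hy2 v]
    ring

end Pool.Agent.TQS
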