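import Pool.Agent.TQS.Targets
import Pool.Agent.TQS.P_ALP
import Pool.Agent.TQS.P_BET
import Pool.Agent.TQS.P_BIG
import Pool.Agent.TQS.P_CL
import Pool.Agent.TQS.P_CNT
import Pool.Agent.TQS.P_CON
import Pool.Agent.TQS.P_CORE
import Pool.Agent.TQS.P_DCV
import Pool.Agent.TQS.P_DTA
import Pool.Agent.TQS.P_EQO
import Pool.Agent.TQS.P_EVN
import Pool.Agent.TQS.P_FCT
import Pool.Agent.TQS.P_FCV
import Pool.Agent.TQS.P_FEX
import Pool.Agent.TQS.P_FMI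
import Pool.Agent.TQS.P_FRC
import Pool.Agent.TQS.P_GG1
import Pool.Agent.TQS.P_GGX
import Pool.Agent.TQS.P_GLN
import Pool.Agent.TQS.P_IND
import Pool.Agent.TQS.P_INT
import Pool.Agent.TQS.P_KPD
import Pool.Agent.TQS.P_LAT
import Pool.Agent.TQS.P_LIN
import Pool.Agent.TQS.P_LP1
import Pool.Agent.TQS.P_LP2
import Pool.Agent.TQS.P_M2
import Pool.Agent.TQS.P_MNE
import Pool.Agent.TQS.P_MPK
import Pool.Agent.TQS.P_NB
import Pool.Agent.TQS.P_NC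
import Pool.Agent.TQS.P_NM
import Pool.Agent.TQS.P_NN
import Pool.Agent.TQS.P_NW
import Pool.Agent.TQS.P_ODD
import Pool.Agent.TQS.P_ONE
import Pool.Agent.TQS.P_OP
import Pool.Agent.TQS.P_PAR
import Pool.Agent.TQS.P_PKM
import Pool.Agent.TQS.P_PRP
import Pool.Agent.TQS.P_QMI
import Pool.Agent.TQS.P_QNP
import Pool.Agent.TQS.P_REL
import Pool.Agent.TQS.P_RKG
import Pool.Agent.TQS.P_RKT
import Pool.Agent.TQS.P_RPA
import Pool.Agent.TQS.P_SAT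
import Pool.Agent.TQS.P_SG0
import Pool.Agent.TQS.P_SGT
import Pool.Agent.TQS.P_SIX
import Pool.Agent.TQS.P_SL1
import Pool.Agent.TQS.P_SL2
import Pool.Agent.TQS.P_SL3
import Pool.Agent.TQS.P_SL4
import Pool.Agent.TQS.P_SL5
import Pool.Agent.TQS.P_SLH
import Pool.Agent.TQS.P_SPN
import Pool.Agent.TQS.P_TRN
import Pool.Agent.TQS.P_TWA
import Pool.Agent.TQS.P_TWB
import Pool.Agent.TQS.P_TWO
import Pool.Agent.TQS.P_UNI
import Pool.Agent.TQS.P_V2C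
import Pool.Agent.TQS.P_WCN
import Pool.Agent.TQS.P_WF

set_option autoImplicit false

/-!
# Project TQS (MP_98b56a_co): assembly
-/

namespace Pool.Agent.TQS

theorem q_WF : T_WF := p_WF
theorem q_ODD : T_ODD := p_ODD (p_FCT p_WF) p_REL
theorem q_EVN : T_EVN := p_EVN p_WF q_ODD
theorem q_LAT : T_LAT := p_LAT p_WCN q_EVN
theorem q_FEX : T_FEX := p_FEX p_WCN q_LAT
theorem q_SLH : T_SLH := p_SLH (p_SL1 p_PKM) p_SL2 p_SL3 p_SL4 p_SL5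
theorem q_MNE : T_MNE := p_MNE p_UNI
theorem q_INT : T_INT := p_INT q_MNE
theorem q_DCV : T_DCV := p_DCV p_WCN
theorem q_SPN : T_SPN := p_SPN p_CON q_DCV
theorem q_SAT : T_SAT := p_SAT q_INT
theorem q_KPD : T_KPD := p_KPD q_DCV
theorem q_M2 : T_M2 := p_M2 q_DCV q_SPN q_SAT
theorem q_V2C : T_V2C := p_V2C q_M2 p_CNT
theorem q_GG1 : T_GG1 := p_GG1 p_LIN (p_FCV p_CON) q_M2
theorem q_GGX : T_GGX := p_GGX q_GG1 q_SPN q_SAT q_MNE
theorem q_DTA : T_DTA := p_DTA q_DCV q_V2C q_GGX (p_GLN q_SPN) p_OP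
theorem q_CL : T_CL := p_CL p_EQO
theorem q_SGT : T_SGT := p_SGT p_EQO
theorem q_RPA : T_RPA := p_RPA p_SG0
theorem q_NW : T_NW := p_NW q_SPN q_SGT
theorem q_PRP : T_PRP := p_PRP q_KPD
theorem q_ALP : T_ALP := p_ALP q_PRP
theorem q_NM : T_NM := p_NM q_ALP p_BET p_NB p_NC q_PRP q_NW
theorem q_NN : T_NN := p_NN q_NM q_NW q_KPD
theorem q_BIG : T_BIG := p_BIG q_RPA q_NN q_SGT
theorem q_RKT : T_RKT := p_RKT p_RKG
theorem q_SIX : T_SIX := p_SIX p_EQO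
theorem q_PAR : T_PAR := p_PAR q_RKT q_BIG q_CL q_SIX
theorem q_ONE : T_ONE := p_ONE q_RKT p_EQO q_CL
theorem q_TWO : T_TWO :=
  p_TWO (p_TWA q_RKT p_EQO q_CL p_SG0 q_SGT) (p_TWB q_RKT q_CL q_SIX q_MNE)
theorem q_CORE : T_CORE := p_CORE q_SLH q_FEX q_DTA q_MNE q_PAR q_ONE q_TWO
theorem q_FRC : T_FRC := p_FRC p_LP1 p_LP2
theorem q_IND : T_IND := p_IND q_CORE p_FMI p_QMI p_TRN

/-- An ideal family of sets of size at most three is Mengerian or has a `Q_6` restriction. -/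
theorem main (V : Type) [Fintype V] [DecidableEq V] (C : Finset (Finset V))
    (h3 : ∀ S ∈ C, S.card ≤ 3)
    (hid : ∀ x ∈ Set.extremePoints ℝ
      {x : V → ℝ | (∀ e, 0 ≤ x e) ∧ ∀ S ∈ C, (1 : ℝ) ≤ ∑ e ∈ S, x e}, ∀ e, ∃ z : ℤ, x e = (z : ℝ)) :
    Meng C ∨ HasQ6 C := by
  by_cases h : HasQ6 C
  · exact Or.inr h
  · exact Or.inl (q_IND (Fintype.card V) V rfl C h3 (q_FRC V C hid) h)

end Pool.Agent.TQS
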