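import Pool.Agent.TQS.Defs

set_option autoImplicit false
set_option linter.unusedSectionVars false

/-!
# Project TQS: basic lemmas on `cmb`, `nd`, `ind`, `un`, `InL`, `InS`, `rk`
-/

namespace Pool.Agent.TQS

open Finset

section
variable {V : Type} [Fintype V] [DecidableEq V]

theorem cmb_apply {R : Type} [AddCommMonoid R] (X : Finset (Finset V)) (y : Finset V → R) (v : V) :
    cmb X y v = ∑ S ∈ X with v ∈ S, y S := rfl

theorem cmb_apply' {R : Type} [AddCommMonoid R] (X : Finset (Finset V)) (y : Finset V → R) (v : V) :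
    cmb X y v = ∑ S ∈ X, if v ∈ S then y S else 0 := by
  rw [cmb_apply, Finset.sum_filter]

/-- Sum of `cmb` over a set. -/
theorem sum_cmb {R : Type} [Semiring R] (X : Finset (Finset V)) (y : Finset V → R)
    (U : Finset V) : ∑ v ∈ U, cmb X y v = ∑ S ∈ X, y S * ((S ∩ U).card : R) := by
  simp_rw [cmb_apply']
  rw [Finset.sum_comm]
  refine Finset.sum_congr rfl fun S _ => ?_
  rw [← Finset.sum_filter, Finset.sum_const, nsmul_eq_mul, Nat.cast_comm]
  congr 3
  ext v
  simp [and_comm]

theorem sum_cmb_univ {R : Type} [Semiring R] (X : Finset (Finset V)) (y : Finset V → R) :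
    ∑ v, cmb X y v = ∑ S ∈ X, y S * (S.card : R) := by
  rw [sum_cmb]
  simp

theorem nd_cmb {R : Type} [CommRing R] (X : Finset (Finset V)) (y : Finset V → R)
    (U : Finset V) : nd U (cmb X y) = ∑ S ∈ X, y S * (3 * ((S ∩ U).card : R) - S.card) := by
  unfold nd
  rw [sum_cmb, sum_cmb_univ, Finset.mul_sum, ← Finset.sum_sub_distrib]
  refine Finset.sum_congr rfl fun S _ => ?_
  ring

theorem cmb_add {R : Type} [AddCommMonoid R] (X : Finset (Finset V)) (y y' : Finset V → R) :
    cmb X (fun S => y S + y' S) = cmb X y + cmb X y' := by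
  funext v
  simp [cmb, Finset.sum_add_distrib]

theorem cmb_sub {R : Type} [AddCommGroup R] (X : Finset (Finset V)) (y y' : Finset V → R) :
    cmb X (fun S => y S - y' S) = cmb X y - cmb X y' := by
  funext v
  simp [cmb, Finset.sum_sub_distrib]

theorem cmb_neg {R : Type} [AddCommGroup R] (X : Finset (Finset V)) (y : Finset V → R) :
    cmb X (fun S => - y S) = - cmb X y := by
  funext v
  simp [cmb]

theorem cmb_mul {R : Type} [Semiring R] (X : Finset (Finset V)) (c : R) (y : Finset V → R) :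
    cmb X (fun S => c * y S) = fun v => c * cmb X y v := by
  funext v
  simp [cmb, Finset.mul_sum]

theorem cmb_zero {R : Type} [AddCommMonoid R] (X : Finset (Finset V)) :
    cmb X (fun _ => (0 : R)) = 0 := by
  funext v
  simp [cmb]

theorem cmb_congr {R : Type} [AddCommMonoid R] (X : Finset (Finset V)) {y y' : Finset V → R}
    (h : ∀ S ∈ X, y S = y' S) : cmb X y = cmb X y' := by
  funext v
  exact Finset.sum_congr rfl fun S hS => h S (Finset.mem_filter.mp hS).1

theorem cmb_cast_nat (X : Finset (Finset V)) (y : Finset V → ℕ) (v : V) :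
    ((cmb X y v : ℕ) : ℤ) = cmb X (fun S => (y S : ℤ)) v := by
  simp [cmb]

theorem cmb_cast_int (X : Finset (Finset V)) (y : Finset V → ℤ) (v : V) :
    ((cmb X y v : ℤ) : ℚ) = cmb X (fun S => (y S : ℚ)) v := by
  simp [cmb]

/-- A combination supported in a subfamily. -/
theorem cmb_subset {R : Type} [AddCommMonoid R] {X Y : Finset (Finset V)} (h : X ⊆ Y)
    (y : Finset V → R) (hy : ∀ S ∈ Y, S ∉ X → y S = 0) : cmb Y y = cmb X y := by
  funext v
  rw [cmb_apply', cmb_apply']
  symm
  apply Finset.sum_subset h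
  intro S hS hX
  rw [hy S hS hX]
  simp

/-- Extend a combination by zero. -/
theorem cmb_extend {R : Type} [AddCommMonoid R] {X Y : Finset (Finset V)} (h : X ⊆ Y)
    (y : Finset V → R) : cmb Y (fun S => if S ∈ X then y S else 0) = cmb X y := by
  rw [cmb_subset h]
  · apply cmb_congr
    intro S hS
    rw [if_pos hS]
  · intro S _ hX
    rw [if_neg hX]

theorem cmb_single {X : Finset (Finset V)} {S : Finset V} (hS : S ∈ X) :
    cmb X (fun T => if T = S then (1 : ℤ) else 0) = ind S := by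
  funext v
  rw [cmb_apply']
  unfold ind
  rw [Finset.sum_eq_single S]
  · simp
  · intro T _ hT
    simp [hT]
  · intro h
    exact absurd hS h

theorem cmb_singleq {X : Finset (Finset V)} {S : Finset V} (hS : S ∈ X) :
    cmb X (fun T => if T = S then (1 : ℚ) else 0) = indq S := by
  funext v
  rw [cmb_apply']
  unfold indq
  rw [Finset.sum_eq_single S]
  · simp
  · intro T _ hT
    simp [hT]
  · intro h
    exact absurd hS h

theorem cmb_eq_sum (X : Finset (Finset V)) (y : Finset V → ℤ) :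
    cmb X y = ∑ S ∈ X, y S • ind S := by
  funext v
  rw [cmb_apply', Finset.sum_apply]
  refine Finset.sum_congr rfl fun S _ => ?_
  simp [ind]

theorem cmb_eq_sumq (X : Finset (Finset V)) (y : Finset V → ℚ) :
    cmb X y = ∑ S ∈ X, y S • indq S := by
  funext v
  rw [cmb_apply', Finset.sum_apply]
  refine Finset.sum_congr rfl fun S _ => ?_
  simp [indq]

/-! ### `nd` -/

theorem nd_add {R : Type} [CommRing R] (U : Finset V) (z z' : V → R) :
    nd U (z + z') = nd U z + nd U z' := by
  simp only [nd, Pi.add_apply, Finset.sum_add_distrib]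
  ring

theorem nd_sub {R : Type} [CommRing R] (U : Finset V) (z z' : V → R) :
    nd U (z - z') = nd U z - nd U z' := by
  simp only [nd, Pi.sub_apply, Finset.sum_sub_distrib]
  ring

theorem nd_neg {R : Type} [CommRing R] (U : Finset V) (z : V → R) :
    nd U (-z) = - nd U z := by
  simp only [nd, Pi.neg_apply, Finset.sum_neg_distrib]
  ring

theorem nd_mul {R : Type} [CommRing R] (U : Finset V) (c : R) (z : V → R) :
    nd U (fun v => c * z v) = c * nd U z := by
  simp only [nd, ← Finset.mul_sum]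
  ring

theorem nd_zero {R : Type} [CommRing R] (U : Finset V) : nd U (0 : V → R) = 0 := by
  simp [nd]

theorem nd_cast (U : Finset V) (z : V → ℤ) :
    nd U (fun v => (z v : ℚ)) = ((nd U z : ℤ) : ℚ) := by
  simp [nd]

/-- `nd U` as a linear functional over `ℚ`. -/
def ndl (U : Finset V) : (V → ℚ) →ₗ[ℚ] ℚ where
  toFun := nd U
  map_add' := nd_add U
  map_smul' c z := by
    have h : c • z = fun v => c * z v := rfl
    rw [h, nd_mul]
    rfl

theorem ndl_apply (U : Finset V) (z : V → ℚ) : ndl U z = nd U z := rfl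

/-- `nd B` as an additive homomorphism over `ℤ`. -/
def ndh (U : Finset V) : (V → ℤ) →+ ℤ where
  toFun := nd U
  map_zero' := nd_zero U
  map_add' := nd_add U

theorem ndh_apply (U : Finset V) (z : V → ℤ) : ndh U z = nd U z := rfl

theorem sum_ind (S U : Finset V) : ∑ v ∈ U, ind S v = ((S ∩ U).card : ℤ) := by
  unfold ind
  rw [← Finset.sum_filter, Finset.sum_const, nsmul_eq_mul, mul_one]
  congr 2
  ext v
  simp [and_comm]

theorem sum_ind_univ (S : Finset V) : ∑ v, ind S v = (S.card : ℤ) := by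
  rw [sum_ind]
  simp

theorem sum_indq (S U : Finset V) : ∑ v ∈ U, indq S v = ((S ∩ U).card : ℚ) := by
  unfold indq
  rw [← Finset.sum_filter, Finset.sum_const, nsmul_eq_mul, mul_one]
  congr 2
  ext v
  simp [and_comm]

theorem sum_indq_univ (S : Finset V) : ∑ v, indq S v = (S.card : ℚ) := by
  rw [sum_indq]
  simp

theorem nd_ind (U S : Finset V) : nd U (ind S) = 3 * ((S ∩ U).card : ℤ) - S.card := by
  unfold nd
  rw [sum_ind, sum_ind_univ]

theorem nd_indq (U S : Finset V) : nd U (indq S) = 3 * ((S ∩ U).card : ℚ) - S.card := by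
  unfold nd
  rw [sum_indq, sum_indq_univ]

theorem sum_un (a : V) (U : Finset V) : ∑ v ∈ U, un a v = if a ∈ U then 1 else 0 := by
  unfold un
  rw [Finset.sum_ite_eq']

theorem sum_un_univ (a : V) : ∑ v, un a v = 1 := by
  rw [sum_un]
  simp

theorem nd_un (U : Finset V) (a : V) : nd U (un a) = 3 * (if a ∈ U then 1 else 0) - 1 := by
  unfold nd
  rw [sum_un, sum_un_univ]

theorem nd_un_sub (U : Finset V) (a b : V) :
    nd U (un a - un b) = 3 * ((if a ∈ U then 1 else 0) - if b ∈ U then 1 else 0) := by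
  rw [nd_sub, nd_un, nd_un]
  ring

/-! ### Lattice and span -/

theorem InL.zero (X : Finset (Finset V)) : InL X 0 := ⟨fun _ => 0, (cmb_zero X).symm⟩

theorem InL.add {X : Finset (Finset V)} {z z' : V → ℤ} (h : InL X z) (h' : InL X z') :
    InL X (z + z') := by
  obtain ⟨q, rfl⟩ := h
  obtain ⟨q', rfl⟩ := h'
  exact ⟨fun S => q S + q' S, (cmb_add X q q').symm⟩

theorem InL.neg {X : Finset (Finset V)} {z : V → ℤ} (h : InL X z) : InL X (-z) := by
  obtain ⟨q, rfl⟩ := h
  exact ⟨fun S => - q S, (cmb_neg X q).symm⟩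

theorem InL.sub {X : Finset (Finset V)} {z z' : V → ℤ} (h : InL X z) (h' : InL X z') :
    InL X (z - z') := by
  obtain ⟨q, rfl⟩ := h
  obtain ⟨q', rfl⟩ := h'
  exact ⟨fun S => q S - q' S, (cmb_sub X q q').symm⟩

theorem InL.mem {X : Finset (Finset V)} {S : Finset V} (hS : S ∈ X) : InL X (ind S) :=
  ⟨_, (cmb_single hS).symm⟩

theorem InL.smul {X : Finset (Finset V)} {z : V → ℤ} (k : ℤ) (h : InL X z) : InL X (k • z) := by
  obtain ⟨q, rfl⟩ := h
  refine ⟨fun S => k * q S, ?_⟩
  rw [cmb_mul]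
  rfl

theorem InL.mono {X Y : Finset (Finset V)} (h : X ⊆ Y) {z : V → ℤ} (hz : InL X z) : InL Y z := by
  obtain ⟨q, rfl⟩ := hz
  exact ⟨_, (cmb_extend h q).symm⟩

/-- `InL` as a subgroup. -/
def Lsub (X : Finset (Finset V)) : AddSubgroup (V → ℤ) where
  carrier := {z | InL X z}
  add_mem' h h' := InL.add h h'
  zero_mem' := InL.zero X
  neg_mem' h := InL.neg h

theorem mem_Lsub {X : Finset (Finset V)} {z : V → ℤ} : z ∈ Lsub X ↔ InL X z := Iff.rfl

theorem InS.zero (X : Finset (Finset V)) : InS X 0 := ⟨fun _ => 0, (cmb_zero X).symm⟩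

theorem InS.add {X : Finset (Finset V)} {z z' : V → ℚ} (h : InS X z) (h' : InS X z') :
    InS X (z + z') := by
  obtain ⟨q, rfl⟩ := h
  obtain ⟨q', rfl⟩ := h'
  exact ⟨fun S => q S + q' S, (cmb_add X q q').symm⟩

theorem InS.sub {X : Finset (Finset V)} {z z' : V → ℚ} (h : InS X z) (h' : InS X z') :
    InS X (z - z') := by
  obtain ⟨q, rfl⟩ := h
  obtain ⟨q', rfl⟩ := h'
  exact ⟨fun S => q S - q' S, (cmb_sub X q q').symm⟩

theorem InS.smul {X : Finset (Finset V)} {z : V → ℚ} (k : ℚ) (h : InS X z) : InS X (k • z) := by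
  obtain ⟨q, rfl⟩ := h
  refine ⟨fun S => k * q S, ?_⟩
  rw [cmb_mul]
  rfl

theorem InS.mem {X : Finset (Finset V)} {S : Finset V} (hS : S ∈ X) : InS X (indq S) :=
  ⟨_, (cmb_singleq hS).symm⟩

theorem InS.mono {X Y : Finset (Finset V)} (h : X ⊆ Y) {z : V → ℚ} (hz : InS X z) : InS Y z := by
  obtain ⟨q, rfl⟩ := hz
  exact ⟨_, (cmb_extend h q).symm⟩

theorem mem_span_iff {X : Finset (Finset V)} {z : V → ℚ} :
    z ∈ Submodule.span ℚ (indq '' (X : Set (Finset V))) ↔ InS X z := by
  constructor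
  · intro h
    induction h using Submodule.span_induction with
    | mem x hx =>
      obtain ⟨S, hS, rfl⟩ := hx
      exact InS.mem hS
    | zero => exact InS.zero X
    | add x y _ _ hx hy => exact hx.add hy
    | smul a x _ hx => exact hx.smul a
  · rintro ⟨q, rfl⟩
    rw [cmb_eq_sumq]
    refine Submodule.sum_mem _ fun S hS => Submodule.smul_mem _ _ (Submodule.subset_span ?_)
    exact ⟨S, hS, rfl⟩

theorem rk_mono {X Y : Finset (Finset V)} (h : X ⊆ Y) : rk X ≤ rk Y := by
  unfold rk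
  apply Submodule.finrank_mono
  apply Submodule.span_mono
  exact Set.image_mono (by exact_mod_cast h)

theorem mem_Em {C Ms : Finset (Finset V)} {T : Finset V} :
    T ∈ Em C Ms ↔ T ∈ C ∧ T.card = 3 ∧ ∀ B ∈ Ms, (T ∩ B).card = 1 := by
  unfold Em
  rw [Finset.mem_filter]

theorem mem_av {X : Finset (Finset V)} {v : V} {S : Finset V} : S ∈ av X v ↔ S ∈ X ∧ v ∉ S := by
  unfold av
  rw [Finset.mem_filter]

/-- `nd B` vanishes on the lattice of the face. -/
theorem nd_InL {C Ms : Finset (Finset V)} {z : V → ℤ} (h : InL (Em C Ms) z) {B : Finset V}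
    (hB : B ∈ Ms) : nd B z = 0 := by
  obtain ⟨q, rfl⟩ := h
  rw [nd_cmb]
  apply Finset.sum_eq_zero
  intro S hS
  obtain ⟨_, h3, h1⟩ := mem_Em.mp hS
  rw [h3, h1 B hB]
  ring

theorem nd_InS {C Ms : Finset (Finset V)} {z : V → ℚ} (h : InS (Em C Ms) z) {B : Finset V}
    (hB : B ∈ Ms) : nd B z = 0 := by
  obtain ⟨q, rfl⟩ := h
  rw [nd_cmb]
  apply Finset.sum_eq_zero
  intro S hS
  obtain ⟨_, h3, h1⟩ := mem_Em.mp hS
  rw [h3, h1 B hB]
  ring

end

end Pool.Agent.TQS
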