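import Mathlib

set_option autoImplicit false

/-!
# Project TQS (MP_98b56a_co): ideal clutters with members of size at most three

Definitions. `V` is the ground set, `C : Finset (Finset V)` the clutter.
-/

namespace Pool.Agent.TQS

open Finset

section
variable {V : Type} [Fintype V] [DecidableEq V]

/-- `U` is a cover of `C`: it meets every member. -/
def Cov (C : Finset (Finset V)) (U : Finset V) : Prop := ∀ S ∈ C, (S ∩ U).Nonempty

/-- The vector `∑_{S ∈ X} y S • 1_S`. -/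
def cmb {R : Type} [AddCommMonoid R] (X : Finset (Finset V)) (y : Finset V → R) : V → R :=
  fun v => ∑ S ∈ X with v ∈ S, y S

/-- There are `s` members (repetitions allowed) using every element `v` at most `w v` times. -/
def Pk (C : Finset (Finset V)) (w : V → ℕ) (s : ℕ) : Prop :=
  ∃ y : Finset V → ℕ, ∑ S ∈ C, y S = s ∧ ∀ v, cmb C y v ≤ w v

/-- `C` is Mengerian (has the max-flow min-cut property): for every weight `w`, if all covers have
weight at least `s`, then there is a packing of size `s`. -/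
def Meng (C : Finset (Finset V)) : Prop :=
  ∀ (w : V → ℕ) (s : ℕ), (∀ U, Cov C U → s ≤ ∑ v ∈ U, w v) → Pk C w s

/-- The fractional version: holds iff `C` is ideal. -/
def Frac (C : Finset (Finset V)) : Prop :=
  ∀ (w : V → ℚ) (s : ℚ), (∀ v, 0 ≤ w v) → 0 ≤ s → (∀ U, Cov C U → s ≤ ∑ v ∈ U, w v) →
    ∃ y : Finset V → ℚ, (∀ S, 0 ≤ y S) ∧ ∑ S ∈ C, y S = s ∧ ∀ v, cmb C y v ≤ w v

/-- Indicator vector of `S`. -/
def ind (S : Finset V) : V → ℤ := fun v => if v ∈ S then 1 else 0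

/-- Unit vector. -/
def un (a : V) : V → ℤ := fun v => if v = a then 1 else 0

/-- `nd U z = 3 z(U) - |z|`. -/
def nd {R : Type} [CommRing R] (U : Finset V) (z : V → R) : R := 3 * ∑ v ∈ U, z v - ∑ v, z v

/-- `z` is in the lattice generated by the indicator vectors of `X`. -/
def InL (X : Finset (Finset V)) (z : V → ℤ) : Prop := ∃ q : Finset V → ℤ, z = cmb X q

/-- `z` is in the rational span of the indicator vectors of `X`. -/
def InS (X : Finset (Finset V)) (z : V → ℚ) : Prop := ∃ q : Finset V → ℚ, z = cmb X q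

/-- Rational indicator vector. -/
def indq (S : Finset V) : V → ℚ := fun v => if v ∈ S then 1 else 0

/-- Dimension of the rational span of the indicator vectors of `X`. -/
noncomputable def rk (X : Finset (Finset V)) : ℕ :=
  Module.finrank ℚ (Submodule.span ℚ (indq '' (X : Set (Finset V))))

/-- The members of `X` which avoid `v`. -/
def av (X : Finset (Finset V)) (v : V) : Finset (Finset V) := X.filter (fun S => v ∉ S)

/-- `C` consists of the four triangles of `K_4` (`Q_6`), on the whole ground set. -/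
def IsQ6 (C : Finset (Finset V)) : Prop :=
  ∃ a a' b b' c c' : V, [a, a', b, b', c, c'].Nodup ∧ (∀ v, v ∈ [a, a', b, b', c, c']) ∧
    C = {{a, b, c}, {a, b', c'}, {a', b, c'}, {a', b', c}}

/-- `Q_6` is an induced deletion minor of `C`: the members inside some six-element set. -/
def HasQ6 (C : Finset (Finset V)) : Prop :=
  ∃ a a' b b' c c' : V, [a, a', b, b', c, c'].Nodup ∧
    C.filter (fun S => S ⊆ {a, a', b, b', c, c'}) =
      {{a, b, c}, {a, b', c'}, {a', b, c'}, {a', b', c}}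

/-- Minimal counterexample: an ideal clutter on `V` with nonempty members of size at most three
covering `V`, all deletions and contractions of one element are Mengerian, not Mengerian. -/
structure MinC (C : Finset (Finset V)) : Prop where
  anti : ∀ A ∈ C, ∀ B ∈ C, A ⊆ B → A = B
  ne : ∀ S ∈ C, S.Nonempty
  card_le : ∀ S ∈ C, S.card ≤ 3
  frac : Frac C
  used : ∀ v : V, ∃ S ∈ C, v ∈ S
  del : ∀ v : V, Meng (av C v)
  con : ∀ v : V, Meng (C.image fun S => S.erase v)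
  not_meng : ¬ Meng C

/-- `w` is a hole with minimum cover weight `t`, with an inclusion-maximal set of minimum covers
and minimal total weight. -/
structure Sel (C : Finset (Finset V)) (w : V → ℕ) (t : ℕ) : Prop where
  le : ∀ U, Cov C U → t ≤ ∑ v ∈ U, w v
  att : ∃ B, Cov C B ∧ ∑ v ∈ B, w v = t
  npk : ¬ Pk C w t
  mx : ∀ (w' : V → ℕ) (t' : ℕ), (∀ U, Cov C U → t' ≤ ∑ v ∈ U, w' v) → ¬ Pk C w' t' →
    (∀ B, Cov C B → ∑ v ∈ B, w v = t → ∑ v ∈ B, w' v = t') →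
    (∀ B, Cov C B → ∑ v ∈ B, w' v = t' → ∑ v ∈ B, w v = t) ∧ ∑ v, w v ≤ ∑ v, w' v

/-- Minimum cover for the weight `w`. -/
def Tig (C : Finset (Finset V)) (w : V → ℤ) (t : ℤ) (B : Finset V) : Prop :=
  Cov C B ∧ ∑ v ∈ B, w v = t

/-- Core member: it meets every minimum cover exactly once. -/
def Cor (C : Finset (Finset V)) (w : V → ℤ) (t : ℤ) (S : Finset V) : Prop :=
  S ∈ C ∧ ∀ B, Tig C w t B → (S ∩ B).card = 1

/-- `U` (of weight `t + 1`) contains exactly `j` members of `A` and `T` is the only member of `A`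
which meets `U` in two elements. -/
def Fct (A C : Finset (Finset V)) (w : V → ℤ) (t : ℤ) (j : ℕ) (U T : Finset V) : Prop :=
  Cov C U ∧ ∑ v ∈ U, w v = t + 1 ∧ (A.filter fun S => S ⊆ U).card = j ∧
    A.filter (fun S => (S ∩ U).card = 2) = {T}

/-- `z` is a sum of core members. -/
def InM (C : Finset (Finset V)) (w : V → ℤ) (t : ℤ) (z : V → ℤ) : Prop :=
  ∃ y : Finset V → ℕ, (∀ S, y S ≠ 0 → Cor C w t S) ∧ ∀ v, z v = cmb C (fun S => (y S : ℤ)) v

/-- The properties of the chosen hole. -/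
structure Hol (C : Finset (Finset V)) (w : V → ℤ) (t : ℤ) : Prop where
  one_le : ∀ v, 1 ≤ w v
  cov_le : ∀ U, Cov C U → t ≤ ∑ v ∈ U, w v
  mem_tig : ∀ v, ∃ B, Tig C w t B ∧ v ∈ B
  tot : ∑ v, w v = 3 * t
  card3 : ∀ S, Cor C w t S → S.card = 3
  bdry : ∀ z : V → ℤ, (∀ v, 0 ≤ z v) → (∀ U, Cov C U → 0 ≤ nd U z) →
    (∀ B, Tig C w t B → nd B z = 0) →
    ((∃ x, z x = 0) ∨ ∃ U, Cov C U ∧ ¬ Tig C w t U ∧ nd U z = 0) → InM C w t z
  notM : ¬ InM C w t w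
  up : ∀ A, Cor C w t A → ∃ U, Cov C U ∧ ∑ v ∈ U, w v = t + 1 ∧ A ⊆ U

/-- Padded members: vectors of degree three above a member. -/
def Pad (C : Finset (Finset V)) (g : V → ℤ) : Prop :=
  (∀ v, 0 ≤ g v) ∧ ∑ v, g v = 3 ∧ ∃ S ∈ C, ∀ v ∈ S, 1 ≤ g v

/-- Vectors of degree three above a member of size at most two. -/
def PadS (C : Finset (Finset V)) (g : V → ℤ) : Prop :=
  (∀ v, 0 ≤ g v) ∧ ∑ v, g v = 3 ∧ ∃ S ∈ C, S.card ≤ 2 ∧ ∀ v ∈ S, 1 ≤ g v

/-- The members of size three which meet every `B ∈ Ms` exactly once. -/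
def Em (C Ms : Finset (Finset V)) : Finset (Finset V) :=
  C.filter (fun S => S.card = 3 ∧ ∀ B ∈ Ms, (S ∩ B).card = 1)

/-- The chosen face. -/
structure Fac (C : Finset (Finset V)) (w : V → ℤ) (t : ℤ) (Ms : Finset (Finset V)) : Prop where
  tig : ∀ B ∈ Ms, Tig C w t B
  clo : ∀ B, Cov C B → (∀ T ∈ Em C Ms, (T ∩ B).card = 1) → B ∈ Ms
  np : ∀ g, Pad C g → (∀ B ∈ Ms, nd B g = 0) → ∃ T ∈ Em C Ms, g = ind T
  notL : ¬ InL (Em C Ms) w
  maxi : ∀ Ms' ⊆ Ms, (∃ g, Pad C g ∧ (∀ B ∈ Ms', nd B g = 0) ∧ ∃ B ∈ Ms, nd B g ≠ 0) →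
    w ∈ AddSubgroup.closure {g | Pad C g ∧ ∀ B ∈ Ms', nd B g = 0} ∨
    ∃ g, PadS C g ∧ ∀ B ∈ Ms', nd B g = 0

/-- The combinatorial data derived from the face: `V2` and the pairs of covers `G v`, `G' v`. -/
structure Dta (C : Finset (Finset V)) (w : V → ℤ) (Ms : Finset (Finset V)) (V2 : Finset V)
    (G G' : V → Finset V) : Prop where
  cov : ∀ v, ∃ T ∈ Em C Ms, v ∈ T
  gcov : ∀ v ∈ V2, Cov C (G v) ∧ Cov C (G' v)
  gmem : ∀ v ∈ V2, v ∈ G v ∧ v ∈ G' v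
  g0 : ∀ v ∈ V2, ∀ T ∈ Em C Ms, v ∉ T → (T ∩ G v).card = 1 ∧ (T ∩ G' v).card = 1
  g1 : ∀ v ∈ V2, ∀ T ∈ Em C Ms, v ∈ T →
    (T ⊆ G v ∧ (T ∩ G' v).card = 1) ∨ ((T ∩ G v).card = 1 ∧ T ⊆ G' v)
  g2 : ∀ v ∈ V2, (∃ T ∈ Em C Ms, v ∈ T ∧ T ⊆ G v) ∧ ∃ T ∈ Em C Ms, v ∈ T ∧ T ⊆ G' v
  glin : ∀ v ∈ V2, ∀ z : V → ℤ, (∀ B ∈ Ms, nd B z = 0) → nd (G v) z + nd (G' v) z = 6 * z v
  gpar : ∀ v ∈ V2, ∀ z : V → ℤ, (∀ B ∈ Ms, nd B z = 0) →
    (InL (Em C Ms) z ↔ Even (nd (G v) z))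
  odd : ∀ a, (∀ u, (∀ B ∈ Ms, u ∈ B → a ∈ B) → ∀ B ∈ Ms, a ∈ B → u ∈ B) →
    ∃ b, b ≠ a ∧ (∀ B ∈ Ms, b ∈ B ↔ a ∈ B) ∧ ¬ InL (Em C Ms) (un a - un b)
  cnt : 3 * Fintype.card V ≤ 3 * rk (Em C Ms) + V2.card

/-- `σ_v(u)`. -/
def sg (G G' : V → Finset V) (v u : V) : ℤ :=
  1 - (if u ∈ G v then 1 else 0) - (if u ∈ G' v then 1 else 0) + 2 * (if u = v then 1 else 0)

/-- `r(u) = ∑_{v ∈ V2} σ_v(u)`. -/
def rr (V2 : Finset V) (G G' : V → Finset V) (u : V) : ℤ := ∑ v ∈ V2, sg G G' v u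

/-- A padded member outside of the face whose support in `Ms` is minimal. -/
def Mng (C Ms : Finset (Finset V)) (g : V → ℤ) : Prop :=
  Pad C g ∧ (∃ B ∈ Ms, nd B g ≠ 0) ∧ ∀ g', Pad C g' → (∃ B ∈ Ms, nd B g' ≠ 0) →
    (∀ B ∈ Ms, nd B g = 0 → nd B g' = 0) → ∀ B ∈ Ms, nd B g' = 0 → nd B g = 0

/-- `g'` is in the same extreme ray as `g`. -/
def NNg (C Ms : Finset (Finset V)) (g g' : V → ℤ) : Prop :=
  Pad C g' ∧ (∃ B ∈ Ms, nd B g' ≠ 0) ∧ ∀ B ∈ Ms, nd B g = 0 → nd B g' = 0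

end

end Pool.Agent.TQS
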