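import Pool.Agent.TQS.Targets

/-!
# Project TQS: a minimally non-ideal clutter with members of size at most three does not pack

`Frac C` for a family all of whose deletions and contractions of one element satisfy `Frac` and
which packs. No use is made of the theory of minimally non-ideal clutters.
-/

set_option autoImplicit false
set_option linter.unusedSectionVars false

namespace Pool.Agent.TQS

open Finset

namespace MNI_

section
variable {V : Type} [Fintype V] [DecidableEq V]

/-- The rational polyhedron of the fractional covers. -/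
def InQ (C : Finset (Finset V)) (x : V → ℚ) : Prop :=
  (∀ v, 0 ≤ x v) ∧ ∀ S ∈ C, 1 ≤ ∑ v ∈ S, x v

theorem sum_indq_mul (S : Finset V) (x : V → ℚ) : ∑ v, indq S v * x v = ∑ v ∈ S, x v := by
  unfold indq
  simp_rw [ite_mul, one_mul, zero_mul]
  rw [← Finset.sum_filter]
  congr 1
  ext v
  simp

theorem sum_cmb_mul (C : Finset (Finset V)) (y : Finset V → ℚ) (x : V → ℚ) :
    ∑ v, cmb C y v * x v = ∑ S ∈ C, y S * ∑ v ∈ S, x v := by
  simp_rw [cmb_apply', Finset.sum_mul]
  rw [Finset.sum_comm]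
  refine Finset.sum_congr rfl fun S _ => ?_
  rw [← sum_indq_mul S x, Finset.mul_sum]
  refine Finset.sum_congr rfl fun v _ => ?_
  unfold indq
  split_ifs <;> ring

/-- Weak duality. -/
theorem weak {C : Finset (Finset V)} (hC : Frac C) {x : V → ℚ} (hx : InQ C x) (w : V → ℚ) (s : ℚ)
    (hw : ∀ v, 0 ≤ w v) (hU : ∀ U, Cov C U → s ≤ ∑ v ∈ U, w v) : s ≤ ∑ v, w v * x v := by
  have h0 : 0 ≤ ∑ v, w v * x v := Finset.sum_nonneg fun v _ => mul_nonneg (hw v) (hx.1 v)
  rcases le_or_gt s 0 with hs | hs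
  · exact hs.trans h0
  obtain ⟨y, hy0, hys, hyw⟩ := hC w s hw hs.le hU
  calc s = ∑ S ∈ C, y S * 1 := by rw [← hys]; simp
    _ ≤ ∑ S ∈ C, y S * ∑ v ∈ S, x v :=
        Finset.sum_le_sum fun S hS => mul_le_mul_of_nonneg_left (hx.2 S hS) (hy0 S)
    _ = ∑ v, cmb C y v * x v := (sum_cmb_mul C y x).symm
    _ ≤ ∑ v, w v * x v := Finset.sum_le_sum fun v _ => mul_le_mul_of_nonneg_right (hyw v) (hx.1 v)

/-- The ratio test. -/
theorem ratio {ι : Type} (I : Finset ι) (g d : ι → ℚ) (hg : ∀ i ∈ I, 0 ≤ g i)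
    (hd : ∀ i ∈ I, g i = 0 → d i = 0) (hneg : ∃ i ∈ I, d i < 0) :
    ∃ ε : ℚ, 0 ≤ ε ∧ (∀ i ∈ I, 0 ≤ g i + ε * d i) ∧ ∃ i ∈ I, g i ≠ 0 ∧ g i + ε * d i = 0 := by
  classical
  obtain ⟨i0, hi0, hdi0⟩ := hneg
  obtain ⟨j, hj, hmin⟩ := Finset.exists_min_image (I.filter fun i => d i < 0)
    (fun i => g i / (- d i)) ⟨i0, Finset.mem_filter.mpr ⟨hi0, hdi0⟩⟩
  rw [Finset.mem_filter] at hj
  obtain ⟨hjI, hdj⟩ := hj
  have hpos : 0 < - d j := by linarith
  refine ⟨g j / (- d j), div_nonneg (hg j hjI) hpos.le, fun i hi => ?_, j, hjI, ?_, ?_⟩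
  · rcases lt_or_ge (d i) 0 with h | h
    · have h1 := hmin i (Finset.mem_filter.mpr ⟨hi, h⟩)
      have h2 : 0 < - d i := by linarith
      rw [div_le_div_iff₀ hpos h2] at h1
      have hne : d j ≠ 0 := ne_of_lt hdj
      have h4 : g i + g j / (- d j) * d i = (g i * (- d j) - g j * (- d i)) / (- d j) := by
        field_simp
        ring
      rw [h4]
      exact div_nonneg (by linarith) hpos.le
    · have h2 : 0 ≤ g j / (- d j) := div_nonneg (hg j hjI) hpos.le
      have h3 := mul_nonneg h2 h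
      linarith [hg i hi]
  · intro h
    have := hd j hjI h
    linarith
  · have h5 : d j ≠ 0 := by
      intro h
      rw [h] at hdj
      exact lt_irrefl _ hdj
    field_simp
    ring

/-- The constraints, as a function of the index. -/
def sl (x : V → ℚ) : V ⊕ Finset V → ℚ := Sum.elim x (fun S => ∑ v ∈ S, x v - 1)

/-- The rates of change. -/
def rt (d : V → ℚ) : V ⊕ Finset V → ℚ := Sum.elim d (fun S => ∑ v ∈ S, d v)

theorem sl_add (x d : V → ℚ) (ε : ℚ) (i : V ⊕ Finset V) :
    sl (fun v => x v + ε * d v) i = sl x i + ε * rt d i := by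
  rcases i with v | S
  · rfl
  · simp only [sl, rt, Sum.elim_inr, Finset.sum_add_distrib, ← Finset.mul_sum]
    ring

/-- A step towards a vertex. -/
theorem step {C : Finset (Finset V)} {w : V → ℚ} (hw : ∀ v, 0 ≤ w v) {s : ℚ} {x : V → ℚ}
    (hx : InQ C x) (hs : ∑ v, w v * x v < s) {d : V → ℚ}
    (h1 : ∀ S ∈ C, ∑ v ∈ S, x v = 1 → ∑ v ∈ S, d v = 0) (h2 : ∀ v, x v = 0 → d v = 0)
    (hd : d ≠ 0) :
    ∃ x' : V → ℚ, InQ C x' ∧ ∑ v, w v * x' v < s ∧
      (((univ : Finset V).disjSum C).filter fun i => sl x i = 0).card <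
        (((univ : Finset V).disjSum C).filter fun i => sl x' i = 0).card := by
  obtain ⟨e, he1, he2, hew, v0, hv0⟩ : ∃ e : V → ℚ,
      (∀ S ∈ C, ∑ v ∈ S, x v = 1 → ∑ v ∈ S, e v = 0) ∧ (∀ v, x v = 0 → e v = 0) ∧
      ∑ v, w v * e v ≤ 0 ∧ ∃ v, e v < 0 := by
    have hneg1 : ∀ S ∈ C, ∑ v ∈ S, x v = 1 → ∑ v ∈ S, (fun u => - d u) v = 0 := by
      intro S hS h
      simp only [Finset.sum_neg_distrib]
      rw [h1 S hS h, neg_zero]
    have hneg2 : ∀ v, x v = 0 → (fun u => - d u) v = 0 := by
      intro v h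
      simp only
      rw [h2 v h, neg_zero]
    have hnegw : ∑ v, w v * (fun u => - d u) v = - ∑ v, w v * d v := by
      simp only [mul_neg, Finset.sum_neg_distrib]
    rcases lt_trichotomy (∑ v, w v * d v) 0 with h | h | h
    · refine ⟨d, h1, h2, h.le, ?_⟩
      by_contra hcon
      push Not at hcon
      have : 0 ≤ ∑ v, w v * d v := Finset.sum_nonneg fun v _ => mul_nonneg (hw v) (hcon v)
      linarith
    · by_cases hv : ∃ v, d v < 0
      · exact ⟨d, h1, h2, h.le, hv⟩
      · refine ⟨fun u => - d u, hneg1, hneg2, by rw [hnegw, h, neg_zero], ?_⟩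
        push Not at hv
        by_contra hcon
        push Not at hcon
        apply hd
        funext v
        have h3 := hv v
        have h4 := hcon v
        simp only [Pi.zero_apply]
        linarith
    · refine ⟨fun u => - d u, hneg1, hneg2, by rw [hnegw]; linarith, ?_⟩
      by_contra hcon
      push Not at hcon
      have : ∑ v, w v * d v ≤ 0 := Finset.sum_nonpos fun v _ =>
        mul_nonpos_of_nonneg_of_nonpos (hw v) (by have := hcon v; linarith)
      linarith
  obtain ⟨ε, hε, hall, i, hi, hi0, hi1⟩ := ratio ((univ : Finset V).disjSum C) (sl x) (rt e) (by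
      intro i hi
      rcases i with v | S
      · exact hx.1 v
      · rw [Finset.inr_mem_disjSum] at hi
        have := hx.2 S hi
        simp only [sl, Sum.elim_inr]
        linarith) (by
      intro i hi h
      rcases i with v | S
      · exact he2 v h
      · rw [Finset.inr_mem_disjSum] at hi
        simp only [sl, Sum.elim_inr] at h
        exact he1 S hi (by linarith))
      ⟨Sum.inl v0, by simp, hv0⟩
  refine ⟨fun v => x v + ε * e v, ⟨fun v => ?_, fun S hS => ?_⟩, ?_, ?_⟩
  · have := hall (Sum.inl v) (by simp)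
    exact this
  · have := hall (Sum.inr S) (by simpa using hS)
    rw [← sl_add] at this
    simp only [sl, Sum.elim_inr] at this
    linarith
  · have h5 : ∑ v, w v * (x v + ε * e v) = ∑ v, w v * x v + ε * ∑ v, w v * e v := by
      rw [Finset.mul_sum, ← Finset.sum_add_distrib]
      refine Finset.sum_congr rfl fun v _ => ?_
      ring
    rw [h5]
    have := mul_nonpos_of_nonneg_of_nonpos hε hew
    linarith
  · apply Finset.card_lt_card
    rw [Finset.ssubset_iff_of_subset]
    · refine ⟨i, ?_, ?_⟩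
      · rw [Finset.mem_filter]
        refine ⟨hi, ?_⟩
        rw [sl_add]
        exact hi1
      · rw [Finset.mem_filter]
        rintro ⟨_, h⟩
        exact hi0 h
    · intro j hj
      rw [Finset.mem_filter] at hj ⊢
      refine ⟨hj.1, ?_⟩
      rw [sl_add, hj.2]
      rcases j with v | S
      · have : rt e (Sum.inl v) = 0 := he2 v hj.2
        rw [this]
        ring
      · have : rt e (Sum.inr S) = 0 := by
          have h6 := hj.2
          simp only [sl, Sum.elim_inr] at h6
          exact he1 S (by simpa using hj.1) (by linarith)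
        rw [this]
        ring

/-- A vertex. -/
theorem vertex {C : Finset (Finset V)} {w : V → ℚ} (hw : ∀ v, 0 ≤ w v) {s : ℚ} :
    ∀ (k : ℕ) (x : V → ℚ), InQ C x → ∑ v, w v * x v < s →
      ((univ : Finset V).disjSum C).card ≤
        (((univ : Finset V).disjSum C).filter fun i => sl x i = 0).card + k →
      ∃ x : V → ℚ, InQ C x ∧ ∑ v, w v * x v < s ∧
        ∀ d : V → ℚ, (∀ S ∈ C, ∑ v ∈ S, x v = 1 → ∑ v ∈ S, d v = 0) →
          (∀ v, x v = 0 → d v = 0) → d = 0 := by
  intro k
  induction k with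
  | zero =>
    intro x hx hs hk
    refine ⟨x, hx, hs, fun d h1 h2 => ?_⟩
    by_contra hd
    obtain ⟨x', _, _, h3⟩ := step hw hx hs h1 h2 hd
    have h4 := Finset.card_le_card (Finset.filter_subset (fun i => sl x' i = 0)
      ((univ : Finset V).disjSum C))
    omega
  | succ k ih =>
    intro x hx hs hk
    by_cases hv : ∀ d : V → ℚ, (∀ S ∈ C, ∑ v ∈ S, x v = 1 → ∑ v ∈ S, d v = 0) →
          (∀ v, x v = 0 → d v = 0) → d = 0
    · exact ⟨x, hx, hs, hv⟩
    · push Not at hv
      obtain ⟨d, h1, h2, hd⟩ := hv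
      obtain ⟨x', hx', hs', h3⟩ := step hw hx hs h1 h2 hd
      exact ih x' hx' hs' (by omega)

end

end MNI_

end Pool.Agent.TQS
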