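import Pool.Agent.TQS.MNI

/-!
# Project TQS: a minimally non-ideal clutter with members of size at most three does not pack (2)
-/

set_option autoImplicit false
set_option linter.unusedSectionVars false

namespace Pool.Agent.TQS

open Finset

namespace MNI_

section
variable {V : Type} [Fintype V] [DecidableEq V]

theorem insert_cov {C : Finset (Finset V)} {v : V} {U : Finset V} (h : Cov (av C v) U) :
    Cov C (insert v U) := by
  intro S hS
  by_cases hx : v ∈ S
  · exact ⟨v, Finset.mem_inter.mpr ⟨hx, Finset.mem_insert_self v U⟩⟩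
  · obtain ⟨u, hu⟩ := h S (mem_av.mpr ⟨hS, hx⟩)
    rw [Finset.mem_inter] at hu
    exact ⟨u, Finset.mem_inter.mpr ⟨hu.1, Finset.mem_insert_of_mem hu.2⟩⟩

/-- No entry of `x` is zero. -/
theorem pos {C : Finset (Finset V)} {w : V → ℚ} (hw : ∀ v, 0 ≤ w v) {s : ℚ}
    (hU : ∀ U, Cov C U → s ≤ ∑ v ∈ U, w v) {x : V → ℚ} (hx : InQ C x)
    (hs : ∑ v, w v * x v < s) (v : V) (hcon : Frac (C.image fun S => S.erase v)) : 0 < x v := by
  rcases (hx.1 v).lt_or_eq with h | h
  · exact h
  exfalso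
  have h1 : InQ (C.image fun S => S.erase v) x := by
    refine ⟨hx.1, fun R hR => ?_⟩
    rw [Finset.mem_image] at hR
    obtain ⟨S, hS, rfl⟩ := hR
    have h2 := hx.2 S hS
    by_cases hv : v ∈ S
    · rw [← Finset.add_sum_erase S x hv, ← h, zero_add] at h2
      exact h2
    · rw [Finset.erase_eq_of_notMem hv]
      exact h2
  have h3 := weak hcon h1 w s hw (by
    intro U hUc
    apply hU
    intro S hS
    obtain ⟨u, hu⟩ := hUc (S.erase v) (Finset.mem_image_of_mem _ hS)
    rw [Finset.mem_inter] at hu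
    exact ⟨u, Finset.mem_inter.mpr ⟨Finset.mem_of_mem_erase hu.1, hu.2⟩⟩)
  linarith

theorem sum_ite_erase (U : Finset V) (v : V) (g : V → ℚ) :
    ∑ u ∈ U, (if u = v then 0 else g u) = ∑ u ∈ U.erase v, g u := by
  rw [← Finset.filter_ne', Finset.sum_filter]
  refine Finset.sum_congr rfl fun u _ => ?_
  by_cases h : u = v
  · simp [h]
  · simp [h]

/-- All entries of `x` are smaller than one. -/
theorem lt_one {C : Finset (Finset V)} {w : V → ℚ} (hw : ∀ v, 0 ≤ w v) {s : ℚ}
    (hU : ∀ U, Cov C U → s ≤ ∑ v ∈ U, w v) {x : V → ℚ} (hx : InQ C x)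
    (hs : ∑ v, w v * x v < s) (v : V) (hdel : Frac (av C v)) : x v < 1 := by
  by_contra hge
  push Not at hge
  have h1 : InQ (av C v) x := ⟨hx.1, fun S hS => hx.2 S (mem_av.mp hS).1⟩
  have h2 := weak hdel h1 (fun u => if u = v then 0 else w u) (s - w v) (by
    intro u
    split_ifs
    · exact le_refl 0
    · exact hw u) (by
    intro U hUc
    have h3 := hU _ (insert_cov hUc)
    have h4 : ∑ u ∈ insert v U, w u = w v + ∑ u ∈ U, if u = v then 0 else w u := by
      rw [← Finset.add_sum_erase (insert v U) w (Finset.mem_insert_self v U)]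
      rw [Finset.erase_insert_eq_erase, sum_ite_erase]
    linarith)
  have h5 : ∑ u, w u * x u = w v * x v + ∑ u, (if u = v then 0 else w u) * x u := by
    rw [← Finset.add_sum_erase univ (fun u => w u * x u) (Finset.mem_univ v)]
    simp_rw [ite_mul, zero_mul]
    rw [sum_ite_erase]
  have h6 : w v ≤ w v * x v := le_mul_of_one_le_right (hw v) hge
  linarith

/-- An exact cover of the tight members avoiding `v`, through a given element. -/
theorem exact {C : Finset (Finset V)} {x : V → ℚ} (hx : InQ C x) (h0 : ∀ u, 0 < x u) {v : V}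
    (hdel : Frac (av C v)) {S : Finset V} (hS : S ∈ C) (hvS : v ∉ S) (hxS : ∑ u ∈ S, x u = 1)
    {u : V} (hu : u ∈ S) :
    ∃ U, Cov (av C v) U ∧ (∀ R ∈ C, v ∉ R → ∑ u ∈ R, x u = 1 → (R ∩ U).card = 1) ∧ u ∈ U := by
  by_contra hno
  push Not at hno
  obtain ⟨X, hX⟩ : ∃ X, X = (av C v).filter fun R => ∑ u ∈ R, x u = 1 := ⟨_, rfl⟩
  have hmem : ∀ R, R ∈ X ↔ (R ∈ C ∧ v ∉ R) ∧ ∑ u ∈ R, x u = 1 := by
    intro R
    rw [hX, Finset.mem_filter, mem_av]
  have hSX : S ∈ X := (hmem S).mpr ⟨⟨hS, hvS⟩, hxS⟩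
  have h1 : InQ (av C v) x := ⟨hx.1, fun R hR => hx.2 R (mem_av.mp hR).1⟩
  have hun : ∀ U : Finset V, ∑ z ∈ U, (if z = u then (1 : ℚ) else 0) = if u ∈ U then 1 else 0 :=
    fun U => Finset.sum_ite_eq' U u (fun _ => (1 : ℚ))
  have h2 := weak hdel h1 (fun z => cmb X (fun _ => (1 : ℚ)) z - if z = u then 1 else 0)
    (X.card : ℚ) (by
    intro z
    by_cases hz : z = u
    · rw [if_pos hz, cmb_apply]
      have h3 : (1 : ℚ) ≤ ∑ R ∈ X with z ∈ R, (1 : ℚ) := by
        rw [Finset.sum_const, nsmul_eq_mul, mul_one]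
        have : 1 ≤ (X.filter fun R => z ∈ R).card :=
          Finset.card_pos.mpr ⟨S, Finset.mem_filter.mpr ⟨hSX, by rw [hz]; exact hu⟩⟩
        exact_mod_cast this
      linarith
    · rw [if_neg hz, sub_zero, cmb_apply]
      exact Finset.sum_nonneg fun _ _ => zero_le_one) (by
    intro U hUc
    rw [Finset.sum_sub_distrib, hun, sum_cmb]
    have hge : ∀ R ∈ X, 0 ≤ (1 : ℚ) * ((R ∩ U).card : ℚ) - 1 := by
      intro R hR
      have h3 : 1 ≤ (R ∩ U).card :=
        Finset.card_pos.mpr (hUc R (mem_av.mpr ((hmem R).mp hR).1))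
      have h4 : (1 : ℚ) ≤ ((R ∩ U).card : ℚ) := by exact_mod_cast h3
      linarith
    have h5 : ∑ R ∈ X, ((1 : ℚ) * ((R ∩ U).card : ℚ) - 1) =
        ∑ R ∈ X, (1 : ℚ) * ((R ∩ U).card : ℚ) - X.card := by
      rw [Finset.sum_sub_distrib, Finset.sum_const, nsmul_eq_mul, mul_one]
    by_cases huU : u ∈ U
    · rw [if_pos huU]
      have h6 : ∃ R ∈ X, (R ∩ U).card ≠ 1 := by
        by_contra hcon
        push Not at hcon
        exact hno U hUc (fun R hR hvR hxR => hcon R ((hmem R).mpr ⟨⟨hR, hvR⟩, hxR⟩)) huU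
      obtain ⟨R, hR, hR1⟩ := h6
      have h7 : 1 ≤ (R ∩ U).card :=
        Finset.card_pos.mpr (hUc R (mem_av.mpr ((hmem R).mp hR).1))
      have h8 : (2 : ℚ) ≤ ((R ∩ U).card : ℚ) := by
        have : 2 ≤ (R ∩ U).card := by omega
        exact_mod_cast this
      have h9 := Finset.single_le_sum hge hR
      linarith
    · rw [if_neg huU]
      have h9 := Finset.sum_nonneg hge
      linarith)
  have h10 : ∑ z, (cmb X (fun _ => (1 : ℚ)) z - if z = u then 1 else 0) * x z =
      (X.card : ℚ) - x u := by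
    simp_rw [sub_mul, ite_mul, one_mul, zero_mul]
    rw [Finset.sum_sub_distrib, sum_cmb_mul, Finset.sum_ite_eq', if_pos (Finset.mem_univ u)]
    congr 1
    rw [Finset.sum_congr rfl (g := fun _ => (1 : ℚ))
      (fun R hR => by rw [((hmem R).mp hR).2, mul_one])]
    rw [Finset.sum_const, nsmul_eq_mul, mul_one]
  rw [h10] at h2
  have := h0 u
  linarith

/-! ### Ranks -/

/-- The functional of a vector. -/
def dt (z : V → ℚ) : (V → ℚ) →ₗ[ℚ] ℚ where
  toFun y := ∑ v, y v * z v
  map_add' y y' := by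
    simp only [Pi.add_apply, add_mul, Finset.sum_add_distrib]
  map_smul' c y := by
    simp only [Pi.smul_apply, smul_eq_mul, RingHom.id_apply, Finset.mul_sum, mul_assoc]

theorem dt_indq (z : V → ℚ) (S : Finset V) : dt z (indq S) = ∑ v ∈ S, z v := sum_indq_mul S z

theorem dt_single (z : V → ℚ) (v : V) : dt z (Pi.single v 1) = z v := by
  show ∑ u, (Pi.single v (1 : ℚ) : V → ℚ) u * z u = z v
  rw [Finset.sum_eq_single v]
  · rw [Pi.single_eq_same, one_mul]
  · intro u _ hu
    rw [Pi.single_eq_of_ne hu, zero_mul]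
  · intro h
    exact absurd (Finset.mem_univ v) h

theorem dt_lin {k : ℕ} (z : Fin k → V → ℚ)
    (h : ∀ a : Fin k → ℚ, (∀ v, ∑ i, a i * z i v = 0) → ∀ i, a i = 0) :
    LinearIndependent ℚ (fun i => dt (z i)) := by
  rw [Fintype.linearIndependent_iff]
  intro a ha
  apply h
  intro v
  have h1 := LinearMap.congr_fun ha (Pi.single v 1)
  simp only [LinearMap.coe_sum, Finset.sum_apply, LinearMap.smul_apply, smul_eq_mul,
    LinearMap.zero_apply, dt_single] at h1
  exact h1

theorem rk2 (hR : T_RKG) {X : Finset (Finset V)} {z1 z2 : V → ℚ}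
    (h1 : ∀ S ∈ X, ∑ v ∈ S, z1 v = 0) (h2 : ∀ S ∈ X, ∑ v ∈ S, z2 v = 0)
    (h : ∀ a b : ℚ, (∀ v, a * z1 v + b * z2 v = 0) → a = 0 ∧ b = 0) :
    rk X + 2 ≤ Fintype.card V := by
  refine hR V X 2 (fun i => dt ((![z1, z2] : Fin 2 → V → ℚ) i)) (dt_lin _ ?_) ?_
  · intro a ha
    have h3 := h (a 0) (a 1) (by
      intro v
      have := ha v
      rw [Fin.sum_univ_two] at this
      simpa using this)
    intro i
    fin_cases i
    · exact h3.1
    · exact h3.2
  · intro i S hS
    rw [dt_indq]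
    fin_cases i
    · exact h1 S hS
    · exact h2 S hS

theorem rk3 (hR : T_RKG) {X : Finset (Finset V)} {z1 z2 z3 : V → ℚ}
    (h1 : ∀ S ∈ X, ∑ v ∈ S, z1 v = 0) (h2 : ∀ S ∈ X, ∑ v ∈ S, z2 v = 0)
    (h3 : ∀ S ∈ X, ∑ v ∈ S, z3 v = 0)
    (h : ∀ a b c : ℚ, (∀ v, a * z1 v + b * z2 v + c * z3 v = 0) → a = 0 ∧ b = 0 ∧ c = 0) :
    rk X + 3 ≤ Fintype.card V := by
  refine hR V X 3 (fun i => dt ((![z1, z2, z3] : Fin 3 → V → ℚ) i)) (dt_lin _ ?_) ?_
  · intro a ha
    have h4 := h (a 0) (a 1) (a 2) (by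
      intro v
      have := ha v
      rw [Fin.sum_univ_three] at this
      simpa using this)
    intro i
    fin_cases i
    · exact h4.1
    · exact h4.2.1
    · exact h4.2.2
  · intro i S hS
    rw [dt_indq]
    fin_cases i
    · exact h1 S hS
    · exact h2 S hS
    · exact h3 S hS

/-- The span of a family without common kernel. -/
theorem span_top {X : Finset (Finset V)} (h : ∀ z : V → ℚ, (∀ S ∈ X, ∑ v ∈ S, z v = 0) → z = 0) :
    Submodule.span ℚ (indq '' (X : Set (Finset V))) = ⊤ := by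
  by_contra hne
  obtain ⟨φ, hφ, hker⟩ := Submodule.exists_le_ker_of_lt_top _ (lt_top_iff_ne_top.mpr hne)
  apply hφ
  have h1 : (fun v => φ (Pi.single v 1)) = 0 := by
    apply h
    intro S hS
    have h2 : φ (indq S) = 0 := by
      have : indq S ∈ LinearMap.ker φ := hker (Submodule.subset_span ⟨S, hS, rfl⟩)
      exact this
    rw [← h2]
    have h3 : indq S = ∑ v ∈ S, (Pi.single v (1 : ℚ) : V → ℚ) := by
      funext u
      rw [Finset.sum_apply]
      unfold indq
      simp only [Pi.single_apply]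
      rw [Finset.sum_ite_eq]
    rw [h3, map_sum]
  apply LinearMap.pi_ext'
  intro v
  ext
  have := congrFun h1 v
  simpa using this

/-- Bases. -/
theorem basis {X : Finset (Finset V)}
    (h : ∀ z : V → ℚ, (∀ S ∈ X, ∑ v ∈ S, z v = 0) → z = 0) :
    ∃ Y ⊆ X, Y.card = Fintype.card V ∧
      (∀ z : V → ℚ, (∀ S ∈ Y, ∑ v ∈ S, z v = 0) → z = 0) ∧
      ∀ v, (Y.filter fun S => v ∉ S).card ≤ rk (av X v) := by
  obtain ⟨κ, a, ha, hspan, hind⟩ :=
    exists_linearIndependent' ℚ (fun S : {S // S ∈ X} => indq S.1)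
  have : Finite κ := Finite.of_injective a ha
  have : Fintype κ := Fintype.ofFinite κ
  have hrange : Set.range (fun S : {S // S ∈ X} => indq S.1) =
      indq '' (X : Set (Finset V)) := by
    ext z
    constructor
    · rintro ⟨S, rfl⟩
      exact ⟨S.1, S.2, rfl⟩
    · rintro ⟨S, hS, rfl⟩
      exact ⟨⟨S, hS⟩, rfl⟩
  rw [hrange, span_top h] at hspan
  have hinj : Function.Injective fun k : κ => (a k).1 := fun k k' hk => ha (Subtype.ext hk)
  refine ⟨univ.image fun k : κ => (a k).1, ?_, ?_, ?_, ?_⟩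
  · intro S hS
    rw [Finset.mem_image] at hS
    obtain ⟨k, _, rfl⟩ := hS
    exact (a k).2
  · rw [Finset.card_image_of_injective _ hinj, Finset.card_univ]
    have h1 := finrank_span_eq_card hind
    rw [hspan, finrank_top, Module.finrank_fintype_fun_eq_card] at h1
    exact h1.symm
  · intro z hz
    have h1 : ∀ y : V → ℚ, dt z y = 0 := by
      intro y
      have h2 : y ∈ Submodule.span ℚ (Set.range ((fun S : {S // S ∈ X} => indq S.1) ∘ a)) := by
        rw [hspan]
        exact Submodule.mem_top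
      have h3 : Submodule.span ℚ (Set.range ((fun S : {S // S ∈ X} => indq S.1) ∘ a)) ≤
          LinearMap.ker (dt z) := by
        rw [Submodule.span_le]
        rintro _ ⟨k, rfl⟩
        show dt z (indq (a k).1) = 0
        rw [dt_indq]
        exact hz _ (Finset.mem_image_of_mem _ (Finset.mem_univ k))
      exact h3 h2
    funext v
    have := h1 (Pi.single v 1)
    rw [dt_single] at this
    exact this
  · intro v
    have h1 : LinearIndependent ℚ
        (fun k : {k : κ // v ∉ (a k).1} =>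
          ((fun S : {S // S ∈ X} => indq S.1) ∘ a) k.1) :=
      hind.comp _ Subtype.val_injective
    have h2 := finrank_span_eq_card h1
    rw [Fintype.card_subtype] at h2
    rw [Finset.filter_image, Finset.card_image_of_injective _ hinj, ← h2]
    unfold rk
    apply Submodule.finrank_mono
    apply Submodule.span_mono
    rintro z ⟨k, rfl⟩
    refine ⟨(a k.1).1, ?_, rfl⟩
    have := mem_av.mpr ⟨(a k.1).2, k.2⟩
    exact_mod_cast this

/-- Double counting. -/
theorem sum_deg (Y : Finset (Finset V)) (T : Finset V) :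
    ∑ v ∈ T, (Y.filter fun S => v ∈ S).card = ∑ S ∈ Y, (S ∩ T).card := by
  simp_rw [Finset.card_filter]
  rw [Finset.sum_comm]
  refine Finset.sum_congr rfl fun S _ => ?_
  rw [← Finset.card_filter]
  congr 1
  ext v
  simp [and_comm]

end

end MNI_

end Pool.Agent.TQS
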