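import Pool.Agent.TQS.MNI2

/-!
# Project TQS: a minimally non-ideal clutter with members of size at most three does not pack (3)
-/

set_option autoImplicit false
set_option linter.unusedSectionVars false

namespace Pool.Agent.TQS

open Finset

namespace MNI_

section
variable {V : Type} [Fintype V] [DecidableEq V]

/-- The tight members. -/
def Tt (C : Finset (Finset V)) (x : V → ℚ) : Finset (Finset V) :=
  C.filter fun S => ∑ v ∈ S, x v = 1

theorem mem_Tt {C : Finset (Finset V)} {x : V → ℚ} {S : Finset V} :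
    S ∈ Tt C x ↔ S ∈ C ∧ ∑ v ∈ S, x v = 1 := by
  unfold Tt
  rw [Finset.mem_filter]

/-- The family packs. -/
def Packs (C : Finset (Finset V)) : Prop :=
  ∃ T : Finset V, (∀ S ∈ C, (S ∩ T).Nonempty) ∧
    ∃ P ⊆ C, (∀ A ∈ P, ∀ B ∈ P, A ≠ B → Disjoint A B) ∧ T.card ≤ P.card

/-- The fractional vertex and the deletions. -/
structure Dat (C : Finset (Finset V)) (x : V → ℚ) : Prop where
  card_le : ∀ S ∈ C, S.card ≤ 3
  inQ : InQ C x
  pos : ∀ v, 0 < x v
  lt1 : ∀ v, x v < 1
  del : ∀ v, Frac (av C v)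
  span : ∀ z : V → ℚ, (∀ S ∈ Tt C x, ∑ v ∈ S, z v = 0) → z = 0
  ne : Nonempty V

theorem Dat.card2 {C : Finset (Finset V)} {x : V → ℚ} (D : Dat C x) {S : Finset V}
    (hS : S ∈ Tt C x) : 2 ≤ S.card := by
  have h1 := (mem_Tt.mp hS).2
  by_contra hlt
  have h2 : S.card = 0 ∨ S.card = 1 := by omega
  rcases h2 with h | h
  · rw [Finset.card_eq_zero] at h
    rw [h, Finset.sum_empty] at h1
    exact zero_ne_one h1
  · rw [Finset.card_eq_one] at h
    obtain ⟨u, rfl⟩ := h
    rw [Finset.sum_singleton] at h1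
    have := D.lt1 u
    linarith

theorem Dat.card3 {C : Finset (Finset V)} {x : V → ℚ} (D : Dat C x) {S : Finset V}
    (hS : S ∈ Tt C x) (h3 : S.card ≠ 3) : S.card = 2 := by
  have h1 := D.card2 hS
  have h2 := D.card_le S (mem_Tt.mp hS).1
  omega

/-- Exact covers. -/
theorem Dat.exact {C : Finset (Finset V)} {x : V → ℚ} (D : Dat C x) {v : V} {S : Finset V}
    (hS : S ∈ av (Tt C x) v) {u : V} (hu : u ∈ S) :
    ∃ U : Finset V, (∀ R ∈ av (Tt C x) v, (R ∩ U).card = 1) ∧ u ∈ U := by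
  obtain ⟨hST, hvS⟩ := mem_av.mp hS
  obtain ⟨hSC, hx⟩ := mem_Tt.mp hST
  obtain ⟨U, _, hU, huU⟩ := MNI_.exact D.inQ D.pos (D.del v) hSC hvS hx hu
  refine ⟨U, fun R hR => ?_, huU⟩
  obtain ⟨hRT, hvR⟩ := mem_av.mp hR
  obtain ⟨hRC, hxR⟩ := mem_Tt.mp hRT
  exact hU R hRC hvR hxR

theorem sum_single_of_notMem {v : V} {S : Finset V} (h : v ∉ S) :
    ∑ u ∈ S, (Pi.single v (1 : ℚ) : V → ℚ) u = 0 := by
  apply Finset.sum_eq_zero
  intro u hu
  rw [Pi.single_eq_of_ne]
  intro huv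
  exact h (huv ▸ hu)

theorem sum_single_of_mem {v : V} {S : Finset V} (h : v ∈ S) :
    ∑ u ∈ S, (Pi.single v (1 : ℚ) : V → ℚ) u = 1 := by
  rw [Finset.sum_eq_single_of_mem v h]
  · exact Pi.single_eq_same _ _
  · intro u _ hu
    exact Pi.single_eq_of_ne hu _

theorem sum_indq' (S U : Finset V) : ∑ v ∈ S, indq U v = ((S ∩ U).card : ℚ) := by
  rw [sum_indq, Finset.inter_comm]

theorem indq_mem {U : Finset V} {u : V} (h : u ∈ U) : indq U u = 1 := if_pos h

theorem indq_notMem {U : Finset V} {u : V} (h : u ∉ U) : indq U u = 0 := if_neg h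

/-- `m v ≥ 2`. -/
theorem Dat.m2 (hR : T_RKG) {C : Finset (Finset V)} {x : V → ℚ} (D : Dat C x) (v : V) :
    rk (av (Tt C x) v) + 2 ≤ Fintype.card V := by
  by_cases hne : (av (Tt C x) v).Nonempty
  · obtain ⟨S, hS⟩ := hne
    obtain ⟨hST, hvS⟩ := mem_av.mp hS
    have hSne : S.Nonempty := by
      rw [← Finset.card_pos]
      have := D.card2 hST
      omega
    obtain ⟨u, hu⟩ := hSne
    obtain ⟨U, hU, huU⟩ := D.exact hS hu
    have huv : u ≠ v := fun h => hvS (h ▸ hu)
    refine rk2 hR (z1 := Pi.single v 1) (z2 := fun z => x z - indq U z) ?_ ?_ ?_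
    · intro R hR'
      exact sum_single_of_notMem (mem_av.mp hR').2
    · intro R hR'
      rw [Finset.sum_sub_distrib, sum_indq', hU R hR', (mem_Tt.mp (mem_av.mp hR').1).2]
      norm_num
    · intro a b hab
      have h1 := hab u
      have h2 := hab v
      rw [Pi.single_eq_of_ne huv, mul_zero, zero_add, indq_mem huU] at h1
      have h3 : x u - 1 ≠ 0 := by
        have := D.lt1 u
        intro h
        linarith
      have hb : b = 0 := (mul_eq_zero.mp h1).resolve_right h3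
      rw [hb, zero_mul, add_zero, Pi.single_eq_same, mul_one] at h2
      exact ⟨h2, hb⟩
  · rw [Finset.not_nonempty_iff_eq_empty] at hne
    have h0 : rk (av (Tt C x) v) = 0 := by
      rw [hne]
      unfold rk
      simp
    have h1 : ∃ S, S ∈ Tt C x := by
      by_contra hcon
      push Not at hcon
      have h2 := D.span (fun _ => 1) (fun S hS => absurd hS (hcon S))
      obtain ⟨u⟩ := D.ne
      have := congrFun h2 u
      simp at this
    obtain ⟨S, hS⟩ := h1
    have h3 := D.card2 hS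
    have h4 := Finset.card_le_univ S
    omega

/-- `m v ≥ 3` if there is a triple. -/
theorem Dat.m3 (hR : T_RKG) {C : Finset (Finset V)} {x : V → ℚ} (D : Dat C x) {v : V}
    {S : Finset V} (hS : S ∈ av (Tt C x) v) (h3 : S.card = 3) :
    rk (av (Tt C x) v) + 3 ≤ Fintype.card V := by
  obtain ⟨hST, hvS⟩ := mem_av.mp hS
  obtain ⟨p, q, r, hpq, hpr, hqr, hSe⟩ := Finset.card_eq_three.mp h3
  have hp : p ∈ S := by rw [hSe]; simp
  have hq : q ∈ S := by rw [hSe]; simp
  have hr : r ∈ S := by rw [hSe]; simp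
  obtain ⟨U1, hU1, h1⟩ := D.exact hS hp
  obtain ⟨U2, hU2, h2⟩ := D.exact hS hq
  obtain ⟨U3, hU3, h3'⟩ := D.exact hS hr
  have hone : ∀ (U : Finset V), (S ∩ U).card = 1 → ∀ y z, y ∈ S → z ∈ S → y ∈ U → z ≠ y →
      z ∉ U := by
    intro U hU y z hy hz hyU hzy hzU
    rw [Finset.card_eq_one] at hU
    obtain ⟨t, ht⟩ := hU
    have h4 : y ∈ S ∩ U := Finset.mem_inter.mpr ⟨hy, hyU⟩
    have h5 : z ∈ S ∩ U := Finset.mem_inter.mpr ⟨hz, hzU⟩
    rw [ht, Finset.mem_singleton] at h4 h5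
    exact hzy (h5.trans h4.symm)
  have hne : ∀ u, u ∈ S → u ≠ v := fun u hu h => hvS (h ▸ hu)
  refine rk3 hR (z1 := Pi.single v 1) (z2 := fun z => indq U1 z - indq U2 z)
    (z3 := fun z => indq U1 z - indq U3 z) ?_ ?_ ?_ ?_
  · intro R hR'
    exact sum_single_of_notMem (mem_av.mp hR').2
  · intro R hR'
    rw [Finset.sum_sub_distrib, sum_indq', sum_indq', hU1 R hR', hU2 R hR']
    norm_num
  · intro R hR'
    rw [Finset.sum_sub_distrib, sum_indq', sum_indq', hU1 R hR', hU3 R hR']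
    norm_num
  · intro a b c habc
    have e1 := habc q
    have e2 := habc r
    have e3 := habc v
    rw [Pi.single_eq_of_ne (hne q hq),
      indq_notMem (hone U1 (hU1 S hS) p q hp hq h1 (Ne.symm hpq)),
      indq_mem h2, indq_notMem (hone U3 (hU3 S hS) r q hr hq h3' hqr)] at e1
    rw [Pi.single_eq_of_ne (hne r hr),
      indq_notMem (hone U1 (hU1 S hS) p r hp hr h1 (Ne.symm hpr)),
      indq_mem h3', indq_notMem (hone U2 (hU2 S hS) q r hq hr h2 (Ne.symm hqr))] at e2
    have hb : b = 0 := by linarith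
    have hc : c = 0 := by linarith
    rw [hb, hc, zero_mul, zero_mul, add_zero, add_zero, Pi.single_eq_same, mul_one] at e3
    exact ⟨e3, hb, hc⟩

/-- Disjoint members. -/
theorem packing_le {C : Finset (Finset V)} {x : V → ℚ} (hx : InQ C x) {P : Finset (Finset V)}
    (hP : P ⊆ C) (hd : ∀ A ∈ P, ∀ B ∈ P, A ≠ B → Disjoint A B) : (P.card : ℚ) ≤ ∑ v, x v := by
  calc (P.card : ℚ) = ∑ _A ∈ P, (1 : ℚ) := by rw [Finset.sum_const, nsmul_eq_mul, mul_one]
    _ ≤ ∑ A ∈ P, ∑ v ∈ A, x v := Finset.sum_le_sum fun A hA => hx.2 A (hP hA)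
    _ = ∑ v ∈ P.biUnion id, x v := by
        rw [Finset.sum_biUnion]
        · rfl
        · intro A hA B hB hAB
          exact hd A hA B hB hAB
    _ ≤ ∑ v, x v := Finset.sum_le_sum_of_subset_of_nonneg (Finset.subset_univ _)
        fun v _ _ => hx.1 v

/-- The uniform case. -/
theorem Dat.unif {C : Finset (Finset V)} {x : V → ℚ} (D : Dat C x) (hpk : Packs C) (k : ℕ)
    (hk : 2 ≤ k) {Y : Finset (Finset V)} (hY : Y ⊆ Tt C x) (hYc : Y.card = Fintype.card V)
    (hYs : ∀ z : V → ℚ, (∀ S ∈ Y, ∑ v ∈ S, z v = 0) → z = 0) (hYk : ∀ S ∈ Y, S.card ≤ k)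
    (hdeg : ∀ v, k ≤ (Y.filter fun S => v ∈ S).card) : False := by
  have hkq : (2 : ℚ) ≤ k := by exact_mod_cast hk
  have hk0 : (k : ℚ) ≠ 0 := by linarith
  -- all degrees are `k`, all sizes are `k`
  have h1 : ∑ v, (Y.filter fun S => v ∈ S).card = ∑ S ∈ Y, S.card := by
    rw [sum_deg]
    simp
  have h2 : ∑ S ∈ Y, S.card ≤ Fintype.card V * k := by
    rw [← hYc, ← smul_eq_mul, ← Finset.sum_const]
    exact Finset.sum_le_sum hYk
  have h3 : Fintype.card V * k ≤ ∑ v, (Y.filter fun S => v ∈ S).card := by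
    rw [← Finset.card_univ, ← smul_eq_mul, ← Finset.sum_const]
    exact Finset.sum_le_sum fun v _ => hdeg v
  have h4 : ∑ v, (Y.filter fun S => v ∈ S).card = Fintype.card V * k := by omega
  have h5 : ∑ S ∈ Y, S.card = Fintype.card V * k := by omega
  have h6 : ∀ v, (Y.filter fun S => v ∈ S).card = k := by
    have h7 : ∑ v : V, k = ∑ v, (Y.filter fun S => v ∈ S).card := by
      rw [h4, Finset.sum_const, Finset.card_univ, smul_eq_mul]
    intro v
    exact ((Finset.sum_eq_sum_iff_of_le (fun v _ => hdeg v)).mp h7 v (Finset.mem_univ v)).symm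
  have h8 : ∀ S ∈ Y, S.card = k := by
    have h7 : ∑ S ∈ Y, S.card = ∑ _S ∈ Y, k := by
      rw [h5, Finset.sum_const, hYc, smul_eq_mul]
    intro S hS
    exact (Finset.sum_eq_sum_iff_of_le hYk).mp h7 S hS
  -- `x` is constant
  have h9 : ∀ v, x v = 1 / k := by
    have h10 := hYs (fun v => x v - 1 / k) (by
      intro S hS
      rw [Finset.sum_sub_distrib, (mem_Tt.mp (hY hS)).2, Finset.sum_const, h8 S hS, nsmul_eq_mul]
      field_simp
      norm_num)
    intro v
    have := congrFun h10 v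
    simp only [Pi.zero_apply] at this
    linarith
  obtain ⟨T, hT, P, hP, hPd, hPT⟩ := hpk
  have h11 : (T.card : ℚ) ≤ ∑ v, x v :=
    le_trans (by exact_mod_cast hPT) (packing_le D.inQ hP hPd)
  have h12 : ∑ v, x v = (Fintype.card V : ℚ) / k := by
    rw [Finset.sum_congr rfl fun v _ => h9 v, Finset.sum_const, Finset.card_univ, nsmul_eq_mul]
    ring
  rw [h12, le_div_iff₀ (by linarith)] at h11
  have h13 : T.card * k ≤ Fintype.card V := by exact_mod_cast h11
  have h14 : ∑ S ∈ Y, (S ∩ T).card = T.card * k := by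
    rw [← sum_deg, Finset.sum_congr rfl fun v _ => h6 v, Finset.sum_const, smul_eq_mul]
  have hge : ∀ S ∈ Y, 1 ≤ (S ∩ T).card := fun S hS =>
    Finset.card_pos.mpr (hT S (mem_Tt.mp (hY hS)).1)
  have h15 : ∑ _S ∈ Y, 1 = ∑ S ∈ Y, (S ∩ T).card := by
    have h16 : ∑ _S ∈ Y, 1 ≤ ∑ S ∈ Y, (S ∩ T).card := Finset.sum_le_sum hge
    have h17 : ∑ _S ∈ Y, 1 = Fintype.card V := by
      rw [Finset.sum_const, smul_eq_mul, mul_one, hYc]
    omega
  have h18 : ∀ S ∈ Y, 1 = (S ∩ T).card := (Finset.sum_eq_sum_iff_of_le hge).mp h15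
  have h19 := hYs (fun v => x v - indq T v) (by
    intro S hS
    rw [Finset.sum_sub_distrib, sum_indq', ← h18 S hS, (mem_Tt.mp (hY hS)).2]
    norm_num)
  obtain ⟨u⟩ := D.ne
  have h20 := congrFun h19 u
  simp only [Pi.zero_apply] at h20
  have h21 := D.pos u
  have h22 := D.lt1 u
  unfold indq at h20
  split_ifs at h20
  · linarith
  · linarith

/-- The degree from the rank. -/
theorem deg_of {X Y : Finset (Finset V)} (hYc : Y.card = Fintype.card V)
    (hY : ∀ v, (Y.filter fun S => v ∉ S).card ≤ rk (av X v)) {v : V} {k : ℕ}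
    (h : rk (av X v) + k ≤ Fintype.card V) : k ≤ (Y.filter fun S => v ∈ S).card := by
  have h1 := hY v
  have h2 := Finset.card_filter_add_card_filter_not (s := Y) (fun S => v ∈ S)
  omega

/-- Dependency: the orthogonal space of the tight members avoiding `v` has dimension two. -/
theorem dep (hR : T_RKG) {X : Finset (Finset V)} {v : V}
    (hn : ¬ rk (av X v) + 3 ≤ Fintype.card V) {z2 z3 : V → ℚ}
    (h2 : ∀ S ∈ av X v, ∑ u ∈ S, z2 u = 0) (h3 : ∀ S ∈ av X v, ∑ u ∈ S, z3 u = 0)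
    {p : V} (hp : p ≠ v) (hp2 : z2 p ≠ 0) : ∃ t : ℚ, ∀ u, u ≠ v → z3 u = t * z2 u := by
  by_contra hno
  push Not at hno
  apply hn
  refine rk3 hR (z1 := Pi.single v 1) (z2 := z2) (z3 := z3)
    (fun R hR' => sum_single_of_notMem (mem_av.mp hR').2) h2 h3 ?_
  intro a b c habc
  have hc : c = 0 := by
    by_contra hc
    obtain ⟨u, huv, hu⟩ := hno (- (b / c))
    apply hu
    have h4 := habc u
    rw [Pi.single_eq_of_ne huv, mul_zero, zero_add] at h4
    field_simp
    linarith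
  have h5 := habc p
  rw [Pi.single_eq_of_ne hp, mul_zero, zero_add, hc, zero_mul, add_zero] at h5
  have hb : b = 0 := (mul_eq_zero.mp h5).resolve_right hp2
  have h6 := habc v
  rw [hb, hc, zero_mul, zero_mul, add_zero, add_zero, Pi.single_eq_same, mul_one] at h6
  exact ⟨h6, hb, hc⟩

end

end MNI_

end Pool.Agent.TQS
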