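import Pool.Agent.TQS.MNI3

/-!
# Project TQS: a minimally non-ideal clutter with members of size at most three does not pack (4)
-/

set_option autoImplicit false
set_option linter.unusedSectionVars false

namespace Pool.Agent.TQS

open Finset

namespace MNI_

section
variable {V : Type} [Fintype V] [DecidableEq V]

theorem sum_pair' {p q : V} (h : p ≠ q) (f : V → ℚ) : ∑ u ∈ ({p, q} : Finset V), f u = f p + f q :=
  Finset.sum_pair h

theorem sum_erase' {S : Finset V} {v : V} (h : v ∈ S) (f : V → ℚ) :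
    ∑ u ∈ S, f u = f v + ∑ u ∈ S.erase v, f u := (Finset.add_sum_erase S f h).symm

/-- The two parts. -/
theorem Dat.parts (hR : T_RKG) {C : Finset (Finset V)} {x : V → ℚ} (D : Dat C x) {v : V}
    (hv : ¬ rk (av (Tt C x) v) + 3 ≤ Fintype.card V) (hne : (av (Tt C x) v).Nonempty) {a b : V}
    (hav : a ≠ v) (hbv : b ≠ v) (hab : x a + x b < 1) :
    ∃ (A : Finset V) (c : ℚ), a ∈ A ∧ b ∈ A ∧
      (∀ u, u ≠ v → (u ∈ A ∧ x u = c) ∨ (u ∉ A ∧ x u = 1 - c)) := by
  obtain ⟨S0, hS0⟩ := hne
  have hcard : S0.card = 2 := by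
    apply D.card3 (mem_av.mp hS0).1
    intro h3
    exact hv (D.m3 hR hS0 h3)
  obtain ⟨p, q, hpq, hSe⟩ := Finset.card_eq_two.mp hcard
  have hp : p ∈ S0 := by rw [hSe]; simp
  have hq : q ∈ S0 := by rw [hSe]; simp
  obtain ⟨U1, hU1, h1⟩ := D.exact hS0 hp
  obtain ⟨U2, hU2, h2⟩ := D.exact hS0 hq
  have hone : ∀ (U : Finset V), (S0 ∩ U).card = 1 → ∀ y z, y ∈ S0 → z ∈ S0 → y ∈ U → z ≠ y →
      z ∉ U := by
    intro U hU y z hy hz hyU hzy hzU
    rw [Finset.card_eq_one] at hU
    obtain ⟨t, ht⟩ := hU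
    have h4 : y ∈ S0 ∩ U := Finset.mem_inter.mpr ⟨hy, hyU⟩
    have h5 : z ∈ S0 ∩ U := Finset.mem_inter.mpr ⟨hz, hzU⟩
    rw [ht, Finset.mem_singleton] at h4 h5
    exact hzy (h5.trans h4.symm)
  have hpU2 : p ∉ U2 := hone U2 (hU2 S0 hS0) q p hq hp h2 hpq
  have hpv : p ≠ v := fun h => (mem_av.mp hS0).2 (h ▸ hp)
  obtain ⟨t, ht⟩ := dep hR hv (z2 := fun z => indq U1 z - indq U2 z)
    (z3 := fun z => x z - indq U1 z) (by
      intro R hR'
      rw [Finset.sum_sub_distrib, sum_indq', sum_indq', hU1 R hR', hU2 R hR']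
      norm_num) (by
      intro R hR'
      rw [Finset.sum_sub_distrib, sum_indq', hU1 R hR', (mem_Tt.mp (mem_av.mp hR').1).2]
      norm_num) hpv (by
      rw [indq_mem h1, indq_notMem hpU2]
      norm_num)
  have hpart : ∀ u, u ≠ v → (u ∈ U1 ∧ u ∉ U2 ∧ x u = 1 + t) ∨ (u ∉ U1 ∧ u ∈ U2 ∧ x u = -t) := by
    intro u hu
    have h3 := ht u hu
    have h4 := D.pos u
    have h5 := D.lt1 u
    by_cases hu1 : u ∈ U1
    · by_cases hu2 : u ∈ U2
      · rw [indq_mem hu1, indq_mem hu2] at h3
        exfalso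
        linarith
      · rw [indq_mem hu1, indq_notMem hu2] at h3
        exact Or.inl ⟨hu1, hu2, by linarith⟩
    · by_cases hu2 : u ∈ U2
      · rw [indq_notMem hu1, indq_mem hu2] at h3
        exact Or.inr ⟨hu1, hu2, by linarith⟩
      · rw [indq_notMem hu1, indq_notMem hu2] at h3
        exfalso
        linarith
  by_cases haU : a ∈ U1
  · refine ⟨U1, 1 + t, haU, ?_, ?_⟩
    · rcases hpart a hav with h | h
      · rcases hpart b hbv with h' | h'
        · exact h'.1
        · exfalso
          linarith [h.2.2, h'.2.2]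
      · exact absurd haU h.1
    · intro u hu
      rcases hpart u hu with h | h
      · exact Or.inl ⟨h.1, h.2.2⟩
      · exact Or.inr ⟨h.1, by rw [h.2.2]; ring⟩
  · refine ⟨U2, -t, ?_, ?_, ?_⟩
    · rcases hpart a hav with h | h
      · exact absurd h.1 haU
      · exact h.2.1
    · rcases hpart a hav with h | h
      · exact absurd h.1 haU
      · rcases hpart b hbv with h' | h'
        · exfalso
          linarith [h.2.2, h'.2.2]
        · exact h'.2.1
    · intro u hu
      rcases hpart u hu with h | h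
      · exact Or.inr ⟨h.2.1, by rw [h.2.2]; ring⟩
      · exact Or.inl ⟨h.2.1, h.2.2⟩

/-- The last case. -/
theorem Dat.last (hR : T_RKG) {C : Finset (Finset V)} {x : V → ℚ} (D : Dat C x) (hpk : Packs C)
    {T0 : Finset V} (hT0 : T0 ∈ Tt C x) (h3 : T0.card = 3) {v : V}
    (hv : ¬ rk (av (Tt C x) v) + 3 ≤ Fintype.card V) : False := by
  have hno : ∀ S ∈ av (Tt C x) v, S.card = 2 := by
    intro S hS
    apply D.card3 (mem_av.mp hS).1
    intro h
    exact hv (D.m3 hR hS h)
  have hvT : v ∈ T0 := by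
    by_contra h
    have := hno T0 (mem_av.mpr ⟨hT0, h⟩)
    omega
  have hne : (av (Tt C x) v).Nonempty := by
    by_contra h
    rw [Finset.not_nonempty_iff_eq_empty] at h
    apply hv
    have h0 : rk (av (Tt C x) v) = 0 := by
      rw [h]
      unfold rk
      simp
    have h4 := Finset.card_le_univ T0
    omega
  have h4 : (T0.erase v).card = 2 := by
    rw [Finset.card_erase_of_mem hvT, h3]
  obtain ⟨a, b, hab, hTe⟩ := Finset.card_eq_two.mp h4
  have hae : a ∈ T0.erase v := by rw [hTe]; simp
  have hbe : b ∈ T0.erase v := by rw [hTe]; simp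
  have hav : a ≠ v := Finset.ne_of_mem_erase hae
  have hbv : b ≠ v := Finset.ne_of_mem_erase hbe
  have haT : a ∈ T0 := Finset.mem_of_mem_erase hae
  have hbT : b ∈ T0 := Finset.mem_of_mem_erase hbe
  have hsT : ∀ f : V → ℚ, ∑ u ∈ T0, f u = f v + (f a + f b) := by
    intro f
    rw [sum_erase' hvT, hTe, sum_pair' hab]
  have hx1 : x v + (x a + x b) = 1 := by
    rw [← hsT]
    exact (mem_Tt.mp hT0).2
  have hxv := D.pos v
  obtain ⟨A, c, haA, hbA, hA⟩ := D.parts hR hv hne hav hbv (by linarith)
  have hxa : x a = c := by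
    rcases hA a hav with h | h
    · exact h.2
    · exact absurd haA h.1
  have hxb : x b = c := by
    rcases hA b hbv with h | h
    · exact h.2
    · exact absurd hbA h.1
  have hxvc : x v = 1 - 2 * c := by
    rw [hxa, hxb] at hx1
    linarith
  have hc0 : 0 < c := by
    rw [← hxa]
    exact D.pos a
  have hc2 : c < 1 / 2 := by linarith
  have hAin : ∀ u, u ≠ v → u ∈ A → x u = c := by
    intro u hu huA
    rcases hA u hu with h | h
    · exact h.2
    · exact absurd huA h.1
  have hAout : ∀ u, u ≠ v → u ∉ A → x u = 1 - c := by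
    intro u hu huA
    rcases hA u hu with h | h
    · exact absurd h.1 huA
    · exact h.2
  -- the vector `zA`
  obtain ⟨zA, hzA⟩ : ∃ zA : V → ℚ, zA = fun u => if u = v then 0 else if u ∈ A then 1 else -1 :=
    ⟨_, rfl⟩
  have hzv : zA v = 0 := by rw [hzA]; simp
  have hzin : ∀ u, u ≠ v → u ∈ A → zA u = 1 := by
    intro u hu huA
    rw [hzA]
    simp [hu, huA]
  have hzout : ∀ u, u ≠ v → u ∉ A → zA u = -1 := by
    intro u hu huA
    rw [hzA]
    simp [hu, huA]
  -- the edges avoiding `v`
  have hedge : ∀ S ∈ av (Tt C x) v, ∃ p q, S = {p, q} ∧ p ≠ q ∧ p ≠ v ∧ q ≠ v ∧ p ∈ A ∧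
      q ∉ A := by
    intro S hS
    obtain ⟨p, q, hpq, hSe⟩ := Finset.card_eq_two.mp (hno S hS)
    have hp : p ∈ S := by rw [hSe]; simp
    have hq : q ∈ S := by rw [hSe]; simp
    have hvS := (mem_av.mp hS).2
    have hpv : p ≠ v := fun h => hvS (h ▸ hp)
    have hqv : q ≠ v := fun h => hvS (h ▸ hq)
    have hx : x p + x q = 1 := by
      rw [← sum_pair' hpq, ← hSe]
      exact (mem_Tt.mp (mem_av.mp hS).1).2
    by_cases hpA : p ∈ A
    · by_cases hqA : q ∈ A
      · rw [hAin p hpv hpA, hAin q hqv hqA] at hx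
        exfalso
        linarith
      · exact ⟨p, q, hSe, hpq, hpv, hqv, hpA, hqA⟩
    · by_cases hqA : q ∈ A
      · exact ⟨q, p, by rw [hSe, Finset.pair_comm], hpq.symm, hqv, hpv, hqA, hpA⟩
      · rw [hAout p hpv hpA, hAout q hqv hqA] at hx
        exfalso
        linarith
  have hzS : ∀ S ∈ av (Tt C x) v, ∑ u ∈ S, zA u = 0 := by
    intro S hS
    obtain ⟨p, q, hSe, hpq, hpv, hqv, hpA, hqA⟩ := hedge S hS
    rw [hSe, sum_pair' hpq, hzin p hpv hpA, hzout q hqv hqA]
    norm_num
  -- the edge `{v, a'}`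
  obtain ⟨a', ha'v, ha'A, hSa', hc3⟩ : ∃ a', a' ≠ v ∧ a' ∉ A ∧ {v, a'} ∈ Tt C x ∧ c = 1 / 3 := by
    by_contra hcon
    push Not at hcon
    have h5 := D.span (fun u => zA u - 2 * (Pi.single v (1 : ℚ) : V → ℚ) u) (by
      intro S hS
      rw [Finset.sum_sub_distrib, ← Finset.mul_sum]
      by_cases hvS : v ∈ S
      · rw [sum_single_of_mem hvS, mul_one]
        have h6 := (mem_Tt.mp hS).2
        rw [sum_erase' hvS, hxvc] at h6
        rw [sum_erase' hvS, hzv]
        have h7 := D.card2 hS
        have h8 := D.card_le S (mem_Tt.mp hS).1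
        have h9 := Finset.card_erase_of_mem hvS
        have h10 : (S.erase v).card = 1 ∨ (S.erase v).card = 2 := by omega
        rcases h10 with h | h
        · obtain ⟨u, hu⟩ := Finset.card_eq_one.mp h
          have hue : u ∈ S.erase v := by rw [hu]; simp
          have huv : u ≠ v := Finset.ne_of_mem_erase hue
          have hSe : S = {v, u} := by
            rw [← Finset.insert_erase hvS, hu]
          rw [hu, Finset.sum_singleton] at h6
          exfalso
          by_cases huA : u ∈ A
          · rw [hAin u huv huA] at h6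
            linarith
          · rw [hAout u huv huA] at h6
            exact hcon u huv huA (hSe ▸ hS) (by linarith)
        · obtain ⟨p, q, hpq, hpe⟩ := Finset.card_eq_two.mp h
          have hp : p ∈ S.erase v := by rw [hpe]; simp
          have hq : q ∈ S.erase v := by rw [hpe]; simp
          have hpv : p ≠ v := Finset.ne_of_mem_erase hp
          have hqv : q ≠ v := Finset.ne_of_mem_erase hq
          rw [hpe, sum_pair' hpq] at h6
          rw [hpe, sum_pair' hpq]
          by_cases hpA : p ∈ A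
          · by_cases hqA : q ∈ A
            · rw [hzin p hpv hpA, hzin q hqv hqA]
              norm_num
            · rw [hAin p hpv hpA, hAout q hqv hqA] at h6
              exfalso
              linarith
          · by_cases hqA : q ∈ A
            · rw [hAout p hpv hpA, hAin q hqv hqA] at h6
              exfalso
              linarith
            · rw [hAout p hpv hpA, hAout q hqv hqA] at h6
              exfalso
              linarith
      · rw [sum_single_of_notMem hvS, hzS S (mem_av.mpr ⟨hS, hvS⟩)]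
        norm_num)
    have h6 := congrFun h5 v
    simp only [Pi.zero_apply] at h6
    rw [hzv, Pi.single_eq_same] at h6
    norm_num at h6
  -- the subfamily `X`
  obtain ⟨X, hX⟩ : ∃ X, X = av (Tt C x) v ∪ {{v, a'}, T0} := ⟨_, rfl⟩
  have hXT : X ⊆ Tt C x := by
    intro S hS
    rw [hX, Finset.mem_union, Finset.mem_insert, Finset.mem_singleton] at hS
    rcases hS with h | h | h
    · exact (mem_av.mp h).1
    · rw [h]; exact hSa'
    · rw [h]; exact hT0
  have hXspan : ∀ z : V → ℚ, (∀ S ∈ X, ∑ u ∈ S, z u = 0) → z = 0 := by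
    intro z hz
    obtain ⟨t, ht⟩ := dep hR hv hzS (z3 := z) (fun S hS => hz S (by
      rw [hX]
      exact Finset.mem_union_left _ hS)) hav (by
      rw [hzin a hav haA]
      norm_num)
    have h5 := hz {v, a'} (by
      rw [hX]
      exact Finset.mem_union_right _ (by simp))
    have h6 := hz T0 (by
      rw [hX]
      exact Finset.mem_union_right _ (by simp))
    rw [sum_pair' ha'v.symm, ht a' ha'v, hzout a' ha'v ha'A] at h5
    rw [hsT, ht a hav, ht b hbv, hzin a hav haA, hzin b hbv hbA] at h6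
    have ht0 : t = 0 := by linarith
    funext u
    by_cases hu : u = v
    · rw [hu, Pi.zero_apply]
      rw [ht0] at h5
      linarith
    · rw [ht u hu, ht0, zero_mul, Pi.zero_apply]
  obtain ⟨Y, hYX, hYc, hYs, hYr⟩ := basis hXspan
  have hYr' : ∀ u, (Y.filter fun S => u ∉ S).card ≤ rk (av (Tt C x) u) := by
    intro u
    refine (hYr u).trans (rk_mono ?_)
    intro S hS
    obtain ⟨h5, h6⟩ := mem_av.mp hS
    exact mem_av.mpr ⟨hXT h5, h6⟩
  have hdeg : ∀ u, 2 + (if u ∈ T0 then 0 else 1) ≤ (Y.filter fun S => u ∈ S).card := by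
    intro u
    split_ifs with hu
    · exact deg_of hYc hYr' (D.m2 hR u)
    · exact deg_of hYc hYr' (D.m3 hR (mem_av.mpr ⟨hT0, hu⟩) h3)
  have hsz : ∀ S ∈ Y, S.card ≤ 2 + (if S = T0 then 1 else 0) := by
    intro S hS
    have h5 := hYX hS
    rw [hX, Finset.mem_union, Finset.mem_insert, Finset.mem_singleton] at h5
    rcases h5 with h | h | h
    · rw [hno S h]
      omega
    · rw [h]
      have := Finset.card_le_two (a := v) (b := a')
      omega
    · rw [if_pos h, h, h3]
  have hcount : Fintype.card V ≤ 4 := by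
    have h5 : ∑ u : V, (2 + (if u ∈ T0 then 0 else 1)) ≤
        ∑ u, (Y.filter fun S => u ∈ S).card := Finset.sum_le_sum fun u _ => hdeg u
    have h6 : ∑ S ∈ Y, S.card ≤ ∑ S ∈ Y, (2 + (if S = T0 then 1 else 0)) :=
      Finset.sum_le_sum hsz
    have h7 : ∑ u, (Y.filter fun S => u ∈ S).card = ∑ S ∈ Y, S.card := by
      rw [sum_deg]
      simp
    have h8 : ∑ S ∈ Y, (2 + (if S = T0 then 1 else 0)) ≤ 2 * Fintype.card V + 1 := by
      rw [Finset.sum_add_distrib, Finset.sum_const, smul_eq_mul, hYc, Finset.sum_ite_eq']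
      split_ifs
      · omega
      · omega
    have h9 : ∑ u : V, (2 + (if u ∈ T0 then 0 else 1)) + 3 = 3 * Fintype.card V := by
      rw [Finset.sum_add_distrib, Finset.sum_const, smul_eq_mul, Finset.card_univ]
      have h10 : ∑ u : V, (if u ∈ T0 then 0 else 1) = (univ.filter fun u => u ∉ T0).card := by
        rw [Finset.card_filter]
        refine Finset.sum_congr rfl fun u _ => ?_
        by_cases hu : u ∈ T0
        · simp [hu]
        · simp [hu]
      have h11 := Finset.card_filter_add_card_filter_not (s := (univ : Finset V))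
        (fun u => u ∈ T0)
      have h12 : (univ.filter fun u => u ∈ T0) = T0 := by
        ext u
        simp
      rw [h12, h3, Finset.card_univ] at h11
      rw [h10]
      omega
    omega
  -- four elements
  have ha'a : a' ≠ a := fun h => ha'A (h ▸ haA)
  have ha'b : a' ≠ b := fun h => ha'A (h ▸ hbA)
  have h4c : ({v, a, b, a'} : Finset V).card = 4 := by
    rw [Finset.card_insert_of_notMem, Finset.card_insert_of_notMem, Finset.card_insert_of_notMem,
      Finset.card_singleton]
    · simp [ha'b.symm]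
    · simp [hab, ha'a.symm]
    · simp [hav.symm, hbv.symm, ha'v.symm]
  have huniv : ({v, a, b, a'} : Finset V) = univ := by
    apply Finset.eq_univ_of_card
    have := Finset.card_le_univ ({v, a, b, a'} : Finset V)
    omega
  have hall : ∀ u, u = v ∨ u = a ∨ u = b ∨ u = a' := by
    intro u
    have := Finset.mem_univ u
    rw [← huniv] at this
    simpa using this
  have hout : ∀ u, u ≠ v → u ∉ A → u = a' := by
    intro u hu huA
    rcases hall u with h | h | h | h
    · exact absurd h hu
    · exact absurd (h ▸ haA) huA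
    · exact absurd (h ▸ hbA) huA
    · exact h
  have hinA : ∀ u, u ≠ v → u ∈ A → u = a ∨ u = b := by
    intro u hu huA
    rcases hall u with h | h | h | h
    · exact absurd h hu
    · exact Or.inl h
    · exact Or.inr h
    · exact absurd (h ▸ huA) ha'A
  -- both edges are present
  have hpres : ∀ y y', y ≠ v → y' ≠ v → y ∈ A → y' ∈ A → y ≠ y' →
      (∀ u, u ≠ v → u ∈ A → u = y ∨ u = y') → {y, a'} ∈ Tt C x := by
    intro y y' hyv hy'v hyA hy'A hyy' hcov
    by_contra hnot
    obtain ⟨t, ht⟩ := dep hR hv hzS (z3 := Pi.single y (1 : ℚ)) (fun S hS => by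
      apply sum_single_of_notMem
      intro hyS
      obtain ⟨p, q, hSe, hpq, hpv, hqv, hpA, hqA⟩ := hedge S hS
      have hq : q = a' := hout q hqv hqA
      have hy : y = p := by
        rw [hSe, Finset.mem_insert, Finset.mem_singleton] at hyS
        rcases hyS with h | h
        · exact h
        · exact absurd (h ▸ hyA) hqA
      apply hnot
      rw [hy, ← hq, ← hSe]
      exact (mem_av.mp hS).1) hav (by
      rw [hzin a hav haA]
      norm_num)
    have h5 := ht y' hy'v
    rw [Pi.single_eq_of_ne hyy'.symm, hzin y' hy'v hy'A, mul_one] at h5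
    have h6 := ht y hyv
    rw [Pi.single_eq_same, ← h5, zero_mul] at h6
    exact one_ne_zero h6
  have haa' : {a, a'} ∈ Tt C x := hpres a b hav hbv haA hbA hab hinA
  have hba' : {b, a'} ∈ Tt C x := hpres b a hbv hav hbA haA hab.symm
    (fun u hu huA => (hinA u hu huA).symm)
  -- it does not pack
  obtain ⟨T, hT, P, hP, hPd, hPT⟩ := hpk
  have h5 : (T.card : ℚ) ≤ ∑ u, x u :=
    le_trans (by exact_mod_cast hPT) (packing_le D.inQ hP hPd)
  have h6 : ∑ u, x u = 5 / 3 := by
    rw [← huniv, Finset.sum_insert, Finset.sum_insert, sum_pair' ha'b.symm, hxvc, hxa, hxb,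
      hAout a' ha'v ha'A, hc3]
    · norm_num
    · simp [hab, ha'a.symm]
    · simp [hav.symm, hbv.symm, ha'v.symm]
  rw [h6] at h5
  have h7 : T.card ≤ 1 := by
    by_contra hcon
    have h8 : 2 ≤ T.card := by omega
    have h9 : (2 : ℚ) ≤ (T.card : ℚ) := by exact_mod_cast h8
    linarith
  have hmeet : ∀ S ∈ Tt C x, ∃ u ∈ S, u ∈ T := by
    intro S hS
    obtain ⟨u, hu⟩ := hT S (mem_Tt.mp hS).1
    rw [Finset.mem_inter] at hu
    exact ⟨u, hu.1, hu.2⟩
  have hsub : ∀ y z, y ∈ T → z ∈ T → y = z := fun y z hy hz =>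
    Finset.card_le_one.mp h7 y hy z hz
  obtain ⟨t0, ht0, ht0T⟩ := hmeet T0 hT0
  have ht0' : t0 ≠ a' := by
    intro h
    by_cases hva : t0 = v
    · exact ha'v (h.symm.trans hva)
    · have h8 : t0 ∈ T0.erase v := Finset.mem_erase.mpr ⟨hva, ht0⟩
      rw [hTe, Finset.mem_insert, Finset.mem_singleton] at h8
      rcases h8 with h8 | h8
      · exact ha'a (h.symm.trans h8)
      · exact ha'b (h.symm.trans h8)
  have hthree : ∀ y, {y, a'} ∈ Tt C x → y = t0 := by
    intro y hy
    obtain ⟨u, hu, huT⟩ := hmeet _ hy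
    have hut := hsub u t0 huT ht0T
    rw [Finset.mem_insert, Finset.mem_singleton] at hu
    rcases hu with h | h
    · exact h.symm.trans hut
    · exact absurd (hut.symm.trans h) ht0'
  have h10 := hthree a haa'
  have h11 := hthree b hba'
  exact hab (h10.trans h11.symm)

/-- A family (every element is used) all of whose deletions and contractions of one element
satisfy `Frac` and which packs, satisfies `Frac`. -/
theorem core (hR : T_RKG) (hL : T_LP1) {C : Finset (Finset V)} (hcard : ∀ S ∈ C, S.card ≤ 3)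
    (hdel : ∀ v, Frac (av C v)) (hcon : ∀ v, Frac (C.image fun S => S.erase v))
    (hpk : Packs C) : Frac C := by
  intro w s hw hs hU
  apply hL V C w s hw hs
  intro x0 hx0 hx0'
  by_contra hlt
  push Not at hlt
  obtain ⟨x, hx, hxs, hvert⟩ := vertex (C := C) hw (((univ : Finset V).disjSum C).card) x0
    ⟨hx0, hx0'⟩ hlt (by omega)
  have hpos : ∀ v, 0 < x v := fun v => pos hw hU hx hxs v (hcon v)
  have hlt1 : ∀ v, x v < 1 := fun v => lt_one hw hU hx hxs v (hdel v)
  have hcovu : Cov C univ := by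
    intro S hS
    rw [Finset.inter_univ]
    by_contra h
    rw [Finset.not_nonempty_iff_eq_empty] at h
    have := hx.2 S hS
    rw [h, Finset.sum_empty] at this
    linarith
  have hVne : Nonempty V := by
    by_contra h
    rw [not_nonempty_iff] at h
    have h1 := hU univ hcovu
    rw [Finset.univ_eq_empty, Finset.sum_empty] at h1
    rw [Finset.univ_eq_empty, Finset.sum_empty] at hxs
    linarith
  have D : Dat C x := by
    refine ⟨hcard, hx, hpos, hlt1, hdel, fun z hz => ?_, hVne⟩
    apply hvert z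
    · intro S hS h1
      exact hz S (mem_Tt.mpr ⟨hS, h1⟩)
    · intro v h0
      have := hpos v
      linarith
  by_cases hA : ∀ v, rk (av (Tt C x) v) + 3 ≤ Fintype.card V
  · obtain ⟨Y, hYX, hYc, hYs, hYr⟩ := basis D.span
    exact D.unif hpk 3 (by norm_num) hYX hYc hYs
      (fun S hS => hcard S (mem_Tt.mp (hYX hS)).1) (fun v => deg_of hYc hYr (hA v))
  · push Not at hA
    obtain ⟨v, hv⟩ := hA
    by_cases hB : ∃ T0 ∈ Tt C x, T0.card = 3
    · obtain ⟨T0, hT0, h3⟩ := hB
      exact D.last hR hpk hT0 h3 (by omega : ¬ rk (av (Tt C x) v) + 3 ≤ Fintype.card V)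
    · push Not at hB
      obtain ⟨Y, hYX, hYc, hYs, hYr⟩ := basis D.span
      exact D.unif hpk 2 (by norm_num) hYX hYc hYs
        (fun S hS => (D.card3 (hYX hS) (hB S (hYX hS))).le)
        (fun v => deg_of hYc hYr (D.m2 hR v))

end

end MNI_

end Pool.Agent.TQS
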