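import Pool.Agent.TQS.Targets

set_option autoImplicit false
set_option linter.unusedSectionVars false

/-!
# Project TQS: `Frac` and minors
-/

namespace Pool.Agent.TQS

open Finset

namespace FMI_

section
variable {V : Type} [Fintype V] [DecidableEq V]

/-- The push forward of a weighting of the members of `X` along `f`. -/
def psh (X : Finset (Finset V)) (f : Finset V → Finset V) (y : Finset V → ℚ) : Finset V → ℚ :=
  fun R => ∑ S ∈ X with f S = R, y S

theorem psh_nonneg (X : Finset (Finset V)) (f : Finset V → Finset V) (y : Finset V → ℚ)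
    (hy : ∀ S, 0 ≤ y S) (R : Finset V) : 0 ≤ psh X f y R :=
  Finset.sum_nonneg fun S _ => hy S

theorem sum_psh (X Y : Finset (Finset V)) (f : Finset V → Finset V) (y : Finset V → ℚ)
    (hf : ∀ S ∈ X, f S ∈ Y) : ∑ R ∈ Y, psh X f y R = ∑ S ∈ X, y S :=
  Finset.sum_fiberwise_of_maps_to hf y

theorem cmb_psh (X Y : Finset (Finset V)) (f : Finset V → Finset V) (y : Finset V → ℚ)
    (hf : ∀ S ∈ X, f S ∈ Y) (v : V) :
    cmb Y (psh X f y) v = ∑ S ∈ X with v ∈ f S, y S := by
  rw [cmb_apply', Finset.sum_filter]
  rw [← Finset.sum_fiberwise_of_maps_to hf (fun S => if v ∈ f S then y S else 0)]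
  refine Finset.sum_congr rfl fun R _ => ?_
  unfold psh
  split_ifs with h
  · refine Finset.sum_congr rfl fun S hS => ?_
    rw [Finset.mem_filter] at hS
    rw [hS.2, if_pos h]
  · symm
    apply Finset.sum_eq_zero
    intro S hS
    rw [Finset.mem_filter] at hS
    rw [hS.2, if_neg h]

theorem del (C : Finset (Finset V)) (hC : Frac C) (v : V) : Frac (av C v) := by
  intro w s hw hs hcov
  obtain ⟨y, hy0, hys, hyw⟩ := hC (fun u => if u = v then 0 else w u) s
    (fun u => by
      show 0 ≤ (if u = v then (0 : ℚ) else w u)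
      split_ifs
      · exact le_refl 0
      · exact hw u) hs
    (fun U hU => by
      have h1 : Cov (av C v) (U.erase v) := by
        intro S hS
        rw [mem_av] at hS
        obtain ⟨x, hx⟩ := hU S hS.1
        rw [Finset.mem_inter] at hx
        refine ⟨x, ?_⟩
        rw [Finset.mem_inter, Finset.mem_erase]
        refine ⟨hx.1, ?_, hx.2⟩
        rintro rfl
        exact hS.2 hx.1
      refine (hcov _ h1).trans (le_of_eq ?_)
      have h2 : ∑ u ∈ U, (if u = v then (0 : ℚ) else w u) =
          ∑ u ∈ U.erase v, (if u = v then (0 : ℚ) else w u) := by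
        symm
        apply Finset.sum_erase
        rw [if_pos rfl]
      rw [h2]
      refine Finset.sum_congr rfl fun u hu => ?_
      rw [if_neg (Finset.ne_of_mem_erase hu)])
  have hz : ∀ S ∈ C, v ∈ S → y S = 0 := by
    intro S hS hv
    have h1 := hyw v
    rw [cmb_apply] at h1
    have h2 : ∑ S ∈ C with v ∈ S, y S ≤ 0 := by
      refine h1.trans ?_
      show (if v = v then (0 : ℚ) else w v) ≤ 0
      rw [if_pos rfl]
    have h3 : y S ≤ ∑ S ∈ C with v ∈ S, y S :=
      Finset.single_le_sum (f := y) (fun T _ => hy0 T) (Finset.mem_filter.mpr ⟨hS, hv⟩)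
    exact le_antisymm (h3.trans h2) (hy0 S)
  have hsub : av C v ⊆ C := fun S hS => (mem_av.mp hS).1
  have hzero : ∀ S ∈ C, S ∉ av C v → y S = 0 := by
    intro S hS h
    apply hz S hS
    by_contra hv
    exact h (mem_av.mpr ⟨hS, hv⟩)
  refine ⟨y, hy0, ?_, ?_⟩
  · rw [← hys]
    exact Finset.sum_subset hsub hzero
  · intro u
    rw [← cmb_subset hsub y hzero]
    refine (hyw u).trans ?_
    show (if u = v then (0 : ℚ) else w u) ≤ w u
    split_ifs
    · exact hw u
    · exact le_refl _

theorem con (C : Finset (Finset V)) (hC : Frac C) (v : V) :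
    Frac (C.image fun S => S.erase v) := by
  intro w s hw hs hcov
  have hw' : ∀ u, 0 ≤ (if u = v then s else w u) := by
    intro u
    split_ifs
    · exact hs
    · exact hw u
  obtain ⟨y, hy0, hys, hyw⟩ := hC (fun u => if u = v then s else w u) s hw' hs
    (fun U hU => by
      by_cases hv : v ∈ U
      · have h1 := Finset.single_le_sum (f := fun u => if u = v then s else w u)
          (fun u _ => hw' u) hv
        have h2 : s ≤ (if v = v then s else w v) := by
          rw [if_pos rfl]
        exact h2.trans h1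
      · have h1 : Cov (C.image fun S => S.erase v) U := by
          intro R hR
          obtain ⟨S, hS, rfl⟩ := Finset.mem_image.mp hR
          obtain ⟨x, hx⟩ := hU S hS
          rw [Finset.mem_inter] at hx
          refine ⟨x, ?_⟩
          rw [Finset.mem_inter, Finset.mem_erase]
          refine ⟨⟨?_, hx.1⟩, hx.2⟩
          rintro rfl
          exact hv hx.2
        refine (hcov U h1).trans (le_of_eq ?_)
        refine Finset.sum_congr rfl fun u hu => ?_
        rw [if_neg]
        rintro rfl
        exact hv hu)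
  have hf : ∀ S ∈ C, (fun S : Finset V => S.erase v) S ∈ C.image fun S => S.erase v :=
    fun S hS => Finset.mem_image_of_mem _ hS
  refine ⟨psh C (fun S => S.erase v) y, psh_nonneg _ _ _ hy0, ?_, ?_⟩
  · rw [sum_psh C _ _ y hf, hys]
  · intro u
    rw [cmb_psh C _ _ y hf]
    by_cases huv : u = v
    · subst huv
      rw [Finset.sum_eq_zero]
      · exact hw u
      · intro S hS
        rw [Finset.mem_filter] at hS
        exact absurd hS.2 (Finset.notMem_erase u S)
    · have h1 := hyw u
      rw [cmb_apply] at h1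
      have h2 : (if u = v then s else w u) = w u := if_neg huv
      have h3 : ∑ S ∈ C with u ∈ S.erase v, y S = ∑ S ∈ C with u ∈ S, y S := by
        congr 1
        apply Finset.filter_congr
        intro S _
        rw [Finset.mem_erase]
        exact ⟨fun h => h.2, fun h => ⟨huv, h⟩⟩
      rw [h3]
      exact h1.trans (le_of_eq h2)

theorem mini (C : Finset (Finset V)) (hC : Frac C) :
    Frac (C.filter fun S => ∀ B ∈ C, B ⊆ S → B = S) := by
  intro w s hw hs hcov
  obtain ⟨y, hy0, hys, hyw⟩ := hC w s hw hs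
    (fun U hU => hcov U fun S hS => hU S (Finset.mem_filter.mp hS).1)
  have hm : ∀ S ∈ C, ∃ R ∈ C.filter fun S => ∀ B ∈ C, B ⊆ S → B = S, R ⊆ S := by
    intro S hS
    obtain ⟨R, hRS, hR⟩ := Finset.exists_le_minimal C hS
    refine ⟨R, ?_, hRS⟩
    rw [Finset.mem_filter]
    refine ⟨hR.1, fun B hB hBR => ?_⟩
    exact Finset.Subset.antisymm hBR (hR.2 hB hBR)
  choose! m hm1 hm2 using hm
  refine ⟨psh C m y, psh_nonneg _ _ _ hy0, ?_, ?_⟩
  · rw [sum_psh C _ _ y hm1, hys]
  · intro u
    rw [cmb_psh C _ _ y hm1]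
    refine le_trans ?_ (hyw u)
    rw [cmb_apply]
    apply Finset.sum_le_sum_of_subset_of_nonneg
    · intro S hS
      rw [Finset.mem_filter] at hS ⊢
      exact ⟨hS.1, hm2 S hS.1 hS.2⟩
    · intro S _ _
      exact hy0 S

end

end FMI_

theorem p_FMI : T_FMI := by
  intro V _ _ C hC
  exact ⟨FMI_.del C hC, FMI_.con C hC, FMI_.mini C hC⟩

end Pool.Agent.TQS
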