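import Pool.Agent.TQS.Targets

set_option autoImplicit false
set_option linter.unusedSectionVars false

/-!
# Project TQS: target NC, the bound for an odd pair of levels one and two
-/

namespace Pool.Agent.TQS

open Finset

namespace NC_

section
variable {V : Type} [Fintype V] [DecidableEq V]

/-- A padded member has weight at least one on every cover. -/
theorem one_le_of_cov {C : Finset (Finset V)} {g : V → ℤ} (hg : Pad C g) {U : Finset V}
    (hU : Cov C U) : 1 ≤ ∑ v ∈ U, g v := by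
  obtain ⟨h0, _, S, hS, h1⟩ := hg
  obtain ⟨v, hv⟩ := hU S hS
  rw [Finset.mem_inter] at hv
  have h2 : g v ≤ ∑ v ∈ U, g v :=
    Finset.single_le_sum (f := g) (fun u _ => h0 u) hv.2
  have h3 := h1 v hv.1
  omega

/-- The sum of `sg` against a vector. -/
theorem sum_sg (G G' : V → Finset V) (v : V) (g : V → ℤ) :
    ∑ u, sg G G' v u * g u =
      ∑ u, g u - ∑ u ∈ G v, g u - ∑ u ∈ G' v, g u + 2 * g v := by
  have h1 : ∀ u, sg G G' v u * g u =
      g u - (if u ∈ G v then g u else 0) - (if u ∈ G' v then g u else 0)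
        + 2 * (if u = v then g u else 0) := by
    intro u
    unfold sg
    split_ifs <;> ring
  simp_rw [h1]
  rw [Finset.sum_add_distrib, Finset.sum_sub_distrib, Finset.sum_sub_distrib, ← Finset.mul_sum,
    Finset.sum_ite_mem, Finset.sum_ite_mem, Finset.univ_inter, Finset.univ_inter,
    Finset.sum_ite_eq' Finset.univ v g, if_pos (Finset.mem_univ v)]

end

end NC_

theorem p_NC : T_NC := by
  intro V _ _ C w Ms V2 G G' hD g1 g2 hg1 hg2 hnd hnL
  have hz : ∀ B ∈ Ms, nd B (g2 - 2 • g1) = 0 := by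
    intro B hB
    have h2 : (2 : ℕ) • g1 = fun v => (2 : ℤ) * g1 v := by
      funext v
      simp
    rw [nd_sub, h2, nd_mul, hnd B hB]
    ring
  have hndU : ∀ U : Finset V, nd U (g2 - 2 • g1) =
      3 * ∑ v ∈ U, g2 v - 6 * ∑ v ∈ U, g1 v + 3 := by
    intro U
    have h2 : (2 : ℕ) • g1 = fun v => (2 : ℤ) * g1 v := by
      funext v
      simp
    rw [nd_sub, h2, nd_mul]
    unfold nd
    rw [hg1.2.1, hg2.2.1]
    ring
  have hswap : ∑ u, rr V2 G G' u * g1 u = ∑ v ∈ V2, ∑ u, sg G G' v u * g1 u := by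
    unfold rr
    simp_rw [Finset.sum_mul]
    rw [Finset.sum_comm]
  have hterm : ∀ v ∈ V2, ∑ u, sg G G' v u * g1 u ≤ g1 v + g2 v := by
    intro v hv
    rw [NC_.sum_sg, hg1.2.1]
    obtain ⟨hc, hc'⟩ := hD.gcov v hv
    have a1 := NC_.one_le_of_cov hg1 hc
    have a1' := NC_.one_le_of_cov hg1 hc'
    have a2 := NC_.one_le_of_cov hg2 hc
    have a2' := NC_.one_le_of_cov hg2 hc'
    have hl := hD.glin v hv _ hz
    rw [hndU, hndU] at hl
    have hzv : (g2 - 2 • g1) v = g2 v - 2 * g1 v := by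
      simp
    rw [hzv] at hl
    have hp : ¬ Even (nd (G v) (g2 - 2 • g1)) := fun h => hnL ((hD.gpar v hv _ hz).mpr h)
    rw [hndU, Int.not_even_iff_odd] at hp
    obtain ⟨k, hk⟩ := hp
    have p1 := hg1.1 v
    have p2 := hg2.1 v
    omega
  rw [hswap]
  calc ∑ v ∈ V2, ∑ u, sg G G' v u * g1 u ≤ ∑ v ∈ V2, (g1 v + g2 v) := Finset.sum_le_sum hterm
    _ ≤ ∑ v, (g1 v + g2 v) := by
      apply Finset.sum_le_sum_of_subset_of_nonneg (Finset.subset_univ V2)
      intro v _ _
      exact add_nonneg (hg1.1 v) (hg2.1 v)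
    _ = 6 := by
      rw [Finset.sum_add_distrib, hg1.2.1, hg2.2.1]
      norm_num
    _ ≤ 8 := by norm_num

end Pool.Agent.TQS
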