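import Pool.Agent.TQS.Targets

set_option autoImplicit false
set_option linter.unusedSectionVars false

/-!
# Project TQS: T_SAT, the lattice of the members avoiding an element is saturated
-/

namespace Pool.Agent.TQS

open Finset

namespace SAT_

variable {V : Type} [Fintype V] [DecidableEq V]

/-- A natural number above all `- q T`. -/
theorem exists_bound (X : Finset (Finset V)) (q : Finset V → ℚ) :
    ∃ N : ℕ, ∀ T ∈ X, 0 ≤ q T + (N : ℚ) := by
  classical
  refine ⟨∑ T ∈ X, ⌈|q T|⌉₊, ?_⟩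
  intro T hT
  have h1 : (⌈|q T|⌉₊ : ℚ) ≤ ((∑ T ∈ X, ⌈|q T|⌉₊ : ℕ) : ℚ) := by
    exact_mod_cast Finset.single_le_sum (f := fun T => ⌈|q T|⌉₊) (fun _ _ => Nat.zero_le _) hT
  have h2 : |q T| ≤ (⌈|q T|⌉₊ : ℚ) := Nat.le_ceil _
  have h3 : -|q T| ≤ q T := neg_abs_le _
  linarith

end SAT_

open SAT_ in
theorem p_SAT (h1 : T_INT) : T_SAT := by
  intro V _ _ C hC w t Ms hF x z hz
  obtain ⟨q, hq⟩ := hz
  set X := av (Em C Ms) x with hX
  obtain ⟨N, hN⟩ := exists_bound X q
  have hmem : ∀ T ∈ X, T ∈ C ∧ T.card = 3 ∧ (∀ B ∈ Ms, (T ∩ B).card = 1) ∧ x ∉ T := by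
    intro T hT
    rw [hX, mem_av, mem_Em] at hT
    exact ⟨hT.1.1, hT.1.2.1, hT.1.2.2, hT.2⟩
  -- the shifted vector
  have hcast : (fun v => (((z + (N : ℤ) • cmb X (fun _ => (1 : ℤ))) v : ℤ) : ℚ)) =
      cmb X (fun T => q T + (N : ℚ)) := by
    rw [cmb_add]
    funext v
    have e1 : ((z v : ℤ) : ℚ) = cmb X q v := congrFun hq v
    have e2 : ((cmb X (fun _ => (1 : ℤ)) v : ℤ) : ℚ) = cmb X (fun _ => (1 : ℚ)) v := by
      rw [cmb_cast_int]
      simp
    have e3 : cmb X (fun _ => (N : ℚ)) v = (N : ℚ) * cmb X (fun _ => (1 : ℚ)) v := by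
      have := congrFun (cmb_mul X (N : ℚ) (fun _ => (1 : ℚ))) v
      simpa using this
    simp only [Pi.add_apply, Pi.smul_apply, smul_eq_mul, Int.cast_add, Int.cast_mul,
      Int.cast_natCast]
    rw [e1, e2, e3]
  set z' : V → ℤ := z + (N : ℤ) • cmb X (fun _ => (1 : ℤ)) with hz'
  have hInL : InL X z' := by
    refine h1 V C hC w t Ms hF x z' ?_ ?_ ?_ ?_
    · intro v
      have h : ((z' v : ℤ) : ℚ) = cmb X (fun T => q T + (N : ℚ)) v := congrFun hcast v
      have h0 : (0 : ℚ) ≤ cmb X (fun T => q T + (N : ℚ)) v := by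
        rw [cmb_apply]
        exact Finset.sum_nonneg fun T hT => hN T (Finset.mem_filter.mp hT).1
      rw [← h] at h0
      exact_mod_cast h0
    · intro U hU
      have h : ((nd U z' : ℤ) : ℚ) = nd U (cmb X (fun T => q T + (N : ℚ))) := by
        rw [← hcast, nd_cast]
      have h0 : (0 : ℚ) ≤ nd U (cmb X (fun T => q T + (N : ℚ))) := by
        rw [nd_cmb]
        refine Finset.sum_nonneg fun T hT => ?_
        obtain ⟨hTC, hT3, _, _⟩ := hmem T hT
        refine mul_nonneg (hN T hT) ?_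
        have hc : 1 ≤ (T ∩ U).card := Finset.card_pos.mpr (hU T hTC)
        have hc' : (1 : ℚ) ≤ ((T ∩ U).card : ℚ) := by exact_mod_cast hc
        rw [hT3]
        push_cast
        linarith
      rw [← h] at h0
      exact_mod_cast h0
    · intro B hB
      have h : ((nd B z' : ℤ) : ℚ) = nd B (cmb X (fun T => q T + (N : ℚ))) := by
        rw [← hcast, nd_cast]
      have h0 : nd B (cmb X (fun T => q T + (N : ℚ))) = 0 := by
        rw [nd_cmb]
        refine Finset.sum_eq_zero fun T hT => ?_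
        obtain ⟨_, hT3, hT1, _⟩ := hmem T hT
        rw [hT3, hT1 B hB]
        push_cast
        ring
      rw [h0] at h
      exact_mod_cast h
    · have h : ((z' x : ℤ) : ℚ) = cmb X (fun T => q T + (N : ℚ)) x := congrFun hcast x
      have h0 : cmb X (fun T => q T + (N : ℚ)) x = 0 := by
        rw [cmb_apply]
        refine Finset.sum_eq_zero fun T hT => ?_
        rw [Finset.mem_filter] at hT
        exact absurd hT.2 (hmem T hT.1).2.2.2
      rw [h0] at h
      exact_mod_cast h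
  have h1L : InL X (cmb X (fun _ => (1 : ℤ))) := ⟨fun _ => 1, rfl⟩
  have hfin := hInL.sub (h1L.smul (N : ℤ))
  rwa [hz', add_sub_cancel_right] at hfin

end Pool.Agent.TQS
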