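import Pool.Agent.TQS.Targets

set_option autoImplicit false

/-!
# TQS: the target V2C (the number of elements with rank defect two)
-/

namespace Pool.Agent.TQS

open Finset

theorem p_V2C (h1 : T_M2) (h2 : T_CNT) : T_V2C := by
  classical
  intro V _ _ C hC w t Ms hH hF
  have e1 := h1 V C hC w t Ms hH hF
  have e2 := h2 V (Em C Ms) (fun S hS => (mem_Em.mp hS).2.1)
  have e3 : ∀ v : V, rk (av (Em C Ms) v) + 3 ≤
      rk (Em C Ms) + if rk (av (Em C Ms) v) + 2 = rk (Em C Ms) then 1 else 0 := by
    intro v
    have h := e1 v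
    split_ifs with h3 <;> omega
  have e4 := Finset.sum_le_sum fun (v : V) (_ : v ∈ (univ : Finset V)) => e3 v
  rw [Finset.sum_add_distrib, Finset.sum_add_distrib, Finset.sum_const, Finset.sum_const,
    Finset.card_univ, smul_eq_mul, smul_eq_mul, ← Finset.card_filter] at e4
  omega

end Pool.Agent.TQS
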