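import Pool.Agent.TQS.Base

set_option autoImplicit false

/-!
# Project TQS (MP_98b56a_co): targets

THEOREM. An ideal clutter with members of size at most three is Mengerian or contains `Q_6` as the
set of members inside six elements. Paper proof: ideas rows 2213 (and 2166) of MP_98b56a_co.
Every target has its proof in the docstring. `E = Em C Ms`, `n_U = nd U / 3`. Basic lemmas on
`cmb`, `nd`, `InL`, `InS`, `rk` are in `Pool/Agent/TQS/Base.lean`.
A job proves `theorem Pool.Agent.TQS.p_XXX (h1 : T_A) ... : T_XXX`.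
-/

namespace Pool.Agent.TQS

open Finset

/-! ## A. The hole -/

/-- PKM. Fewer members: decrease `y` at members with `y S > 0` one by one (induction on `t - s`). -/
def T_PKM : Prop := ∀ (V : Type) [Fintype V] [DecidableEq V] (C : Finset (Finset V))
  (w : V → ℕ) (s t : ℕ), s ≤ t → Pk C w t → Pk C w s

/-- SL1. The choice of the hole. PROOF. A hole is a pair `(w, t)` with `t` the minimum weight of a
cover and `¬ Pk C w t`. Holes exist: take `w`, `s` from `¬ Meng C`; `univ` is a cover (members are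
nonempty), let `t` be the minimum of `∑ v ∈ U, w v` over covers `U` (finitely many sets `U`),
`s ≤ t`, `¬ Pk C w t` by T_PKM. The number `N(w,t)` of covers `B` of weight `t` is at most `2^|V|`;
choose a hole with `N` maximal and, among these, with `∑ w` minimal. Sel.mx: if every minimum cover
of `w` has `w'`-weight `t'`, and `t' ≤` all cover weights, then (there is one such cover) `(w', t')`
is a hole, `N(w',t') ≥ N(w,t)`, so equality: the sets of minimum covers are equal, and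
`∑ w ≤ ∑ w'` by the second choice. -/
def T_SL1 : Prop := ∀ (V : Type) [Fintype V] [DecidableEq V] (C : Finset (Finset V)),
  (∀ S ∈ C, S.Nonempty) → ¬ Meng C → ∃ (w : V → ℕ) (t : ℕ), Sel C w t

/-- SL2. PROOF. (1) If `w v = 0`: every cover `U` of `av C v` gives the cover `insert v U` of `C`
with the same weight, so `Meng (av C v)` gives `Pk (av C v) w t`, so `Pk C w t` (extend `y` by `0`;
`cmb C y' = cmb (av C v) y`), a contradiction. (2) If `v` is in no cover of weight `t`, let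
`w' = w - e_v`: covers through `v` have `w`-weight `≥ t + 1`, so all covers have `w'`-weight
`≥ t`; `Pk C w' t` would give `Pk C w t`; the covers of `w`-weight `t` have `w'`-weight `t`. Sel.mx
gives `∑ w ≤ ∑ w' = ∑ w - 1`, a contradiction. -/
def T_SL2 : Prop := ∀ (V : Type) [Fintype V] [DecidableEq V] (C : Finset (Finset V)), MinC C →
  ∀ (w : V → ℕ) (t : ℕ), Sel C w t → (∀ v, 1 ≤ w v) ∧
  ∀ v, ∃ B, Cov C B ∧ ∑ v ∈ B, w v = t ∧ v ∈ B

/-- SL3. PROOF. `t ≥ 1` (`Pk C w 0` is trivial). (1) Let `S ∈ C` meet all minimum covers once,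
`#S ≤ 2`. `w' = w - 1_S ≥ 0`, `t' = t - 1`: a cover `U` of weight `t` has `w'`-weight `t - 1`, a
cover of weight `≥ t + 1` has `w'`-weight `≥ t + 1 - #(S ∩ U) ≥ t - 1`. If `¬ Pk C w' t'` then
Sel.mx gives `∑ w ≤ ∑ w' < ∑ w`. So `Pk C w' (t-1)`; add one to `y S`: `Pk C w t`, a contradiction.
(2) `MinC.frac` for `w`, `s = t`: `y ≥ 0`, `∑ y S = t`, `cmb C y ≤ w`. For a minimum cover `B`:
`t = w(B) ≥ ∑_{v ∈ B} cmb C y v = ∑ y S #(S ∩ B) ≥ ∑ y S = t` (`sum_cmb`), so `cmb C y v = w v` for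
`v ∈ B` and `#(S ∩ B) = 1` if `y S > 0`. Every `v` is in some `B`: `cmb C y = w`, and `y S > 0`
implies `#S = 3` by (1). So `∑ w = ∑ y S * 3 = 3 t` (`sum_cmb_univ`). -/
def T_SL3 : Prop := ∀ (V : Type) [Fintype V] [DecidableEq V] (C : Finset (Finset V)), MinC C →
  ∀ (w : V → ℕ) (t : ℕ), Sel C w t → (∀ v, 1 ≤ w v) →
  (∀ v, ∃ B, Cov C B ∧ ∑ v ∈ B, w v = t ∧ v ∈ B) →
  (∀ S ∈ C, (∀ B, Cov C B → ∑ v ∈ B, w v = t → (S ∩ B).card = 1) → S.card = 3) ∧
  ∑ v, w v = 3 * t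

/-- SL4. PROOF. `Pk C z s`: if `z x = 0`, then `Meng (av C x)` (covers `U` of `av C x` give covers
`insert x U` of `C` with the same `z`-weight). Otherwise, if `¬ Pk C z s`, Sel.mx for `(z, s)` says
that the given `U` (of `z`-weight `s`) has `w`-weight `t`, a contradiction. Take `y` (set it to `0`
outside `C`): `∑ y S = s`, `cmb C y ≤ z`. For a minimum cover `B`: `s = z(B) ≥ ∑ y S #(S ∩ B) ≥
∑ y S = s`, so `#(S ∩ B) = 1` if `y S ≠ 0`; so `#S = 3`, `∑ cmb C y = 3 s = ∑ z`, and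
`cmb C y = z`. -/
def T_SL4 : Prop := ∀ (V : Type) [Fintype V] [DecidableEq V] (C : Finset (Finset V)), MinC C →
  ∀ (w : V → ℕ) (t : ℕ), Sel C w t →
  (∀ S ∈ C, (∀ B, Cov C B → ∑ v ∈ B, w v = t → (S ∩ B).card = 1) → S.card = 3) →
  ∀ (z : V → ℕ) (s : ℕ), ∑ v, z v = 3 * s → (∀ U, Cov C U → s ≤ ∑ v ∈ U, z v) →
  (∀ B, Cov C B → ∑ v ∈ B, w v = t → ∑ v ∈ B, z v = s) →
  ((∃ x, z x = 0) ∨ ∃ U, Cov C U ∧ ∑ v ∈ U, w v ≠ t ∧ ∑ v ∈ U, z v = s) →
  ∃ y : Finset V → ℕ, (∀ S, y S ≠ 0 → S ∈ C ∧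
    ∀ B, Cov C B → ∑ v ∈ B, w v = t → (S ∩ B).card = 1) ∧ ∀ v, z v = cmb C y v

/-- SL5. PROOF. Suppose no cover of weight `t + 1` contains `A` (`#A = 3`). `w' = w - 1_A ≥ 0`,
`t' = t - 1` (`t ≥ 1`): covers of weight `t` get `t - 1`; of weight `t + 1`: `#(A ∩ U) ≤ 2`, so
`≥ t - 1`; of weight `≥ t + 2`: `≥ t - 1`. If `¬ Pk C w' t'` then Sel.mx gives `∑ w ≤ ∑ w'`. So
`Pk C w' (t - 1)`, and adding `A` gives `Pk C w t`, a contradiction. -/
def T_SL5 : Prop := ∀ (V : Type) [Fintype V] [DecidableEq V] (C : Finset (Finset V)), MinC C →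
  ∀ (w : V → ℕ) (t : ℕ), Sel C w t → (∀ v, 1 ≤ w v) →
  ∀ A ∈ C, A.card = 3 → (∀ B, Cov C B → ∑ v ∈ B, w v = t → (A ∩ B).card = 1) →
  ∃ U, Cov C U ∧ ∑ v ∈ U, w v = t + 1 ∧ A ⊆ U

/-- SLH. PROOF. T_SL1, ..., T_SL5 with `w`, `t` cast to `ℤ`. `bdry`: `s = z(B)` for some minimum
cover `B` (there is a `v : V`: if `V` is empty then `C = ∅`, `t = 0` and `Pk C w 0` is trivial),
`nd B z = 0` says `∑ z = 3 s`, `nd U z ≥ 0` says `z(U) ≥ s`; use `z' v = (z v).toNat`. `notM`: if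
`w = cmb C y` with core members, then `3 t = ∑ w = 3 ∑ y S` (`y = 0` outside `C`), so `Pk C w t`. -/
def T_SLH : Prop := ∀ (V : Type) [Fintype V] [DecidableEq V] (C : Finset (Finset V)), MinC C →
  ∃ (w : V → ℤ) (t : ℤ), Hol C w t

/-! ## B. Odd multiples of the hole -/

/-- WF. Weak flagness. PROOF. `z v = (2 j + 1) w v - ind T v - cmb C y v ≥ 0` (`cmb C y v ≤ j`,
`w v ≥ 1`). For a cover `U'` of weight `t + a` (`a ≥ 0`; `nd U' w = 3 a` by `Hol.tot`):
`nd U' z = 3 a (2 j + 1) - (3 #(T ∩ U') - 3) - ∑ y S (3 #(S ∩ U') - 3)` (`nd_cmb`, core members have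
three elements). `a = 0`: `U'` is tight, all the cardinalities are `1`, `nd U' z = 0`. `a = 1`: all
cardinalities are `≤ 3` and by the hypothesis one of `T`, `S` with `y S ≠ 0` is not in `U'`, so one
of the `j + 1` cardinalities is `≤ 2`: the subtracted sum is `≤ 6 (j + 1) - 3 = 3 (2 j + 1)`.
`a ≥ 2`: `6 (2 j + 1) - 6 (j + 1) ≥ 0`. For `U' = U`: `nd U z = 3 (2 j + 1) - 3 - 6 j = 0`, and `U`
is not tight. `Hol.bdry` gives `InM z`; add `T` and the members counted by `y`. -/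
def T_WF : Prop := ∀ (V : Type) [Fintype V] [DecidableEq V] (C : Finset (Finset V)) (w : V → ℤ)
  (t : ℤ), Hol C w t → ∀ (j : ℕ) (y : Finset V → ℕ) (U T : Finset V), Cov C U →
  ∑ v ∈ U, w v = t + 1 → (∀ S, y S ≠ 0 → Cor C w t S ∧ S ⊆ U) → ∑ S ∈ C, y S = j →
  Cor C w t T → (T ∩ U).card = 2 →
  (¬ ∃ U', Cov C U' ∧ ∑ v ∈ U', w v = t + 1 ∧ T ⊆ U' ∧ ∀ S, y S ≠ 0 → S ⊆ U') →
  InM C w t (fun v => (2 * j + 1) * w v)

/-- FCT. The facets of a minimal odd decomposition. Let `A = {S : y S ≠ 0}`. PROOF. For a cover `U`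
of weight `t + 1`: `nd U` of both sides and division by `3` gives
`2 j + 1 = ∑ y S (#(S ∩ U) - 1) = 2 f(U) + h(U)`, `f(U) = ∑_{S ⊆ U} y S`,
`h(U) = ∑_{#(S ∩ U) = 2} y S` (`#(S ∩ U) ∈ {1,2,3}`), so `h(U)` is odd and `f(U) ≤ j`. For `S ∈ A`
choose (`Hol.up`) a cover `U ⊇ S` of weight `t + 1` with `f(U)` maximal. Take `T ∈ A` with
`#(T ∩ U) = 2`. If `f(U) < j`: a `U'` as in T_WF (with `y` restricted to the sets inside `U`)
contains `S` and has `f(U') ≥ f(U) + y T`, impossible, so T_WF gives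
`InM ((2 f(U) + 1) w)`, contradicting the hypothesis. So `f(U) = j`, `h(U) = 1`: exactly one `T`
with `#(T ∩ U) = 2`, and `y T = 1`. EXCHANGE: let `f(U) = j`, `h(U) = 1` with `T`, let `B ∈ A`,
`B ⊆ U`, and let `y'` be `y` restricted to the sets inside `U`, minus one at `B` (sum `j - 1`). By
T_WF and the hypothesis (`2 (j-1) + 1 = 2 j - 1`, `j - 1 < j`) there is a cover `U'` of weight
`t + 1` which contains `T` and all `S` with `y' S ≠ 0`; then `f(U') ≥ (j - 1) + 1`, so `= j` and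
`h(U') = 1`. If `y B ≥ 2` then `B ⊆ U'` and `f(U') ≥ j + 1`, impossible; so `y B = 1`. Hence
`y ≤ 1` (every `S ∈ A` is inside such a `U`), the sets of `A` inside `U'` are those of `U` without
`B` and with `T`. -/
def T_FCT : Prop := ∀ (V : Type) [Fintype V] [DecidableEq V] (C : Finset (Finset V)) (w : V → ℤ)
  (t : ℤ), Hol C w t → ∀ (j : ℕ) (y : Finset V → ℕ), 1 ≤ j → (∀ S, y S ≠ 0 → Cor C w t S) →
  (∀ v, (2 * (j : ℤ) + 1) * w v = cmb C (fun S => (y S : ℤ)) v) →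
  (∀ j' : ℕ, j' < j → ¬ InM C w t (fun v => (2 * j' + 1) * w v)) →
  (∀ S, y S ≤ 1) ∧
  (∀ S ∈ C.filter (fun S => y S ≠ 0), ∃ U T,
    Fct (C.filter fun S => y S ≠ 0) C w t j U T ∧ S ⊆ U) ∧
  ∀ U T, Fct (C.filter fun S => y S ≠ 0) C w t j U T →
    ∀ B ∈ (C.filter fun S => y S ≠ 0).filter (fun S => S ⊆ U), ∃ U' T',
      Fct (C.filter fun S => y S ≠ 0) C w t j U' T' ∧
      (C.filter fun S => y S ≠ 0).filter (fun S => S ⊆ U') =
        insert T (((C.filter fun S => y S ≠ 0).filter (fun S => S ⊆ U)).erase B)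

/-- REL. Abstract maximum argument. PROOF. Let `m = max |h a|`, `a ∈ A`; suppose `m > 0`. `h ↦ -h`
preserves the hypotheses, so let `h a = m` for some `a ∈ A`, and `P J T`, `a ∈ J`.
`|h T| ≤ m` gives `|h(J)| ≤ m / 2` (`h(J)` the sum over `J`). For `b ∈ J` the set
`J' = insert T (J.erase b)` (`T ∉ J`) has `P J' T'`,
`h T' = -2 (h(J) - h b + h T) = -2 (h(J) - h b - 2 h(J)) = 2 (h(J) + h b)`, so
`|h(J) + h b| ≤ m / 2`. For `b = a`: `h(J) ≤ - m / 2`, so `h(J) = - m / 2`; then `h b ≥ 0` for all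
`b ∈ J`, so `h(J) ≥ h a = m > 0`, a contradiction. -/
def T_REL : Prop := ∀ (ι : Type) [DecidableEq ι] (A : Finset ι) (P : Finset ι → ι → Prop)
  (h : ι → ℚ), (∀ a ∈ A, ∃ J T, P J T ∧ a ∈ J) → (∀ J T, P J T → J ⊆ A ∧ T ∈ A ∧ T ∉ J) →
  (∀ J T, P J T → ∀ b ∈ J, ∃ T', P (insert T (J.erase b)) T') →
  (∀ J T, P J T → h T = -2 * ∑ a ∈ J, h a) → ∀ a ∈ A, h a = 0

/-- ODD. No odd multiple of the hole is a sum of core members. PROOF. Take the smallest `j` with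
`InM ((2 j + 1) w)`; `j ≥ 1` by `Hol.notM`. T_FCT: `y ≤ 1`, `A = {S : y S = 1}`,
`(2 j + 1) w = ∑_{S ∈ A} ind S`, so `3 #A = (2 j + 1) 3 t` (`Hol.tot`), `#A = (2 j + 1) t`. The
vectors `indq S`, `S ∈ A`, are linearly independent: let `∑ h S • indq S = 0`; for `Fct A C w t j U
T` apply `nd U`: the sets `S ∈ A` have `#(S ∩ U) = 3` iff `S ⊆ U`, `= 2` iff `S = T`, `= 1`
otherwise, so `6 h(J) + 3 h T = 0`, `J = {S ∈ A : S ⊆ U}`; T_REL with `P J T` = `∃ U, Fct A C w t j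
U T ∧ J = ..` gives `h = 0` on `A`. They all lie in the kernel of `ndl B` for a tight cover `B`
(`Hol.mem_tig`; `V` is nonempty since otherwise `InM w` with `y = 0`), a proper subspace
(`nd B (unit vector) ∈ {2, -1}`), so `#A < |V| ≤ ∑ w = 3 t` and `2 j + 1 < 3`, a contradiction. -/
def T_ODD : Prop := ∀ (V : Type) [Fintype V] [DecidableEq V] (C : Finset (Finset V)) (w : V → ℤ)
  (t : ℤ), Hol C w t → ∀ j : ℕ, ¬ InM C w t (fun v => (2 * j + 1) * w v)

/-- EVN. Fully even covers. PROOF. Among the covers `U ⊇ A` of weight `t + 1` (`Hol.up`) take one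
with the largest number of core members inside `U`. Suppose `T` is a core member with
`#(T ∩ U) = 2`. T_WF with `y` = indicator of the core members inside `U` (`j` their number): a `U'`
as there would contain `A`, all these members and `T` (and `T` is not inside `U`), contradicting
the maximality. So `InM ((2 j + 1) w)`, against T_ODD. -/
def T_EVN : Prop := ∀ (V : Type) [Fintype V] [DecidableEq V] (C : Finset (Finset V)) (w : V → ℤ)
  (t : ℤ), Hol C w t → ∀ A, Cor C w t A →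
  ∃ U, Cov C U ∧ ∑ v ∈ U, w v = t + 1 ∧ A ⊆ U ∧ ∀ T, Cor C w t T → (T ∩ U).card ≠ 2

/-- WCN. PROOF. As in T_SL3 (2): `MinC.frac` for `w`, `s = t` (`t ≥ 0`), and the tight covers. -/
def T_WCN : Prop := ∀ (V : Type) [Fintype V] [DecidableEq V] (C : Finset (Finset V)), MinC C →
  ∀ (w : V → ℤ) (t : ℤ), Hol C w t → ∃ y : Finset V → ℚ, (∀ S, 0 ≤ y S) ∧
  (∀ S, y S ≠ 0 → Cor C w t S) ∧ ∀ v, (w v : ℚ) = cmb C y v

/-- LAT. PROOF. Some core member `A` exists (T_WCN, `w ≠ 0`; `V` is nonempty by `Hol.notM`). Take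
`U` from T_EVN. `nd U w = 3`, but `nd U (cmb C q) = ∑ q S (3 #(S ∩ U) - 3)` and `#(S ∩ U) ∈ {1, 3}`
for core members `S`: a multiple of `6`. -/
def T_LAT : Prop := ∀ (V : Type) [Fintype V] [DecidableEq V] (C : Finset (Finset V)), MinC C →
  ∀ (w : V → ℤ) (t : ℤ), Hol C w t →
  ¬ ∃ q : Finset V → ℤ, (∀ S, q S ≠ 0 → Cor C w t S) ∧ w = cmb C q

/-! ## C. The face -/

/-- FEX. The choice of the face. PROOF. For a set `Ms` of tight covers let
`PS(Ms) = {g : Pad C g, nd B g = 0 for B ∈ Ms}` (a finite set: entries between `0` and `3`). Call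
`Ms` good if (np) and (notL) of `Fac` hold for it. The set of all tight covers is good: if
`Pad C g` with `S ∈ C` below `g` and `nd B g = 0` (`g(B) = 1`) for all tight `B`, then
`#(S ∩ B) ≤ 1`, and `≥ 1`, so `S` is a core member, `#S = 3` (`Hol.card3`), and `g ≥ ind S` with
the same sum, `g = ind S`, `S ∈ Em`; (notL): `Em C Ms` consists of core members, T_LAT. Take a good
`Ms0` with `PS(Ms0)` of maximal cardinality, and let `Ms` be the set of all tight covers `B` with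
`#(T ∩ B) = 1` for all `T ∈ Em C Ms0`. `Ms0 ⊆ Ms`; `PS(Ms) = PS(Ms0)` (by (np) the elements of
`PS(Ms0)` are `ind T`, `T ∈ Em C Ms0`) and `Em C Ms = Em C Ms0`; so `Ms` is good. `clo`: if `B` is
a cover with `#(T ∩ B) = 1` for all `T ∈ Em C Ms` then, by T_WCN (core members are in `Em C Ms`),
`w(B) = ∑ y S #(S ∩ B) = ∑ y S = t` (`sum_cmb`; `3 t = ∑ w = 3 ∑ y S`), so `B` is tight. `maxi`: if
`Ms' ⊆ Ms`, `g ∈ PS(Ms')`, `g ∉ PS(Ms)`, then `PS(Ms)` is a proper subset of `PS(Ms')`, so `Ms'`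
is not good: either (notL) fails, `w` is in the lattice generated by `Em C Ms'`, whose elements
are in `PS(Ms')` (`ind T`, `T ∈ C`, `#T = 3`); or (np) fails: there is `g' ∈ PS(Ms')`, above
`S ∈ C`, which is not `ind T` with `T ∈ Em C Ms'`; if `#S = 3` then `g' = ind S` and `S ∈ Em C
Ms'`, so `#S ≤ 2` and `PadS C g'`. -/
def T_FEX : Prop := ∀ (V : Type) [Fintype V] [DecidableEq V] (C : Finset (Finset V)), MinC C →
  ∀ (w : V → ℤ) (t : ℤ), Hol C w t → ∃ Ms, Fac C w t Ms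

/-! ## D. Cones and lattices -/

/-- UNI. Exact covers in the uniform case. PROOF. Suppose no cover through `v` meets all members
exactly once. Let `z u = #{S ∈ C : u ∈ S} - [u = v]`, `≥ 0` (`MinC.used`), `s = #C`. For a cover
`U`: `z(U) = ∑_S #(S ∩ U) - [v ∈ U] ≥ #C`: clear if `v ∉ U`; if `v ∈ U` some `#(S ∩ U) ≥ 2`. So
`MinC.frac` gives `y` with `∑ y S = #C`, `cmb C y ≤ z`; summing over all elements
`3 #C ≤ ∑ z = 3 #C - 1`, a contradiction. -/
def T_UNI : Prop := ∀ (V : Type) [Fintype V] [DecidableEq V] (C : Finset (Finset V)), MinC C →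
  (∀ S ∈ C, S.card = 3) → ∀ v, ∃ B, Cov C B ∧ (∀ S ∈ C, (S ∩ B).card = 1) ∧ v ∈ B

/-- MNE. PROOF. `V` is nonempty (otherwise `C = ∅` since members are nonempty, and `Meng C`). If all
members have three elements then the covers of T_UNI are in `Ms` by `Fac.clo`. If `Ms = ∅` and
`S ∈ C` has at most two elements, then for `u : V` the vector `g = ind S + (3 - #S) un u` is
`Pad`, so by `Fac.np` `g = ind T` with `T ∈ C`; `S ⊆ T`, so `S = T` (`MinC.anti`), but `#T = 3`. -/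
def T_MNE : Prop := ∀ (V : Type) [Fintype V] [DecidableEq V] (C : Finset (Finset V)), MinC C →
  ∀ (w : V → ℤ) (t : ℤ) (Ms : Finset (Finset V)), Fac C w t Ms →
  Ms.Nonempty ∧ ((∀ S ∈ C, S.card = 3) → ∀ v, ∃ B ∈ Ms, v ∈ B)

/-- CON. The cone of the face. PROOF. `s = (∑ z) / 3`; `z(U) ≥ s` for covers `U`, `z(B) = s` for
`B ∈ Ms`. `MinC.frac`: `y ≥ 0`, `∑ y S = s`, `cmb C y ≤ z`; `d = z - cmb C y ≥ 0`. For `B ∈ Ms`:
`s = z(B) = ∑ y S #(S ∩ B) + d(B) ≥ ∑ y S = s`, so `d(B) = 0` and `#(S ∩ B) = 1` for `y S > 0`,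
`S ∈ C`. `∑ d = 3 s - ∑ y S #S = ∑ y S (3 - #S)`. If `y S > 0` for some `S ∈ C` with `#S ≤ 2`,
then `∑ d > 0`, so `d u > 0` for some `u`, and `u ∉ B` for all `B ∈ Ms`; then
`g = ind S + (3 - #S) un u` is `Pad` with `nd B g = 0`, `B ∈ Ms`, so `g = ind T`, `T ∈ C`,
`#T = 3` (`Fac.np`), `S ⊆ T`, contradiction to `MinC.anti`. So `y S > 0` implies `#S = 3`,
`∑ d = 0`, `d = 0`, and `z = cmb C y = cmb (Em C Ms) y` (`cmb_subset`). -/
def T_CON : Prop := ∀ (V : Type) [Fintype V] [DecidableEq V] (C : Finset (Finset V)), MinC C →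
  ∀ (w : V → ℤ) (t : ℤ) (Ms : Finset (Finset V)), Fac C w t Ms →
  ∀ z : V → ℚ, (∀ v, 0 ≤ z v) → (∀ U, Cov C U → 0 ≤ nd U z) → (∀ B ∈ Ms, nd B z = 0) →
  ∃ y : Finset V → ℚ, (∀ S, 0 ≤ y S) ∧ z = cmb (Em C Ms) y

/-- INT. Integral points with a zero entry. PROOF. `B0 ∈ Ms` (T_MNE), `s = z(B0)`, `∑ z = 3 s`. A
cover `U` of `av C x` gives the cover `insert x U` of `C`, `z(U) = z(insert x U) ≥ s`. `MinC.del`
(for the weight `(z v).toNat`) gives a packing `y` of size `s` of members avoiding `x`; now argue as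
in T_CON (with `d = z - cmb ≥ 0` integral): all members used have three elements, are in `Em C Ms`,
and `d = 0`. -/
def T_INT : Prop := ∀ (V : Type) [Fintype V] [DecidableEq V] (C : Finset (Finset V)), MinC C →
  ∀ (w : V → ℤ) (t : ℤ) (Ms : Finset (Finset V)), Fac C w t Ms →
  ∀ (x : V) (z : V → ℤ), (∀ v, 0 ≤ z v) → (∀ U, Cov C U → 0 ≤ nd U z) →
  (∀ B ∈ Ms, nd B z = 0) → z x = 0 → InL (av (Em C Ms) x) z

/-- DCV. PROOF. T_WCN: `w v ≥ 1` is a sum over core members through `v`; core members have three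
elements and meet every `B ∈ Ms` (a tight cover) once, so they are in `Em C Ms`. -/
def T_DCV : Prop := ∀ (V : Type) [Fintype V] [DecidableEq V] (C : Finset (Finset V)), MinC C →
  ∀ (w : V → ℤ) (t : ℤ) (Ms : Finset (Finset V)), Hol C w t → Fac C w t Ms →
  ∀ v, ∃ T ∈ Em C Ms, v ∈ T

/-- SPN. The span of the face. PROOF. `z0 = cmb (Em C Ms) 1`: `z0 v ≥ 1` (T_DCV), and for a cover
`U ∉ Ms`: `nd U z0 = ∑_{T} (3 #(T ∩ U) - 3) ≥ 3` (`Fac.clo`). For large `N` the vector `z + N z0`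
satisfies the hypotheses of T_CON (there are finitely many `U`), so it is in `InS (Em C Ms)`. -/
def T_SPN : Prop := ∀ (V : Type) [Fintype V] [DecidableEq V] (C : Finset (Finset V)), MinC C →
  ∀ (w : V → ℤ) (t : ℤ) (Ms : Finset (Finset V)), Hol C w t → Fac C w t Ms →
  ∀ z : V → ℚ, (∀ B ∈ Ms, nd B z = 0) → InS (Em C Ms) z

/-- SAT. The lattice of the members avoiding `x` is saturated. PROOF. `z = cmb X q`,
`X = av (Em C Ms) x`, `q` rational. Choose a natural number `N` with `q T + N ≥ 0` for `T ∈ X`. The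
integral vector `z' = z + N cmb X 1 = cmb X (q + N)` has `z' ≥ 0`, `z' x = 0`, `nd U z' =
∑ (q T + N)(3 #(T ∩ U) - 3) ≥ 0` for covers `U`, `nd B z' = 0` for `B ∈ Ms`. T_INT. -/
def T_SAT : Prop := ∀ (V : Type) [Fintype V] [DecidableEq V] (C : Finset (Finset V)), MinC C →
  ∀ (w : V → ℤ) (t : ℤ) (Ms : Finset (Finset V)), Fac C w t Ms →
  ∀ (x : V) (z : V → ℤ), InS (av (Em C Ms) x) (fun v => (z v : ℚ)) → InL (av (Em C Ms) x) z

/-- KPD. A padded member in the minimal face of `z`. PROOF. With `z0` as in T_SPN let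
`z1 = z + N z0`, `N` large: `z1 ≥ 0`, `nd U z1 ≥ 0` for all covers, `nd B z1 = nd B z` for
`B ∈ Ms`. `s = (∑ z1) / 3`, `MinC.frac`: `y`, `∑ y S = s`, `d = z1 - cmb C y ≥ 0`. For `B ∈ Ms`
with `nd B z = 0`: `z1(B) = s`, so `d(B) = 0` and `#(S ∩ B) = 1` if `y S > 0`. Suppose there is no
`g` as claimed: every `Pad C g` with `nd B g = 0` for all `B ∈ Ms` with `nd B z = 0` has
`nd B g = 0` for all `B ∈ Ms`. If `y S > 0` and `#S = 3`: `g = ind S`, so `S ∈ Em C Ms`. If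
`y S > 0`, `#S ≤ 2`: `∑ d = ∑ y S (3 - #S) > 0`, choose `u` with `d u > 0` and
`g = ind S + (3 - #S) un u`: `nd B g = 0` for all `B ∈ Ms`, and `Fac.np`, `MinC.anti` give a
contradiction. So `∑ d = 0` and `z1 = cmb (Em C Ms) y`, `nd B z = nd B z1 = 0` for all `B ∈ Ms`, a
contradiction. -/
def T_KPD : Prop := ∀ (V : Type) [Fintype V] [DecidableEq V] (C : Finset (Finset V)), MinC C →
  ∀ (w : V → ℤ) (t : ℤ) (Ms : Finset (Finset V)), Hol C w t → Fac C w t Ms →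
  ∀ z : V → ℚ, (∀ B ∈ Ms, 0 ≤ nd B z) → (∃ B ∈ Ms, 0 < nd B z) →
  ∃ g, Pad C g ∧ (∃ B ∈ Ms, nd B g ≠ 0) ∧ ∀ B ∈ Ms, nd B z = 0 → nd B g = 0

/-! ## E. Ranks -/

/-- M2. PROOF. `X = Em C Ms`, `X' = av X v`. All vectors in the span of `X'` have entry `0` at `v`,
some `T ∈ X` contains `v` (T_DCV), so `rk X' < rk X`. Suppose `rk X' + 1 = rk X`. Then the span of
`X'` is `{z ∈ span X : z v = 0}` (equal dimension: the span of `X` is the span of `X'` plus
`indq T`). `w` is in the span of `X` (T_SPN, tight covers), `w - w v • ind T` has entry `0` at `v`,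
so it is in the span of `X'`, and by T_SAT in the lattice of `X'`; so `InL X w`, contradicting
`Fac.notL`. -/
def T_M2 : Prop := ∀ (V : Type) [Fintype V] [DecidableEq V] (C : Finset (Finset V)), MinC C →
  ∀ (w : V → ℤ) (t : ℤ) (Ms : Finset (Finset V)), Hol C w t → Fac C w t Ms →
  ∀ v, rk (av (Em C Ms) v) + 2 ≤ rk (Em C Ms)

/-- CNT. PROOF. Choose `Y ⊆ X` with `indq` injective.. linearly independent on `Y`, `#Y = rk X`
(`indq` is injective; a basis of the span inside the generating set). For every `v` the vectors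
`indq S`, `S ∈ Y`, `v ∉ S`, are independent in the span of `av X v`:
`rk X - #{S ∈ Y : v ∈ S} ≤ rk (av X v)`. Sum over `v`: `∑_v #{S ∈ Y : v ∈ S} = 3 #Y`. -/
def T_CNT : Prop := ∀ (V : Type) [Fintype V] [DecidableEq V] (X : Finset (Finset V)),
  (∀ S ∈ X, S.card = 3) → Fintype.card V * rk X ≤ ∑ v, rk (av X v) + 3 * rk X

/-- V2C. PROOF. `m v = rk X - rk (av X v) ≥ 2` (T_M2), `∑ m v ≤ 3 rk X` (T_CNT), and
`∑ m v ≥ 3 |V| - #{v : m v = 2}`. -/
def T_V2C : Prop := ∀ (V : Type) [Fintype V] [DecidableEq V] (C : Finset (Finset V)), MinC C →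
  ∀ (w : V → ℤ) (t : ℤ) (Ms : Finset (Finset V)), Hol C w t → Fac C w t Ms →
  3 * Fintype.card V ≤ 3 * rk (Em C Ms) +
    (univ.filter fun v : V => rk (av (Em C Ms) v) + 2 = rk (Em C Ms)).card

/-! ## F. The two covers at an element of `V_2` -/

/-- LIN. PROOF. `H` = span of `av X v`, `W` = span of `X`, `dim W = dim H + 2`. Choose `T1 ∈ X` with
`indq T1 ∉ H`, `T2 ∈ X` with `indq T2 ∉ H + ⟨T1⟩`; both contain `v`; `W = H + ⟨T1, T2⟩` and
`indq T1 ∉ H + ⟨T2⟩`. There is a functional `φ0` which vanishes on `H` and `indq T2` with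
`φ0 (indq T1) = 1` (`Submodule.exists_le_ker_of_notMem` or similar). Among the `T ∈ X` through `v`
let `Ta`, `Tb` have maximal and minimal value of `φ0`; `φ0 Ta ≥ 1 > 0 ≥ φ0 Tb`. Put
`φ z = (φ0 z - φ0(Tb) z v) / (φ0(Ta) - φ0(Tb))`, and take `Ta`, `Tb` for `T1`, `T2`. Last part: let
`z ∈ W`, `z = h + α T1 + β T2` (old `T1`, `T2`), `z v = α + β = 0` and `φ z = 0` give
`φ0 z = α = 0`. -/
def T_LIN : Prop := ∀ (V : Type) [Fintype V] [DecidableEq V] (X : Finset (Finset V)) (v : V),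
  rk (av X v) + 2 = rk X → ∃ (φ : (V → ℚ) →ₗ[ℚ] ℚ) (T1 T2 : Finset V), T1 ∈ X ∧ T2 ∈ X ∧
  v ∈ T1 ∧ v ∈ T2 ∧ φ (indq T1) = 1 ∧ φ (indq T2) = 0 ∧
  (∀ T ∈ X, v ∉ T → φ (indq T) = 0) ∧ (∀ T ∈ X, v ∈ T → 0 ≤ φ (indq T) ∧ φ (indq T) ≤ 1) ∧
  ∀ z : V → ℚ, InS X z → φ z = 0 → z v = 0 → InS (av X v) z

/-- FCV. A facet of the face is a cover. PROOF. `X = Em C Ms`,
`z0 = ∑_{T ∈ X, φ(T) = 0} indq T ≥ 1` everywhere (last hypothesis). Suppose that every cover
`U ∉ Ms` has `#(T ∩ U) ≥ 2` for some `T ∈ X` with `φ(T) = 0`; then `nd U z0 ≥ 3`. Let `T1 ∈ X` with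
`φ(T1) > 0` and `z = z0 - (1/2) indq T1`: `z ≥ 0`, `nd U z ≥ 3 - 3 = 0` for `U ∉ Ms`
(`nd U (indq T1) ≤ 6`), `nd B z = 0` for `B ∈ Ms`. T_CON: `z = cmb X y` with `y ≥ 0`, so
`φ z ≥ 0`, but `φ z = - φ(T1) / 2 < 0`. -/
def T_FCV : Prop := ∀ (V : Type) [Fintype V] [DecidableEq V] (C : Finset (Finset V)), MinC C →
  ∀ (w : V → ℤ) (t : ℤ) (Ms : Finset (Finset V)), Fac C w t Ms →
  ∀ φ : (V → ℚ) →ₗ[ℚ] ℚ, (∀ T ∈ Em C Ms, 0 ≤ φ (indq T)) →
  (∃ T ∈ Em C Ms, φ (indq T) ≠ 0) → (∀ u, ∃ T ∈ Em C Ms, u ∈ T ∧ φ (indq T) = 0) →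
  ∃ G, Cov C G ∧ G ∉ Ms ∧ ∀ T ∈ Em C Ms, φ (indq T) = 0 → (T ∩ G).card = 1

/-- GG1. The two covers, first part. PROOF. `X = Em C Ms`. Take `φ`, `T1`, `T2` from T_LIN and
`φ' z = z v - φ z`. (0) For every linear functional `f` which vanishes on the `indq T`, `T ∈ X`,
`v ∉ T`, and every `z` in the span of `X`: `f z = φ z * f(T1) + (z v - φ z) * f(T2)`, since
`z - φ z • indq T1 - (z v - φ z) • indq T2` is killed by `φ` and by the entry at `v`, so is in
`InS (av X v)`. (1) T_FCV applies to `φ`: if all `T ∈ X` with `φ(T) = 0` avoid `u`, then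
`av X v ∪ {T2} ⊆ av X u`, and `rk (av X v ∪ {T2}) ≥ rk (av X v) + 1` (`indq T2` has entry `1` at
`v`, the span of `av X v` has entry `0`), so `rk X ≤ rk (av X u) + 1`, against T_M2. The same for
`φ'` with `T1`. This gives covers `G`, `G' ∉ Ms` with `#(T ∩ G) = 1` if `φ(T) = 0`,
`#(T ∩ G') = 1` if `φ'(T) = 0` (`T ∈ X`). (2) `nd U (indq T) = 3 (#(T ∩ U) - 1) ∈ {0, 3, 6}` for
`T ∈ X`. By (0) for `f = ndl G` and `f = ndl G'` (`nd G (indq T2) = 0`, `nd G' (indq T1) = 0`):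
`nd G z = φ z * nd G (indq T1)` and `nd G' z = (z v - φ z) * nd G' (indq T2)` on the span;
`nd G (indq T1) = 3 p`; `p = 0` would give `#(T ∩ G) = 1` for all `T ∈ X` and `G ∈ Ms` by
`Fac.clo`. The same for `p'`. -/
def T_GG1 : Prop := ∀ (V : Type) [Fintype V] [DecidableEq V] (C : Finset (Finset V)), MinC C →
  ∀ (w : V → ℤ) (t : ℤ) (Ms : Finset (Finset V)), Hol C w t → Fac C w t Ms →
  ∀ v, rk (av (Em C Ms) v) + 2 = rk (Em C Ms) → ∃ (G G' : Finset V) (φ : (V → ℚ) →ₗ[ℚ] ℚ)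
  (T1 T2 : Finset V) (p p' : ℤ), Cov C G ∧ Cov C G' ∧ T1 ∈ Em C Ms ∧ T2 ∈ Em C Ms ∧
  v ∈ T1 ∧ v ∈ T2 ∧ φ (indq T1) = 1 ∧ φ (indq T2) = 0 ∧ (p = 1 ∨ p = 2) ∧ (p' = 1 ∨ p' = 2) ∧
  (∀ z : V → ℚ, InS (Em C Ms) z → nd G z = 3 * p * φ z ∧ nd G' z = 3 * p' * (z v - φ z)) ∧
  (∀ T ∈ Em C Ms, v ∉ T → φ (indq T) = 0) ∧
  (∀ T ∈ Em C Ms, v ∈ T → 0 ≤ φ (indq T) ∧ φ (indq T) ≤ 1) ∧
  ∀ z : V → ℚ, InS (Em C Ms) z → φ z = 0 → z v = 0 → InS (av (Em C Ms) v) z

/-- GGX. The two covers. PROOF. `X = Em C Ms`; T_GG1 (it contains steps (0), (1), (2)). Let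
`n_U = nd U / 3`, so on the span `n_G = p φ`, `n_G' = p' φ'`, `φ' z = z v - φ z`, and
`n_U(T) = #(T ∩ U) - 1 ∈ {0, 1, 2}` for `T ∈ X`. (3) Let `z : V → ℤ` with `nd B z = 0` for
`B ∈ Ms`; it is in the span (T_SPN), `n_U(z)` is an integer (`∑ z = 3 z(B)`, T_MNE). If `φ(z)` is
an integer then `z - φ(z) ind T1 - (z v - φ(z)) ind T2` is integral, in the span, killed by `φ` and
by the entry at `v`, so in `InS (av X v)`, so in `InL` (T_SAT); so `InL X z`. For `z = w`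
(tight covers, `Hol.tot`; `Fac.notL`): `φ(w)` is not an integer, and `n_G(w) = p φ(w)`,
`n_G'(w) = p' (w v - φ(w))` are integers, so `p = p' = 2` and `n_G(w)` is odd. (4) If `v ∈ T`,
`n_G(T) = 1`, then `φ(T) = 1/2`, and `φ(w - ind T)` is an integer, so `InL X (w - ind T)`,
`InL X w`, a contradiction. So `n_G(T) ∈ {0, 2}`, `n_G'(T) = 2 - n_G(T)` for `v ∈ T`. (5)
`T1 ⊆ G`, `T2 ⊆ G'`, `v ∈ G`, `v ∈ G'`. (6) `InL X z ↔ Even (nd G z)`: if `InL X z` then `nd G z`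
is a sum of multiples of `6`; conversely `nd G z = 3 n_G(z)` even gives `φ(z) = n_G(z) / 2`
integral, and (3). -/
def T_GGX : Prop := ∀ (V : Type) [Fintype V] [DecidableEq V] (C : Finset (Finset V)), MinC C →
  ∀ (w : V → ℤ) (t : ℤ) (Ms : Finset (Finset V)), Hol C w t → Fac C w t Ms →
  ∀ v, rk (av (Em C Ms) v) + 2 = rk (Em C Ms) → ∃ G G' : Finset V, Cov C G ∧ Cov C G' ∧
  v ∈ G ∧ v ∈ G' ∧ (∀ T ∈ Em C Ms, v ∉ T → (T ∩ G).card = 1 ∧ (T ∩ G').card = 1) ∧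
  (∀ T ∈ Em C Ms, v ∈ T → (T ⊆ G ∧ (T ∩ G').card = 1) ∨ ((T ∩ G).card = 1 ∧ T ⊆ G')) ∧
  (∃ T ∈ Em C Ms, v ∈ T ∧ T ⊆ G) ∧ (∃ T ∈ Em C Ms, v ∈ T ∧ T ⊆ G') ∧
  ∀ z : V → ℤ, (∀ B ∈ Ms, nd B z = 0) → (InL (Em C Ms) z ↔ Even (nd G z))

/-- GLN. PROOF. `z` (cast to `ℚ`) is in the span of `Em C Ms` (T_SPN), and both sides are linear
functionals of `z` which agree on `indq T`, `T ∈ Em C Ms`: `v ∉ T`: `0 = 0`; `v ∈ T`:
`nd G + nd G' = 6 + 0`. -/
def T_GLN : Prop := ∀ (V : Type) [Fintype V] [DecidableEq V] (C : Finset (Finset V)), MinC C →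
  ∀ (w : V → ℤ) (t : ℤ) (Ms : Finset (Finset V)), Hol C w t → Fac C w t Ms →
  ∀ (v : V) (G G' : Finset V),
  (∀ T ∈ Em C Ms, v ∉ T → (T ∩ G).card = 1 ∧ (T ∩ G').card = 1) →
  (∀ T ∈ Em C Ms, v ∈ T → (T ⊆ G ∧ (T ∩ G').card = 1) ∨ ((T ∩ G).card = 1 ∧ T ⊆ G')) →
  ∀ z : V → ℤ, (∀ B ∈ Ms, nd B z = 0) → nd G z + nd G' z = 6 * z v

/-- OP. Odd partners (contraction). `a` is minimal: `u ≤ a` (every `B ∈ Ms` containing `u` contains
`a`) implies that `u`, `a` are in the same `B ∈ Ms`. PROOF. `D = C.image (erase a)`,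
`MinC.con a` with the weight `w` (`toNat`) and `s = t` (`t ≥ 0`: `t` is the weight of a tight
cover): let `U` be a cover of `D`; `U.erase a` meets every `S.erase a`, so it is a cover of `C` and
`t ≤ w(U.erase a) ≤ w(U)`. This gives `y` on `D`, `∑_{R ∈ D} y R = t`, `p = cmb D y ≤ w`,
`p a = 0`. Choose `S_R ∈ C` with `S_R.erase a = R` and `g_R = ind S_R + (3 - #S_R) un a`, so
`Pad C g_R` and `g_R v = [v ∈ R]` for `v ≠ a`. Let `r v = w v - p v ≥ 0` for `v ≠ a`. (1) If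
`r v > 0`, `v ≠ a`, `B ∈ Ms`, `v ∈ B`, then `a ∈ B`: otherwise `#(R ∩ B) = #(S_R ∩ B) ≥ 1`,
`p(B) = ∑ y R #(R ∩ B) ≥ t = w(B)`, so `p v = w v`. By the minimality of `a`: `v`, `a` are in the
same `B ∈ Ms`. (2) `z = ∑_R y R • g_R` has `∑ z = 3 t = ∑ w` and `z v = w v - r v` for `v ≠ a`; so
`z = w + ∑_{v ≠ a} r v • (un a - un v)`, and `nd B z = 0` for `B ∈ Ms` by (1) (`nd_un_sub`). Since
`nd B g_R ≥ 0` (`g_R(B) ≥ #(S_R ∩ B) ≥ 1`), `y R ≠ 0` implies `nd B g_R = 0` for all `B ∈ Ms`, so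
`g_R = ind T`, `T ∈ Em C Ms` (`Fac.np`); so `InL (Em C Ms) z`. (3) If `InL (un a - un v)` for all
`v ≠ a` with `r v > 0` then `InL w`, against `Fac.notL`. -/
def T_OP : Prop := ∀ (V : Type) [Fintype V] [DecidableEq V] (C : Finset (Finset V)), MinC C →
  ∀ (w : V → ℤ) (t : ℤ) (Ms : Finset (Finset V)), Hol C w t → Fac C w t Ms →
  ∀ a, (∀ u, (∀ B ∈ Ms, u ∈ B → a ∈ B) → ∀ B ∈ Ms, a ∈ B → u ∈ B) →
  ∃ b, b ≠ a ∧ (∀ B ∈ Ms, b ∈ B ↔ a ∈ B) ∧ ¬ InL (Em C Ms) (un a - un b)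

/-- DTA. Assembly: T_DCV, T_V2C, T_GGX, T_GLN, T_OP. `V2 = {v : rk (av E v) + 2 = rk E}`; choose
`G v`, `G' v` by T_GGX for `v ∈ V2`. -/
def T_DTA : Prop := ∀ (V : Type) [Fintype V] [DecidableEq V] (C : Finset (Finset V)), MinC C →
  ∀ (w : V → ℤ) (t : ℤ) (Ms : Finset (Finset V)), Hol C w t → Fac C w t Ms →
  ∃ (V2 : Finset V) (G G' : V → Finset V), Dta C w Ms V2 G G'

/-! ## G. The combinatorial part -/

/-- EQO. PROOF. `z = un a - un v`: `nd B z = 0` for `B ∈ Ms` (`nd_un_sub`), so (`Dta.glin`)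
`nd (G v) z + nd (G' v) z = -6`, both are `≥ -3` (multiples of `3`), and `v ∈ G v`, `v ∈ G' v`; so
`nd (G v) z = nd (G' v) z = -3`: `a ∉ G v`, `a ∉ G' v`, and `-3` is odd (`Dta.gpar`). -/
def T_EQO : Prop := ∀ (V : Type) [Fintype V] [DecidableEq V] (C : Finset (Finset V)) (w : V → ℤ)
  (Ms : Finset (Finset V)) (V2 : Finset V) (G G' : V → Finset V), Dta C w Ms V2 G G' →
  ∀ v ∈ V2, ∀ a, a ≠ v → (∀ B ∈ Ms, a ∈ B ↔ v ∈ B) →
  a ∉ G v ∧ a ∉ G' v ∧ ¬ InL (Em C Ms) (un a - un v)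

/-- CL. Classes with two elements of `V2`. PROOF. Suppose `a ≠ v, v'`. T_EQO: `un a - un v`,
`un a - un v'`, `un v' - un v` are not in the lattice. By `Dta.gpar` (for `v`) their `nd (G v)` are
odd, but `(un a - un v) - (un a - un v') = un v' - un v`. -/
def T_CL : Prop := ∀ (V : Type) [Fintype V] [DecidableEq V] (C : Finset (Finset V)) (w : V → ℤ)
  (Ms : Finset (Finset V)) (V2 : Finset V) (G G' : V → Finset V), Dta C w Ms V2 G G' →
  ∀ v ∈ V2, ∀ v' ∈ V2, v ≠ v' → (∀ B ∈ Ms, v ∈ B ↔ v' ∈ B) →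
  ∀ a, (∀ B ∈ Ms, a ∈ B ↔ v ∈ B) → a = v ∨ a = v'

/-- SG0. PROOF. `z = un a - un b`: `nd (G v) z` is odd (`Dta.gpar`), a multiple `3 ε`,
`ε = [a ∈ G v] - [b ∈ G v] ∈ {-1, 0, 1}`, so `ε = ± 1`; `nd (G v) z + nd (G' v) z = 6 z v = 0`. So
`a` is in exactly one of `G v`, `G' v`. -/
def T_SG0 : Prop := ∀ (V : Type) [Fintype V] [DecidableEq V] (C : Finset (Finset V)) (w : V → ℤ)
  (Ms : Finset (Finset V)) (V2 : Finset V) (G G' : V → Finset V), Dta C w Ms V2 G G' →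
  ∀ a b, (∀ B ∈ Ms, b ∈ B ↔ a ∈ B) → ¬ InL (Em C Ms) (un a - un b) →
  ∀ v ∈ V2, v ≠ a → v ≠ b → sg G G' v a = 0 ∧ sg G G' v b = 0

/-- SGT. PROOF. `∑_{u ∈ T} sg v u = 3 - #(T ∩ G v) - #(T ∩ G' v) + 2 [v ∈ T]`, `Dta.g0`, `Dta.g1`.
Second part: `un a - un b` in `Dta.glin`, if `a, b ≠ v`; `sg v v = 1` (`Dta.gmem`), and `sg v a = 1`
for `a ~ v` (T_EQO). -/
def T_SGT : Prop := ∀ (V : Type) [Fintype V] [DecidableEq V] (C : Finset (Finset V)) (w : V → ℤ)
  (Ms : Finset (Finset V)) (V2 : Finset V) (G G' : V → Finset V), Dta C w Ms V2 G G' →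
  ∀ v ∈ V2, (∀ T ∈ Em C Ms, ∑ u ∈ T, sg G G' v u = 1) ∧ sg G G' v v = 1 ∧
  ∀ a b, (∀ B ∈ Ms, a ∈ B ↔ b ∈ B) → sg G G' v a = sg G G' v b

/-- RPA. PROOF. T_SG0: `sg v a = 0` for `v ∈ V2`, `v ≠ a, b`, and `sg v a ≤ 1` for `v ∈ {a, b}`
(`a ∈ G a ∩ G' a`; for `v = b ≠ a` the last term is `0`). -/
def T_RPA : Prop := ∀ (V : Type) [Fintype V] [DecidableEq V] (C : Finset (Finset V)) (w : V → ℤ)
  (Ms : Finset (Finset V)) (V2 : Finset V) (G G' : V → Finset V), Dta C w Ms V2 G G' →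
  ∀ a b, b ≠ a → (∀ B ∈ Ms, b ∈ B ↔ a ∈ B) → ¬ InL (Em C Ms) (un a - un b) →
  rr V2 G G' a ≤ 2

/-- NW. `r` on the span. PROOF. `z = cmb (Em C Ms) q` (T_SPN). By T_SGT
`∑_{u ∈ T} rr u = #V2` for `T ∈ Em C Ms`; so `∑ rr u * z u = ∑_T q T #V2`, `∑ z = 3 ∑_T q T`. -/
def T_NW : Prop := ∀ (V : Type) [Fintype V] [DecidableEq V] (C : Finset (Finset V)), MinC C →
  ∀ (w : V → ℤ) (t : ℤ) (Ms : Finset (Finset V)), Hol C w t → Fac C w t Ms →
  ∀ (V2 : Finset V) (G G' : V → Finset V), Dta C w Ms V2 G G' →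
  ∀ z : V → ℚ, (∀ B ∈ Ms, nd B z = 0) →
  3 * ∑ u, (rr V2 G G' u : ℚ) * z u = V2.card * ∑ u, z u

/-- NB. The bound for an odd pair of the same level. PROOF. For `v ∈ V2` let
`ν_v(g) = g(G v) + g(G' v) - 2 - 2 g v` (`∑ g = 3`), so `∑_u sg v u * g u = 1 - ν_v(g)` and
`∑ rr u * g0 u = #V2 - ∑_v ν_v(g0)`. Claim `∑_v ν_v(g0) ≥ #V2 - 8`. `z = g0 - g1` has `nd B z = 0`
for `B ∈ Ms`, so `ν_v(g0) = ν_v(g1)` (`Dta.glin`), and `nd (G v) z` is odd (`Dta.gpar`), so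
`g0(G v) ≠ g1(G v)`. For `Pad` vectors `g(G v) ≥ 1`, `g(G' v) ≥ 1` (covers). (a) `g0 v = g1 v = 0`:
`ν_v = g0(G v) + g0(G' v) - 2 = g1(G v) + g1(G' v) - 2 ≥ 1` since `g0(G v)`, `g1(G v)` are not both
`1`. (b) `g0 v = 0` or `g1 v = 0`: `ν_v ≥ 0`. (c) always `ν_v ≥ - 2 min (g0 v) (g1 v)`. Let
`i = ∑_v min (g0 v) (g1 v)`; `i ≤ 2` (if `i = 3` then `g0 = g1`, but `0` is in the lattice), and
`#{v : g0 v > 0 or g1 v > 0} ≤ ∑ max = 6 - i`. So `∑ ν_v ≥ #V2 - (6 - i) - 2 i ≥ #V2 - 8`. -/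
def T_NB : Prop := ∀ (V : Type) [Fintype V] [DecidableEq V] (C : Finset (Finset V)) (w : V → ℤ)
  (Ms : Finset (Finset V)) (V2 : Finset V) (G G' : V → Finset V), Dta C w Ms V2 G G' →
  ∀ g0 g1 : V → ℤ, Pad C g0 → Pad C g1 → (∀ B ∈ Ms, nd B g0 = nd B g1) →
  ¬ InL (Em C Ms) (g0 - g1) → ∑ u, rr V2 G G' u * g0 u ≤ 8

/-- NC. The bound for an odd pair of levels one and two. With the letters of T_NB. PROOF.
`z = g2 - 2 g1`: `nd B z = 0` for `B ∈ Ms`, so `ν_v(g2) = 2 ν_v(g1)` (`Dta.glin`; both sides are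
linear in `z`, check the constants with `∑ g = 3`), and `nd (G v) z` is odd, so `nd (G v) g2` is
odd, `g2(G v) ≠ 1`. (a) `g1 v = g2 v = 0`: `ν_v(g2) ≥ 1`, so `ν_v(g1) ≥ 1`. (b) `g1 v = 0` or
`g2 v = 0`: `ν_v(g1) ≥ 0`. (c) always `ν_v(g1) ≥ - g2 v`. The number of `v` with `g1 v > 0` or
`g2 v > 0` is at most `6 - b`, `b` the number of `v` with both; if `b = 0` then
`∑ ν_v(g1) ≥ #V2 - 6`, otherwise `∑ ν_v(g1) ≥ #V2 - (6 - b) - ∑ g2 ≥ #V2 - 8`. -/
def T_NC : Prop := ∀ (V : Type) [Fintype V] [DecidableEq V] (C : Finset (Finset V)) (w : V → ℤ)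
  (Ms : Finset (Finset V)) (V2 : Finset V) (G G' : V → Finset V), Dta C w Ms V2 G G' →
  ∀ g1 g2 : V → ℤ, Pad C g1 → Pad C g2 → (∀ B ∈ Ms, nd B g2 = 2 * nd B g1) →
  ¬ InL (Em C Ms) (g2 - 2 • g1) → ∑ u, rr V2 G G' u * g1 u ≤ 8

/-- PRP. Proportionality in an extreme ray. PROOF. `g', g''` have the same support in `Ms` as `g`
(minimality). For `B` in the support `nd B g', nd B g'' ∈ {3, 6}` (`nd B g = 3 g(B) - 3`,
`1 ≤ g(B) ≤ 3`, a cover). Let `λ` be the minimum of `nd B g' / nd B g''` over the support (it is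
`1/2`, `1` or `2`), `z = g' - λ g''` (rational): `nd B z ≥ 0` for `B ∈ Ms`, `= 0` outside the
support and for some `B` of the support. If `nd B z > 0` for some `B`, then T_KPD gives a `Pad`
vector with nonempty support strictly smaller than that of `g`, contradicting the minimality. So
`nd B g' = λ nd B g''` for all `B ∈ Ms`. -/
def T_PRP : Prop := ∀ (V : Type) [Fintype V] [DecidableEq V] (C : Finset (Finset V)), MinC C →
  ∀ (w : V → ℤ) (t : ℤ) (Ms : Finset (Finset V)), Hol C w t → Fac C w t Ms →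
  ∀ g g' g'' : V → ℤ, Mng C Ms g → NNg C Ms g g' → NNg C Ms g g'' →
  (∀ B ∈ Ms, nd B g' = nd B g'') ∨ (∀ B ∈ Ms, nd B g' = 2 * nd B g'') ∨
  (∀ B ∈ Ms, nd B g'' = 2 * nd B g')

/-- ALP. Odd pairs from the lattice. PROOF. Suppose that neither alternative holds. By T_PRP there
is `g1` with `NNg C Ms g g1` such that every `g'` with `NNg C Ms g g'` has level `1` or `2` with
respect to `g1` (`nd B g' = k nd B g1`, `k ∈ {1, 2}`): if some `g'` has
`nd B g = 2 nd B g'` take it, otherwise `g1 = g`. Then `InL (g' - k g1)` for all such `g'`. The set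
of `z` such that `InL (z - k g1)` for some integer `k` is a subgroup; it contains all `g'` with
`Pad C g'`, `nd B g' = 0` whenever `nd B g = 0`: if `nd B g' = 0` for all `B ∈ Ms` then
`g' = ind T`, `T ∈ Em C Ms` (`Fac.np`), `k = 0`; otherwise `NNg C Ms g g'`. So it contains `w`:
`InL (w - k g1)`; apply `nd B` for `B` with `nd B g1 ≠ 0` (`nd B w = 0`, tight covers): `k = 0`, so
`InL w`, against `Fac.notL`. -/
def T_ALP : Prop := ∀ (V : Type) [Fintype V] [DecidableEq V] (C : Finset (Finset V)), MinC C →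
  ∀ (w : V → ℤ) (t : ℤ) (Ms : Finset (Finset V)), Hol C w t → Fac C w t Ms →
  ∀ g : V → ℤ, Mng C Ms g →
  w ∈ AddSubgroup.closure {g' | Pad C g' ∧ ∀ B ∈ Ms.filter (fun B => nd B g = 0), nd B g' = 0} →
  (∃ g0 g1, NNg C Ms g g0 ∧ NNg C Ms g g1 ∧ (∀ B ∈ Ms, nd B g0 = nd B g1) ∧
    ¬ InL (Em C Ms) (g0 - g1)) ∨
  ∃ g1 g2, NNg C Ms g g1 ∧ NNg C Ms g g2 ∧ (∀ B ∈ Ms, nd B g2 = 2 * nd B g1) ∧
    ¬ InL (Em C Ms) (g2 - 2 • g1)

/-- BET. Odd pairs from a small member. PROOF. `PadS C g'`: `S ∈ C`, `#S ≤ 2`, below `g'`,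
`nd B g' = 0` (`g'(B) = 1`) for the `B ∈ Ms` with `nd B g = 0`. There is `u` with
`g' u > ind S u`; for these `B`: `#(S ∩ B) ≥ 1`, so `#(S ∩ B) = 1` and `u ∉ B`. Choose `a` with
`a ≤ u` (every `B ∈ Ms` containing `a` contains `u`) and `#{B ∈ Ms : a ∈ B}` minimal; then `a` is
minimal in the sense of `Dta.odd`, take its partner `b`. `a, b ∉ B` for the `B` above.
`g0 = ind S + (3 - #S) un a`, `g1 = ind S + (2 - #S) un a + un b` are `Pad`, `nd B g0 = nd B g1`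
for all `B ∈ Ms`, both vanish for the `B` above, `g0 - g1 = un a - un b`. They are not in the face:
`nd B g0 = 0` for all `B ∈ Ms` would give `g0 = ind T`, `T ∈ C`, `#T = 3`, `S ⊆ T`, against
`MinC.anti`. -/
def T_BET : Prop := ∀ (V : Type) [Fintype V] [DecidableEq V] (C : Finset (Finset V)), MinC C →
  ∀ (w : V → ℤ) (t : ℤ) (Ms : Finset (Finset V)), Fac C w t Ms →
  ∀ (V2 : Finset V) (G G' : V → Finset V), Dta C w Ms V2 G G' →
  ∀ g : V → ℤ, Mng C Ms g →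
  (∃ g', PadS C g' ∧ ∀ B ∈ Ms.filter (fun B => nd B g = 0), nd B g' = 0) →
  ∃ g0 g1, NNg C Ms g g0 ∧ NNg C Ms g g1 ∧ (∀ B ∈ Ms, nd B g0 = nd B g1) ∧
    ¬ InL (Em C Ms) (g0 - g1)

/-- NM. Extreme rays. PROOF. `Fac.maxi` for `Ms' = {B ∈ Ms : nd B g = 0}` (with `g` itself as the
witness), T_ALP, T_BET: there are `g0`, `g1` as in T_NB or `g1`, `g2` as in T_NC; let `g'` be `g0`
resp. `g1`: `∑ rr u * g' u ≤ 8 ≤ #V2`. By T_PRP `nd B g = λ nd B g'` for all `B ∈ Ms`,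
`λ ∈ {1/2, 1, 2}`; T_NW for `z = g - λ g'`: `∑ rr u * z u = #V2 (∑ z) / 3 = #V2 (1 - λ)`, so
`∑ rr u * g u = #V2 - λ (#V2 - ∑ rr u * g' u) ≤ #V2`. -/
def T_NM : Prop := ∀ (V : Type) [Fintype V] [DecidableEq V] (C : Finset (Finset V)), MinC C →
  ∀ (w : V → ℤ) (t : ℤ) (Ms : Finset (Finset V)), Hol C w t → Fac C w t Ms →
  ∀ (V2 : Finset V) (G G' : V → Finset V), Dta C w Ms V2 G G' → 8 ≤ V2.card →
  ∀ g : V → ℤ, Mng C Ms g → ∑ u, rr V2 G G' u * g u ≤ V2.card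

/-- NN. The claim of Step 5. PROOF. `N(z) = 3 ∑ rr u * z u - #V2 ∑ z`. Suppose `N(z) > 0` for some
`z` as below; choose such a `z` with `#{B ∈ Ms : nd B z > 0}` minimal. It is not `0` by T_NW. T_KPD
gives `g` with `Pad C g`, nonempty support contained in that of `z`; take such a `g` with minimal
support (`Mng C Ms g`). T_NM: `N(g) ≤ 0`. Let `λ` be the minimum of `nd B z / nd B g` over the
support of `g` (there `nd B g > 0`), `z' = z - λ g`: `nd B z' ≥ 0` for all `B ∈ Ms`, smaller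
support, `N(z') = N(z) - λ N(g) > 0`, a contradiction. -/
def T_NN : Prop := ∀ (V : Type) [Fintype V] [DecidableEq V] (C : Finset (Finset V)), MinC C →
  ∀ (w : V → ℤ) (t : ℤ) (Ms : Finset (Finset V)), Hol C w t → Fac C w t Ms →
  ∀ (V2 : Finset V) (G G' : V → Finset V), Dta C w Ms V2 G G' → 8 ≤ V2.card →
  ∀ z : V → ℚ, (∀ B ∈ Ms, 0 ≤ nd B z) →
  3 * ∑ u, (rr V2 G G' u : ℚ) * z u ≤ V2.card * ∑ u, z u

/-- BIG. PROOF. Suppose `#V2 ≥ 8`. For `u : V` choose `a ≤ u` (every `B ∈ Ms` containing `a`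
contains `u`) with `#{B ∈ Ms : a ∈ B}` minimal; `a` is minimal in the sense of `Dta.odd`, so
`rr a ≤ 2` (T_RPA). T_NN for `z = un u - un a` (`nd B z ≥ 0`): `rr u ≤ rr a ≤ 2`. For `T ∈ Em C Ms`
(`Dta.cov`; `V` is nonempty since `V2` is): `#V2 = ∑_{u ∈ T} rr u ≤ 6` (T_SGT). -/
def T_BIG : Prop := ∀ (V : Type) [Fintype V] [DecidableEq V] (C : Finset (Finset V)), MinC C →
  ∀ (w : V → ℤ) (t : ℤ) (Ms : Finset (Finset V)), Hol C w t → Fac C w t Ms →
  ∀ (V2 : Finset V) (G G' : V → Finset V), Dta C w Ms V2 G G' → V2.card ≤ 7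

/-- RKG. PROOF. The span of `X` is in the intersection of the kernels of `k` independent
functionals, a space of dimension `|V| - k` (rank-nullity for `(f i)_i : (V → ℚ) → (Fin k → ℚ)`,
which is surjective). -/
def T_RKG : Prop := ∀ (V : Type) [Fintype V] [DecidableEq V] (X : Finset (Finset V)) (k : ℕ)
  (f : Fin k → ((V → ℚ) →ₗ[ℚ] ℚ)), LinearIndependent ℚ f → (∀ i, ∀ S ∈ X, f i (indq S) = 0) →
  rk X + k ≤ Fintype.card V

/-- RKT. Ranks from `Ms`. `E` is a family of triples covering `V`, each meets every `B ∈ Ms` exactly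
once. PROOF. T_RKG with the functionals `ndl B`. (1) `ndl B ≠ 0`: its values at unit vectors are
`2` or `-1`. (2) two different `B1, B2 ∈ Ms`: let `α ndl B1 + β ndl B2 = 0`. There is `v` in exactly
one of them, say `v ∈ B1 \ B2` (otherwise exchange); `T ∋ v` meets `B2` in one element `v'`, which
is not in `B1` (`T` meets `B1` only in `v`), and has a third element `v''` in neither. Values at
`v''`: `-α - β = 0`, at `v`: `2 α - β = 0`; so `α = β = 0`. (3) three different `B1, B2, B3 ∈ Ms`: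
let `α, β, γ` be a relation, `s = (α + β + γ) / 3`; for every `v` the sum of the coefficients of
the `B i` containing `v` is `s`. Let `v` be in `B1` but not in `B2` or vice versa, `T ∋ v`. The
pattern of `T` (which of `B1, B2, B3` contain its three elements) is one of `{1}{2}{3}`,
`{1}{23}∅`, `{2}{13}∅`. If an element is in no `B i` then `s = 0`. Suppose `s = 0`: `{1}{2}{3}`
gives `α = β = γ = 0`; `{1}{23}∅` gives `α = 0`, `β + γ = 0`; apply the same to a `v` separating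
`B2` and `B3`: its pattern gives `{2}..` or `{3}..` alone: `β = 0` or `γ = 0` (or all). So all are
`0`. If `s ≠ 0` then no element is in no `B i`, so all patterns are `{1}{2}{3}`: the three sets
partition `V`. So: either the three functionals are independent or the sets partition `V`. -/
def T_RKT : Prop := ∀ (V : Type) [Fintype V] [DecidableEq V] (E Ms : Finset (Finset V)),
  (∀ T ∈ E, T.card = 3) → (∀ v, ∃ T ∈ E, v ∈ T) → (∀ T ∈ E, ∀ B ∈ Ms, (T ∩ B).card = 1) →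
  Nonempty V →
  (∀ B ∈ Ms, rk E + 1 ≤ Fintype.card V) ∧
  (∀ B1 ∈ Ms, ∀ B2 ∈ Ms, B1 ≠ B2 → rk E + 2 ≤ Fintype.card V) ∧
  ∀ B1 ∈ Ms, ∀ B2 ∈ Ms, ∀ B3 ∈ Ms, B1 ≠ B2 → B1 ≠ B3 → B2 ≠ B3 →
    rk E + 3 ≤ Fintype.card V ∨ (Disjoint B1 B2 ∧ Disjoint B1 B3 ∧ Disjoint B2 B3 ∧
      B1 ∪ B2 ∪ B3 = univ)

/-- SIX. Three pairs. PROOF. `V` is the disjoint union of three pairs `P1 = {a,a'}`, `P2`, `P3`
contained in `V2`; every `T ∈ E` meets each of them exactly once, and elements of a pair are in the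
same `B ∈ Ms`. By T_EQO the differences `un x - un x'` of the pairs are not in the lattice; by
`Dta.gpar` (any `v ∈ V2`) `nd (G v)` of them is odd. If `T, T' ∈ E` differ in `k` of the three
pairs then `ind T - ind T'` is a sum of `k` such differences (up to sign) and in the lattice, so
`k` is even. By `Dta.g2` every `v` is in at least two different members of `E` (one inside `G v`,
one inside `G' v`; a set through `v` inside both would contradict `Dta.g1`). Let `{a,b,c} ∈ E`; the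
other member through `a` is `{a,b',c'}`, through `b`: `{a',b,c'}`, through `c`: `{a',b',c}`. -/
def T_SIX : Prop := ∀ (V : Type) [Fintype V] [DecidableEq V] (C : Finset (Finset V)) (w : V → ℤ)
  (Ms : Finset (Finset V)) (V2 : Finset V) (G G' : V → Finset V), Dta C w Ms V2 G G' →
  ∀ P1 P2 P3 : Finset V, P1 ⊆ V2 → P2 ⊆ V2 → P3 ⊆ V2 → P1.card = 2 → P2.card = 2 →
  P3.card = 2 → Disjoint P1 P2 → Disjoint P1 P3 → Disjoint P2 P3 → P1 ∪ P2 ∪ P3 = univ →
  (∀ P ∈ ({P1, P2, P3} : Finset (Finset V)), (∀ T ∈ Em C Ms, (T ∩ P).card = 1) ∧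
    ∀ x ∈ P, ∀ y ∈ P, ∀ B ∈ Ms, x ∈ B ↔ y ∈ B) → IsQ6 (Em C Ms)

/-- PAR. Three minimum covers which partition `V`. PROOF. For every `S ∈ C` and every vector `g`
above it: `∑ nd B_i g = 3 ∑ g - 3 ∑ g = 0` and `nd B_i g ≥ 0`, so all are `0`; any other `B ∈ Ms`
equals one of them (T_RKT: if `B` is different from the three then `B1, B2, B` partition `V` (or
`rk E + 3 ≤ |V|`, so `#V2 ≥ 9` by `Dta.cnt`, against T_BIG), so `B = B3`). So `nd B g = 0` for all
`B ∈ Ms`, and by `Fac.np` (and `MinC.anti`) every `S ∈ C` is in `Em C Ms`: `Em C Ms = C`. By T_RKT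
and `Dta.cnt` `#V2 ≥ 6`. The classes of elements in the same `B ∈ Ms` are `B1, B2, B3`; by T_CL a
class contains at most two elements of `V2`, and if it contains two it is a pair; so all three are
pairs contained in `V2`. T_SIX. -/
def T_PAR : Prop := ∀ (V : Type) [Fintype V] [DecidableEq V] (C : Finset (Finset V)), MinC C →
  ∀ (w : V → ℤ) (t : ℤ) (Ms : Finset (Finset V)), Hol C w t → Fac C w t Ms →
  ∀ (V2 : Finset V) (G G' : V → Finset V), Dta C w Ms V2 G G' →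
  ∀ B1 ∈ Ms, ∀ B2 ∈ Ms, ∀ B3 ∈ Ms, B1 ≠ B2 → B1 ≠ B3 → B2 ≠ B3 → IsQ6 C

/-- ONE. One minimum cover. PROOF. `Ms = {B}`, `#V2 ≥ 3` (T_RKT, `Dta.cnt`). Let `v ∈ V2`, `v ∉ B`,
`T ∈ E` through `v` (`Dta.cov`). `T` has three elements, one in `B`, so there is `z ∈ T`, `z ≠ v`,
`z ∉ B`; by T_EQO `z ∉ G v`, `z ∉ G' v`, but `T ⊆ G v` or `T ⊆ G' v` (`Dta.g1`), a contradiction.
So `V2 ⊆ B`; three different elements of `V2` in one class contradict T_CL. -/
def T_ONE : Prop := ∀ (V : Type) [Fintype V] [DecidableEq V] (C : Finset (Finset V)) (w : V → ℤ)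
  (B : Finset V) (V2 : Finset V) (G G' : V → Finset V), Nonempty V → Dta C w {B} V2 G G' → False

/-- TWA. Two minimum covers with a common element. PROOF. `Ms = {B1, B2}`, `E = Em C Ms`,
`#V2 ≥ 6` (T_RKT, `Dta.cnt`). Classes: `Z0 = V \ (B1 ∪ B2)`, `P1 = B1 \ B2`, `P2 = B2 \ B1`,
`P12 = B1 ∩ B2 ≠ ∅`. Every `T ∈ E` is of type (I) `{p12, z, z'}` or (II) `{p1, p2, z}`
(`z, z' ∈ Z0`): `#(T ∩ B1) = #(T ∩ B2) = 1`. `Z0` is nonempty, its elements are minimal, so there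
is an odd pair `{z1, z2} ⊆ Z0` (`Dta.odd`). `P1`, `P2` are nonempty: `B1 ≠ B2`, say `P1 ∋ p`, the
`T` through `p` is of type (II) and meets `P2`. Each class contains at most two elements of `V2`,
and if two then it is this pair (T_CL). (1) A `v ∈ V2` in `Z0` is only in sets of type (II): in
type (I) the other `z' ∈ Z0` is not in `G v ∪ G' v` (T_EQO), but `T ⊆ G v` or `T ⊆ G' v`. (2) For
`v ∈ V2 \ Z0`: `sg v = 0` at `z1` (T_SG0), so on `Z0` (T_SGT), so (sum over `T`, T_SGT)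
`sg v = 1` on `P12` and `sg v p1 + sg v p2 = 1` for sets of type (II); `sg v` is constant on `P1`
and on `P2`. Now `P12` contains no pair `{x, y}` with `¬ InL (un x - un y)`: there are at least
four elements of `V2` outside `Z0` (at most two in `Z0`), one of them is `≠ x, y` and has
`sg v x = 0` (T_SG0), against (2). So `P12` contains at most one element of `V2` (T_EQO). `Z0`
contains at most one element of `V2`: otherwise `Z0 = {v, v'} ⊆ V2`, and a `T` through an element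
of `P12` is of type (I), contains `v`, against (1). So `#V2 ≤ 1 + 1 + 2 + 2 = 6`, so `= 6`: `P1`,
`P2` are pairs contained in `V2` and there is `u ∈ V2 ∩ P12`; by T_EQO and T_SG0 `sg u = 0` on
`P1` and on `P2`, against (2) (there is a `T` of type (II)). -/
def T_TWA : Prop := ∀ (V : Type) [Fintype V] [DecidableEq V] (C : Finset (Finset V)), MinC C →
  ∀ (w : V → ℤ) (t : ℤ) (B1 B2 : Finset V), Fac C w t {B1, B2} → B1 ≠ B2 →
  ∀ (V2 : Finset V) (G G' : V → Finset V), Dta C w {B1, B2} V2 G G' →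
  (B1 ∩ B2).Nonempty → False

/-- TWB. Two disjoint minimum covers. PROOF. `Ms = {B1, B2}`, `E = Em C Ms`, `#V2 ≥ 6` (T_RKT,
`Dta.cnt`; `V` is nonempty since `B1 ≠ B2`). Classes: `Z0 = V \ (B1 ∪ B2)`, `B1`, `B2` (disjoint).
Every `T ∈ E` meets each of the three classes exactly once. By T_CL each class contains at most two
elements of `V2`, and if two then it is this pair; so (`#V2 ≥ 6`) all three classes are pairs
contained in `V2`. T_SIX: `IsQ6 E`, so for all `p ∈ B1`, `q ∈ B2` some `T ∈ E` contains `p, q` (in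
`Q_6` every element is in a member with every other one except one, and the two elements of `B1`
are not in a common member of `E`). Let `S ∈ C`, `#S ≤ 2`: `S` meets the covers `B1`, `B2`, so
`S = {p, q}`, `p ∈ B1`, `q ∈ B2`, contained in some `T ∈ E ⊆ C`, against `MinC.anti`. So all
members have three elements (`MinC.card_le`), and T_MNE gives `B ∈ Ms` through an element of `Z0`,
a contradiction. -/
def T_TWB : Prop := ∀ (V : Type) [Fintype V] [DecidableEq V] (C : Finset (Finset V)), MinC C →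
  ∀ (w : V → ℤ) (t : ℤ) (B1 B2 : Finset V), Fac C w t {B1, B2} → B1 ≠ B2 →
  ∀ (V2 : Finset V) (G G' : V → Finset V), Dta C w {B1, B2} V2 G G' →
  Disjoint B1 B2 → False

/-- TWO. Two minimum covers. PROOF. T_TWA and T_TWB. -/
def T_TWO : Prop := ∀ (V : Type) [Fintype V] [DecidableEq V] (C : Finset (Finset V)), MinC C →
  ∀ (w : V → ℤ) (t : ℤ) (B1 B2 : Finset V), Fac C w t {B1, B2} → B1 ≠ B2 →
  ∀ (V2 : Finset V) (G G' : V → Finset V), Dta C w {B1, B2} V2 G G' → False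

/-- CORE. PROOF. T_SLH, T_FEX, T_DTA. `Ms` is nonempty (T_MNE). Three different elements: T_PAR.
Otherwise `Ms = {B}` or `Ms = {B1, B2}`: T_ONE, T_TWO. (`V` is nonempty: see T_MNE.) -/
def T_CORE : Prop := ∀ (V : Type) [Fintype V] [DecidableEq V] (C : Finset (Finset V)), MinC C →
  IsQ6 C

/-! ## H. Reduction and linear programming -/

/-- LP1. LP duality. PROOF. Farkas (`Pool/Agent/Lib/FarkasLemma.lean`, `farkas`) in the space
`E = (V → ℚ) × ℚ` of pairs `(x, λ)` with the functionals `x v` (`v ∈ V`),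
`∑_{v ∈ S} x v - λ` (`S ∈ C`), `λ`: the functional `∑ w v * x v - s λ` is nonnegative where all of
these are: if `λ > 0` divide by `λ`; if `λ = 0` it is `∑ w v x v ≥ 0`. So
`∑ w v x v - s λ = ∑ a v x v + ∑ y S (∑_{v ∈ S} x v - λ) + c λ` with `a, y, c ≥ 0`:
`w v = a v + cmb C y v` and `s = ∑ y S - c`. So `∑ y S = s + c ≥ s`; scale `y` by
`s / (s + c)` if `s + c > 0` (if `s + c = 0` then `s = 0`, `y = 0`). -/
def T_LP1 : Prop := ∀ (V : Type) [Fintype V] [DecidableEq V] (C : Finset (Finset V))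
  (w : V → ℚ) (s : ℚ), (∀ v, 0 ≤ w v) → 0 ≤ s →
  (∀ x : V → ℚ, (∀ v, 0 ≤ x v) → (∀ S ∈ C, 1 ≤ ∑ v ∈ S, x v) → s ≤ ∑ v, w v * x v) →
  ∃ y : Finset V → ℚ, (∀ S, 0 ≤ y S) ∧ ∑ S ∈ C, y S = s ∧ ∀ v, cmb C y v ≤ w v

/-- LP2. Extreme points. `P = {x ≥ 0 : ∑_{v ∈ S} x v ≥ 1, S ∈ C}`. PROOF. First let all `w v > 0`.
For `x ∈ P` the set `P' = {x' ∈ P : w x' ≤ w x}` is compact (bounded since `w > 0`, `x' ≥ 0`) and
nonempty; the set of minimizers of `w x'` on it is compact, convex, nonempty, so has an extreme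
point `e` (Krein-Milman: `IsCompact.extremePoints_nonempty`), which is an extreme point of `P` (the
minimizers of a linear functional on `P` form an exposed face: if `e` is a convex combination of
two points of `P`, both are minimizers). So `e` has integral entries; `U = {v : e v ≥ 1}` is a
cover (`∑_{v ∈ S} e v ≥ 1` with nonnegative integers) and `w x ≥ w e ≥ w(U) ≥ s`. General `w`: for
`ε > 0` apply this to `w + ε` (`s ≤ w(U) ≤ (w + ε)(U)`): `s ≤ w x + ε ∑ x`, let `ε → 0`. -/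
def T_LP2 : Prop := ∀ (V : Type) [Fintype V] [DecidableEq V] (C : Finset (Finset V)),
  (∀ x ∈ Set.extremePoints ℝ {x : V → ℝ | (∀ e, 0 ≤ x e) ∧ ∀ S ∈ C, (1 : ℝ) ≤ ∑ e ∈ S, x e},
    ∀ e, ∃ z : ℤ, x e = (z : ℝ)) →
  ∀ (w : V → ℝ) (s : ℝ), (∀ v, 0 ≤ w v) → (∀ U, Cov C U → s ≤ ∑ v ∈ U, w v) →
  ∀ x : V → ℝ, (∀ v, 0 ≤ x v) → (∀ S ∈ C, 1 ≤ ∑ v ∈ S, x v) → s ≤ ∑ v, w v * x v

/-- FRC. Idealness (integral extreme points) implies `Frac`. PROOF. T_LP1, T_LP2 (casts to `ℝ`). -/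
def T_FRC : Prop := ∀ (V : Type) [Fintype V] [DecidableEq V] (C : Finset (Finset V)),
  (∀ x ∈ Set.extremePoints ℝ {x : V → ℝ | (∀ e, 0 ≤ x e) ∧ ∀ S ∈ C, (1 : ℝ) ≤ ∑ e ∈ S, x e},
    ∀ e, ∃ z : ℤ, x e = (z : ℝ)) → Frac C

/-- FMI. `Frac` and minors. PROOF. (1) deletion: given `w`, `s` for `av C v` let `w'` be `w` with
`w' v = 0`: for a cover `U` of `C` the set `U.erase v` is a cover of `av C v`, so
`s ≤ w(U.erase v) = w'(U)`; `y` for `C`, `w'` vanishes on the members through `v` (`y ≥ 0`,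
`cmb C y v ≤ 0`). (2) contraction: let `w' v = s`, `w' = w` elsewhere: a cover `U` of `C` with
`v ∈ U` has `w'(U) ≥ s`, otherwise `U` is a cover of `D = C.image (erase v)` and `w'(U) = w(U)`.
Push `y` forward: `y' R = ∑_{S ∈ C, S.erase v = R} y S` (`cmb D y' v = 0 ≤ w v`). (3) minimal
members `C' = C.filter (minimal)`: the covers of `C'` are the covers of `C` (every member contains
a minimal one); choose for `S ∈ C` a minimal `m(S) ⊆ S` and push forward. -/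
def T_FMI : Prop := ∀ (V : Type) [Fintype V] [DecidableEq V] (C : Finset (Finset V)), Frac C →
  (∀ v, Frac (av C v)) ∧ (∀ v, Frac (C.image fun S => S.erase v)) ∧
  Frac (C.filter fun S => ∀ B ∈ C, B ⊆ S → B = S)

/-- TRN. Transfer to a smaller ground set: no member of `D` contains `v`, `D'` is `D` on
`{x // x ≠ v}`. PROOF. Straightforward: `S ↦ S.subtype (· ≠ v)` is injective on sets avoiding `v`,
with inverse `R ↦ R.map (Embedding.subtype _)`; covers `U'` of `D'` correspond to covers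
`U'.map ..` of `D`, and for a cover `U` of `D` the set `U.subtype ..` is a cover of `D'` (weights
restricted to `{x // x ≠ v}`). For `Frac D → Frac D'` extend the weight by `0` at `v`. -/
def T_TRN : Prop := ∀ (V : Type) [Fintype V] [DecidableEq V] (v : V) (D : Finset (Finset V)),
  (∀ S ∈ D, v ∉ S) →
  (Frac D → Frac (D.image fun S => S.subtype (fun x => x ≠ v))) ∧
  (Meng (D.image fun S => S.subtype (fun x => x ≠ v)) → Meng D) ∧
  ((∀ S ∈ D, S.card ≤ 3) → ∀ S ∈ D.image (fun S => S.subtype (fun x => x ≠ v)), S.card ≤ 3) ∧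
  (HasQ6 (D.image fun S => S.subtype (fun x => x ≠ v)) → HasQ6 D)

/-- QMI. `Q_6` and minors. PROOF. (1) `av C v`: let `X` be the six elements; each is in one of the
four members, so `v ∉ X` and the members of `C` inside `X` are those of `av C v` inside `X`. (2)
`C.image (erase v)`: again `v ∉ X`. Let `S ∈ C`, `S.erase v ⊆ X`; then `S.erase v` is one of the
four triples; if `v ∈ S` then `#S = 4`, impossible. So all `S ∈ C` with `S.erase v ⊆ X` avoid `v`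
and the members of `C` inside `X` are the four triples. (3) minimal members: a member of `C` inside
`X` contains a minimal member, which is inside `X`, so is a triple; so it is this triple
(`#S ≤ 3`). (4) `IsQ6 C`. -/
def T_QMI : Prop := ∀ (V : Type) [Fintype V] [DecidableEq V] (C : Finset (Finset V)),
  (∀ S ∈ C, S.card ≤ 3) → (∀ v, HasQ6 (av C v) → HasQ6 C) ∧
  (∀ v, HasQ6 (C.image fun S => S.erase v) → HasQ6 C) ∧
  (HasQ6 (C.filter fun S => ∀ B ∈ C, B ⊆ S → B = S) → HasQ6 C) ∧ (IsQ6 C → HasQ6 C)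

/-- IND. The theorem for families. PROOF. Strong induction on `|V|` (for all types `V`). Suppose
`¬ Meng C`. If `∅ ∈ C` then `Pk C w s` with `y ∅ = s`. Let `C'` be the minimal members of `C`:
`Frac C'`, `¬ HasQ6 C'` (T_FMI, T_QMI), `¬ Meng C'` (the covers are the same and
`Pk C' w s → Pk C w s`). For `v : V` the families `av C' v` and `C'.image (erase v)` have no member
through `v`, satisfy `Frac` (T_FMI), have members of size at most three and no `Q_6` (T_QMI), so by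
T_TRN and induction (`{x // x ≠ v}` has fewer elements) they are Mengerian. If some `v` is in no
member of `C'` then `av C' v = C'`, a contradiction. So `MinC C'`, T_CORE: `IsQ6 C'`, `HasQ6 C'`, a
contradiction. -/
def T_IND : Prop := ∀ (n : ℕ) (V : Type) [Fintype V] [DecidableEq V], Fintype.card V = n →
  ∀ C : Finset (Finset V), (∀ S ∈ C, S.card ≤ 3) → Frac C → ¬ HasQ6 C → Meng C

/-- MPK. A Mengerian family without empty member packs. PROOF. Weight `1`, `s` = the minimum size of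
a cover `T` (`univ` is a cover): `Pk C 1 s` gives `y` with `y S ≤ 1` for nonempty `S ∈ C`, and the
set `{S ∈ C : y S ≠ 0}` consists of `s` pairwise disjoint members. -/
def T_MPK : Prop := ∀ (V : Type) [Fintype V] [DecidableEq V] (C : Finset (Finset V)), Meng C →
  (∀ S ∈ C, S.Nonempty) → ∃ T : Finset V, (∀ S ∈ C, (S ∩ T).Nonempty) ∧
  ∃ P ⊆ C, (∀ A ∈ P, ∀ B ∈ P, A ≠ B → Disjoint A B) ∧ P.card = T.card

/-- QNP. `Q_6` does not pack, and its covering number is two. `M` is the family of four triangles.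
PROOF. Any two of the four triples meet; a one-element set meets only two of them. So a cover has
at least two elements and pairwise disjoint members are at most one. `{a, a'}` is a cover. -/
def T_QNP : Prop := ∀ (V : Type) [Fintype V] [DecidableEq V] (a a' b b' c c' : V),
  [a, a', b, b', c, c'].Nodup → ∀ M : Finset (Finset V),
  M = {{a, b, c}, {a, b', c'}, {a', b, c'}, {a', b', c}} →
  (∀ T : Finset V, (∀ S ∈ M, (S ∩ T).Nonempty) → 2 ≤ T.card) ∧
  (∃ T : Finset V, T.card = 2 ∧ ∀ S ∈ M, (S ∩ T).Nonempty) ∧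
  ¬ (∅ ∈ M ∨ ∃ T : Finset V, (∀ S ∈ M, (S ∩ T).Nonempty) ∧
    ∃ P ⊆ M, (∀ A ∈ P, ∀ B ∈ P, A ≠ B → Disjoint A B) ∧ P.card = T.card)

end Pool.Agent.TQS
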